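import Pool.Agent.Helper8.LL.Def

/-!
# LL-G: the families of the heights

`B` a bound of the `|r j|`, `0 < j < d`. For `n > z ≥ max (b, 4 B + 4)`: `n ∉ F`, so `Ht (t + 1) n ↔ Ht t (T n)`; `T n > 0`; `pos (t + 1) n = pos t (T n)` if `d ∣ n`; otherwise
`pos t (T n) = pos (t + 1) n + 1 + log (1 - r_j / (m n)) / log m`, and `|log (1 - r_j / (m n))| ≤ 2 B / n`; so the step is at most `L 2 B / n` (`log m ≥ 1`).
-/

set_option autoImplicit false

namespace Pool.Agent.Helper8.LL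

open Pool.Agent.Helper68.Moeller Pool.Agent.Helper52.Tao Pool.Agent.Helper8.ND Pool.Agent.Helper28
  Pool.Agent.Helper91 Finset Filter Topology

variable {d m : ℕ} {r : ℤ → ℤ}

theorem ht_unique {F : Set ℤ} {t t' n : ℤ} (h : Ht d m r F t n) (h' : Ht d m r F t' n) : t = t' := by
  obtain ⟨k, rfl, h1, h2⟩ := h
  obtain ⟨k', rfl, h1', h2'⟩ := h'
  rcases lt_trichotomy k k' with h3 | h3 | h3
  · exact absurd h1 (h2' k h3)
  · rw [h3]
  · exact absurd h1' (h2 k' h3)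

theorem ht_nonneg {F : Set ℤ} {t n : ℤ} (h : Ht d m r F t n) : 0 ≤ t := by
  obtain ⟨k, rfl, -, -⟩ := h
  exact Int.natCast_nonneg k

theorem ht_step {F : Set ℤ} {n : ℤ} (hn : n ∉ F) (t : ℤ) : Ht d m r F (t + 1) n ↔ Ht d m r F t (T d m r n) := by
  constructor
  · rintro ⟨k, hk, h1, h2⟩
    rcases k with _ | k
    · exact absurd h1 hn
    · refine ⟨k, by push_cast at hk; omega, ?_, fun i hi => ?_⟩
      · rwa [Function.iterate_succ_apply] at h1
      · have h3 := h2 (i + 1) (by omega)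
        rwa [Function.iterate_succ_apply] at h3
  · rintro ⟨k, hk, h1, h2⟩
    refine ⟨k + 1, by push_cast; omega, ?_, fun i hi => ?_⟩
    · rwa [Function.iterate_succ_apply]
    · rcases i with _ | i
      · exact hn
      · rw [Function.iterate_succ_apply]
        exact h2 i (by omega)

private theorem find33 {F : Set ℤ} {n : ℤ} {t : ℕ} (ht : (T d m r)^[t] n ∈ F) :
    ∃ k : ℕ, k ≤ t ∧ Ht d m r F k n := by
  classical
  have hex : ∃ t : ℕ, (T d m r)^[t] n ∈ F := ⟨t, ht⟩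
  exact ⟨Nat.find hex, Nat.find_min' hex ht, Nat.find hex, rfl, Nat.find_spec hex, fun i hi => Nat.find_min hex hi⟩

theorem mem_hitI_iff {F : Set ℤ} {n : ℤ} : n ∈ ST.hitI d m r F ↔ ∃ t : ℤ, Ht d m r F t n := by
  constructor
  · rintro ⟨t, ht⟩
    obtain ⟨k, -, hk⟩ := find33 ht
    exact ⟨k, hk⟩
  · rintro ⟨t, k, -, h1, -⟩
    exact ⟨k, h1⟩

theorem mem_hit_iff {F : Set ℤ} {n : ℤ} (s : ℕ) : n ∈ ST.hit d m r F s ↔ ∃ t : ℤ, t ≤ s ∧ Ht d m r F t n := by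
  constructor
  · rintro ⟨t, hts, ht⟩
    obtain ⟨k, hkt, hk⟩ := find33 ht
    exact ⟨k, by omega, hk⟩
  · rintro ⟨t, hts, k, rfl, h1, -⟩
    exact ⟨k, by exact_mod_cast hts, h1⟩

theorem ex_eq {F : Set ℤ} {ψ : ℝ → ℝ} {t n : ℤ} (h : Ht d m r F t n) : ex d m r F ψ t n = ψ (pos d m t n) := by
  unfold ex
  exact if_pos h

theorem ex_eq_zero {F : Set ℤ} {ψ : ℝ → ℝ} {t n : ℤ} (h : ¬ Ht d m r F t n) : ex d m r F ψ t n = 0 := by
  unfold ex
  exact if_neg h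

theorem al_eq {F : Set ℤ} {ψ : ℝ → ℝ} {t n : ℤ} (h : Ht d m r F t n) : al d m r F ψ n = ψ (pos d m t n) := by
  unfold al
  have h1 : ∃ t : ℤ, Ht d m r F t n := ⟨t, h⟩
  rw [dif_pos h1, ht_unique h1.choose_spec h]

theorem al_eq_zero {F : Set ℤ} {ψ : ℝ → ℝ} {n : ℤ} (h : ∀ t, ¬ Ht d m r F t n) : al d m r F ψ n = 0 := by
  unfold al
  exact dif_neg (not_exists.2 h)

theorem up_eq {F : Set ℤ} {ψ : ℝ → ℝ} {s t n : ℤ} (h : Ht d m r F t n) : up d m r F ψ s n = if t ≤ s then ψ (pos d m t n) else 0 := by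
  unfold up
  have h0 := ht_nonneg h
  have h1 : ∀ t' ∈ Icc (0 : ℤ) s, t' ≠ t → ex d m r F ψ t' n = 0 := fun t' _ hne =>
    ex_eq_zero fun h' => hne (ht_unique h' h)
  split_ifs with hts
  · rw [Finset.sum_eq_single t h1 fun h2 => absurd (Finset.mem_Icc.2 ⟨h0, hts⟩) h2, ex_eq h]
  · exact Finset.sum_eq_zero fun t' ht' => h1 t' ht' fun he => hts (he ▸ (Finset.mem_Icc.1 ht').2)

theorem up_eq_zero {F : Set ℤ} {ψ : ℝ → ℝ} {s n : ℤ} (h : ∀ t, ¬ Ht d m r F t n) : up d m r F ψ s n = 0 := by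
  unfold up
  exact Finset.sum_eq_zero fun t' _ => ex_eq_zero (h t')

theorem dis_ex {F : Set ℤ} {ψ : ℝ → ℝ} (hψ : Wt ψ) : Dis (ex d m r F ψ) := by
  intro n s
  by_cases hex : ∃ t, Ht d m r F t n
  · obtain ⟨t, h⟩ := hex
    have h1 : ∀ t' ∈ s, t' ≠ t → ex d m r F ψ t' n = 0 := fun t' _ hne =>
      ex_eq_zero fun h' => hne (ht_unique h' h)
    by_cases hts : t ∈ s
    · rw [Finset.sum_eq_single t h1 fun h2 => absurd hts h2, ex_eq h]
      exact hψ.le_one _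
    · rw [Finset.sum_eq_zero fun t' ht' => h1 t' ht' fun he => hts (he ▸ ht')]
      exact zero_le_one
  · rw [Finset.sum_eq_zero fun t' _ => ex_eq_zero (not_exists.1 hex t')]
    exact zero_le_one

theorem up_le_al {F : Set ℤ} {ψ : ℝ → ℝ} (hψ : Wt ψ) (s n : ℤ) : up d m r F ψ s n ≤ al d m r F ψ n := by
  by_cases hex : ∃ t, Ht d m r F t n
  · obtain ⟨t, h⟩ := hex
    rw [up_eq h, al_eq h]
    split_ifs
    · exact le_rfl
    · exact hψ.nonneg _
  · rw [up_eq_zero (not_exists.1 hex), al_eq_zero (not_exists.1 hex)]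

private theorem ex_bd33 {F : Set ℤ} {ψ : ℝ → ℝ} (hψ : Wt ψ) (t n : ℤ) :
    0 ≤ ex d m r F ψ t n ∧ ex d m r F ψ t n ≤ 1 := by
  by_cases h : Ht d m r F t n
  · rw [ex_eq h]
    exact ⟨hψ.nonneg _, hψ.le_one _⟩
  · rw [ex_eq_zero h]
    exact ⟨le_rfl, zero_le_one⟩

private theorem al_bd33 {F : Set ℤ} {ψ : ℝ → ℝ} (hψ : Wt ψ) (n : ℤ) :
    0 ≤ al d m r F ψ n ∧ al d m r F ψ n ≤ 1 := by
  by_cases hex : ∃ t, Ht d m r F t n
  · obtain ⟨t, h⟩ := hex
    rw [al_eq h]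
    exact ⟨hψ.nonneg _, hψ.le_one _⟩
  · rw [al_eq_zero (not_exists.1 hex)]
    exact ⟨le_rfl, zero_le_one⟩

private theorem up_bd33 {F : Set ℤ} {ψ : ℝ → ℝ} (hψ : Wt ψ) (s n : ℤ) :
    0 ≤ up d m r F ψ s n ∧ up d m r F ψ s n ≤ 1 :=
  ⟨Finset.sum_nonneg fun t _ => (ex_bd33 hψ t n).1, (up_le_al hψ s n).trans (al_bd33 hψ n).2⟩

private theorem log33 {x : ℝ} (hx : |x| ≤ 1 / 2) : |Real.log (1 - x)| ≤ 2 * |x| := by
  obtain ⟨h1, h2⟩ := abs_le.1 hx
  have h3 : 0 < 1 - x := by linarith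
  have h4 := Real.log_le_sub_one_of_pos h3
  have h5 := Real.one_sub_inv_le_log_of_pos h3
  have h6 : 1 - (1 - x)⁻¹ = -x / (1 - x) := by
    field_simp
    ring
  rw [h6] at h5
  have h7 : -(2 * |x|) ≤ -x / (1 - x) := by
    rw [le_div_iff₀ h3]
    rcases abs_cases x with ⟨h8, h9⟩ | ⟨h8, h9⟩ <;> rw [h8] <;> nlinarith
  rw [abs_le]
  constructor
  · linarith
  · linarith [neg_abs_le x, abs_nonneg x]

/-- one step -/
private theorem step33 (h : POSB.Std d m r) {B : ℝ} (hB : ∀ j : ℤ, 0 < j → j < (d : ℤ) → |(r j : ℝ)| ≤ B) {n : ℤ}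
    (hn : 4 * B + 4 < n) (hB0 : 0 ≤ B) {L : ℝ} (hL : 1 ≤ L) {ψ : ℝ → ℝ} (hψ : Tst L ψ) (t : ℤ) :
    |ψ (pos d m (t + 1) n) - ψ (pos d m t (T d m r n))| ≤ 2 * B * L / n := by
  have hd0 : (0 : ℝ) < d := by exact_mod_cast (by have := h.hd; omega : 0 < d)
  have hm3 : 3 ≤ m := by have := h.hd; have := h.hdm; omega
  have hm0 : (0 : ℝ) < m := by exact_mod_cast (by omega : 0 < m)
  have hm1 : (1 : ℝ) ≤ m := by exact_mod_cast (by omega : 1 ≤ m)
  have hn0 : (0 : ℝ) < n := by linarith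
  have hlm : 1 ≤ Real.log m := by
    rw [Real.le_log_iff_exp_le hm0]
    have h1 := Real.exp_one_lt_d9
    have h2 : (3 : ℝ) ≤ m := by exact_mod_cast hm3
    linarith
  have hlm0 : 0 < Real.log m := by linarith
  have hrhs : 0 ≤ 2 * B * L / n := by positivity
  by_cases hdn : (d : ℤ) ∣ n
  · have h1 : (d : ℝ) * (T d m r n : ℝ) = n := by exact_mod_cast d_mul_T_of_dvd (m := m) (r := r) hdn
    have hT : (0 : ℝ) < T d m r n := by
      rw [← h1] at hn0
      exact (pos_iff_pos_of_mul_pos hn0).1 hd0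
    have h2 : Real.log n = Real.log d + Real.log (T d m r n) := by
      rw [← h1, Real.log_mul hd0.ne' hT.ne']
    have h3 : pos d m (t + 1) n = pos d m t (T d m r n) := by
      unfold pos
      rw [h2]
      push_cast
      congr 1
      ring
    rw [h3, sub_self, abs_zero]
    exact hrhs
  · have h1 : (d : ℝ) * (T d m r n : ℝ) = m * n - r (n % d) := by
      exact_mod_cast d_mul_T_of_not_dvd h.hr h.hd hdn
    obtain ⟨hj1, hj2⟩ := emod_pos h.hd hdn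
    have hr := hB _ hj1 hj2
    obtain ⟨x, hx⟩ : ∃ x : ℝ, x = (r (n % d) : ℝ) / (m * n) := ⟨_, rfl⟩
    have hx1 : |x| ≤ B / n := by
      rw [hx, abs_div, abs_of_pos (mul_pos hm0 hn0), div_le_div_iff₀ (mul_pos hm0 hn0) hn0]
      have h2 : |(r (n % d) : ℝ)| * n ≤ B * n := mul_le_mul_of_nonneg_right hr hn0.le
      have h3 : B * n ≤ B * (m * n) := mul_le_mul_of_nonneg_left (le_mul_of_one_le_left hn0.le hm1) hB0
      linarith
    have hx2 : |x| ≤ 1 / 2 := by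
      refine hx1.trans ?_
      rw [div_le_div_iff₀ hn0 two_pos]
      linarith
    have hx3 : 0 < 1 - x := by linarith [(abs_le.1 hx2).2]
    have h4 : (d : ℝ) * (T d m r n : ℝ) = m * n * (1 - x) := by
      rw [h1, hx]
      field_simp
    have hT : (0 : ℝ) < T d m r n := by
      have h5 : 0 < (d : ℝ) * (T d m r n : ℝ) := by rw [h4]; positivity
      exact (pos_iff_pos_of_mul_pos h5).1 hd0
    have h6 : Real.log (T d m r n) = Real.log m + Real.log n + Real.log (1 - x) - Real.log d := by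
      have h7 : Real.log ((d : ℝ) * (T d m r n : ℝ)) = Real.log (m * n * (1 - x)) := by rw [h4]
      rw [Real.log_mul hd0.ne' hT.ne', Real.log_mul (by positivity) hx3.ne', Real.log_mul hm0.ne' hn0.ne'] at h7
      linarith
    have h8 : pos d m t (T d m r n) = pos d m (t + 1) n + Real.log (1 - x) / Real.log m + 1 := by
      unfold pos
      rw [h6]
      push_cast
      field_simp
      ring
    rw [h8, hψ.per]
    refine (hψ.lip _ _).trans ?_
    have h9 : |pos d m (t + 1) n - (pos d m (t + 1) n + Real.log (1 - x) / Real.log m)| =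
        |Real.log (1 - x)| / Real.log m := by
      rw [sub_add_cancel_left, abs_neg, abs_div, abs_of_pos hlm0]
    rw [h9]
    have h10 : |Real.log (1 - x)| / Real.log m ≤ 2 * (B / n) := by
      refine (div_le_self (abs_nonneg _) hlm).trans ((log33 hx2).trans ?_)
      linarith
    calc L * (|Real.log (1 - x)| / Real.log m) ≤ L * (2 * (B / n)) :=
          mul_le_mul_of_nonneg_left h10 (by linarith)
      _ = 2 * B * L / n := by ring

theorem fam (h : POSB.Std d m r) {F : Set ℤ} {b : ℝ} (hF : ∀ n ∈ F, (n : ℝ) ≤ b) :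
    ∃ C : ℝ, 1 ≤ C ∧ ∀ (L : ℝ) (ψ : ℝ → ℝ), 1 ≤ L → Tst L ψ →
      Fam d m r (C * L) (ex d m r F ψ) ∧ Fam d m r (C * L) (up d m r F ψ) ∧ Fam d m r (C * L) (fun _ => al d m r F ψ) := by
  obtain ⟨B, hB0, hB⟩ : ∃ B : ℝ, 0 ≤ B ∧ ∀ j : ℤ, 0 < j → j < (d : ℤ) → |(r j : ℝ)| ≤ B :=
    ⟨∑ j ∈ Finset.Ioo (0 : ℤ) d, |(r j : ℝ)|, Finset.sum_nonneg fun _ _ => abs_nonneg _, fun j h1 h2 =>
      Finset.single_le_sum (f := fun j : ℤ => |(r j : ℝ)|) (fun _ _ => abs_nonneg _) (Finset.mem_Ioo.2 ⟨h1, h2⟩)⟩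
  obtain ⟨C, hC⟩ : ∃ C : ℝ, C = max b 0 + 4 * B + 4 := ⟨_, rfl⟩
  have hb0 : 0 ≤ max b 0 := le_max_right _ _
  have hbb : b ≤ max b 0 := le_max_left _ _
  have hC1 : 1 ≤ C := by rw [hC]; linarith
  refine ⟨C, hC1, fun L ψ hL hψ => ?_⟩
  have hCL : C ≤ C * L := le_mul_of_one_le_right (by linarith) hL
  -- large integers
  have hnF : ∀ n : ℤ, C * L < n → n ∉ F := fun n hn hnF => by
    have := hF n hnF
    linarith
  have hst : ∀ n : ℤ, C * L < n → ∀ t : ℤ,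
      |ψ (pos d m (t + 1) n) - ψ (pos d m t (T d m r n))| ≤ C * L / n := fun n hn t => by
    have hn0 : (0 : ℝ) < n := by linarith
    refine (step33 h hB (by linarith) hB0 hL hψ t).trans (div_le_div_of_nonneg_right ?_ hn0.le)
    exact mul_le_mul_of_nonneg_right (by linarith) (by linarith)
  have h0 : ∀ n : ℤ, C * L < n → 0 ≤ C * L / n := fun n hn => by
    have hn0 : (0 : ℝ) < n := by linarith
    exact div_nonneg (by linarith) hn0.le
  -- heights of n and T n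
  have hht : ∀ n : ℤ, C * L < n → (∃ t, Ht d m r F (t + 1) n ∧ Ht d m r F t (T d m r n)) ∨
      ((∀ t, ¬ Ht d m r F t n) ∧ ∀ t, ¬ Ht d m r F t (T d m r n)) := fun n hn => by
    by_cases hex : ∃ t, Ht d m r F t (T d m r n)
    · obtain ⟨t, ht⟩ := hex
      exact Or.inl ⟨t, (ht_step (hnF n hn) t).2 ht, ht⟩
    · refine Or.inr ⟨fun t ht => hex ⟨t - 1, ?_⟩, not_exists.1 hex⟩
      rw [← ht_step (hnF n hn), sub_add_cancel]
      exact ht
  refine ⟨⟨fun t n => (ex_bd33 hψ.toWt t n).1, fun t n => (ex_bd33 hψ.toWt t n).2, fun t n hn => ?_⟩,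
    ⟨fun s n => (up_bd33 hψ.toWt s n).1, fun s n => (up_bd33 hψ.toWt s n).2, fun s n hn => ?_⟩,
    ⟨fun _ n => (al_bd33 hψ.toWt n).1, fun _ n => (al_bd33 hψ.toWt n).2, fun _ n hn => ?_⟩⟩
  · by_cases ht : Ht d m r F (t + 1) n
    · rw [ex_eq ht, ex_eq ((ht_step (hnF n hn) t).1 ht)]
      exact hst n hn t
    · rw [ex_eq_zero ht, ex_eq_zero fun h' => ht ((ht_step (hnF n hn) t).2 h'), sub_self, abs_zero]
      exact h0 n hn
  · rcases hht n hn with ⟨t, h1, h2⟩ | ⟨h1, h2⟩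
    · rw [up_eq h1, up_eq h2]
      by_cases hts : t ≤ s
      · rw [if_pos (by omega : t + 1 ≤ s + 1), if_pos hts]
        exact hst n hn t
      · rw [if_neg (by omega : ¬ t + 1 ≤ s + 1), if_neg hts, sub_self, abs_zero]
        exact h0 n hn
    · rw [up_eq_zero h1, up_eq_zero h2, sub_self, abs_zero]
      exact h0 n hn
  · rcases hht n hn with ⟨t, h1, h2⟩ | ⟨h1, h2⟩
    · rw [al_eq h1, al_eq h2]
      exact hst n hn t
    · rw [al_eq_zero h1, al_eq_zero h2, sub_self, abs_zero]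
      exact h0 n hn

end Pool.Agent.Helper8.LL
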