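import Pool.Agent.Helper8.LL.S
import Pool.Agent.Helper8.LL.G
import Pool.Agent.Helper91.PL.ST3

/-!
# LL-X1: the means are near the limit already at the scale `z ^ (1 + ε)`

As `stab` (file S; `good93` with `u₁ = K + (1 + ε) log z`, as in `PL.good_gl'`: `flow_am` needs `C z (d m)^(8k) ≤ exp u` only, `k ≤ c u`, `c = c(ε)` small), with `PL.conv'` in place of `ND.conv` (compare `PL.stab_core`).
`fam_b`: the proof of `fam` (file G) gives `C = max b 0 + 4 B + 4`.
-/

set_option autoImplicit false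

namespace Pool.Agent.Helper8.LL

open Pool.Agent.Helper68.Moeller Pool.Agent.Helper52.Tao Pool.Agent.Helper8.ND Pool.Agent.Helper28
  Pool.Agent.Helper91 Finset Filter Topology

variable {d m : ℕ} {r : ℤ → ℤ}

/-- the mean in logarithmic scale -/
private noncomputable def gm34 (f : ℤ → ℝ) (u : ℝ) : ℝ := if 0 ≤ u then am f (Real.exp u) else 0

private theorem gm34_of_nonneg (f : ℤ → ℝ) {u : ℝ} (hu : 0 ≤ u) : gm34 f u = am f (Real.exp u) := if_pos hu

/-- as `good93` (file S) with the exponent `1 + ε` -/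
private theorem good34 (h : POSB.Std d m r) {ε : ℝ} (hε : 0 < ε) : ∃ c C K : ℝ, 0 < c ∧ 0 < C ∧ 0 ≤ K ∧
    ∀ (z : ℝ) (f : ℤ → ℝ), 1 ≤ z →
    Fam d m r z (fun _ => f) → Good d (Real.log m) (Real.log d) c C (K + (1 + ε) * Real.log z) (gm34 f) := by
  obtain ⟨C, hC1, hflow⟩ := flow_am h
  have hC0 : 0 < C := by linarith
  have hd := h.hd
  have hdm := h.hdm
  have hd2 : (2 : ℝ) ≤ d := by exact_mod_cast hd
  have hm3 : (3 : ℝ) ≤ m := by exact_mod_cast (by omega : 3 ≤ m)
  have hd0 : (0 : ℝ) < d := by linarith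
  have hm0 : (0 : ℝ) < m := by linarith
  have hdm1 : (1 : ℝ) < (d : ℝ) * m := by nlinarith
  have hL : 0 < Real.log ((d : ℝ) * m) := Real.log_pos hdm1
  set L := Real.log ((d : ℝ) * m) with hLdef
  have hlC := Real.log_nonneg hC1
  refine ⟨ε / (1 + ε) / (8 * L), C, (1 + ε) * Real.log C, by positivity, hC0, by positivity, ?_⟩
  intro z f hz hf
  have hz0 : 0 < z := by linarith
  have hlz := Real.log_nonneg hz
  have f0 : ∀ n, 0 ≤ f n := fun n => hf.nonneg 0 n
  have f1 : ∀ n, f n ≤ 1 := fun n => hf.le_one 0 n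
  refine ⟨?_, ?_, ?_, ?_⟩
  · intro u
    unfold gm34
    split_ifs
    · exact am_nonneg f0 (Real.exp_pos u).le
    · exact le_rfl
  · intro u
    unfold gm34
    split_ifs with hu
    · exact (am_le_one f1 (Real.exp_pos u).le).trans (by norm_num)
    · norm_num
  · intro u h hu hh hh2
    rw [gm34_of_nonneg f hu, gm34_of_nonneg f (by linarith), Real.exp_add]
    have hexp1 : 1 ≤ Real.exp h := Real.one_le_exp hh
    have hexp2 : Real.exp h ≤ 1 + 2 * h := by
      have h3 := Real.abs_exp_sub_one_sub_id_le (x := h) (by rw [abs_of_nonneg hh]; linarith)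
      have h4 := (abs_le.1 h3).2
      nlinarith
    have hp := Real.exp_pos u
    have h5 := am_lip f0 f1 hp (le_mul_of_one_le_right hp.le hexp1)
    refine h5.trans ?_
    have h6 : 1 / Real.exp u = Real.exp (-u) := by rw [Real.exp_neg, one_div]
    have h7 : 2 * (Real.exp u * Real.exp h - Real.exp u) / Real.exp u = 2 * (Real.exp h - 1) := by
      field_simp
    rw [h6, h7]
    have h8 := Real.exp_pos (-u)
    linarith
  · intro u hu t ht htc
    have ht0 : (0 : ℝ) ≤ t := by positivity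
    have hb1 : 0 ≤ (1 + ε) * Real.log C := by positivity
    have hb2 : 0 ≤ (1 + ε) * Real.log z := by positivity
    have hu0 : 0 ≤ u := by linarith
    have h8t : 8 * (t : ℝ) * L ≤ ε / (1 + ε) * u := by
      calc 8 * (t : ℝ) * L = (t : ℝ) * (8 * L) := by ring
        _ ≤ ε / (1 + ε) / (8 * L) * u * (8 * L) := mul_le_mul_of_nonneg_right htc (by positivity)
        _ = ε / (1 + ε) * u := by field_simp
    have hfr : ε / (1 + ε) * u = u - u / (1 + ε) := by
      field_simp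
      ring
    have hfr2 : Real.log C + Real.log z ≤ u / (1 + ε) := by
      rw [le_div_iff₀ (by positivity)]
      linarith
    have hbig : C * z * ((d : ℝ) * m) ^ (8 * t) ≤ Real.exp u := by
      have e1 : C = Real.exp (Real.log C) := (Real.exp_log hC0).symm
      have e2 : z = Real.exp (Real.log z) := (Real.exp_log hz0).symm
      have e3 : ((d : ℝ) * m) ^ (8 * t) = Real.exp (8 * t * L) := by
        rw [hLdef, ← Real.exp_log (by linarith : 0 < (d : ℝ) * m), ← Real.exp_nat_mul,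
          Real.log_exp]
        push_cast
        rfl
      rw [e3]
      nth_rewrite 1 [e1, e2]
      rw [← Real.exp_add, ← Real.exp_add, Real.exp_le_exp]
      linarith
    have hmain := hflow z (fun _ => f) hz hf 0 t ht (Real.exp u) hbig
    have hplace : ∀ v ∈ W d t, gm34 f (u + sg v * Real.log m - t * Real.log d) =
        am f (Real.exp u * (m : ℝ) ^ sg v / (d : ℝ) ^ t) := by
      intro v _
      have h2 : Real.exp (u + sg v * Real.log m - t * Real.log d) =
          Real.exp u * (m : ℝ) ^ sg v / (d : ℝ) ^ t := by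
        rw [Real.exp_sub, Real.exp_add, Real.exp_nat_mul, Real.exp_nat_mul, Real.exp_log hm0,
          Real.exp_log hd0]
      rw [gm34_of_nonneg f, h2]
      have h3 : Real.log d ≤ L := by
        rw [hLdef]
        apply Real.log_le_log hd0
        exact le_mul_of_one_le_right hd0.le (by linarith)
      have h4 : (t : ℝ) * Real.log d ≤ t * L := mul_le_mul_of_nonneg_left h3 ht0
      have h5 : 0 ≤ (sg v : ℝ) * Real.log m :=
        mul_nonneg (by positivity) (Real.log_nonneg (by linarith))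
      have h6 : 0 ≤ (t : ℝ) * L := by positivity
      have h7 : 0 ≤ u / (1 + ε) := by positivity
      linarith
    rw [gm34_of_nonneg f hu0, Finset.sum_congr rfl hplace]
    exact hmain

theorem stab1 (h : POSB.Std d m r) {ε η : ℝ} (hε : 0 < ε) (hη : 0 < η) : ∃ X₀ : ℝ, 1 ≤ X₀ ∧ ∀ (z : ℝ) (f : ℤ → ℝ), 1 ≤ z →
    Fam d m r z (fun _ => f) → ∀ X : ℝ, X₀ ≤ X → z ^ (1 + ε) ≤ X → |am f X - mean f| ≤ η := by
  obtain ⟨c, C, K₁, hc, hC, hK₁, hgood⟩ := good34 h (half_pos hε)
  have hγ : (1 - 1 / (d : ℝ)) * Real.log m < Real.log d := by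
    have h1 := h.gam
    unfold PL.gam at h1
    linarith
  obtain ⟨K, S₂, hK, hS₂, hconv⟩ := PL.conv' h.hd h.hdm h.hco hγ hc hC
  have hd1 : (1 : ℝ) < d := by exact_mod_cast (by have := h.hd; omega : 1 < d)
  have hld : 0 < Real.log d := Real.log_pos hd1
  -- conditions on `s`
  obtain ⟨κ, hκ⟩ : ∃ κ : ℝ, κ = ε / (2 * (1 + ε)) := ⟨_, rfl⟩
  have hκ0 : 0 < κ := by rw [hκ]; positivity
  obtain ⟨s0, hs0⟩ : ∃ s0 : ℝ → ℝ, s0 = fun η => max S₂ (max (Real.exp (K / η)) (max 2 ((K₁ + Real.log d) / κ))) := ⟨_, rfl⟩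
  have hs : ∀ η : ℝ, 0 < η → ∀ s : ℝ, s0 η ≤ s → S₂ ≤ s ∧ K / Real.log s ≤ η ∧
      K₁ + Real.log d * s ≤ κ * s ^ 4 := by
    intro η hη s h
    rw [hs0] at h
    have a1 : S₂ ≤ s := (le_max_left _ _).trans h
    have a2 : Real.exp (K / η) ≤ s :=
      ((le_max_left _ _).trans (le_max_right _ _)).trans h
    have a3 : 2 ≤ s :=
      (((le_max_left _ _).trans (le_max_right _ _)).trans (le_max_right _ _)).trans h
    have a4 : (K₁ + Real.log d) / κ ≤ s :=
      (((le_max_right _ _).trans (le_max_right _ _)).trans (le_max_right _ _)).trans h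
    have hs0 : 0 < s := by linarith
    refine ⟨a1, ?_, ?_⟩
    · have b1 : K / η ≤ Real.log s := by rwa [Real.le_log_iff_exp_le hs0]
      have b2 : 0 < Real.log s := lt_of_lt_of_le (by positivity) b1
      rw [div_le_iff₀ b2]
      rw [div_le_iff₀ hη] at b1
      linarith
    · rw [div_le_iff₀ hκ0] at a4
      have b1 : K₁ + Real.log d * s ≤ (K₁ + Real.log d) * s := by nlinarith
      have b2 : (K₁ + Real.log d) * s ≤ s * κ * s := mul_le_mul_of_nonneg_right a4 hs0.le
      have b3 : s ^ 2 ≤ s ^ 4 := pow_le_pow_right₀ (by linarith) (by norm_num)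
      nlinarith
  have hs2 : ∀ η : ℝ, 2 ≤ s0 η := by
    intro η
    rw [hs0]
    exact (((le_max_left _ _).trans (le_max_right _ _)).trans (le_max_right _ _))
  refine ⟨Real.exp (s0 η ^ 4), Real.one_le_exp (by have := hs2 η; positivity), fun z f hz hf => ?_⟩
  obtain ⟨δ, -, -, hδ⟩ := hconv _ _ (hgood z f hz hf)
  have hz0 : 0 < z := by linarith
  have hlz := Real.log_nonneg hz
  have key : ∀ η : ℝ, 0 < η → ∀ X : ℝ, Real.exp (s0 η ^ 4) ≤ X → z ^ (1 + ε) ≤ X → |am f X - δ| ≤ η := by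
    intro η hη X hX hzX
    have hX0 : 0 < X := lt_of_lt_of_le (Real.exp_pos _) hX
    have hs02 := hs2 η
    obtain ⟨ℓ, hℓ⟩ : ∃ ℓ : ℝ, ℓ = Real.log X := ⟨_, rfl⟩
    have hℓ1 : s0 η ^ 4 ≤ ℓ := by
      rw [hℓ, Real.le_log_iff_exp_le hX0]
      exact hX
    have hℓ0 : 0 < ℓ := lt_of_lt_of_le (by positivity) hℓ1
    have hzl : (1 + ε) * Real.log z ≤ ℓ := by
      rw [hℓ, ← Real.log_rpow hz0]
      exact Real.log_le_log (Real.rpow_pos_of_pos hz0 _) hzX
    obtain ⟨s, hsd⟩ : ∃ s : ℝ, s = Real.sqrt (Real.sqrt ℓ) := ⟨_, rfl⟩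
    have hs0' : 0 ≤ s := by rw [hsd]; exact Real.sqrt_nonneg _
    have hs4 : s ^ 4 = ℓ := by
      have e1 : s ^ 2 = Real.sqrt ℓ := by rw [hsd]; exact Real.sq_sqrt (Real.sqrt_nonneg _)
      calc s ^ 4 = (s ^ 2) ^ 2 := by ring
        _ = ℓ := by rw [e1]; exact Real.sq_sqrt hℓ0.le
    have hss : s0 η ≤ s := by
      by_contra hcon
      push Not at hcon
      have h1 : s ^ 4 < s0 η ^ 4 := pow_lt_pow_left₀ hcon hs0' (by norm_num)
      rw [hs4] at h1
      linarith
    obtain ⟨a1, a2, a3⟩ := hs η hη s hss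
    have hcond : K₁ + (1 + ε / 2) * Real.log z + Real.log d * s ≤ s ^ 4 := by
      have e1 : (1 + ε / 2) * Real.log z ≤ (1 - κ) * ℓ := by
        have e2 : (1 + ε / 2) * Real.log z = (1 - κ) * ((1 + ε) * Real.log z) := by
          rw [hκ]
          field_simp
          ring
        have e3 : 0 ≤ 1 - κ := by
          have : κ ≤ 1 := by
            rw [hκ, div_le_one (by positivity)]
            linarith
          linarith
        rw [e2]
        exact mul_le_mul_of_nonneg_left hzl e3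
      rw [hs4] at a3 ⊢
      linarith
    have h1 := hδ s a1 hcond ℓ (by rw [hs4])
    rw [gm34_of_nonneg f hℓ0.le, hℓ, Real.exp_log hX0] at h1
    exact h1.trans a2
  have ht : Tendsto (am f) atTop (𝓝 δ) := by
    rw [Metric.tendsto_atTop]
    intro ε' hε'
    refine ⟨max (Real.exp (s0 (ε' / 2) ^ 4)) (z ^ (1 + ε)), fun X hX => ?_⟩
    have h1 := key (ε' / 2) (by linarith) X ((le_max_left _ _).trans hX) ((le_max_right _ _).trans hX)
    rw [Real.dist_eq]
    linarith
  have hm : mean f = δ := ht.limUnder_eq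
  rw [hm]
  exact key η hη

private theorem al_bd34 {F : Set ℤ} {ψ : ℝ → ℝ} (hψ : Wt ψ) (n : ℤ) :
    0 ≤ al d m r F ψ n ∧ al d m r F ψ n ≤ 1 := by
  by_cases hex : ∃ t, Ht d m r F t n
  · obtain ⟨t, h⟩ := hex
    rw [al_eq h]
    exact ⟨hψ.nonneg _, hψ.le_one _⟩
  · rw [al_eq_zero (not_exists.1 hex)]
    exact ⟨le_rfl, zero_le_one⟩

private theorem log34 {x : ℝ} (hx : |x| ≤ 1 / 2) : |Real.log (1 - x)| ≤ 2 * |x| := by
  obtain ⟨h1, h2⟩ := abs_le.1 hx
  have h3 : 0 < 1 - x := by linarith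
  have h4 := Real.log_le_sub_one_of_pos h3
  have h5 := Real.one_sub_inv_le_log_of_pos h3
  have h6 : 1 - (1 - x)⁻¹ = -x / (1 - x) := by
    field_simp
    ring
  rw [h6] at h5
  have h7 : -(2 * |x|) ≤ -x / (1 - x) := by
    rw [le_div_iff₀ h3]
    rcases abs_cases x with ⟨h8, h9⟩ | ⟨h8, h9⟩ <;> rw [h8] <;> nlinarith
  rw [abs_le]
  constructor
  · linarith
  · linarith [neg_abs_le x, abs_nonneg x]

/-- one step -/
private theorem step34 (h : POSB.Std d m r) {B : ℝ} (hB : ∀ j : ℤ, 0 < j → j < (d : ℤ) → |(r j : ℝ)| ≤ B) {n : ℤ}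
    (hn : 4 * B + 4 < n) (hB0 : 0 ≤ B) {L : ℝ} (hL : 1 ≤ L) {ψ : ℝ → ℝ} (hψ : Tst L ψ) (t : ℤ) :
    |ψ (pos d m (t + 1) n) - ψ (pos d m t (T d m r n))| ≤ 2 * B * L / n := by
  have hd0 : (0 : ℝ) < d := by exact_mod_cast (by have := h.hd; omega : 0 < d)
  have hm3 : 3 ≤ m := by have := h.hd; have := h.hdm; omega
  have hm0 : (0 : ℝ) < m := by exact_mod_cast (by omega : 0 < m)
  have hm1 : (1 : ℝ) ≤ m := by exact_mod_cast (by omega : 1 ≤ m)
  have hn0 : (0 : ℝ) < n := by linarith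
  have hlm : 1 ≤ Real.log m := by
    rw [Real.le_log_iff_exp_le hm0]
    have h1 := Real.exp_one_lt_d9
    have h2 : (3 : ℝ) ≤ m := by exact_mod_cast hm3
    linarith
  have hlm0 : 0 < Real.log m := by linarith
  have hrhs : 0 ≤ 2 * B * L / n := by positivity
  by_cases hdn : (d : ℤ) ∣ n
  · have h1 : (d : ℝ) * (T d m r n : ℝ) = n := by exact_mod_cast d_mul_T_of_dvd (m := m) (r := r) hdn
    have hT : (0 : ℝ) < T d m r n := by
      rw [← h1] at hn0
      exact (pos_iff_pos_of_mul_pos hn0).1 hd0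
    have h2 : Real.log n = Real.log d + Real.log (T d m r n) := by
      rw [← h1, Real.log_mul hd0.ne' hT.ne']
    have h3 : pos d m (t + 1) n = pos d m t (T d m r n) := by
      unfold pos
      rw [h2]
      push_cast
      congr 1
      ring
    rw [h3, sub_self, abs_zero]
    exact hrhs
  · have h1 : (d : ℝ) * (T d m r n : ℝ) = m * n - r (n % d) := by
      exact_mod_cast d_mul_T_of_not_dvd h.hr h.hd hdn
    obtain ⟨hj1, hj2⟩ := emod_pos h.hd hdn
    have hr := hB _ hj1 hj2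
    obtain ⟨x, hx⟩ : ∃ x : ℝ, x = (r (n % d) : ℝ) / (m * n) := ⟨_, rfl⟩
    have hx1 : |x| ≤ B / n := by
      rw [hx, abs_div, abs_of_pos (mul_pos hm0 hn0), div_le_div_iff₀ (mul_pos hm0 hn0) hn0]
      have h2 : |(r (n % d) : ℝ)| * n ≤ B * n := mul_le_mul_of_nonneg_right hr hn0.le
      have h3 : B * n ≤ B * (m * n) := mul_le_mul_of_nonneg_left (le_mul_of_one_le_left hn0.le hm1) hB0
      linarith
    have hx2 : |x| ≤ 1 / 2 := by
      refine hx1.trans ?_
      rw [div_le_div_iff₀ hn0 two_pos]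
      linarith
    have hx3 : 0 < 1 - x := by linarith [(abs_le.1 hx2).2]
    have h4 : (d : ℝ) * (T d m r n : ℝ) = m * n * (1 - x) := by
      rw [h1, hx]
      field_simp
    have hT : (0 : ℝ) < T d m r n := by
      have h5 : 0 < (d : ℝ) * (T d m r n : ℝ) := by rw [h4]; positivity
      exact (pos_iff_pos_of_mul_pos h5).1 hd0
    have h6 : Real.log (T d m r n) = Real.log m + Real.log n + Real.log (1 - x) - Real.log d := by
      have h7 : Real.log ((d : ℝ) * (T d m r n : ℝ)) = Real.log (m * n * (1 - x)) := by rw [h4]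
      rw [Real.log_mul hd0.ne' hT.ne', Real.log_mul (by positivity) hx3.ne', Real.log_mul hm0.ne' hn0.ne'] at h7
      linarith
    have h8 : pos d m t (T d m r n) = pos d m (t + 1) n + Real.log (1 - x) / Real.log m + 1 := by
      unfold pos
      rw [h6]
      push_cast
      field_simp
      ring
    rw [h8, hψ.per]
    refine (hψ.lip _ _).trans ?_
    have h9 : |pos d m (t + 1) n - (pos d m (t + 1) n + Real.log (1 - x) / Real.log m)| =
        |Real.log (1 - x)| / Real.log m := by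
      rw [sub_add_cancel_left, abs_neg, abs_div, abs_of_pos hlm0]
    rw [h9]
    have h10 : |Real.log (1 - x)| / Real.log m ≤ 2 * (B / n) := by
      refine (div_le_self (abs_nonneg _) hlm).trans ((log34 hx2).trans ?_)
      linarith
    calc L * (|Real.log (1 - x)| / Real.log m) ≤ L * (2 * (B / n)) :=
          mul_le_mul_of_nonneg_left h10 (by linarith)
      _ = 2 * B * L / n := by ring

theorem fam_b (h : POSB.Std d m r) : ∃ C : ℝ, 1 ≤ C ∧ ∀ (b L : ℝ) (ψ : ℝ → ℝ), 1 ≤ b → 1 ≤ L → Tst L ψ →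
    Fam d m r (C * b * L) (fun _ => al d m r {n : ℤ | (n : ℝ) ≤ b} ψ) := by
  obtain ⟨B, hB0, hB⟩ : ∃ B : ℝ, 0 ≤ B ∧ ∀ j : ℤ, 0 < j → j < (d : ℤ) → |(r j : ℝ)| ≤ B :=
    ⟨∑ j ∈ Finset.Ioo (0 : ℤ) d, |(r j : ℝ)|, Finset.sum_nonneg fun _ _ => abs_nonneg _, fun j h1 h2 =>
      Finset.single_le_sum (f := fun j : ℤ => |(r j : ℝ)|) (fun _ _ => abs_nonneg _) (Finset.mem_Ioo.2 ⟨h1, h2⟩)⟩
  refine ⟨4 * B + 5, by linarith, fun b L ψ hb hL hψ => ?_⟩
  obtain ⟨C, hC⟩ : ∃ C : ℝ, C = (4 * B + 5) * b := ⟨_, rfl⟩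
  have hC5 : 4 * B + 5 ≤ C := by rw [hC]; exact le_mul_of_one_le_right (by linarith) hb
  have hCb : b ≤ C := by rw [hC]; exact le_mul_of_one_le_left (by linarith) (by linarith)
  rw [← hC]
  have hCL : C ≤ C * L := le_mul_of_one_le_right (by linarith) hL
  -- large integers
  have hnF : ∀ n : ℤ, C * L < n → n ∉ {n : ℤ | (n : ℝ) ≤ b} := fun n hn hnF => by
    have h1 : (n : ℝ) ≤ b := hnF
    linarith
  have hst : ∀ n : ℤ, C * L < n → ∀ t : ℤ,
      |ψ (pos d m (t + 1) n) - ψ (pos d m t (T d m r n))| ≤ C * L / n := fun n hn t => by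
    have hn0 : (0 : ℝ) < n := by linarith
    refine (step34 h hB (by linarith) hB0 hL hψ t).trans (div_le_div_of_nonneg_right ?_ hn0.le)
    exact mul_le_mul_of_nonneg_right (by linarith) (by linarith)
  refine ⟨fun _ n => (al_bd34 hψ.toWt n).1, fun _ n => (al_bd34 hψ.toWt n).2, fun _ n hn => ?_⟩
  have hn0 : (0 : ℝ) < n := by linarith
  by_cases hex : ∃ t, Ht d m r {n : ℤ | (n : ℝ) ≤ b} t (T d m r n)
  · obtain ⟨t, ht⟩ := hex
    rw [al_eq ((ht_step (hnF n hn) t).2 ht), al_eq ht]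
    exact hst n hn t
  · have h1 : ∀ t, ¬ Ht d m r {n : ℤ | (n : ℝ) ≤ b} t n := fun t ht => hex ⟨t - 1, by
      rw [← ht_step (hnF n hn), sub_add_cancel]
      exact ht⟩
    rw [al_eq_zero h1, al_eq_zero (not_exists.1 hex), sub_self, abs_zero]
    exact div_nonneg (by linarith) hn0.le

end Pool.Agent.Helper8.LL
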