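import Pool.Agent.Helper8.LL.A
import Pool.Agent.Helper8.LL.G

/-!
# LL-X2: the first passage below `b`, from the scale `b ^ (1 + ε)`

`F = {n ≤ b}`, `X = b ^ (1 + ε)`, `ε` small (`k = ⌊κ log X⌋` with `κ ≤ 1 / (2 log d)` and `(γ / 2) κ log X ≥ log X - log b + 1`, that is `κ γ / 2 > ε / (1 + ε)`). All but `η X` of the `n ≤ X` are good:
(i) `T^k n ≤ b`: the word `wd d m r k n` depends on `n` modulo `d ^ k ≤ √X` only, each word `w` belongs to at most `X / d^k + 1` of the `n ≤ X`; all but a small proportion of the words have `sg w ≤ (1 - 1/d + δ') k` (Chebyshev, `Helper52`/`PL.dt_step2`, or `ST.Wf` and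
`Helper33.ST.clt_unif`), and then `d^k T^k n = m^(sg w) n - Off` (`wd_spec`, `abs_Off_le`) gives `T^k n ≤ X e^(-γ k / 2) + B' (m/d)^k... `; with `Off` bounded by `B m^(sg w)` times a geometric factor it is `≤ b`.
(ii) let `t ≤ k` be the first time with `T^t n ≤ b` (`Ht`; `n > b` for most `n`). The points `x_i = T^i n`, `i < t`, are `> b`, so `pos t n = log_m (T^t n) - s + O(k B / b)` (one step: `step33` of G, `pos (t+1) n = pos t (T n)` up to an integer and `O(B/n)`), and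
`b / d - B ≤ T^t n ≤ b` (one step from a point `> b`).
-/

set_option autoImplicit false

namespace Pool.Agent.Helper8.LL

open Pool.Agent.Helper68.Moeller Pool.Agent.Helper52.Tao Pool.Agent.Helper8.ND Pool.Agent.Helper28
  Pool.Agent.Helper91 Finset Filter Topology

variable {d m : ℕ} {r : ℤ → ℤ}

/-- `n` has a height for `F = {n ≤ b}`, and its position is in the arc from `log_m (b / d) - δ` to `log_m b + δ`. -/
def Good0 (d m : ℕ) (r : ℤ → ℤ) (b δ : ℝ) (n : ℤ) : Prop :=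
  ∃ t : ℤ, Ht d m r {n : ℤ | (n : ℝ) ≤ b} t n ∧ ∃ j : ℤ,
    (Real.log b - Real.log d) / Real.log m - δ ≤ pos d m t n + j ∧ pos d m t n + j ≤ Real.log b / Real.log m + δ

/-- The indicator function of the other integers. -/
noncomputable def bad0 (d m : ℕ) (r : ℤ → ℤ) (b δ : ℝ) (n : ℤ) : ℝ := by
  classical exact if Good0 d m r b δ n then 0 else 1

/-! ### Words -/

private theorem fib99 (hd : 2 ≤ d) (hco : Nat.Coprime m d) (hr : Admissible d m r) (k : ℕ) (w : List ℕ) (N : ℕ)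
    (s : Finset ℕ) (hs : ∀ n ∈ s, n ≤ N ∧ wd d m r k (n : ℤ) = w) : s.card ≤ N / d ^ k + 1 := by
  have hdk : 0 < d ^ k := by positivity
  have hmaps : ∀ n ∈ s, n / d ^ k ∈ Finset.range (N / d ^ k + 1) := by
    intro n hn
    rw [Finset.mem_range]
    exact Nat.lt_succ_of_le (Nat.div_le_div_right (hs n hn).1)
  have hinj : Set.InjOn (fun n : ℕ => n / d ^ k) (s : Set ℕ) := by
    intro n hn c hc hnc
    have hnc' : n / d ^ k = c / d ^ k := hnc
    have e1 := wd_spec hd hr k (n : ℤ)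
    have e2 := wd_spec hd hr k (c : ℤ)
    rw [(hs n hn).2] at e1
    rw [(hs c hc).2] at e2
    have e3 : (m : ℤ) ^ sg w * ((n : ℤ) - c) =
        (d : ℤ) ^ k * ((T d m r)^[k] (n : ℤ) - (T d m r)^[k] (c : ℤ)) := by linear_combination e2 - e1
    have hcop : IsCoprime ((d : ℤ) ^ k) ((m : ℤ) ^ sg w) := by
      apply IsCoprime.pow
      exact (Nat.isCoprime_iff_coprime.mpr hco).symm
    have e4 : (d : ℤ) ^ k ∣ (n : ℤ) - c := hcop.dvd_of_dvd_mul_left ⟨_, e3⟩
    have e5 : ((d ^ k : ℕ) : ℤ) ∣ (n : ℤ) - c := by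
      push_cast
      exact e4
    have e6 : c % d ^ k = n % d ^ k := (Nat.modEq_iff_dvd.2 e5 : c ≡ n [MOD d ^ k])
    rw [← Nat.div_add_mod n (d ^ k), ← Nat.div_add_mod c (d ^ k), hnc', e6]
  have h1 := Finset.card_le_card_of_injOn _ hmaps hinj
  rwa [Finset.card_range] at h1

private theorem cnt99 (hd : 2 ≤ d) (hco : Nat.Coprime m d) (hr : Admissible d m r) (k : ℕ) (P : List ℕ → Prop)
    [DecidablePred P] (N : ℕ) :
    (((Icc 1 N).filter fun n : ℕ => P (wd d m r k (n : ℤ))).card : ℝ) ≤ cW d k P * ((N : ℝ) / (d : ℝ) ^ k + 1) := by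
  classical
  have h1 : ((Icc 1 N).filter fun n : ℕ => P (wd d m r k (n : ℤ))).card =
      ∑ w ∈ (W d k).filter P,
        (((Icc 1 N).filter fun n : ℕ => P (wd d m r k (n : ℤ))).filter fun n : ℕ => wd d m r k (n : ℤ) = w).card := by
    apply Finset.card_eq_sum_card_fiberwise
    intro n hn
    rw [Finset.mem_coe, Finset.mem_filter] at hn
    rw [Finset.mem_coe, Finset.mem_filter]
    exact ⟨wd_mem hd r k n, hn.2⟩
  have h2 : ∀ w ∈ (W d k).filter P,
      ((((Icc 1 N).filter fun n : ℕ => P (wd d m r k (n : ℤ))).filter fun n : ℕ => wd d m r k (n : ℤ) = w).card : ℝ) ≤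
        (N : ℝ) / (d : ℝ) ^ k + 1 := by
    intro w _
    have h3 := fib99 hd hco hr k w N
      (((Icc 1 N).filter fun n : ℕ => P (wd d m r k (n : ℤ))).filter fun n : ℕ => wd d m r k (n : ℤ) = w) (by
        intro n hn
        rw [Finset.mem_filter, Finset.mem_filter, Finset.mem_Icc] at hn
        exact ⟨hn.1.1.2, hn.2⟩)
    have h4 : (((N / d ^ k + 1 : ℕ)) : ℝ) ≤ (N : ℝ) / (d : ℝ) ^ k + 1 := by
      have h5 := @Nat.cast_div_le ℝ _ _ _ N (d ^ k)
      push_cast at h5 ⊢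
      linarith
    exact le_trans (by exact_mod_cast h3) h4
  rw [h1]
  push_cast
  refine (Finset.sum_le_card_nsmul _ _ _ h2).trans ?_
  rw [nsmul_eq_mul]
  unfold cW
  apply le_of_eq
  congr

/-! ### The positions -/

private theorem log99 {x : ℝ} (hx : |x| ≤ 1 / 2) : |Real.log (1 - x)| ≤ 2 * |x| := by
  obtain ⟨h1, h2⟩ := abs_le.1 hx
  have h3 : 0 < 1 - x := by linarith
  have h4 := Real.log_le_sub_one_of_pos h3
  have h5 := Real.one_sub_inv_le_log_of_pos h3
  have h6 : 1 - (1 - x)⁻¹ = -x / (1 - x) := by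
    field_simp
    ring
  rw [h6] at h5
  have h7 : -(2 * |x|) ≤ -x / (1 - x) := by
    rw [le_div_iff₀ h3]
    rcases abs_cases x with ⟨h8, h9⟩ | ⟨h8, h9⟩ <;> rw [h8] <;> nlinarith
  rw [abs_le]
  constructor
  · linarith
  · linarith [neg_abs_le x, abs_nonneg x]

/-- one step -/
private theorem step99 (h : POSB.Std d m r) {B : ℝ} (hB : ∀ j : ℤ, 0 < j → j < (d : ℤ) → |(r j : ℝ)| ≤ B) {n : ℤ}
    (hn : 4 * B + 4 < n) (hB0 : 0 ≤ B) (t : ℤ) :
    ∃ j : ℤ, |pos d m t (T d m r n) - pos d m (t + 1) n - j| ≤ 2 * B / n := by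
  have hd0 : (0 : ℝ) < d := by exact_mod_cast (by have := h.hd; omega : 0 < d)
  have hm3 : 3 ≤ m := by have := h.hd; have := h.hdm; omega
  have hm0 : (0 : ℝ) < m := by exact_mod_cast (by omega : 0 < m)
  have hm1 : (1 : ℝ) ≤ m := by exact_mod_cast (by omega : 1 ≤ m)
  have hn0 : (0 : ℝ) < n := by linarith
  have hlm : 1 ≤ Real.log m := by
    rw [Real.le_log_iff_exp_le hm0]
    have h1 := Real.exp_one_lt_d9
    have h2 : (3 : ℝ) ≤ m := by exact_mod_cast hm3
    linarith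
  have hlm0 : 0 < Real.log m := by linarith
  have hrhs : 0 ≤ 2 * B / n := by positivity
  by_cases hdn : (d : ℤ) ∣ n
  · have h1 : (d : ℝ) * (T d m r n : ℝ) = n := by exact_mod_cast d_mul_T_of_dvd (m := m) (r := r) hdn
    have hT : (0 : ℝ) < T d m r n := by
      rw [← h1] at hn0
      exact (pos_iff_pos_of_mul_pos hn0).1 hd0
    have h2 : Real.log n = Real.log d + Real.log (T d m r n) := by
      rw [← h1, Real.log_mul hd0.ne' hT.ne']
    have h3 : pos d m (t + 1) n = pos d m t (T d m r n) := by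
      unfold pos
      rw [h2]
      push_cast
      congr 1
      ring
    refine ⟨0, ?_⟩
    rw [h3, sub_self, Int.cast_zero, sub_zero, abs_zero]
    exact hrhs
  · have h1 : (d : ℝ) * (T d m r n : ℝ) = m * n - r (n % d) := by
      exact_mod_cast d_mul_T_of_not_dvd h.hr h.hd hdn
    obtain ⟨hj1, hj2⟩ := emod_pos h.hd hdn
    have hr := hB _ hj1 hj2
    obtain ⟨x, hx⟩ : ∃ x : ℝ, x = (r (n % d) : ℝ) / (m * n) := ⟨_, rfl⟩
    have hx1 : |x| ≤ B / n := by
      rw [hx, abs_div, abs_of_pos (mul_pos hm0 hn0), div_le_div_iff₀ (mul_pos hm0 hn0) hn0]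
      have h2 : |(r (n % d) : ℝ)| * n ≤ B * n := mul_le_mul_of_nonneg_right hr hn0.le
      have h3 : B * n ≤ B * (m * n) := mul_le_mul_of_nonneg_left (le_mul_of_one_le_left hn0.le hm1) hB0
      linarith
    have hx2 : |x| ≤ 1 / 2 := by
      refine hx1.trans ?_
      rw [div_le_div_iff₀ hn0 two_pos]
      linarith
    have hx3 : 0 < 1 - x := by linarith [(abs_le.1 hx2).2]
    have h4 : (d : ℝ) * (T d m r n : ℝ) = m * n * (1 - x) := by
      rw [h1, hx]
      field_simp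
    have hT : (0 : ℝ) < T d m r n := by
      have h5 : 0 < (d : ℝ) * (T d m r n : ℝ) := by rw [h4]; positivity
      exact (pos_iff_pos_of_mul_pos h5).1 hd0
    have h6 : Real.log (T d m r n) = Real.log m + Real.log n + Real.log (1 - x) - Real.log d := by
      have h7 : Real.log ((d : ℝ) * (T d m r n : ℝ)) = Real.log (m * n * (1 - x)) := by rw [h4]
      rw [Real.log_mul hd0.ne' hT.ne', Real.log_mul (by positivity) hx3.ne', Real.log_mul hm0.ne' hn0.ne'] at h7
      linarith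
    have h8 : pos d m t (T d m r n) = pos d m (t + 1) n + Real.log (1 - x) / Real.log m + 1 := by
      unfold pos
      rw [h6]
      push_cast
      field_simp
      ring
    refine ⟨1, ?_⟩
    have h9 : |pos d m (t + 1) n + Real.log (1 - x) / Real.log m + 1 - pos d m (t + 1) n - ((1 : ℤ) : ℝ)| =
        |Real.log (1 - x)| / Real.log m := by
      rw [Int.cast_one, show pos d m (t + 1) n + Real.log (1 - x) / Real.log m + 1 - pos d m (t + 1) n - 1 =
        Real.log (1 - x) / Real.log m by ring, abs_div, abs_of_pos hlm0]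
    rw [h8, h9]
    refine (div_le_self (abs_nonneg _) hlm).trans ((log99 hx2).trans ?_)
    have : 2 * B / n = 2 * (B / n) := by ring
    rw [this]
    linarith

/-- many steps -/
private theorem steps99 (h : POSB.Std d m r) {B b : ℝ} (hB : ∀ j : ℤ, 0 < j → j < (d : ℤ) → |(r j : ℝ)| ≤ B)
    (hb : 4 * B + 4 ≤ b) (hB0 : 0 ≤ B) (s : ℤ) : ∀ (t : ℕ) (n : ℤ), (∀ i < t, b < ((T d m r)^[i] n : ℝ)) →
    ∃ j : ℤ, |pos d m s ((T d m r)^[t] n) - pos d m (s + t) n - j| ≤ t * (2 * B / b) := by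
  intro t
  induction t with
  | zero =>
    intro n _
    refine ⟨0, ?_⟩
    simp
  | succ t ih =>
    intro n hn
    have hb0 : 0 < b := by linarith
    have hn0 : b < (n : ℝ) := by simpa using hn 0 (by omega)
    obtain ⟨j, hj⟩ := ih (T d m r n) (fun i hi => by
      have := hn (i + 1) (by omega)
      rwa [Function.iterate_succ_apply] at this)
    obtain ⟨j', hj'⟩ := step99 h hB (n := n) (by linarith) hB0 (s + t)
    refine ⟨j + j', ?_⟩
    have h1 : 2 * B / (n : ℝ) ≤ 2 * B / b := div_le_div_of_nonneg_left (by positivity) hb0 hn0.le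
    rw [Function.iterate_succ_apply]
    have h2 : pos d m s ((T d m r)^[t] (T d m r n)) - pos d m (s + ((t + 1 : ℕ) : ℤ)) n - ((j + j' : ℤ) : ℝ) =
        (pos d m s ((T d m r)^[t] (T d m r n)) - pos d m (s + t) (T d m r n) - j) +
          (pos d m (s + t) (T d m r n) - pos d m (s + t + 1) n - j') := by
      have : s + ((t + 1 : ℕ) : ℤ) = s + t + 1 := by push_cast; ring
      rw [this]
      push_cast
      ring
    rw [h2]
    refine (abs_add_le _ _).trans ?_
    push_cast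
    linarith

/-- The good points. -/
private theorem good99 (h : POSB.Std d m r) {B b δ : ℝ} (hB : ∀ j : ℤ, 0 < j → j < (d : ℤ) → |(r j : ℝ)| ≤ B)
    (hb : 4 * B + 4 ≤ b) (hB0 : 0 ≤ B) {k : ℕ} (hk : ((k : ℝ) + 1) * (2 * B / b) ≤ δ) {n : ℤ} (hn : b < (n : ℝ))
    (hT : ((T d m r)^[k] n : ℝ) ≤ b) : Good0 d m r b δ n := by
  classical
  have hd0 : (0 : ℝ) < d := by exact_mod_cast (by have := h.hd; omega : 0 < d)
  have hm3 : 3 ≤ m := by have := h.hd; have := h.hdm; omega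
  have hm0 : (0 : ℝ) < m := by exact_mod_cast (by omega : 0 < m)
  have hm1 : (1 : ℝ) ≤ m := by exact_mod_cast (by omega : 1 ≤ m)
  have hb0 : 0 < b := by linarith
  have hlm : 1 ≤ Real.log m := by
    rw [Real.le_log_iff_exp_le hm0]
    have h1 := Real.exp_one_lt_d9
    have h2 : (3 : ℝ) ≤ m := by exact_mod_cast hm3
    linarith
  have hlm0 : 0 < Real.log m := by linarith
  have hq : 0 ≤ 2 * B / b := by positivity
  have hex : ∃ t : ℕ, ((T d m r)^[t] n : ℝ) ≤ b := ⟨k, hT⟩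
  obtain ⟨t, ht1, ht2, ht3⟩ : ∃ t : ℕ, t ≤ k ∧ ((T d m r)^[t] n : ℝ) ≤ b ∧ ∀ i < t, b < ((T d m r)^[i] n : ℝ) :=
    ⟨Nat.find hex, Nat.find_min' hex hT, Nat.find_spec hex, fun i hi => not_le.1 (Nat.find_min hex hi)⟩
  have ht0 : t ≠ 0 := by
    rintro rfl
    simp only [Function.iterate_zero, id] at ht2
    linarith
  obtain ⟨s, rfl⟩ : ∃ s, t = s + 1 := ⟨t - 1, by omega⟩
  obtain ⟨j, hj⟩ := steps99 h hB hb hB0 0 (s + 1) n ht3
  rw [zero_add] at hj
  -- the last step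
  have hlast : b - B ≤ d * ((T d m r)^[s + 1] n : ℝ) := by
    have hx := ht3 s (by omega)
    rw [Function.iterate_succ_apply']
    by_cases hdn : (d : ℤ) ∣ (T d m r)^[s] n
    · have h1 : (d : ℝ) * (T d m r ((T d m r)^[s] n) : ℝ) = ((T d m r)^[s] n : ℝ) := by
        exact_mod_cast d_mul_T_of_dvd (m := m) (r := r) hdn
      rw [h1]
      linarith
    · have h1 : (d : ℝ) * (T d m r ((T d m r)^[s] n) : ℝ) =
          m * ((T d m r)^[s] n : ℝ) - r ((T d m r)^[s] n % d) := by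
        exact_mod_cast d_mul_T_of_not_dvd h.hr h.hd hdn
      obtain ⟨hj1, hj2⟩ := emod_pos h.hd hdn
      have hr := (abs_le.1 (hB _ hj1 hj2)).2
      rw [h1]
      have h2 : ((T d m r)^[s] n : ℝ) ≤ m * ((T d m r)^[s] n : ℝ) := le_mul_of_one_le_left (by linarith) hm1
      linarith
  have hx2 : |B / b| ≤ 1 / 2 := by
    rw [abs_of_nonneg (by positivity), div_le_div_iff₀ hb0 two_pos]
    linarith
  have hlg := log99 hx2
  rw [abs_of_nonneg (by positivity : 0 ≤ B / b)] at hlg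
  have hx3 : 0 < 1 - B / b := by
    have := le_abs_self (B / b)
    linarith
  have hy0 : (0 : ℝ) < ((T d m r)^[s + 1] n : ℝ) := by
    have h1 : 0 < (d : ℝ) * ((T d m r)^[s + 1] n : ℝ) := by linarith
    exact (pos_iff_pos_of_mul_pos h1).1 hd0
  have hup : Real.log ((T d m r)^[s + 1] n : ℝ) ≤ Real.log b := Real.log_le_log hy0 ht2
  have hlo : Real.log b - Real.log d - 2 * (B / b) ≤ Real.log ((T d m r)^[s + 1] n : ℝ) := by
    have h1 : Real.log (b * (1 - B / b)) ≤ Real.log (d * ((T d m r)^[s + 1] n : ℝ)) := by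
      apply Real.log_le_log (by positivity)
      have h2 : b * (1 - B / b) = b - B := by field_simp
      rw [h2]
      exact hlast
    rw [Real.log_mul hb0.ne' hx3.ne', Real.log_mul hd0.ne' hy0.ne'] at h1
    have h3 := (abs_le.1 hlg).1
    linarith
  have hp0 : pos d m 0 ((T d m r)^[s + 1] n) = Real.log ((T d m r)^[s + 1] n : ℝ) / Real.log m := by
    unfold pos
    rw [Int.cast_zero, zero_mul, sub_zero]
  have hup' : pos d m 0 ((T d m r)^[s + 1] n) ≤ Real.log b / Real.log m := by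
    rw [hp0]
    exact div_le_div_of_nonneg_right hup hlm0.le
  have hlo' : (Real.log b - Real.log d) / Real.log m - 2 * B / b ≤ pos d m 0 ((T d m r)^[s + 1] n) := by
    rw [hp0]
    have h1 : (Real.log b - Real.log d - 2 * (B / b)) / Real.log m ≤
        Real.log ((T d m r)^[s + 1] n : ℝ) / Real.log m := div_le_div_of_nonneg_right hlo hlm0.le
    have h2 : (Real.log b - Real.log d - 2 * (B / b)) / Real.log m =
        (Real.log b - Real.log d) / Real.log m - (2 * B / b) / Real.log m := by ring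
    have h3 : (2 * B / b) / Real.log m ≤ 2 * B / b := div_le_self hq hlm
    linarith
  have hks : ((s + 1 : ℕ) : ℝ) * (2 * B / b) ≤ k * (2 * B / b) :=
    mul_le_mul_of_nonneg_right (by exact_mod_cast ht1) hq
  have hk' : (k : ℝ) * (2 * B / b) + 2 * B / b ≤ δ := by linarith
  obtain ⟨hj1, hj2⟩ := abs_le.1 hj
  refine ⟨((s + 1 : ℕ) : ℤ), ⟨s + 1, rfl, ht2, fun i hi => not_le.2 (ht3 i hi)⟩, j, ?_, ?_⟩
  · linarith
  · linarith

theorem base (h : POSB.Std d m r) : ∃ ε : ℝ, 0 < ε ∧ ∀ δ η : ℝ, 0 < δ → 0 < η → ∃ B₀ : ℝ, 1 < B₀ ∧ ∀ b : ℝ, B₀ ≤ b →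
    am (bad0 d m r b δ) (b ^ (1 + ε)) ≤ η := by
  classical
  have hd := h.hd
  have hdm := h.hdm
  obtain ⟨B, hB⟩ := FL_exists_B d r
  have hBR : ∀ j : ℤ, 0 < j → j < (d : ℤ) → |(r j : ℝ)| ≤ (B : ℝ) := fun j h1 h2 => by
    exact_mod_cast hB j h1 h2
  have hB0 : (0 : ℝ) ≤ B := Nat.cast_nonneg B
  obtain ⟨μ, hμ⟩ : ∃ μ : ℝ, μ = Real.log m := ⟨_, rfl⟩
  obtain ⟨lam, hlam⟩ : ∃ lam : ℝ, lam = Real.log d := ⟨_, rfl⟩
  obtain ⟨g, hg⟩ : ∃ g : ℝ, g = PL.gam d m := ⟨_, rfl⟩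
  have hg0 : 0 < g := by rw [hg]; exact h.gam
  have hd2 : (2 : ℝ) ≤ d := by exact_mod_cast hd
  have hm3 : (3 : ℝ) ≤ m := by exact_mod_cast (by omega : 3 ≤ m)
  have hd0 : (0 : ℝ) < d := by linarith
  have hm0 : (0 : ℝ) < m := by linarith
  have hμ1 : 1 ≤ μ := by
    rw [hμ, Real.le_log_iff_exp_le hm0]
    have h1 := Real.exp_one_lt_d9
    linarith
  have hμ0 : 0 < μ := by linarith
  have hlam0 : 0 < lam := by rw [hlam]; exact Real.log_pos (by linarith)
  have hlamμ : lam ≤ μ := by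
    rw [hlam, hμ]
    exact Real.log_le_log hd0 (by exact_mod_cast hdm.le)
  have hgeq : g = lam - (1 - 1 / (d : ℝ)) * μ := by rw [hg, hlam, hμ]; rfl
  have hq0 : 0 ≤ (1 - 1 / (d : ℝ)) * μ := by
    have : 1 / (d : ℝ) ≤ 1 := by
      rw [div_le_one hd0]
      linarith
    exact mul_nonneg (by linarith) hμ0.le
  have hgμ : g ≤ μ := by linarith
  obtain ⟨κ, hκ⟩ : ∃ κ : ℝ, κ = 1 / (4 * μ) := ⟨_, rfl⟩
  have hκ0 : 0 < κ := by rw [hκ]; positivity
  have hκμ : κ * μ = 1 / 4 := by rw [hκ]; field_simp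
  obtain ⟨ε, hε⟩ : ∃ ε : ℝ, ε = g * κ / 4 := ⟨_, rfl⟩
  have hε0 : 0 < ε := by rw [hε]; positivity
  have hε1 : ε ≤ 1 / 16 := by
    have h1 : g * κ ≤ μ * κ := mul_le_mul_of_nonneg_right hgμ hκ0.le
    rw [hε]
    linarith
  obtain ⟨δ1, hδ1⟩ : ∃ δ1 : ℝ, δ1 = g / (2 * μ) := ⟨_, rfl⟩
  have hδ10 : 0 < δ1 := by rw [hδ1]; positivity
  have hδμ : δ1 * μ = g / 2 := by rw [hδ1]; field_simp
  refine ⟨ε, hε0, fun δ η hδ hη => ?_⟩
  -- the conditions
  have hev := (PL.u2a_lin hκ0 (4 / (δ1 ^ 2 * η) + 2)).and <|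
    (PL.u2a_lin hε0 (-Real.log (η / 2))).and <|
    (PL.u2a_lin hε0 (g / 2 + Real.log 2)).and <|
    (PL.u2a_lin (by norm_num : (0 : ℝ) < 1 / 4) (Real.log (2 * ((B : ℝ) + 1)))).and <|
    (PL.u2a_lin one_pos (4 * (B : ℝ) + 5)).and <|
    (PL.u2a_lin (by positivity : 0 < δ / 4) (2 * (B : ℝ))).and <| eventually_ge_atTop (0 : ℝ)
  have hev2 := Real.tendsto_log_atTop.eventually hev
  obtain ⟨B₁, hB₁⟩ := eventually_atTop.1 hev2
  refine ⟨max B₁ 2, lt_of_lt_of_le (by norm_num) (le_max_right _ _), fun b hb => ?_⟩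
  have hb2 : 2 ≤ b := (le_max_right _ _).trans hb
  have hb0 : 0 < b := by linarith
  obtain ⟨c1, c2, c3, c4, c5, c6, c7⟩ := hB₁ b ((le_max_left _ _).trans hb)
  obtain ⟨L, hL⟩ : ∃ L : ℝ, L = Real.log b := ⟨_, rfl⟩
  rw [← hL] at c1 c2 c3 c4 c5 c6 c7
  have hbL : b = Real.exp L := by rw [hL, Real.exp_log hb0]
  have hX : b ^ (1 + ε) = Real.exp ((1 + ε) * L) := by
    rw [Real.rpow_def_of_pos hb0, ← hL]
    congr 1
    ring
  obtain ⟨X, hXdef⟩ : ∃ X : ℝ, X = b ^ (1 + ε) := ⟨_, rfl⟩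
  have hXe : X = Real.exp ((1 + ε) * L) := by rw [hXdef, hX]
  have hX0 : 0 < X := by rw [hXe]; exact Real.exp_pos _
  rw [← hXdef]
  have hb5 : 4 * (B : ℝ) + 4 ≤ b := by
    have h1 := Real.add_one_le_exp L
    rw [hbL]
    linarith
  -- the time
  obtain ⟨k, hkdef⟩ : ∃ k : ℕ, k = ⌊κ * ((1 + ε) * L)⌋₊ := ⟨_, rfl⟩
  have hk1 : (k : ℝ) ≤ κ * ((1 + ε) * L) := by rw [hkdef]; exact Nat.floor_le (by positivity)
  have hk2 : κ * ((1 + ε) * L) - 1 < k := by
    have := Nat.lt_floor_add_one (κ * ((1 + ε) * L))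
    rw [hkdef]
    linarith
  have hκL : κ * L ≤ κ * ((1 + ε) * L) := by
    have : 0 ≤ κ * (ε * L) := by positivity
    linarith only [this]
  have hk3 : 4 / (δ1 ^ 2 * η) + 1 ≤ k := by linarith
  have hk4 : (1 : ℝ) ≤ k := by
    have : 0 < 4 / (δ1 ^ 2 * η) := by positivity
    linarith
  have hk5 : 1 ≤ k := by exact_mod_cast hk4
  have hk0 : (0 : ℝ) < k := by linarith
  have hkμ : (k : ℝ) * μ ≤ 1 / 4 * ((1 + ε) * L) := by
    have h1 : (k : ℝ) * μ ≤ κ * ((1 + ε) * L) * μ := mul_le_mul_of_nonneg_right hk1 hμ0.le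
    have h2 : κ * ((1 + ε) * L) * μ = κ * μ * ((1 + ε) * L) := by ring
    rw [h2, hκμ] at h1
    exact h1
  have hεL : ε * L ≤ L := mul_le_of_le_one_left c7 (by linarith only [hε1])
  have hkμ2 : (k : ℝ) * μ ≤ L / 2 := by linarith only [hkμ, hεL]
  have hdX : (d : ℝ) ^ k ≤ X := by
    rw [PL.u2a_pow d (by omega), hXe, Real.exp_le_exp, ← hlam]
    have h1 : (k : ℝ) * lam ≤ k * μ := mul_le_mul_of_nonneg_left hlamμ hk0.le
    have h2 : 0 ≤ (1 + ε) * L := by positivity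
    linarith
  -- the good points
  have hgood : ∀ n : ℤ, b < (n : ℝ) → (n : ℝ) ≤ X → ¬ (1 - 1 / (d : ℝ) + δ1) * k < (sg (wd d m r k n) : ℝ) →
      Good0 d m r b δ n := by
    intro n hn hnX hcon
    have hn0 : (0 : ℝ) < n := by linarith
    have hn0' : 0 ≤ n := by exact_mod_cast hn0.le
    have hend := PL.u2a_end hd hdm h.hr hB k n hn0' _ (not_lt.1 hcon)
    rw [← hμ, ← hlam] at hend
    have hexp1 : (1 - 1 / (d : ℝ) + δ1) * k * μ - k * lam = -(g / 2 * k) := by
      have : (1 - 1 / (d : ℝ)) * μ = lam - g := by rw [hgeq]; ring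
      linear_combination (k : ℝ) * this + (k : ℝ) * hδμ
    rw [hexp1] at hend
    have hhalf : b / 2 = Real.exp (L - Real.log 2) := by
      rw [Real.exp_sub, ← hbL, Real.exp_log (by norm_num)]
    have hfirst : Real.exp (-(g / 2 * k)) * n ≤ b / 2 := by
      have h1 : Real.exp (-(g / 2 * k)) * n ≤ Real.exp (-(g / 2 * k)) * X :=
        mul_le_mul_of_nonneg_left hnX (Real.exp_pos _).le
      refine h1.trans ?_
      rw [hhalf, hXe, ← Real.exp_add, Real.exp_le_exp]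
      have h2 : g / 2 * (κ * L - 1) ≤ g / 2 * k := mul_le_mul_of_nonneg_left (by linarith) (by positivity)
      have h3 : g / 2 * (κ * L - 1) = 2 * (ε * L) - g / 2 := by rw [hε]; ring
      have h4 : (1 + ε) * L = L + ε * L := by ring
      linarith
    have hsecond : (B : ℝ) * Real.exp (k * μ) ≤ b / 2 := by
      have h1 : Real.exp (k * μ) ≤ Real.exp (L / 2) := Real.exp_le_exp.2 hkμ2
      have h2 : 2 * ((B : ℝ) + 1) ≤ Real.exp (L / 2) := by
        have h3 : 2 * ((B : ℝ) + 1) = Real.exp (Real.log (2 * ((B : ℝ) + 1))) := by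
          rw [Real.exp_log (by positivity)]
        rw [h3, Real.exp_le_exp]
        linarith
      have h4 : Real.exp L = Real.exp (L / 2) * Real.exp (L / 2) := by
        rw [← Real.exp_add]
        congr 1
        ring
      have h5 : (B : ℝ) * Real.exp (k * μ) ≤ B * Real.exp (L / 2) := mul_le_mul_of_nonneg_left h1 hB0
      have h6 : 2 * ((B : ℝ) + 1) * Real.exp (L / 2) ≤ Real.exp (L / 2) * Real.exp (L / 2) :=
        mul_le_mul_of_nonneg_right h2 (Real.exp_pos _).le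
      rw [hbL, h4]
      have h7 := Real.exp_pos (L / 2)
      linarith
    refine good99 h hBR hb5 hB0 (k := k) ?_ hn (by linarith)
    -- the error of the positions
    have h1 : ((k : ℝ) + 1) ≤ 1 + L := by
      have h0 : (k : ℝ) ≤ k * μ := le_mul_of_one_le_right hk0.le hμ1
      linarith only [h0, hkμ2, c7]
    have h2 : L / 4 * (1 + L) ≤ b := by
      have h3 := Real.add_one_le_exp (L / 2)
      have h4 : Real.exp L = Real.exp (L / 2) * Real.exp (L / 2) := by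
        rw [← Real.exp_add]
        congr 1
        ring
      have h5 : (L / 2 + 1) * (L / 2 + 1) ≤ Real.exp (L / 2) * Real.exp (L / 2) :=
        mul_self_le_mul_self (by linarith) h3
      rw [hbL, h4]
      linarith only [h5, c7]
    have h3 : 0 ≤ 2 * (B : ℝ) / b := by positivity
    have h4 : ((k : ℝ) + 1) * (2 * B / b) ≤ (1 + L) * (2 * B / b) := mul_le_mul_of_nonneg_right h1 h3
    refine h4.trans ?_
    rw [← mul_div_assoc, div_le_iff₀ hb0]
    have h5 : (1 + L) * (2 * (B : ℝ)) ≤ (1 + L) * (δ / 4 * L) := mul_le_mul_of_nonneg_left c6 (by linarith)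
    have h6 : δ * (L / 4 * (1 + L)) ≤ δ * b := mul_le_mul_of_nonneg_left h2 hδ.le
    linarith
  -- the number of the bad points
  obtain ⟨N, hN⟩ : ∃ N : ℕ, N = ⌊X⌋₊ := ⟨_, rfl⟩
  have hNX : (N : ℝ) ≤ X := by rw [hN]; exact Nat.floor_le hX0.le
  have hsum : ∑ n ∈ Icc 1 N, bad0 d m r b δ (n : ℤ) ≤
      (((Icc 1 N).filter fun n : ℕ => (n : ℝ) ≤ b).card : ℝ) +
        (((Icc 1 N).filter fun n : ℕ => (1 - 1 / (d : ℝ) + δ1) * k < (sg (wd d m r k (n : ℤ)) : ℝ)).card : ℝ) := by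
    rw [Finset.card_filter, Finset.card_filter]
    push_cast
    rw [← Finset.sum_add_distrib]
    refine Finset.sum_le_sum fun n hn => ?_
    have hnN : (n : ℝ) ≤ X := le_trans (by exact_mod_cast (Finset.mem_Icc.1 hn).2) hNX
    have h0 : bad0 d m r b δ (n : ℤ) = if Good0 d m r b δ (n : ℤ) then 0 else 1 := by
      unfold bad0
      congr
    rw [h0]
    by_cases h1 : (n : ℝ) ≤ b
    · rw [if_pos h1]
      have : (0 : ℝ) ≤ if (1 - 1 / (d : ℝ) + δ1) * k < (sg (wd d m r k (n : ℤ)) : ℝ) then (1 : ℝ) else 0 := by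
        split_ifs <;> norm_num
      have h2 : (if Good0 d m r b δ (n : ℤ) then (0 : ℝ) else 1) ≤ 1 := by
        split_ifs <;> norm_num
      linarith
    · rw [if_neg h1]
      by_cases h2 : (1 - 1 / (d : ℝ) + δ1) * k < (sg (wd d m r k (n : ℤ)) : ℝ)
      · rw [if_pos h2]
        split_ifs <;> norm_num
      · rw [if_neg h2, if_pos (hgood n (by push_cast; exact not_le.1 h1) (by push_cast; exact hnN) h2)]
        norm_num
  have hc1 : (((Icc 1 N).filter fun n : ℕ => (n : ℝ) ≤ b).card : ℝ) ≤ b := by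
    have h1 : ((Icc 1 N).filter fun n : ℕ => (n : ℝ) ≤ b) ⊆ Icc 1 ⌊b⌋₊ := by
      intro n hn
      rw [Finset.mem_filter, Finset.mem_Icc] at hn
      rw [Finset.mem_Icc]
      exact ⟨hn.1.1, Nat.le_floor hn.2⟩
    have h2 := Finset.card_le_card h1
    rw [Nat.card_Icc, Nat.add_sub_cancel] at h2
    exact le_trans (by exact_mod_cast h2) (Nat.floor_le hb0.le)
  have hc2 : (((Icc 1 N).filter fun n : ℕ => (1 - 1 / (d : ℝ) + δ1) * k < (sg (wd d m r k (n : ℤ)) : ℝ)).card : ℝ) ≤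
      1 / (δ1 ^ 2 * k) * (2 * X) := by
    have hdk : (0 : ℝ) < (d : ℝ) ^ k := by positivity
    refine (cnt99 hd h.hco h.hr k (fun w => (1 - 1 / (d : ℝ) + δ1) * k < (sg w : ℝ)) N).trans ?_
    have h1 := PL.u2a_bad hd hδ10 hk5
    have h2 : (N : ℝ) / (d : ℝ) ^ k + 1 ≤ 2 * X / (d : ℝ) ^ k := by
      rw [le_div_iff₀ hdk, add_mul, div_mul_cancel₀ _ hdk.ne']
      linarith
    have h3 : (0 : ℝ) ≤ (N : ℝ) / (d : ℝ) ^ k + 1 := by positivity
    refine (mul_le_mul h1 h2 h3 (by positivity)).trans (le_of_eq ?_)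
    field_simp
  have hlast : am (bad0 d m r b δ) X ≤ b / X + 2 * (1 / (δ1 ^ 2 * k)) := by
    unfold am
    rw [← hN, div_le_iff₀ hX0, add_mul, div_mul_cancel₀ _ hX0.ne']
    refine hsum.trans ((add_le_add hc1 hc2).trans (le_of_eq ?_))
    ring
  refine hlast.trans ?_
  have h1 : b / X ≤ η / 2 := by
    rw [hXe, hbL, ← Real.exp_sub]
    have h2 : η / 2 = Real.exp (Real.log (η / 2)) := by rw [Real.exp_log (by positivity)]
    rw [h2, Real.exp_le_exp]
    have h3 : L - (1 + ε) * L = -(ε * L) := by ring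
    linarith
  have h2 : 2 * (1 / (δ1 ^ 2 * k)) ≤ η / 2 := by
    have h3 : 4 / (δ1 ^ 2 * η) ≤ k := by linarith
    rw [div_le_iff₀ (by positivity)] at h3
    have h4 : 2 * (1 / (δ1 ^ 2 * k)) = 2 / (δ1 ^ 2 * k) := by ring
    rw [h4, div_le_div_iff₀ (by positivity) two_pos]
    linarith only [h3]
  linarith

end Pool.Agent.Helper8.LL
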