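import Pool.Agent.Helper8.LL.Z
import Pool.Agent.Helper8.LL.X1
import Pool.Agent.Helper8.LL.X2

/-!
# LL-X3: for `F = {n ≤ b}`, `b` large, the function `W0` is not constant

`l = log_m d < 1`, `8 δ = 1 - l`, `β = log_m b`. Let `ψ` be `Tst (4/δ)` with `ψ = 1` outside the arc `[β - l - δ, β + δ] mod 1` and `ψ = 0` on `[β - l - δ/2, β + δ/2]`. `al ψ ≤ bad0 (δ/2)`, so by `stab1` (`X = b^(1+ε)`, `z = C b (4/δ)`, `z^(1+ε/2) ≤ X`) and `base`
`mean (al ψ) ≤ 2 η`, and `mean (al 1) ≥ 1 - 2 η`. Put `z₁ = β + 2 δ`, `z₂ = β + 1 - l - 2 δ = z₁ + 4 δ`. If `ψ (y) < 1` then `y + j ∈ [β - l - δ, β + δ]`, `fract (z_i - y) = z_i - y - j`, so `ww m z₂ y = m^(-4δ) ww m z₁ y`. Hence `|al (ww z₂) n - m^(-4δ) al (ww z₁) n| ≤ al ψ n` up to the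
`n` with `0 < ψ < 1`, where the left side is `0`. So `|W0 z₂ - m^(-4δ) W0 z₁| ≤ 2 η`, and `W0 z₁ ≥ mean (al 1) / m ≥ 1 / (2 m)`; if `W0 z₁ = W0 z₂` this is impossible for small `η`.
-/

set_option autoImplicit false

namespace Pool.Agent.Helper8.LL

open Pool.Agent.Helper68.Moeller Pool.Agent.Helper52.Tao Pool.Agent.Helper8.ND Pool.Agent.Helper28
  Pool.Agent.Helper91 Finset Filter Topology

variable {d m : ℕ} {r : ℤ → ℤ}

/-- the distance to the nearest integer -/
private noncomputable def di63 (x : ℝ) : ℝ := |x - round x|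

private theorem di63_le (x : ℝ) (k : ℤ) : di63 x ≤ |x - k| := round_le x k

private theorem di63_lip (x y : ℝ) : |di63 x - di63 y| ≤ |x - y| := by
  have key : ∀ a b : ℝ, di63 a ≤ di63 b + |a - b| := by
    intro a b
    refine (di63_le a (round b)).trans ?_
    unfold di63
    have : a - (round b : ℝ) = (b - round b) + (a - b) := by ring
    rw [this]
    exact abs_add_le _ _
  rw [abs_le]
  have h1 := key x y
  have h2 := key y x
  rw [abs_sub_comm y x] at h2
  constructor <;> linarith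

private theorem di63_add_one (x : ℝ) : di63 (x + 1) = di63 x := by
  unfold di63
  rw [round_add_one]
  push_cast
  congr 1
  ring

/-- the bump: `0` where the distance to `c` is at most `a`, `1` where it is at least `a + w` -/
private noncomputable def bump63 (c a w y : ℝ) : ℝ := max 0 (min 1 ((di63 (y - c) - a) / w))

private theorem bump_tst63 (c a : ℝ) {w : ℝ} (hw : 0 < w) : Tst (1 / w) (bump63 c a w) where
  nonneg := fun y => le_max_left _ _
  le_one := fun y => max_le zero_le_one (min_le_left _ _)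
  per := fun y => by
    unfold bump63
    have : y + 1 - c = y - c + 1 := by ring
    rw [this, di63_add_one]
  lip := fun y y' => by
    unfold bump63
    refine (abs_max_sub_max_le_max _ _ _ _).trans ?_
    rw [sub_self, abs_zero]
    refine max_le (by positivity) ?_
    refine (abs_min_sub_min_le_max _ _ _ _).trans ?_
    rw [sub_self, abs_zero]
    refine max_le (by positivity) ?_
    have e : (di63 (y - c) - a) / w - (di63 (y' - c) - a) / w = 1 / w * (di63 (y - c) - di63 (y' - c)) := by ring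
    rw [e, abs_mul, abs_of_pos (by positivity : 0 < 1 / w)]
    refine mul_le_mul_of_nonneg_left ?_ (by positivity)
    refine (di63_lip _ _).trans (le_of_eq ?_)
    congr 1
    ring

private theorem bump_zero63 {c a w y : ℝ} (hw : 0 < w) (j : ℤ) (h : |y + j - c| ≤ a) : bump63 c a w y = 0 := by
  unfold bump63
  refine max_eq_left ((min_le_right _ _).trans ?_)
  have h1 := di63_le (y - c) (-j)
  have e : y - c - ((-j : ℤ) : ℝ) = y + j - c := by push_cast; ring
  rw [e] at h1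
  exact div_nonpos_of_nonpos_of_nonneg (by linarith) hw.le

private theorem bump_lt63 {c a w y : ℝ} (hw : 0 < w) (h : bump63 c a w y < 1) : ∃ j : ℤ, |y + j - c| < a + w := by
  refine ⟨-round (y - c), ?_⟩
  by_contra hcon
  push Not at hcon
  have e : y + ((-round (y - c) : ℤ) : ℝ) - c = y - c - round (y - c) := by push_cast; ring
  rw [e] at hcon
  have h1 : 1 ≤ (di63 (y - c) - a) / w := by
    rw [le_div_iff₀ hw]
    unfold di63
    linarith
  have h2 : bump63 c a w y = 1 := by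
    unfold bump63
    rw [min_eq_left h1]
    exact max_eq_right zero_le_one
  linarith

private theorem al_bd63 {F : Set ℤ} {ψ : ℝ → ℝ} (hψ : Wt ψ) (n : ℤ) :
    0 ≤ al d m r F ψ n ∧ al d m r F ψ n ≤ 1 := by
  by_cases hex : ∃ t, Ht d m r F t n
  · obtain ⟨t, h⟩ := hex
    rw [al_eq h]
    exact ⟨hψ.nonneg _, hψ.le_one _⟩
  · rw [al_eq_zero (not_exists.1 hex)]
    exact ⟨le_rfl, zero_le_one⟩

private theorem one_tst63 {L : ℝ} (hL : 0 ≤ L) : Tst L (fun _ => (1 : ℝ)) where
  nonneg := fun _ => zero_le_one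
  le_one := fun _ => le_rfl
  per := fun _ => rfl
  lip := fun y y' => by
    rw [sub_self, abs_zero]
    positivity

private theorem ww_ge63 (hm : 2 ≤ m) (z y : ℝ) : 1 / (m : ℝ) ≤ ww m z y := by
  have hm1 : (1 : ℝ) ≤ m := by exact_mod_cast (by omega : 1 ≤ m)
  unfold ww
  rw [one_div, ← Real.rpow_neg_one]
  exact Real.rpow_le_rpow_of_exponent_le hm1 (neg_le_neg (Int.fract_lt_one _).le)

/-- the geometry: where the bump is not `1` -/
private theorem geo63 (hm : 2 ≤ m) {β l δ : ℝ} (hl : 0 < l) (hδ : 0 < δ) (h8 : 8 * δ = 1 - l) (y : ℝ) :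
    |ww m (β + 6 * δ) y - (m : ℝ) ^ (-(4 * δ)) * ww m (β + 2 * δ) y| ≤ bump63 (β - l / 2) ((l + δ) / 2) (δ / 2) y := by
  have hm0 : (0 : ℝ) < m := by exact_mod_cast (by omega : 0 < m)
  have hm1 : (1 : ℝ) ≤ m := by exact_mod_cast (by omega : 1 ≤ m)
  have hT := bump_tst63 (β - l / 2) ((l + δ) / 2) (w := δ / 2) (by positivity)
  rcases lt_or_ge (bump63 (β - l / 2) ((l + δ) / 2) (δ / 2) y) 1 with h | h
  · obtain ⟨j, hj⟩ := bump_lt63 (by positivity) h
    have hj' : |y + j - (β - l / 2)| < l / 2 + δ := by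
      refine lt_of_lt_of_eq hj ?_
      ring
    rw [abs_lt] at hj'
    have e1 : Int.fract (β + 2 * δ - y) = β + 2 * δ - (y + j) := by
      have e : β + 2 * δ - y = (β + 2 * δ - (y + j)) + (j : ℤ) := by ring
      rw [e, Int.fract_add_intCast, Int.fract_eq_self]
      constructor <;> linarith [hj'.1, hj'.2]
    have e2 : Int.fract (β + 6 * δ - y) = β + 6 * δ - (y + j) := by
      have e : β + 6 * δ - y = (β + 6 * δ - (y + j)) + (j : ℤ) := by ring
      rw [e, Int.fract_add_intCast, Int.fract_eq_self]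
      constructor <;> linarith [hj'.1, hj'.2]
    have e3 : ww m (β + 6 * δ) y = (m : ℝ) ^ (-(4 * δ)) * ww m (β + 2 * δ) y := by
      unfold ww
      rw [e1, e2, ← Real.rpow_add hm0]
      congr 1
      ring
    rw [e3, sub_self, abs_zero]
    exact hT.nonneg y
  · have hq0 : 0 ≤ (m : ℝ) ^ (-(4 * δ)) := Real.rpow_nonneg hm0.le _
    have hq1 : (m : ℝ) ^ (-(4 * δ)) ≤ 1 := Real.rpow_le_one_of_one_le_of_nonpos hm1 (by linarith)
    have w1 := (wt_ww hm (β + 2 * δ)).nonneg y
    have w2 := (wt_ww hm (β + 2 * δ)).le_one y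
    have w3 := (wt_ww hm (β + 6 * δ)).nonneg y
    have w4 := (wt_ww hm (β + 6 * δ)).le_one y
    refine le_trans ?_ h
    rw [abs_le]
    constructor <;> nlinarith

theorem nonconst (h : POSB.Std d m r) : ∃ B₀ : ℝ, 1 < B₀ ∧ ∀ b : ℝ, B₀ ≤ b →
    ∃ z z' : ℝ, W0 d m r {n : ℤ | (n : ℝ) ≤ b} z ≠ W0 d m r {n : ℤ | (n : ℝ) ≤ b} z' := by
  classical
  have hm2 : 2 ≤ m := by have := h.hd; have := h.hdm; omega
  have hd2 : (2 : ℝ) ≤ d := by exact_mod_cast h.hd
  have hdm' : (d : ℝ) < m := by exact_mod_cast h.hdm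
  have hm0 : (0 : ℝ) < m := by linarith
  have hm1 : (1 : ℝ) < m := by linarith
  have hlm : 0 < Real.log m := Real.log_pos hm1
  have hld : 0 < Real.log d := Real.log_pos (by linarith)
  set l : ℝ := Real.log d / Real.log m with hl
  have hl0 : 0 < l := by positivity
  have hl1 : l < 1 := by
    rw [hl, div_lt_one hlm]
    exact Real.log_lt_log (by linarith) hdm'
  obtain ⟨δ, hδ⟩ : ∃ δ : ℝ, δ = (1 - l) / 8 := ⟨_, rfl⟩
  have hδ0 : 0 < δ := by rw [hδ]; linarith
  have h8 : 8 * δ = 1 - l := by rw [hδ]; ring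
  have hδ1 : δ ≤ 1 / 8 := by linarith
  set q : ℝ := (m : ℝ) ^ (-(4 * δ)) with hq
  have hq0 : 0 ≤ q := Real.rpow_nonneg hm0.le _
  have hq1 : q < 1 := Real.rpow_lt_one_of_one_lt_of_neg hm1 (by linarith)
  obtain ⟨η, hη⟩ : ∃ η : ℝ, η = (1 - q) / (16 * m) := ⟨_, rfl⟩
  have hη0 : 0 < η := by
    rw [hη]
    have : 0 < 1 - q := by linarith
    positivity
  have hη1 : η ≤ 1 / 16 := by
    rw [hη, div_le_div_iff₀ (by positivity) (by norm_num)]
    nlinarith
  obtain ⟨ε, hε, hbase⟩ := base h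
  obtain ⟨B₁, hB₁, hb1⟩ := hbase (δ / 2) η (by positivity) hη0
  obtain ⟨C, hC, hfam⟩ := fam_b h
  obtain ⟨X₀, hX₀, hst⟩ := stab1 h (ε := ε / 2) (by positivity) hη0
  obtain ⟨L, hL⟩ : ∃ L : ℝ, L = 1 / (δ / 2) := ⟨_, rfl⟩
  have hL1 : 1 ≤ L := by
    rw [hL, le_div_iff₀ (by positivity)]
    linarith
  obtain ⟨P, hP⟩ : ∃ P : ℝ, P = (C * L) ^ ((1 + ε / 2) / (ε / 2)) := ⟨_, rfl⟩
  have hCL : 1 ≤ C * L := by nlinarith
  have hP1 : 1 ≤ P := by rw [hP]; exact Real.one_le_rpow hCL (by positivity)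
  refine ⟨max (max B₁ X₀) (max P (1 / η)) + 1, ?_, ?_⟩
  · have : B₁ ≤ max (max B₁ X₀) (max P (1 / η)) := (le_max_left _ _).trans (le_max_left _ _)
    linarith
  intro b hb
  have hbB : B₁ ≤ b := by
    have : B₁ ≤ max (max B₁ X₀) (max P (1 / η)) := (le_max_left _ _).trans (le_max_left _ _)
    linarith
  have hbX : X₀ ≤ b := by
    have : X₀ ≤ max (max B₁ X₀) (max P (1 / η)) := (le_max_right _ _).trans (le_max_left _ _)
    linarith
  have hbP : P ≤ b := by
    have : P ≤ max (max B₁ X₀) (max P (1 / η)) := (le_max_left _ _).trans (le_max_right _ _)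
    linarith
  have hbη : 1 / η ≤ b := by
    have : 1 / η ≤ max (max B₁ X₀) (max P (1 / η)) := (le_max_right _ _).trans (le_max_right _ _)
    linarith
  have hb1' : 1 < b := lt_of_lt_of_le hB₁ hbB
  have hb0 : 0 < b := by linarith
  set F : Set ℤ := {n : ℤ | (n : ℝ) ≤ b} with hF
  set β : ℝ := Real.log b / Real.log m with hβ
  set ψ : ℝ → ℝ := bump63 (β - l / 2) ((l + δ) / 2) (δ / 2) with hψ
  have hT : Tst L ψ := by
    rw [hL]
    exact bump_tst63 _ _ (by positivity)
  set X : ℝ := b ^ (1 + ε) with hX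
  have hXb : b ≤ X := by
    calc b = b ^ (1 : ℝ) := (Real.rpow_one b).symm
      _ ≤ X := Real.rpow_le_rpow_of_exponent_le hb1'.le (by linarith)
  have hX0 : 0 < X := by linarith
  have hz : (C * b * L) ^ (1 + ε / 2) ≤ X := by
    have e1 : C * b * L = (C * L) * b := by ring
    rw [e1, Real.mul_rpow (by linarith) hb0.le, hX]
    have e2 : (C * L) ^ (1 + ε / 2) ≤ b ^ (ε / 2) := by
      have e3 : (C * L) ^ (1 + ε / 2) = P ^ (ε / 2) := by
        rw [hP, ← Real.rpow_mul (by linarith), div_mul_cancel₀ _ (by positivity)]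
      rw [e3]
      exact Real.rpow_le_rpow (by linarith) hbP (by positivity)
    calc (C * L) ^ (1 + ε / 2) * b ^ (1 + ε / 2) ≤ b ^ (ε / 2) * b ^ (1 + ε / 2) :=
          mul_le_mul_of_nonneg_right e2 (Real.rpow_nonneg hb0.le _)
      _ = b ^ (1 + ε) := by
          rw [← Real.rpow_add hb0]
          congr 1
          ring
  have hz1 : 1 ≤ C * b * L := by
    have : 1 ≤ C * b := by nlinarith
    nlinarith
  have hfψ := hfam b L ψ hb1'.le hL1 hT
  have hf1 := hfam b L (fun _ => (1 : ℝ)) hb1'.le hL1 (one_tst63 (by linarith))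
  -- the means of the bump and of one
  have hbad := hb1 b hbB
  have hψX : am (al d m r F ψ) X ≤ η := by
    refine le_trans (am_mono (fun n _ => ?_) hX0.le) hbad
    unfold bad0
    split_ifs with hg
    · obtain ⟨t, ht, j, hj1, hj2⟩ := hg
      rw [al_eq ht]
      refine le_of_eq (bump_zero63 (by positivity) j ?_)
      have e1 : (Real.log b - Real.log d) / Real.log m = β - l := by rw [hβ, hl, sub_div]
      rw [e1] at hj1
      rw [abs_le]
      constructor <;> linarith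
    · exact (al_bd63 hT.toWt n).2
  have hψm : mean (al d m r F ψ) ≤ 2 * η := by
    have h1 := hst (C * b * L) _ hz1 hfψ X (by linarith) hz
    have h2 := (abs_le.1 h1).1
    linarith
  have h1X : 1 - 1 / X - η ≤ am (al d m r F fun _ => (1 : ℝ)) X := by
    have e0 : am (fun _ => (1 : ℝ)) X = ⌊X⌋₊ / X := by
      unfold am
      rw [sum_const, Nat.card_Icc, nsmul_eq_mul, mul_one, Nat.add_sub_cancel]
    have e1 : 1 - 1 / X ≤ am (fun _ => (1 : ℝ)) X := by
      rw [e0, le_div_iff₀ hX0, sub_mul, one_mul, one_div_mul_cancel hX0.ne']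
      have := Nat.lt_floor_add_one X
      linarith
    have e2 : am (fun n => (1 : ℝ) - bad0 d m r b (δ / 2) n) X ≤ am (al d m r F fun _ => (1 : ℝ)) X := by
      refine am_mono (fun n _ => ?_) hX0.le
      unfold bad0
      split_ifs with hg
      · obtain ⟨t, ht, _⟩ := hg
        rw [al_eq ht]
        norm_num
      · rw [sub_self]
        exact (al_bd63 (one_tst63 (L := 1) zero_le_one).toWt n).1
    rw [am_sub] at e2
    linarith
  have h1m : 1 - 3 * η ≤ mean (al d m r F fun _ => (1 : ℝ)) := by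
    have h1 := hst (C * b * L) _ hz1 hf1 X (by linarith) hz
    have h2 := (abs_le.1 h1).2
    have h3 : 1 / X ≤ η := by
      rw [div_le_iff₀ hX0]
      rw [div_le_iff₀ hη0] at hbη
      nlinarith
    linarith
  -- the limits
  obtain ⟨q', hq', hstab⟩ := stab h
  obtain ⟨X₁, -, hstab1⟩ := hstab 1 one_pos
  have T3 : Tendsto (am (al d m r F ψ)) atTop (𝓝 (mean (al d m r F ψ))) := (hstab1 _ _ hz1 hfψ).1
  have T4 : Tendsto (am (al d m r F fun _ => (1 : ℝ))) atTop (𝓝 (mean (al d m r F fun _ => (1 : ℝ)))) :=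
    (hstab1 _ _ hz1 hf1).1
  obtain ⟨hW, -, -, -, -⟩ := W0_spec h (F := F) (b := b) hb0.le (fun n hn => hn)
  have T1 := hW (β + 2 * δ)
  have T2 := hW (β + 6 * δ)
  have hptl : ∀ n : ℤ, |al d m r F (ww m (β + 6 * δ)) n - q * al d m r F (ww m (β + 2 * δ)) n| ≤ al d m r F ψ n := by
    intro n
    by_cases hex : ∃ t, Ht d m r F t n
    · obtain ⟨t, ht⟩ := hex
      rw [al_eq ht, al_eq ht, al_eq ht]
      exact geo63 hm2 hl0 hδ0 h8 _
    · rw [al_eq_zero (not_exists.1 hex), al_eq_zero (not_exists.1 hex), al_eq_zero (not_exists.1 hex)]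
      simp
  have ham : ∀ᶠ x in atTop, |am (al d m r F (ww m (β + 6 * δ))) x - q * am (al d m r F (ww m (β + 2 * δ))) x| ≤
      am (al d m r F ψ) x := by
    filter_upwards [eventually_ge_atTop (1 : ℝ)] with x hx
    have hx0 : 0 < x := by linarith
    unfold am
    have e : (∑ n ∈ Icc 1 ⌊x⌋₊, al d m r F (ww m (β + 6 * δ)) (n : ℤ)) / x -
        q * ((∑ n ∈ Icc 1 ⌊x⌋₊, al d m r F (ww m (β + 2 * δ)) (n : ℤ)) / x) =
        (∑ n ∈ Icc 1 ⌊x⌋₊, (al d m r F (ww m (β + 6 * δ)) (n : ℤ) - q * al d m r F (ww m (β + 2 * δ)) (n : ℤ))) / x := by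
      rw [sum_sub_distrib, ← mul_sum]
      ring
    rw [e, abs_div, abs_of_pos hx0]
    refine div_le_div_of_nonneg_right ((abs_sum_le_sum_abs _ _).trans (sum_le_sum fun n _ => hptl _)) hx0.le
  have hlim : |W0 d m r F (β + 6 * δ) - q * W0 d m r F (β + 2 * δ)| ≤ mean (al d m r F ψ) :=
    le_of_tendsto_of_tendsto (T2.sub (T1.const_mul q)).abs T3 ham
  have hlow : 1 / (m : ℝ) * mean (al d m r F fun _ => (1 : ℝ)) ≤ W0 d m r F (β + 2 * δ) := by
    refine le_of_tendsto_of_tendsto (T4.const_mul (1 / (m : ℝ))) T1 ?_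
    filter_upwards [eventually_ge_atTop (1 : ℝ)] with x hx
    have hx0 : 0 < x := by linarith
    unfold am
    rw [← mul_div_assoc, mul_sum]
    refine div_le_div_of_nonneg_right (sum_le_sum fun n _ => ?_) hx0.le
    by_cases hex : ∃ t, Ht d m r F t n
    · obtain ⟨t, ht⟩ := hex
      rw [al_eq ht, al_eq ht, mul_one]
      exact ww_ge63 hm2 _ _
    · rw [al_eq_zero (not_exists.1 hex), al_eq_zero (not_exists.1 hex), mul_zero]
  refine ⟨β + 2 * δ, β + 6 * δ, fun heq => ?_⟩
  rw [← heq] at hlim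
  set w := W0 d m r F (β + 2 * δ) with hw
  have h5 : w - q * w ≤ 2 * η := (le_abs_self _).trans (hlim.trans hψm)
  have h6 : 1 / (2 * (m : ℝ)) ≤ w := by
    refine le_trans ?_ hlow
    have h7 : (1 : ℝ) / 2 ≤ mean (al d m r F fun _ => (1 : ℝ)) := by linarith
    calc 1 / (2 * (m : ℝ)) = 1 / (m : ℝ) * (1 / 2) := by field_simp
      _ ≤ _ := mul_le_mul_of_nonneg_left h7 (by positivity)
  have h8' : (1 - q) * (1 / (2 * (m : ℝ))) ≤ (1 - q) * w := mul_le_mul_of_nonneg_left h6 (by linarith)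
  have h9 : 2 * η = (1 - q) * (1 / (8 * (m : ℝ))) := by
    have e16 : (16 * (m : ℝ)) = 2 * (8 * m) := by ring
    rw [hη, e16]
    field_simp
  have h10 : (1 - q) * (1 / (8 * (m : ℝ))) < (1 - q) * (1 / (2 * (m : ℝ))) := by
    refine mul_lt_mul_of_pos_left ?_ (by linarith)
    exact one_div_lt_one_div_of_lt (by positivity) (by linarith)
  have h11 : w - q * w = (1 - q) * w := by ring
  linarith

end Pool.Agent.Helper8.LL
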