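import Pool.Agent.Helper8.LL.A0

/-!
# LL-A: the flow for families

`x₀ = C' z (d m)^(4k)`. For `n ≥ x₀ m^(sg v) / d^k` (or `n ≥ x₀`) the points `T^i n`, `i ≤ 2 k`, are `≥ n / (2 d^(2k)) > z` (`ST.iter_gt` or its proof, `wd_spec`), so
`|f_t n - f_(t-2k) (T^(2k) n)| ≤ ∑_i z / T^i n ≤ 4 k z d^(2k) / n ≤ C / k^8` and the same for `f_(t-k) n` and `f_(t-2k) (T^k n)`. `fm_flow` on `[x₀, x₀ + H)`, `x₀ + H = x`,
with `g = f_(t-2k)`; its images are `[x₀ m^s/d^k, x m^s/d^k)`; the integers `< x₀` (`< x₀ m^s/d^k`) contribute at most `(x₀ + 1) / x ≤ C / k^8` to `am`, the same for the images.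
-/

set_option autoImplicit false

namespace Pool.Agent.Helper8.LL

open Pool.Agent.Helper68.Moeller Pool.Agent.Helper52.Tao Pool.Agent.Helper8.ND Pool.Agent.Helper28
  Pool.Agent.Helper91 Finset Filter Topology

variable {d m : ℕ} {r : ℤ → ℤ}

/-- Comparison of a family along `j` steps. -/
private theorem tele34 (h : POSB.Std d m r) {B : ℕ} (hB : ∀ j : ℤ, 0 < j → j < (d : ℤ) → |r j| ≤ B)
    {z : ℝ} {f : ℤ → ℤ → ℝ} (hz : 1 ≤ z) (hf : Fam d m r z f) (t : ℤ) {j : ℕ} {n : ℤ}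
    (hn1 : 2 * (B : ℝ) * (m : ℝ) ^ j ≤ n) (hn2 : 2 * z * (d : ℝ) ^ j < n) :
    ∀ i : ℕ, i ≤ j → |f t n - f (t - i) ((T d m r)^[i] n)| ≤ i * (z * (2 * (d : ℝ) ^ j) / n) := by
  have hd1 : (1 : ℝ) ≤ d := by exact_mod_cast (by have := h.hd; omega : 1 ≤ d)
  have hm1 : (1 : ℝ) ≤ m := by exact_mod_cast (by have := h.hd; have := h.hdm; omega : 1 ≤ m)
  have hn0 : (0 : ℝ) < n := lt_of_le_of_lt (by positivity) hn2
  intro i
  induction i with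
  | zero =>
    intro _
    simp
  | succ i ih =>
    intro hi
    have ih' := ih (by omega)
    -- the lower bound of the point
    have h1 := wd_spec h.hd h.hr i n
    have h2 := abs_Off_le h.hd h.hdm hB (wd_mem (m := m) h.hd r i n)
    have h3 : (d : ℝ) ^ i * ((T d m r)^[i] n : ℝ) =
        (m : ℝ) ^ sg (wd d m r i n) * n - (Off d m r (wd d m r i n) : ℝ) := by exact_mod_cast h1
    have h4 : ((Off d m r (wd d m r i n) : ℤ) : ℝ) ≤ B * (m : ℝ) ^ i := by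
      have := (le_abs_self _).trans h2
      exact_mod_cast this
    have h5 : (B : ℝ) * (m : ℝ) ^ i ≤ B * (m : ℝ) ^ j :=
      mul_le_mul_of_nonneg_left (pow_le_pow_right₀ hm1 (by omega)) (Nat.cast_nonneg B)
    have h7 : (n : ℝ) ≤ (m : ℝ) ^ sg (wd d m r i n) * n :=
      le_mul_of_one_le_left hn0.le (one_le_pow₀ hm1)
    have h8 : (n : ℝ) / 2 ≤ (d : ℝ) ^ i * ((T d m r)^[i] n : ℝ) := by
      rw [h3]
      linarith
    have h9 : (d : ℝ) ^ i ≤ (d : ℝ) ^ j := pow_le_pow_right₀ hd1 (by omega)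
    have hdi : (0 : ℝ) < (d : ℝ) ^ i := by positivity
    have hdj : (0 : ℝ) < (d : ℝ) ^ j := by positivity
    have hy0 : (0 : ℝ) < ((T d m r)^[i] n : ℝ) := by
      by_contra hcon
      push Not at hcon
      have : (d : ℝ) ^ i * ((T d m r)^[i] n : ℝ) ≤ 0 := mul_nonpos_of_nonneg_of_nonpos hdi.le hcon
      linarith
    have hy : (n : ℝ) / (2 * (d : ℝ) ^ j) ≤ ((T d m r)^[i] n : ℝ) := by
      rw [div_le_iff₀ (by positivity)]
      have h10 : (d : ℝ) ^ i * ((T d m r)^[i] n : ℝ) ≤ (d : ℝ) ^ j * ((T d m r)^[i] n : ℝ) :=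
        mul_le_mul_of_nonneg_right h9 hy0.le
      linarith
    have hzy : z < ((T d m r)^[i] n : ℝ) := by
      refine lt_of_lt_of_le ?_ hy
      rw [lt_div_iff₀ (by positivity)]
      linarith
    have hstep := hf.step (t - i - 1) ((T d m r)^[i] n) hzy
    rw [show t - (i : ℤ) - 1 + 1 = t - i by ring] at hstep
    have hq : z / ((T d m r)^[i] n : ℝ) ≤ z * (2 * (d : ℝ) ^ j) / n := by
      rw [div_le_div_iff₀ hy0 hn0]
      rw [div_le_iff₀ (by positivity)] at hy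
      have := mul_le_mul_of_nonneg_left hy (by linarith : 0 ≤ z)
      linarith
    have e1 : t - ((i + 1 : ℕ) : ℤ) = t - i - 1 := by push_cast; ring
    rw [Function.iterate_succ_apply', e1]
    calc |f t n - f (t - i - 1) (T d m r ((T d m r)^[i] n))|
        ≤ |f t n - f (t - i) ((T d m r)^[i] n)| +
          |f (t - i) ((T d m r)^[i] n) - f (t - i - 1) (T d m r ((T d m r)^[i] n))| := abs_sub_le _ _ _
      _ ≤ i * (z * (2 * (d : ℝ) ^ j) / n) + z * (2 * (d : ℝ) ^ j) / n := add_le_add ih' (hstep.trans hq)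
      _ = ((i + 1 : ℕ) : ℝ) * (z * (2 * (d : ℝ) ^ j) / n) := by push_cast; ring

private theorem am_int34 (w : ℤ → ℝ) {y : ℝ} (hy : 0 ≤ y) : am w y = (∑ n ∈ Ico (1 : ℤ) (⌊y⌋ + 1), w n) / y := by
  unfold am
  congr 1
  have h1 : (Icc 1 ⌊y⌋₊).image (fun n : ℕ => (n : ℤ)) = Ico (1 : ℤ) (⌊y⌋ + 1) := by
    have hfl := Int.natCast_floor_eq_floor hy
    ext n
    simp only [mem_image, mem_Icc, mem_Ico]
    constructor
    · rintro ⟨a, ⟨h1, h2⟩, rfl⟩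
      omega
    · rintro ⟨h1, h2⟩
      exact ⟨n.toNat, by omega, by omega⟩
  rw [← h1, sum_image (fun a _ b _ hab => by exact_mod_cast hab)]

/-- Comparison of `fm` and `am`. -/
private theorem cmp34 {u w : ℤ → ℝ} (hw0 : ∀ n, 0 ≤ w n) (hw1 : ∀ n, w n ≤ 1) {y0 y δ : ℝ} (h1 : 1 ≤ y0)
    (h2 : 2 * y0 ≤ y) (hδ : ∀ n : ℤ, y0 ≤ n → |u n - w n| ≤ δ) :
    |fm u y0 (y - y0) - am w y| ≤ 2 * δ + 2 * (y0 / y) := by
  have hy : 0 < y := by linarith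
  have hyy : 0 < y - y0 := by linarith
  have hδ0 : 0 ≤ δ := (abs_nonneg _).trans (hδ ⌈y0⌉ (Int.le_ceil y0))
  rw [am_int34 w hy.le]
  unfold fm
  rw [add_sub_cancel]
  have hc1 : (1 : ℤ) ≤ ⌈y0⌉ := by
    have : (0 : ℤ) < ⌈y0⌉ := Int.ceil_pos.2 (by linarith)
    omega
  have hc2 : ⌈y0⌉ ≤ ⌈y⌉ := Int.ceil_le_ceil (by linarith)
  have hc3 : ⌈y⌉ ≤ ⌊y⌋ + 1 := Int.ceil_le_floor_add_one y
  set S' := ∑ n ∈ Ico ⌈y0⌉ ⌈y⌉, w n with hS'
  have hsplit : ∑ n ∈ Ico (1 : ℤ) (⌊y⌋ + 1), w n =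
      ∑ n ∈ Ico (1 : ℤ) ⌈y0⌉, w n + (S' + ∑ n ∈ Ico ⌈y⌉ (⌊y⌋ + 1), w n) := by
    rw [hS', ← sum_union (by
      rw [disjoint_left]; intro n; simp only [mem_Ico]; omega), Ico_union_Ico_eq_Ico hc2 hc3,
      ← sum_union (by rw [disjoint_left]; intro n; simp only [mem_Ico]; omega),
      Ico_union_Ico_eq_Ico hc1 (hc2.trans hc3)]
  have hcard : ∀ a b : ℤ, a ≤ b → ∑ n ∈ Ico a b, w n ≤ ((b : ℝ) - a) := by
    intro a b hab
    calc ∑ n ∈ Ico a b, w n ≤ ∑ n ∈ Ico a b, (1 : ℝ) := sum_le_sum fun n _ => hw1 n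
      _ = ((b : ℝ) - a) := by
        rw [sum_const, Int.card_Ico, nsmul_eq_mul, mul_one]
        have : (((b - a).toNat : ℤ) : ℝ) = ((b - a : ℤ) : ℝ) := by
          rw [Int.toNat_of_nonneg (by omega)]
        push_cast at this
        exact this
  have hA0 : 0 ≤ ∑ n ∈ Ico (1 : ℤ) ⌈y0⌉, w n := sum_nonneg fun n _ => hw0 n
  have hA1 : ∑ n ∈ Ico (1 : ℤ) ⌈y0⌉, w n ≤ y0 := by
    refine (hcard _ _ hc1).trans ?_
    have := Int.ceil_lt_add_one y0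
    push_cast
    linarith
  have hB0 : 0 ≤ ∑ n ∈ Ico ⌈y⌉ (⌊y⌋ + 1), w n := sum_nonneg fun n _ => hw0 n
  have hB1 : ∑ n ∈ Ico ⌈y⌉ (⌊y⌋ + 1), w n ≤ 1 := by
    refine (hcard _ _ hc3).trans ?_
    have h3 := Int.floor_le y
    have h4 := Int.le_ceil y
    push_cast
    linarith
  have hS0 : 0 ≤ S' := sum_nonneg fun n _ => hw0 n
  have hlen : ((⌈y⌉ : ℝ) - ⌈y0⌉) ≤ 2 * (y - y0) := by
    have h3 := Int.ceil_lt_add_one y
    have h4 := Int.le_ceil y0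
    linarith
  have hS1 : S' ≤ 2 * (y - y0) := (hcard _ _ hc2).trans hlen
  -- the first difference
  have hD1 : |(∑ n ∈ Ico ⌈y0⌉ ⌈y⌉, u n) / (y - y0) - S' / (y - y0)| ≤ 2 * δ := by
    rw [← sub_div, hS', ← sum_sub_distrib, abs_div, abs_of_pos hyy, div_le_iff₀ hyy]
    calc |∑ n ∈ Ico ⌈y0⌉ ⌈y⌉, (u n - w n)| ≤ ∑ n ∈ Ico ⌈y0⌉ ⌈y⌉, |u n - w n| := abs_sum_le_sum_abs _ _
      _ ≤ ∑ n ∈ Ico ⌈y0⌉ ⌈y⌉, δ := by
        refine sum_le_sum fun n hn => hδ n ?_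
        rw [mem_Ico] at hn
        exact (Int.le_ceil y0).trans (by exact_mod_cast hn.1)
      _ = ((⌈y⌉ : ℝ) - ⌈y0⌉) * δ := by
        rw [sum_const, Int.card_Ico, nsmul_eq_mul]
        have : (((⌈y⌉ - ⌈y0⌉).toNat : ℤ) : ℝ) = ((⌈y⌉ - ⌈y0⌉ : ℤ) : ℝ) := by
          rw [Int.toNat_of_nonneg (by omega)]
        push_cast at this
        rw [← this]
      _ ≤ 2 * (y - y0) * δ := mul_le_mul_of_nonneg_right hlen hδ0
      _ = 2 * δ * (y - y0) := by ring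
  -- the second difference
  have hD2 : |S' / (y - y0) - (∑ n ∈ Ico (1 : ℤ) (⌊y⌋ + 1), w n) / y| ≤ 2 * (y0 / y) := by
    rw [hsplit]
    have e : S' / (y - y0) - (∑ n ∈ Ico (1 : ℤ) ⌈y0⌉, w n + (S' + ∑ n ∈ Ico ⌈y⌉ (⌊y⌋ + 1), w n)) / y =
        S' / (y - y0) * (y0 / y) - (∑ n ∈ Ico (1 : ℤ) ⌈y0⌉, w n + ∑ n ∈ Ico ⌈y⌉ (⌊y⌋ + 1), w n) / y := by
      field_simp
      ring
    rw [e]
    have e1 : 0 ≤ S' / (y - y0) * (y0 / y) := by positivity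
    have e2 : S' / (y - y0) * (y0 / y) ≤ 2 * (y0 / y) := by
      refine mul_le_mul_of_nonneg_right ?_ (by positivity)
      rw [div_le_iff₀ hyy]
      exact hS1
    have e3 : 0 ≤ (∑ n ∈ Ico (1 : ℤ) ⌈y0⌉, w n + ∑ n ∈ Ico ⌈y⌉ (⌊y⌋ + 1), w n) / y := by positivity
    have e4 : (∑ n ∈ Ico (1 : ℤ) ⌈y0⌉, w n + ∑ n ∈ Ico ⌈y⌉ (⌊y⌋ + 1), w n) / y ≤ 2 * (y0 / y) := by
      rw [mul_div_assoc', div_le_div_iff_of_pos_right hy]
      linarith
    rw [abs_le]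
    constructor <;> linarith
  calc |(∑ n ∈ Ico ⌈y0⌉ ⌈y⌉, u n) / (y - y0) - (∑ n ∈ Ico (1 : ℤ) (⌊y⌋ + 1), w n) / y|
      ≤ |(∑ n ∈ Ico ⌈y0⌉ ⌈y⌉, u n) / (y - y0) - S' / (y - y0)| +
        |S' / (y - y0) - (∑ n ∈ Ico (1 : ℤ) (⌊y⌋ + 1), w n) / y| := abs_sub_le _ _ _
    _ ≤ 2 * δ + 2 * (y0 / y) := add_le_add hD1 hD2

private theorem cube34 (k : ℕ) : (k : ℝ) ^ 3 ≤ 3 ^ k := by
  have h : k ^ 3 ≤ 3 ^ k := by
    induction k using Nat.strong_induction_on with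
    | _ k ih =>
      rcases lt_or_ge k 4 with hk | hk
      · interval_cases k <;> norm_num
      · obtain ⟨l, rfl⟩ : ∃ l, k = l + 1 := ⟨k - 1, by omega⟩
        have h1 := ih l (by omega)
        have h2 : (l + 1) ^ 3 ≤ 3 * l ^ 3 := by
          have : 3 ≤ l := by omega
          nlinarith [mul_le_mul this this (by omega) (by omega), sq_nonneg (l : ℤ)]
        calc (l + 1) ^ 3 ≤ 3 * l ^ 3 := h2
          _ ≤ 3 * 3 ^ l := by omega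
          _ = 3 ^ (l + 1) := by ring
  exact_mod_cast h

private theorem nine34 (k : ℕ) : (k : ℝ) ^ 9 ≤ 27 ^ k := by
  calc (k : ℝ) ^ 9 = ((k : ℝ) ^ 3) ^ 3 := by ring
    _ ≤ (3 ^ k) ^ 3 := pow_le_pow_left₀ (by positivity) (cube34 k) 3
    _ = 27 ^ k := by rw [← pow_mul, mul_comm, pow_mul]; norm_num

theorem flow_am (h : POSB.Std d m r) : ∃ C : ℝ, 1 ≤ C ∧ ∀ (z : ℝ) (f : ℤ → ℤ → ℝ), 1 ≤ z → Fam d m r z f →
    ∀ (t : ℤ) (k : ℕ), 1 ≤ k → ∀ x : ℝ, C * z * ((d : ℝ) * m) ^ (8 * k) ≤ x →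
      |am (f t) x - (∑ v ∈ W d k, am (f (t - k)) (x * (m : ℝ) ^ sg v / (d : ℝ) ^ k)) / (d : ℝ) ^ k| ≤ C / (k : ℝ) ^ 8 := by
  obtain ⟨C0, hC0, hflow⟩ := fm_flow h
  obtain ⟨B, hB⟩ := FL_exists_B d r
  have hd2 : (2 : ℝ) ≤ d := by exact_mod_cast h.hd
  have hm3 : (3 : ℝ) ≤ m := by exact_mod_cast (by have := h.hd; have := h.hdm; omega : 3 ≤ m)
  set C' : ℝ := 2 * B + 4 with hC'
  have hC'4 : 4 ≤ C' := by rw [hC']; have : (0 : ℝ) ≤ B := Nat.cast_nonneg B; linarith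
  refine ⟨2 * C0 + 2 * C' + 8, by linarith, fun z f hz hf t k hk x hx => ?_⟩
  set C : ℝ := 2 * C0 + 2 * C' + 8 with hC
  have hk1 : (1 : ℝ) ≤ k := by exact_mod_cast hk
  set q : ℝ := ((d : ℝ) * m) ^ (4 * k) with hq
  have hdm1 : (1 : ℝ) ≤ (d : ℝ) * m := by nlinarith
  have hq1 : 1 ≤ q := one_le_pow₀ hdm1
  have hq2 : ((d : ℝ) * m) ^ (8 * k) = q * q := by rw [hq, ← pow_add]; congr 1; ring
  have hdk1 : (1 : ℝ) ≤ (d : ℝ) ^ k := one_le_pow₀ (by linarith)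
  have hmk1 : (1 : ℝ) ≤ (m : ℝ) ^ k := one_le_pow₀ (by linarith)
  -- `q = d^k d^k d^k d^k m^k m^k m^k m^k`
  have hqe : q = ((d : ℝ) ^ (2 * k) * (m : ℝ) ^ (2 * k)) * ((d : ℝ) ^ (2 * k) * (m : ℝ) ^ (2 * k)) := by
    rw [hq, mul_pow]
    ring
  have h27 : (27 : ℝ) ^ k ≤ (d : ℝ) ^ (2 * k) * (m : ℝ) ^ (2 * k) := by
    rw [pow_mul, pow_mul, ← mul_pow]
    have hd4 : (4 : ℝ) ≤ (d : ℝ) ^ 2 := by nlinarith
    have hm9 : (9 : ℝ) ≤ (m : ℝ) ^ 2 := by nlinarith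
    exact pow_le_pow_left₀ (by norm_num) (by nlinarith) k
  have hD1 : (1 : ℝ) ≤ (d : ℝ) ^ (2 * k) := one_le_pow₀ (by linarith)
  have hM1 : (1 : ℝ) ≤ (m : ℝ) ^ (2 * k) := one_le_pow₀ (by linarith)
  have hk9 := nine34 k
  have hk8 : (k : ℝ) ^ 8 ≤ 27 ^ k := (pow_le_pow_right₀ hk1 (by norm_num)).trans hk9
  have hk8p : (0 : ℝ) < (k : ℝ) ^ 8 := by positivity
  set x0 : ℝ := C' * z * q with hx0
  have hx0p : 0 < x0 := by positivity
  have hxq : C * z * (q * q) ≤ x := by rw [← hq2]; exact hx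
  have hzq : z * q ≤ z * (q * q) := by
    refine mul_le_mul_of_nonneg_left ?_ (by linarith)
    nlinarith
  have hx0x : 2 * x0 ≤ x := by
    refine le_trans ?_ hxq
    rw [hx0]
    calc 2 * (C' * z * q) = 2 * C' * (z * q) := by ring
      _ ≤ 2 * C' * (z * (q * q)) := mul_le_mul_of_nonneg_left hzq (by linarith)
      _ ≤ C * (z * (q * q)) := mul_le_mul_of_nonneg_right (by rw [hC]; linarith) (by positivity)
      _ = C * z * (q * q) := by ring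
  have hxp : 0 < x := by linarith
  have hH : C0 * ((d : ℝ) * m) ^ (8 * k) ≤ x - x0 := by
    have h1 : 2 * (C0 * (q * q)) ≤ x := by
      refine le_trans ?_ hxq
      calc 2 * (C0 * (q * q)) = 2 * C0 * (q * q) := by ring
        _ ≤ C * (q * q) := mul_le_mul_of_nonneg_right (by rw [hC]; linarith) (by positivity)
        _ = C * 1 * (q * q) := by ring
        _ ≤ C * z * (q * q) := by gcongr
    rw [hq2]
    linarith
  have hratio : x0 / x ≤ 1 / (k : ℝ) ^ 8 := by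
    rw [div_le_div_iff₀ hxp hk8p, one_mul]
    have h1 : (k : ℝ) ^ 8 ≤ q := by
      refine hk8.trans (h27.trans ?_)
      rw [hqe]
      exact le_mul_of_one_le_left (by positivity) (by nlinarith)
    calc x0 * (k : ℝ) ^ 8 ≤ x0 * q := mul_le_mul_of_nonneg_left h1 hx0p.le
      _ = C' * (z * (q * q)) := by rw [hx0]; ring
      _ ≤ C * (z * (q * q)) := mul_le_mul_of_nonneg_right (by rw [hC]; linarith) (by positivity)
      _ = C * z * (q * q) := by ring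
      _ ≤ x := hxq
  set δ : ℝ := 4 * k * z * (d : ℝ) ^ (2 * k) / x0 with hδ
  have hδk : δ ≤ 1 / (k : ℝ) ^ 8 := by
    rw [hδ, div_le_div_iff₀ hx0p hk8p, one_mul]
    calc 4 * k * z * (d : ℝ) ^ (2 * k) * (k : ℝ) ^ 8 = 4 * z * (d : ℝ) ^ (2 * k) * (k : ℝ) ^ 9 := by ring
      _ ≤ 4 * z * (d : ℝ) ^ (2 * k) * ((d : ℝ) ^ (2 * k) * (m : ℝ) ^ (2 * k)) :=
        mul_le_mul_of_nonneg_left (hk9.trans h27) (by positivity)
      _ ≤ C' * z * (d : ℝ) ^ (2 * k) * ((d : ℝ) ^ (2 * k) * (m : ℝ) ^ (2 * k)) := by gcongr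
      _ ≤ C' * z * ((d : ℝ) ^ (2 * k) * (m : ℝ) ^ (2 * k)) * ((d : ℝ) ^ (2 * k) * (m : ℝ) ^ (2 * k)) := by
        refine mul_le_mul_of_nonneg_right ?_ (by positivity)
        calc C' * z * (d : ℝ) ^ (2 * k) = C' * z * ((d : ℝ) ^ (2 * k) * 1) := by ring
          _ ≤ _ := by gcongr
      _ = x0 := by rw [hx0, hqe]; ring
  -- the pointwise comparison for all `n ≥ x₀ / d^k`, `j ∈ {k, 2k}`
  have hpt : ∀ (t' : ℤ) (j : ℕ) (n : ℤ), j ≤ 2 * k → x0 / (d : ℝ) ^ (2 * k - j) ≤ n →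
      |f t' n - f (t' - j) ((T d m r)^[j] n)| ≤ δ := by
    intro t' j n hj hn
    have hd0 : (0 : ℝ) < (d : ℝ) ^ (2 * k - j) := by positivity
    have e1 : (d : ℝ) ^ (2 * k - j) * (d : ℝ) ^ j = (d : ℝ) ^ (2 * k) := by
      rw [← pow_add]; congr 1; omega
    have hn' : x0 ≤ n * (d : ℝ) ^ (2 * k - j) := by rwa [div_le_iff₀ hd0] at hn
    have hle : (d : ℝ) ^ (2 * k - j) ≤ (d : ℝ) ^ (2 * k) := pow_le_pow_right₀ (by linarith) (by omega)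
    have hmj : (m : ℝ) ^ j ≤ (m : ℝ) ^ (2 * k) := pow_le_pow_right₀ (by linarith) hj
    have hdj : (d : ℝ) ^ j ≤ (d : ℝ) ^ (2 * k) := pow_le_pow_right₀ (by linarith) hj
    have hbig : C' * z * ((d : ℝ) ^ (2 * k) * (m : ℝ) ^ (2 * k)) ≤ n := by
      have h3 : C' * z * ((d : ℝ) ^ (2 * k) * (m : ℝ) ^ (2 * k)) * (d : ℝ) ^ (2 * k - j) ≤
          n * (d : ℝ) ^ (2 * k - j) := by
        refine le_trans ?_ hn'
        have h4 : (d : ℝ) ^ (2 * k - j) ≤ (d : ℝ) ^ (2 * k) * (m : ℝ) ^ (2 * k) :=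
          hle.trans (le_mul_of_one_le_right (by positivity) hM1)
        calc C' * z * ((d : ℝ) ^ (2 * k) * (m : ℝ) ^ (2 * k)) * (d : ℝ) ^ (2 * k - j)
            ≤ C' * z * ((d : ℝ) ^ (2 * k) * (m : ℝ) ^ (2 * k)) * ((d : ℝ) ^ (2 * k) * (m : ℝ) ^ (2 * k)) :=
              mul_le_mul_of_nonneg_left h4 (by positivity)
          _ = x0 := by rw [hx0, hqe]; ring
      exact le_of_mul_le_mul_right h3 hd0
    have hn0 : (0 : ℝ) < n := lt_of_lt_of_le (by positivity) hbig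
    have hn1 : 2 * (B : ℝ) * (m : ℝ) ^ j ≤ n := by
      refine le_trans ?_ hbig
      calc 2 * (B : ℝ) * (m : ℝ) ^ j ≤ C' * (m : ℝ) ^ (2 * k) := by
            have : 2 * (B : ℝ) ≤ C' := by rw [hC']; linarith
            gcongr
        _ = C' * 1 * (1 * (m : ℝ) ^ (2 * k)) := by ring
        _ ≤ _ := by gcongr
    have hn2 : 2 * z * (d : ℝ) ^ j < n := by
      refine lt_of_lt_of_le ?_ hbig
      calc 2 * z * (d : ℝ) ^ j ≤ 2 * z * ((d : ℝ) ^ (2 * k) * 1) := by rw [mul_one]; gcongr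
        _ ≤ 2 * z * ((d : ℝ) ^ (2 * k) * (m : ℝ) ^ (2 * k)) := by gcongr
        _ < C' * z * ((d : ℝ) ^ (2 * k) * (m : ℝ) ^ (2 * k)) := by
          have : 0 < z * ((d : ℝ) ^ (2 * k) * (m : ℝ) ^ (2 * k)) := by positivity
          nlinarith
    refine (tele34 h hB hz hf t' hn1 hn2 j le_rfl).trans ?_
    rw [hδ, mul_div_assoc', div_le_div_iff₀ hn0 hx0p]
    have hjr : (j : ℝ) ≤ 2 * k := by exact_mod_cast hj
    calc (j : ℝ) * (z * (2 * (d : ℝ) ^ j)) * x0 ≤ (2 * k) * (z * (2 * (d : ℝ) ^ j)) * (n * (d : ℝ) ^ (2 * k - j)) := by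
          gcongr
      _ = 4 * k * z * ((d : ℝ) ^ (2 * k - j) * (d : ℝ) ^ j) * n := by ring
      _ = 4 * k * z * (d : ℝ) ^ (2 * k) * n := by rw [e1]
  -- the left side
  have hleft : |fm (fun n => f (t - (k + k : ℕ)) ((T d m r)^[k + k] n)) x0 (x - x0) - am (f t) x| ≤
      2 * δ + 2 * (x0 / x) := by
    refine cmp34 (hf.nonneg t) (hf.le_one t) ?_ hx0x fun n hn => ?_
    · rw [hx0]
      calc (1 : ℝ) = 1 * 1 * 1 := by ring
        _ ≤ C' * z * q := by gcongr; linarith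
    · rw [abs_sub_comm]
      refine hpt t (k + k) n (by omega) ?_
      rw [show 2 * k - (k + k) = 0 by omega, pow_zero, div_one]
      exact hn
  -- the terms of the right side
  have hright : ∀ v ∈ W d k, |fm (fun n => f (t - (k + k : ℕ)) ((T d m r)^[k] n)) (x0 * (m : ℝ) ^ sg v / (d : ℝ) ^ k)
      ((x - x0) * (m : ℝ) ^ sg v / (d : ℝ) ^ k) - am (f (t - k)) (x * (m : ℝ) ^ sg v / (d : ℝ) ^ k)| ≤
      2 * δ + 2 * (x0 / x) := by
    intro v hv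
    have hms : (1 : ℝ) ≤ (m : ℝ) ^ sg v := one_le_pow₀ (by linarith)
    have hdk0 : (0 : ℝ) < (d : ℝ) ^ k := by positivity
    have e2 : (x - x0) * (m : ℝ) ^ sg v / (d : ℝ) ^ k =
        x * (m : ℝ) ^ sg v / (d : ℝ) ^ k - x0 * (m : ℝ) ^ sg v / (d : ℝ) ^ k := by ring
    have e3 : x0 / x = (x0 * (m : ℝ) ^ sg v / (d : ℝ) ^ k) / (x * (m : ℝ) ^ sg v / (d : ℝ) ^ k) := by
      field_simp
    have hlow : x0 / (d : ℝ) ^ k ≤ x0 * (m : ℝ) ^ sg v / (d : ℝ) ^ k := by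
      rw [div_le_div_iff_of_pos_right hdk0]
      exact le_mul_of_one_le_right hx0p.le hms
    rw [e2, e3]
    refine cmp34 (hf.nonneg _) (hf.le_one _) ?_ ?_ fun n hn => ?_
    · refine le_trans ?_ hlow
      rw [one_le_div hdk0, hx0, hqe]
      calc (d : ℝ) ^ k ≤ (d : ℝ) ^ (2 * k) := pow_le_pow_right₀ (by linarith) (by omega)
        _ = 1 * 1 * (((d : ℝ) ^ (2 * k) * 1) * (1 * 1)) := by ring
        _ ≤ C' * z * (((d : ℝ) ^ (2 * k) * (m : ℝ) ^ (2 * k)) * ((d : ℝ) ^ (2 * k) * (m : ℝ) ^ (2 * k))) := by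
          gcongr
          linarith
    · rw [mul_div_assoc', div_le_div_iff_of_pos_right hdk0, ← mul_assoc]
      exact mul_le_mul_of_nonneg_right hx0x (by positivity)
    · rw [abs_sub_comm]
      have h4 := hpt (t - k) k n (by omega) (by
        rw [show 2 * k - k = k by omega]
        exact hlow.trans hn)
      have e4 : t - (k : ℤ) - (k : ℤ) = t - ((k + k : ℕ) : ℤ) := by push_cast; ring
      rw [e4] at h4
      exact h4
  have hmid := hflow (f (t - (k + k : ℕ))) (hf.nonneg _) (hf.le_one _) k hk x0 (x - x0) hH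
  -- assembly
  set L := fm (fun n => f (t - (k + k : ℕ)) ((T d m r)^[k + k] n)) x0 (x - x0) with hL
  set R : List ℕ → ℝ := fun v => fm (fun n => f (t - (k + k : ℕ)) ((T d m r)^[k] n)) (x0 * (m : ℝ) ^ sg v / (d : ℝ) ^ k)
      ((x - x0) * (m : ℝ) ^ sg v / (d : ℝ) ^ k) with hR
  set R' : List ℕ → ℝ := fun v => am (f (t - k)) (x * (m : ℝ) ^ sg v / (d : ℝ) ^ k) with hR'
  have hdk0 : (0 : ℝ) < (d : ℝ) ^ k := by positivity
  have hsum : |(∑ v ∈ W d k, R v) / (d : ℝ) ^ k - (∑ v ∈ W d k, R' v) / (d : ℝ) ^ k| ≤ 2 * δ + 2 * (x0 / x) := by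
    rw [← sub_div, ← sum_sub_distrib, abs_div, abs_of_pos hdk0, div_le_iff₀ hdk0]
    calc |∑ v ∈ W d k, (R v - R' v)| ≤ ∑ v ∈ W d k, |R v - R' v| := abs_sum_le_sum_abs _ _
      _ ≤ ∑ v ∈ W d k, (2 * δ + 2 * (x0 / x)) := sum_le_sum fun v hv => hright v hv
      _ = (2 * δ + 2 * (x0 / x)) * (d : ℝ) ^ k := by
        rw [sum_const, card_W, nsmul_eq_mul]
        push_cast
        ring
  have hfin : |am (f t) x - (∑ v ∈ W d k, R' v) / (d : ℝ) ^ k| ≤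
      |L - am (f t) x| + (|L - (∑ v ∈ W d k, R v) / (d : ℝ) ^ k| +
        |(∑ v ∈ W d k, R v) / (d : ℝ) ^ k - (∑ v ∈ W d k, R' v) / (d : ℝ) ^ k|) := by
    rw [abs_sub_comm L (am (f t) x)]
    refine (abs_sub_le _ L _).trans ?_
    gcongr
    exact abs_sub_le _ _ _
  refine hfin.trans ?_
  calc |L - am (f t) x| + (|L - (∑ v ∈ W d k, R v) / (d : ℝ) ^ k| +
        |(∑ v ∈ W d k, R v) / (d : ℝ) ^ k - (∑ v ∈ W d k, R' v) / (d : ℝ) ^ k|)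
      ≤ (2 * δ + 2 * (x0 / x)) + (C0 / (k : ℝ) ^ 8 + (2 * δ + 2 * (x0 / x))) := by gcongr
    _ ≤ (2 * (1 / (k : ℝ) ^ 8) + 2 * (1 / (k : ℝ) ^ 8)) + (C0 / (k : ℝ) ^ 8 + (2 * (1 / (k : ℝ) ^ 8) + 2 * (1 / (k : ℝ) ^ 8))) := by
      gcongr
    _ = (C0 + 8) / (k : ℝ) ^ 8 := by ring
    _ ≤ C / (k : ℝ) ^ 8 := by
      rw [div_le_div_iff_of_pos_right hk8p, hC]
      linarith

/-! ### Elementary facts on `am` -/

theorem am_nonneg {f : ℤ → ℝ} (hf : ∀ n, 0 ≤ f n) {x : ℝ} (hx : 0 ≤ x) : 0 ≤ am f x :=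
  div_nonneg (sum_nonneg fun n _ => hf n) hx

theorem am_mono {f g : ℤ → ℝ} (h : ∀ n : ℤ, 0 < n → f n ≤ g n) {x : ℝ} (hx : 0 ≤ x) : am f x ≤ am g x := by
  unfold am
  refine div_le_div_of_nonneg_right (sum_le_sum fun n hn => h n ?_) hx
  rw [mem_Icc] at hn
  exact_mod_cast hn.1

theorem am_le_one {f : ℤ → ℝ} (hf : ∀ n, f n ≤ 1) {x : ℝ} (hx : 0 ≤ x) : am f x ≤ 1 := by
  unfold am
  refine div_le_one_of_le₀ ?_ hx
  calc ∑ n ∈ Icc 1 ⌊x⌋₊, f (n : ℤ) ≤ ∑ n ∈ Icc 1 ⌊x⌋₊, (1 : ℝ) := sum_le_sum fun n _ => hf n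
    _ = ⌊x⌋₊ := by rw [sum_const, Nat.card_Icc, nsmul_eq_mul, mul_one, Nat.add_sub_cancel]
    _ ≤ x := Nat.floor_le hx

theorem am_add (f g : ℤ → ℝ) (x : ℝ) : am (fun n => f n + g n) x = am f x + am g x := by
  unfold am
  rw [sum_add_distrib, add_div]

theorem am_sub (f g : ℤ → ℝ) (x : ℝ) : am (fun n => f n - g n) x = am f x - am g x := by
  unfold am
  rw [sum_sub_distrib, sub_div]

theorem am_sum {ι : Type} (s : Finset ι) (f : ι → ℤ → ℝ) (x : ℝ) : am (fun n => ∑ i ∈ s, f i n) x = ∑ i ∈ s, am (f i) x := by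
  unfold am
  rw [sum_comm, sum_div]

/-- `x am f x` is monotone. -/
theorem am_mul_mono {f : ℤ → ℝ} (hf : ∀ n, 0 ≤ f n) {x y : ℝ} (hx : 0 < x) (hxy : x ≤ y) : x * am f x ≤ y * am f y := by
  unfold am
  rw [mul_div_cancel₀ _ hx.ne', mul_div_cancel₀ _ (by linarith : y ≠ 0)]
  exact sum_le_sum_of_subset_of_nonneg (Icc_subset_Icc_right (Nat.floor_mono hxy)) fun n _ _ => hf n

theorem am_lip {f : ℤ → ℝ} (hf : ∀ n, 0 ≤ f n) (hf1 : ∀ n, f n ≤ 1) {x y : ℝ} (hx : 0 < x) (hxy : x ≤ y) :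
    |am f y - am f x| ≤ 2 * (y - x) / x + 1 / x := by
  have hy : 0 < y := by linarith
  unfold am
  have hI : ∀ b : ℕ, Icc 1 b = Ioc 0 b := fun b => by ext n; simp only [mem_Icc, mem_Ioc]; omega
  rw [hI, hI]
  have hab : ⌊x⌋₊ ≤ ⌊y⌋₊ := Nat.floor_mono hxy
  have hsplit := sum_Ioc_consecutive (fun n : ℕ => f (n : ℤ)) (Nat.zero_le ⌊x⌋₊) hab
  set Sx := ∑ n ∈ Ioc 0 ⌊x⌋₊, f (n : ℤ) with hSx
  set e := ∑ n ∈ Ioc ⌊x⌋₊ ⌊y⌋₊, f (n : ℤ) with he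
  rw [← hsplit]
  have hfx := Nat.floor_le hx.le
  have hfy := Nat.floor_le hy.le
  have hfx' := Nat.lt_floor_add_one x
  have hS0 : 0 ≤ Sx := sum_nonneg fun n _ => hf n
  have he0 : 0 ≤ e := sum_nonneg fun n _ => hf n
  have hS1 : Sx ≤ x := by
    calc Sx ≤ ∑ n ∈ Ioc 0 ⌊x⌋₊, (1 : ℝ) := sum_le_sum fun n _ => hf1 n
      _ = ⌊x⌋₊ := by rw [sum_const, Nat.card_Ioc, nsmul_eq_mul, mul_one, Nat.sub_zero]
      _ ≤ x := hfx
  have he1 : e ≤ y - x + 1 := by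
    calc e ≤ ∑ n ∈ Ioc ⌊x⌋₊ ⌊y⌋₊, (1 : ℝ) := sum_le_sum fun n _ => hf1 n
      _ = (⌊y⌋₊ : ℝ) - ⌊x⌋₊ := by rw [sum_const, Nat.card_Ioc, nsmul_eq_mul, mul_one, Nat.cast_sub hab]
      _ ≤ y - x + 1 := by linarith
  have e1 : (Sx + e) / y - Sx / x = e / y - Sx * ((y - x) / (x * y)) := by
    field_simp
    ring
  rw [e1]
  have h1 : 0 ≤ e / y := by positivity
  have h2 : e / y ≤ (y - x) / x + 1 / x := by
    rw [← add_div]
    exact div_le_div₀ (by linarith) he1 hx hxy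
  have h3 : 0 ≤ Sx * ((y - x) / (x * y)) := by
    have : 0 ≤ y - x := by linarith
    positivity
  have h4 : Sx * ((y - x) / (x * y)) ≤ (y - x) / x := by
    have h5 : 0 ≤ y - x := by linarith
    calc Sx * ((y - x) / (x * y)) ≤ x * ((y - x) / (x * y)) := by gcongr
      _ = (y - x) / y := by field_simp
      _ ≤ (y - x) / x := by gcongr
  have h5 : 0 ≤ (y - x) / x := div_nonneg (by linarith) hx.le
  have h6 : 0 ≤ 1 / x := by positivity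
  have h7 : 2 * (y - x) / x = 2 * ((y - x) / x) := by ring
  rw [h7, abs_le]
  constructor <;> linarith

end Pool.Agent.Helper8.LL
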