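import Pool.Agent.Helper8.LL.Def

/-!
# LL-A0: the flow for functions

From `SI.flowI` (the flow for sets in intervals `[a, a + H)`, used with `A = 8`). For `0 ≤ g ≤ 1` and `N = k ^ 8` the level sets `G_i = {n : i / N ≤ g n}`,
`1 ≤ i ≤ N`, satisfy `g - 1 / N ≤ (1 / N) ∑_i 1_(G_i) ≤ g`. `flowI` for each `G_i` gives the upper bound of `fm (g ∘ T^(2k))`; the lower bound is
the upper bound for `1 - g` (`fm 1 a H = 1 + O(1/H)`; the intervals of the right side have the length `H m^s / d^k ≥ (d m)^(7k)`). `fm` of the indicator function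
of `G` is `SI.fi G`.
-/

set_option autoImplicit false

namespace Pool.Agent.Helper8.LL

open Pool.Agent.Helper68.Moeller Pool.Agent.Helper52.Tao Pool.Agent.Helper8.ND Pool.Agent.Helper28
  Pool.Agent.Helper91 Finset Filter Topology

variable {d m : ℕ} {r : ℤ → ℤ}

private theorem fi_eq54 (G : Set ℤ) (a H : ℝ) : SI.fi G a H = fm (G.indicator fun _ => (1 : ℝ)) a H := by
  classical
  unfold SI.fi fm
  congr 1
  have e : {n : ℤ | a ≤ n ∧ (n : ℝ) < a + H ∧ n ∈ G} = ↑((Ico ⌈a⌉ ⌈a + H⌉).filter fun n => n ∈ G) := by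
    ext n
    simp only [Set.mem_ofPred_eq, coe_filter, mem_Ico, Int.ceil_le, Int.lt_ceil, and_assoc]
  rw [e, Set.ncard_coe_finset, card_filter]
  push_cast
  refine sum_congr rfl fun n _ => ?_
  rw [Set.indicator_apply]

private theorem lev54 {y : ℝ} (h0 : 0 ≤ y) (h1 : y ≤ 1) {N : ℕ} (hN : 0 < N) :
    (∑ i ∈ Icc 1 N, ({x : ℝ | (i : ℝ) / N ≤ x}.indicator (fun _ => (1 : ℝ)) y)) / N ≤ y ∧
    y ≤ (∑ i ∈ Icc 1 N, ({x : ℝ | (i : ℝ) / N ≤ x}.indicator (fun _ => (1 : ℝ)) y)) / N + 1 / N := by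
  classical
  have hN0 : (0 : ℝ) < N := by exact_mod_cast hN
  have e : ∑ i ∈ Icc 1 N, ({x : ℝ | (i : ℝ) / N ≤ x}.indicator (fun _ => (1 : ℝ)) y) = (⌊(N : ℝ) * y⌋₊ : ℝ) := by
    have e1 : (Icc 1 N).filter (fun i : ℕ => (i : ℝ) / N ≤ y) = Icc 1 ⌊(N : ℝ) * y⌋₊ := by
      ext i
      simp only [mem_filter, mem_Icc]
      rw [div_le_iff₀ hN0, mul_comm y]
      constructor
      · rintro ⟨⟨h2, h3⟩, h4⟩
        exact ⟨h2, Nat.le_floor h4⟩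
      · rintro ⟨h2, h3⟩
        have h4 : (i : ℝ) ≤ (N : ℝ) * y := (Nat.le_floor_iff (by positivity)).1 h3
        refine ⟨⟨h2, ?_⟩, h4⟩
        have h5 : (i : ℝ) ≤ (N : ℝ) := h4.trans (by nlinarith)
        exact_mod_cast h5
    have e2 : ∑ i ∈ Icc 1 N, ({x : ℝ | (i : ℝ) / N ≤ x}.indicator (fun _ => (1 : ℝ)) y) =
        (((Icc 1 N).filter (fun i : ℕ => (i : ℝ) / N ≤ y)).card : ℝ) := by
      rw [card_filter]
      push_cast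
      refine sum_congr rfl fun i _ => ?_
      rw [Set.indicator_apply]
      rfl
    rw [e2, e1, Nat.card_Icc, Nat.add_sub_cancel]
  rw [e]
  constructor
  · rw [div_le_iff₀ hN0, mul_comm y]
    exact Nat.floor_le (by positivity)
  · rw [← add_div, le_div_iff₀ hN0, mul_comm y]
    exact (Nat.lt_floor_add_one _).le

private theorem fm_mono54 {g g' : ℤ → ℝ} (h : ∀ n, g n ≤ g' n) (a : ℝ) {H : ℝ} (hH : 0 ≤ H) : fm g a H ≤ fm g' a H := by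
  unfold fm
  exact div_le_div_of_nonneg_right (sum_le_sum fun n _ => h n) hH

private theorem fm_add54 (g g' : ℤ → ℝ) (a H : ℝ) : fm (fun n => g n + g' n) a H = fm g a H + fm g' a H := by
  unfold fm
  rw [sum_add_distrib, add_div]

private theorem fm_sum54 (N : ℕ) (g : ℕ → ℤ → ℝ) (a H c : ℝ) :
    fm (fun n => (∑ i ∈ Icc 1 N, g i n) / c) a H = (∑ i ∈ Icc 1 N, fm (g i) a H) / c := by
  unfold fm
  rw [← sum_div, sum_comm, ← sum_div]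
  ring

private theorem fm_one54 (a : ℝ) {H : ℝ} (hH : 0 < H) : |fm (fun _ => (1 : ℝ)) a H - 1| ≤ 1 / H := by
  unfold fm
  rw [sum_const, nsmul_eq_mul, mul_one, Int.card_Ico]
  have h1 : ⌈a⌉ ≤ ⌈a + H⌉ := Int.ceil_mono (by linarith)
  have h2 : (((⌈a + H⌉ - ⌈a⌉).toNat : ℕ) : ℝ) = (⌈a + H⌉ : ℝ) - ⌈a⌉ := by
    have h3 : (((⌈a + H⌉ - ⌈a⌉).toNat : ℕ) : ℤ) = ⌈a + H⌉ - ⌈a⌉ := Int.toNat_of_nonneg (by linarith)
    have h4 : ((((⌈a + H⌉ - ⌈a⌉).toNat : ℕ) : ℤ) : ℝ) = ((⌈a + H⌉ - ⌈a⌉ : ℤ) : ℝ) := by rw [h3]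
    push_cast at h4
    exact h4
  rw [h2]
  have h5 := Int.le_ceil a
  have h6 := Int.ceil_lt_add_one a
  have h7 := Int.le_ceil (a + H)
  have h8 := Int.ceil_lt_add_one (a + H)
  have h9 : ((⌈a + H⌉ : ℝ) - ⌈a⌉) / H - 1 = ((⌈a + H⌉ : ℝ) - ⌈a⌉ - H) / H := by
    field_simp
  rw [h9, abs_div, abs_of_pos hH]
  apply div_le_div_of_nonneg_right _ hH.le
  rw [abs_le]
  constructor <;> linarith

private theorem up54 {C : ℝ} {k : ℕ} (hk : 1 ≤ k) {a H : ℝ} (hH : 1 ≤ H) (hd0 : (0 : ℝ) < d) (hm0 : (0 : ℝ) < m)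
    (hf : ∀ G : Set ℤ, SI.fi {n | (T d m r)^[k + k] n ∈ G} a H ≤
      (∑ v ∈ W d k, SI.fi {n | (T d m r)^[k] n ∈ G} (a * (m : ℝ) ^ sg v / (d : ℝ) ^ k) (H * (m : ℝ) ^ sg v / (d : ℝ) ^ k)) /
        (d : ℝ) ^ k + C * (k : ℝ) ^ (-(8 : ℝ)))
    {g : ℤ → ℝ} (h0 : ∀ n, 0 ≤ g n) (h1 : ∀ n, g n ≤ 1) :
    fm (fun n => g ((T d m r)^[k + k] n)) a H ≤
      (∑ v ∈ W d k, fm (fun n => g ((T d m r)^[k] n)) (a * (m : ℝ) ^ sg v / (d : ℝ) ^ k) (H * (m : ℝ) ^ sg v / (d : ℝ) ^ k)) /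
          (d : ℝ) ^ k + (C + 2) / (k : ℝ) ^ 8 := by
  have hN : 0 < k ^ 8 := by positivity
  have hk0 : (0 : ℝ) < k := by exact_mod_cast hk
  have hN0 : (0 : ℝ) < ((k ^ 8 : ℕ) : ℝ) := by exact_mod_cast hN
  have hNe : ((k ^ 8 : ℕ) : ℝ) = (k : ℝ) ^ 8 := by push_cast; rfl
  have hrp : (k : ℝ) ^ (-(8 : ℝ)) = 1 / (k : ℝ) ^ 8 := by
    rw [Real.rpow_neg hk0.le, show (8 : ℝ) = ((8 : ℕ) : ℝ) by norm_num, Real.rpow_natCast, one_div]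
  -- the level sets
  obtain ⟨Gs, hGs⟩ : ∃ Gs : ℕ → Set ℤ, Gs = fun i : ℕ => {n | (i : ℝ) / ((k ^ 8 : ℕ) : ℝ) ≤ g n} := ⟨_, rfl⟩
  have ind : ∀ (i : ℕ) (f : ℤ → ℤ) (n : ℤ), ({n | f n ∈ Gs i}.indicator (fun _ => (1 : ℝ)) n) =
      ({x : ℝ | (i : ℝ) / ((k ^ 8 : ℕ) : ℝ) ≤ x}.indicator (fun _ => (1 : ℝ)) (g (f n))) := by
    classical
    intro i f n
    rw [Set.indicator_apply, Set.indicator_apply, hGs]
    rfl
  -- upper half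
  have s1 : fm (fun n => g ((T d m r)^[k + k] n)) a H ≤
      (∑ i ∈ Icc 1 (k ^ 8), SI.fi {n | (T d m r)^[k + k] n ∈ Gs i} a H) / ((k ^ 8 : ℕ) : ℝ) + 2 / (k : ℝ) ^ 8 := by
    have t1 : fm (fun n => g ((T d m r)^[k + k] n)) a H ≤
        fm (fun n => (∑ i ∈ Icc 1 (k ^ 8), ({n | (T d m r)^[k + k] n ∈ Gs i}.indicator (fun _ => (1 : ℝ)) n)) / ((k ^ 8 : ℕ) : ℝ) +
          1 / ((k ^ 8 : ℕ) : ℝ)) a H := by
      refine fm_mono54 (fun n => ?_) a (by linarith)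
      have := (lev54 (h0 ((T d m r)^[k + k] n)) (h1 ((T d m r)^[k + k] n)) hN).2
      rw [sum_congr rfl fun i _ => ind i ((T d m r)^[k + k]) n]
      exact this
    rw [fm_add54 (fun n => (∑ i ∈ Icc 1 (k ^ 8), ({n | (T d m r)^[k + k] n ∈ Gs i}.indicator (fun _ => (1 : ℝ)) n)) / ((k ^ 8 : ℕ) : ℝ))
      (fun _ => 1 / ((k ^ 8 : ℕ) : ℝ)), fm_sum54] at t1
    have t2 : fm (fun _ => 1 / ((k ^ 8 : ℕ) : ℝ)) a H ≤ 2 / (k : ℝ) ^ 8 := by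
      have t3 : fm (fun _ => 1 / ((k ^ 8 : ℕ) : ℝ)) a H = fm (fun _ => (1 : ℝ)) a H / (k : ℝ) ^ 8 := by
        unfold fm
        rw [sum_const, sum_const, hNe, nsmul_eq_mul, nsmul_eq_mul]
        ring
      rw [t3]
      apply div_le_div_of_nonneg_right _ (by positivity)
      have t4 := (abs_le.1 (fm_one54 a (lt_of_lt_of_le one_pos hH))).2
      have t5 : 1 / H ≤ 1 := by rw [div_le_one (by linarith)]; exact hH
      linarith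
    have t6 : ∑ i ∈ Icc 1 (k ^ 8), SI.fi {n | (T d m r)^[k + k] n ∈ Gs i} a H =
        ∑ i ∈ Icc 1 (k ^ 8), fm ({n | (T d m r)^[k + k] n ∈ Gs i}.indicator (fun _ => (1 : ℝ))) a H :=
      sum_congr rfl fun i _ => fi_eq54 _ _ _
    rw [t6]
    exact t1.trans (add_le_add le_rfl t2)
  -- lower half
  have s2 : ∀ v : List ℕ, (∑ i ∈ Icc 1 (k ^ 8), SI.fi {n | (T d m r)^[k] n ∈ Gs i} (a * (m : ℝ) ^ sg v / (d : ℝ) ^ k)
      (H * (m : ℝ) ^ sg v / (d : ℝ) ^ k)) / ((k ^ 8 : ℕ) : ℝ) ≤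
      fm (fun n => g ((T d m r)^[k] n)) (a * (m : ℝ) ^ sg v / (d : ℝ) ^ k) (H * (m : ℝ) ^ sg v / (d : ℝ) ^ k) := by
    intro v
    have t6 : ∑ i ∈ Icc 1 (k ^ 8), SI.fi {n | (T d m r)^[k] n ∈ Gs i} (a * (m : ℝ) ^ sg v / (d : ℝ) ^ k)
        (H * (m : ℝ) ^ sg v / (d : ℝ) ^ k) =
        ∑ i ∈ Icc 1 (k ^ 8), fm ({n | (T d m r)^[k] n ∈ Gs i}.indicator (fun _ => (1 : ℝ))) (a * (m : ℝ) ^ sg v / (d : ℝ) ^ k)
        (H * (m : ℝ) ^ sg v / (d : ℝ) ^ k) :=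
      sum_congr rfl fun i _ => fi_eq54 _ _ _
    rw [t6, ← fm_sum54]
    refine fm_mono54 (fun n => ?_) _ (by positivity)
    have := (lev54 (h0 ((T d m r)^[k] n)) (h1 ((T d m r)^[k] n)) hN).1
    rw [sum_congr rfl fun i _ => ind i ((T d m r)^[k]) n]
    exact this
  have s3 : (∑ i ∈ Icc 1 (k ^ 8), SI.fi {n | (T d m r)^[k + k] n ∈ Gs i} a H) / ((k ^ 8 : ℕ) : ℝ) ≤
      (∑ i ∈ Icc 1 (k ^ 8), ((∑ v ∈ W d k, SI.fi {n | (T d m r)^[k] n ∈ Gs i} (a * (m : ℝ) ^ sg v / (d : ℝ) ^ k)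
        (H * (m : ℝ) ^ sg v / (d : ℝ) ^ k)) / (d : ℝ) ^ k + C * (k : ℝ) ^ (-(8 : ℝ)))) / ((k ^ 8 : ℕ) : ℝ) :=
    div_le_div_of_nonneg_right (sum_le_sum fun i _ => hf (Gs i)) hN0.le
  have s4 : (∑ i ∈ Icc 1 (k ^ 8), ((∑ v ∈ W d k, SI.fi {n | (T d m r)^[k] n ∈ Gs i} (a * (m : ℝ) ^ sg v / (d : ℝ) ^ k)
        (H * (m : ℝ) ^ sg v / (d : ℝ) ^ k)) / (d : ℝ) ^ k + C * (k : ℝ) ^ (-(8 : ℝ)))) / ((k ^ 8 : ℕ) : ℝ) =
      (∑ v ∈ W d k, (∑ i ∈ Icc 1 (k ^ 8), SI.fi {n | (T d m r)^[k] n ∈ Gs i} (a * (m : ℝ) ^ sg v / (d : ℝ) ^ k)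
        (H * (m : ℝ) ^ sg v / (d : ℝ) ^ k)) / ((k ^ 8 : ℕ) : ℝ)) / (d : ℝ) ^ k + C / (k : ℝ) ^ 8 := by
    rw [sum_add_distrib, sum_const, Nat.card_Icc, Nat.add_sub_cancel, nsmul_eq_mul, add_div, mul_div_cancel_left₀ _ hN0.ne', hrp,
      ← sum_div, sum_comm, ← sum_div]
    ring
  have s5 : (∑ v ∈ W d k, (∑ i ∈ Icc 1 (k ^ 8), SI.fi {n | (T d m r)^[k] n ∈ Gs i} (a * (m : ℝ) ^ sg v / (d : ℝ) ^ k)
        (H * (m : ℝ) ^ sg v / (d : ℝ) ^ k)) / ((k ^ 8 : ℕ) : ℝ)) / (d : ℝ) ^ k ≤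
      (∑ v ∈ W d k, fm (fun n => g ((T d m r)^[k] n)) (a * (m : ℝ) ^ sg v / (d : ℝ) ^ k) (H * (m : ℝ) ^ sg v / (d : ℝ) ^ k)) /
          (d : ℝ) ^ k :=
    div_le_div_of_nonneg_right (sum_le_sum fun v _ => s2 v) (by positivity)
  have e : (C + 2) / (k : ℝ) ^ 8 = C / (k : ℝ) ^ 8 + 2 / (k : ℝ) ^ 8 := add_div _ _ _
  rw [e]
  linarith

theorem fm_flow (h : POSB.Std d m r) : ∃ C : ℝ, 1 ≤ C ∧ ∀ g : ℤ → ℝ, (∀ n, 0 ≤ g n) → (∀ n, g n ≤ 1) →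
    ∀ k : ℕ, 1 ≤ k → ∀ a H : ℝ, C * ((d : ℝ) * m) ^ (8 * k) ≤ H →
      |fm (fun n => g ((T d m r)^[k + k] n)) a H -
        (∑ v ∈ W d k, fm (fun n => g ((T d m r)^[k] n)) (a * (m : ℝ) ^ sg v / (d : ℝ) ^ k) (H * (m : ℝ) ^ sg v / (d : ℝ) ^ k)) /
          (d : ℝ) ^ k| ≤ C / (k : ℝ) ^ 8 := by
  obtain ⟨C₀, hC₀, hflow⟩ := SI.flowI h.hd h.hdm h.hco h.hr h.mix 8
  have hd2 : (2 : ℝ) ≤ d := by exact_mod_cast h.hd
  have hdm : (d : ℝ) < m := by exact_mod_cast h.hdm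
  refine ⟨C₀ + 4, by linarith, fun g h0 h1 k hk a H hH => ?_⟩
  have hk0 : (0 : ℝ) < k := by exact_mod_cast hk
  have hd0 : (0 : ℝ) < d := by linarith
  have hm0 : (0 : ℝ) < m := by linarith
  have hm1 : (1 : ℝ) ≤ m := by linarith
  have hp1 : 1 ≤ ((d : ℝ) * m) ^ (8 * k) := one_le_pow₀ (by nlinarith)
  have hH1 : 1 ≤ H := by nlinarith
  have hH0 : 0 < H := by linarith
  have hHf : C₀ * ((d : ℝ) * m) ^ (8 * k) ≤ H := by nlinarith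
  have hf : ∀ G : Set ℤ, SI.fi {n | (T d m r)^[k + k] n ∈ G} a H ≤
      (∑ v ∈ W d k, SI.fi {n | (T d m r)^[k] n ∈ G} (a * (m : ℝ) ^ sg v / (d : ℝ) ^ k) (H * (m : ℝ) ^ sg v / (d : ℝ) ^ k)) /
        (d : ℝ) ^ k + C₀ * (k : ℝ) ^ (-(8 : ℝ)) := fun G => hflow k hk a H hHf G
  have u1 := up54 hk hH1 hd0 hm0 hf h0 h1
  have u2 := up54 (g := fun n => 1 - g n) hk hH1 hd0 hm0 hf (fun n => by linarith [h1 n]) (fun n => by linarith [h0 n])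
  -- the length of the intervals on the right side
  have hlen : (k : ℝ) ^ 8 * (d : ℝ) ^ k ≤ H := by
    have a1 : (k : ℝ) ≤ (2 : ℝ) ^ k := by exact_mod_cast Nat.lt_two_pow_self.le
    have a2 : (k : ℝ) ^ 8 ≤ ((2 : ℝ) ^ k) ^ 8 := pow_le_pow_left₀ hk0.le a1 8
    have a3 : ((2 : ℝ) ^ k) ^ 8 ≤ (m : ℝ) ^ (8 * k) := by
      rw [← pow_mul, mul_comm k 8]
      exact pow_le_pow_left₀ (by norm_num) (by linarith) _
    have a4 : (d : ℝ) ^ k ≤ (d : ℝ) ^ (8 * k) := pow_le_pow_right₀ (by linarith) (by omega)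
    have a5 : (k : ℝ) ^ 8 * (d : ℝ) ^ k ≤ (m : ℝ) ^ (8 * k) * (d : ℝ) ^ (8 * k) :=
      mul_le_mul (a2.trans a3) a4 (by positivity) (by positivity)
    rw [← mul_pow, mul_comm (m : ℝ)] at a5
    nlinarith
  have hone : ∀ v : List ℕ, |fm (fun _ => (1 : ℝ)) (a * (m : ℝ) ^ sg v / (d : ℝ) ^ k) (H * (m : ℝ) ^ sg v / (d : ℝ) ^ k) - 1| ≤
      1 / (k : ℝ) ^ 8 := by
    intro v
    have b1 : 0 < H * (m : ℝ) ^ sg v / (d : ℝ) ^ k := by positivity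
    refine (fm_one54 _ b1).trans ?_
    apply one_div_le_one_div_of_le (by positivity)
    rw [le_div_iff₀ (by positivity)]
    have b2 : 1 ≤ (m : ℝ) ^ sg v := one_le_pow₀ hm1
    nlinarith
  have hone0 : |fm (fun _ => (1 : ℝ)) a H - 1| ≤ 1 / (k : ℝ) ^ 8 := by
    refine (fm_one54 _ hH0).trans ?_
    apply one_div_le_one_div_of_le (by positivity)
    have b2 : 1 ≤ (d : ℝ) ^ k := one_le_pow₀ (by linarith)
    have b3 : 0 < (k : ℝ) ^ 8 := by positivity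
    nlinarith
  have sub1 : ∀ (f : ℤ → ℤ) (a H : ℝ), fm (fun n => 1 - g (f n)) a H = fm (fun _ => (1 : ℝ)) a H - fm (fun n => g (f n)) a H := by
    intro f a H
    unfold fm
    rw [sum_sub_distrib, sub_div]
  rw [sub1] at u2
  have e1 : (∑ v ∈ W d k, fm (fun n => 1 - g ((T d m r)^[k] n)) (a * (m : ℝ) ^ sg v / (d : ℝ) ^ k)
      (H * (m : ℝ) ^ sg v / (d : ℝ) ^ k)) / (d : ℝ) ^ k =
      (∑ v ∈ W d k, fm (fun _ => (1 : ℝ)) (a * (m : ℝ) ^ sg v / (d : ℝ) ^ k) (H * (m : ℝ) ^ sg v / (d : ℝ) ^ k)) / (d : ℝ) ^ k -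
      (∑ v ∈ W d k, fm (fun n => g ((T d m r)^[k] n)) (a * (m : ℝ) ^ sg v / (d : ℝ) ^ k) (H * (m : ℝ) ^ sg v / (d : ℝ) ^ k)) /
          (d : ℝ) ^ k := by
    rw [← sub_div, ← sum_sub_distrib]
    congr 1
    exact sum_congr rfl fun v _ => sub1 _ _ _
  have e2 : (∑ v ∈ W d k, fm (fun _ => (1 : ℝ)) (a * (m : ℝ) ^ sg v / (d : ℝ) ^ k) (H * (m : ℝ) ^ sg v / (d : ℝ) ^ k)) /
      (d : ℝ) ^ k ≤ 1 + 1 / (k : ℝ) ^ 8 := by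
    rw [div_le_iff₀ (by positivity)]
    have c1 : ∑ v ∈ W d k, fm (fun _ => (1 : ℝ)) (a * (m : ℝ) ^ sg v / (d : ℝ) ^ k) (H * (m : ℝ) ^ sg v / (d : ℝ) ^ k) ≤
        ∑ _v ∈ W d k, (1 + 1 / (k : ℝ) ^ 8) := by
      refine sum_le_sum fun v _ => ?_
      have := (abs_le.1 (hone v)).2
      linarith
    rw [sum_const, card_W, nsmul_eq_mul] at c1
    push_cast at c1
    linarith
  rw [e1] at u2
  have h3 := (abs_le.1 hone0).1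
  have e3 : (C₀ + 4) / (k : ℝ) ^ 8 = (C₀ + 2) / (k : ℝ) ^ 8 + 1 / (k : ℝ) ^ 8 + 1 / (k : ℝ) ^ 8 := by ring
  have h4 : 0 ≤ 1 / (k : ℝ) ^ 8 := by positivity
  rw [e3, abs_le]
  constructor <;> linarith

end Pool.Agent.Helper8.LL
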