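import Pool.Agent.Helper8.LL.A

/-!
# LL-B: the order of the mean of one member of a family

Let `b(k, s) = #{v ∈ W_k : sg v = s} / d^k`. `b(k, s) ≤ 1 / √(k vv)`: `ND.shift_one` with the indicator function of `{· ≤ s}` (in the form for `h : ℤ → ℝ`: `shift_nat`).

Proof of `sup_bound`. `x` large (otherwise `am ≤ 1`), `k = ⌊κ log x⌋` with `κ` so small that all places below are `≥ C z (d m)^(8k)`. `A s := am f_(t-k) (x d^(-k) m^s)`,
`s : ℤ`. By `flow_am` `am f_t x ≤ ∑_s b(k,s) A s + C / k^8 ≤ (1 / √(k vv)) ∑_(0 ≤ s ≤ k) A s + C / k^8`. Claim: `S := ∑_(0 ≤ s ≤ k) A s ≤ C'`. For `k/2 < l ≤ k` the flow (`l` steps)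
at the places `x d^(l-k) m^s'`, `-l ≤ s' ≤ k`, at the time `t - k + l`, summed over `s'`:
`S_l := ∑_(-l ≤ s' ≤ k) am f_(t-k+l) (x d^(l-k) m^s') ≥ S - (k + l + 1) C / l^8` (for `0 ≤ s ≤ k` all `s' = s - j`, `0 ≤ j ≤ l` occur). And
`∑_l S_l = ∑_n ∑_l f_(t-k+l) (n) ∑_(s') 1_(n ≤ X_(l,s')) / X_(l,s') ≤ ∑_(n ≤ Xmax) (m / (m-1)) / max (n, Xmin) ≤ (m / (m-1)) (2 + log (Xmax / Xmin)) ≤ C'' k` by `Dis` (different `l`: different times).
Hence `S ≤ (2 / k) ∑_l S_l + 1 ≤ C'`.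
-/

set_option autoImplicit false

namespace Pool.Agent.Helper8.LL

open Pool.Agent.Helper68.Moeller Pool.Agent.Helper52.Tao Pool.Agent.Helper8.ND Pool.Agent.Helper28
  Pool.Agent.Helper91 Finset Filter Topology

variable {d m : ℕ} {r : ℤ → ℤ}

theorem card_sg_le (hd : 2 ≤ d) {k : ℕ} (hk : 1 ≤ k) (s : ℕ) :
    (((W d k).filter (fun v => sg v = s)).card : ℝ) / (d : ℝ) ^ k ≤ 1 / Real.sqrt (k * vv d) := by
  have hd0 : (0 : ℝ) < (d : ℝ) ^ k := by
    have : (0 : ℝ) < d := by exact_mod_cast (by omega : 0 < d)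
    positivity
  have h1 := shift_one hd hk (h := fun j => if j ≤ s then (1 : ℝ) else 0) (B := 1) (fun j => by
    split_ifs <;> norm_num)
  have h2 : (((W d k).filter (fun v => sg v = s)).card : ℝ) =
      ∑ v ∈ W d k, (if sg v ≤ s then (1 : ℝ) else 0) - ∑ v ∈ W d k, (if sg v + 1 ≤ s then (1 : ℝ) else 0) := by
    rw [← sum_sub_distrib, card_filter]
    push_cast
    refine sum_congr rfl fun v _ => ?_
    by_cases h3 : sg v = s
    · rw [if_pos h3, if_pos h3.le, if_neg (by omega)]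
      norm_num
    · rw [if_neg h3]
      by_cases h4 : sg v ≤ s
      · rw [if_pos h4, if_pos (by omega)]
        norm_num
      · rw [if_neg h4, if_neg (by omega)]
        norm_num
  rw [abs_sub_comm] at h1
  have h3 := (le_abs_self _).trans h1
  rw [← h2] at h3
  rw [div_le_iff₀ hd0]
  refine h3.trans (le_of_eq ?_)
  ring

/-- the average over the words -/
private lemma push80 (hd : 2 ≤ d) {k : ℕ} (hk : 1 ≤ k) {g : ℕ → ℝ} (hg : ∀ s, 0 ≤ g s) :
    (∑ v ∈ W d k, g (sg v)) / (d : ℝ) ^ k ≤ 1 / Real.sqrt (k * vv d) * ∑ s ∈ range (k + 1), g s := by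
  have h1 : ∑ v ∈ W d k, g (sg v) =
      ∑ s ∈ range (k + 1), (((W d k).filter (fun v => sg v = s)).card : ℝ) * g s := by
    rw [← sum_fiberwise_of_maps_to (s := W d k) (t := range (k + 1)) (g := sg) (fun v hv => by
      rw [mem_range]
      have := sg_le_length v
      rw [length_of_mem_W hv] at this
      omega)]
    refine sum_congr rfl fun s _ => ?_
    rw [← nsmul_eq_mul, ← sum_const]
    exact sum_congr rfl fun v hv => by rw [(mem_filter.1 hv).2]
  rw [h1, sum_div, mul_sum]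
  refine sum_le_sum fun s _ => ?_
  rw [mul_div_right_comm]
  exact mul_le_mul_of_nonneg_right (card_sg_le hd hk s) (hg s)

/-- the sum over the places at one time, bounded by the sum over the powers of `m` -/
private lemma place80 (hd : 2 ≤ d) (hdm : d < m) {f : ℤ → ℝ} (hf : ∀ n, 0 ≤ f n) {x : ℝ} (hx : 0 < x) {k l : ℕ}
    (hl : l ≤ k) : ∑ i ∈ range (k + l + 1), am f (x * (d : ℝ) ^ l / (d : ℝ) ^ k * (m : ℝ) ^ i / (m : ℝ) ^ l) ≤
      m * ∑ j ∈ range (3 * k + 2), am f (x / (d : ℝ) ^ k / (m : ℝ) ^ k * (m : ℝ) ^ j) := by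
  have hm : 1 < m := by omega
  have hm0 : (0 : ℝ) < m := by exact_mod_cast (by omega : 0 < m)
  have hd0 : (0 : ℝ) < d := by exact_mod_cast (by omega : 0 < d)
  have hX : 0 < x / (d : ℝ) ^ k / (m : ℝ) ^ k := by positivity
  have c1 : m ^ Nat.log m (d ^ l) ≤ d ^ l := Nat.pow_log_le_self m (by positivity)
  have c2 : d ^ l < m ^ (Nat.log m (d ^ l) + 1) := Nat.lt_pow_succ_log_self hm _
  have c3 : Nat.log m (d ^ l) ≤ l := by
    by_contra hcon
    push Not at hcon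
    have h1 : m ^ (l + 1) ≤ m ^ Nat.log m (d ^ l) := Nat.pow_le_pow_right (by omega) hcon
    have h2 : d ^ l ≤ m ^ l := Nat.pow_le_pow_left hdm.le l
    have h3 : m ^ l < m ^ (l + 1) := Nat.pow_lt_pow_right hm (by omega)
    omega
  obtain ⟨c, hc⟩ : ∃ c, c = Nat.log m (d ^ l) := ⟨_, rfl⟩
  rw [← hc] at c1 c2 c3
  have c1' : (m : ℝ) ^ c ≤ (d : ℝ) ^ l := by exact_mod_cast c1
  have c2' : (d : ℝ) ^ l ≤ (m : ℝ) ^ (c + 1) := by exact_mod_cast c2.le
  have h1 : ∀ i ∈ range (k + l + 1), am f (x * (d : ℝ) ^ l / (d : ℝ) ^ k * (m : ℝ) ^ i / (m : ℝ) ^ l) ≤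
      m * am f (x / (d : ℝ) ^ k / (m : ℝ) ^ k * (m : ℝ) ^ (i + (k - l) + c + 1)) := by
    intro i _
    obtain ⟨y, hy⟩ : ∃ y, y = x * (d : ℝ) ^ l / (d : ℝ) ^ k * (m : ℝ) ^ i / (m : ℝ) ^ l := ⟨_, rfl⟩
    obtain ⟨Y, hY⟩ : ∃ Y, Y = x / (d : ℝ) ^ k / (m : ℝ) ^ k * (m : ℝ) ^ (i + (k - l) + c + 1) := ⟨_, rfl⟩
    rw [← hy, ← hY]
    have ek : (m : ℝ) ^ k = (m : ℝ) ^ (k - l) * (m : ℝ) ^ l := by
      rw [← pow_add]
      congr 1
      omega
    have eY : Y = x / (d : ℝ) ^ k * (m : ℝ) ^ i / (m : ℝ) ^ l * (m : ℝ) ^ (c + 1) := by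
      rw [hY, ek, show i + (k - l) + c + 1 = i + (k - l) + (c + 1) by ring, pow_add, pow_add]
      field_simp
    have ey : y = x / (d : ℝ) ^ k * (m : ℝ) ^ i / (m : ℝ) ^ l * (d : ℝ) ^ l := by
      rw [hy]
      ring
    have hP : 0 < x / (d : ℝ) ^ k * (m : ℝ) ^ i / (m : ℝ) ^ l := by positivity
    have hy0 : 0 < y := by
      rw [ey]
      positivity
    have hyY : y ≤ Y := by
      rw [ey, eY]
      exact mul_le_mul_of_nonneg_left c2' hP.le
    have hYy : Y ≤ m * y := by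
      rw [ey, eY, pow_succ]
      have := mul_le_mul_of_nonneg_left c1' (mul_nonneg hm0.le hP.le)
      linarith
    have h2 := am_mul_mono hf hy0 hyY
    have h3 := am_nonneg hf (hy0.le.trans hyY)
    have h4 : y * am f y ≤ y * (m * am f Y) := by
      refine h2.trans ?_
      have := mul_le_mul_of_nonneg_right hYy h3
      linarith
    exact le_of_mul_le_mul_left h4 hy0
  refine (sum_le_sum h1).trans ?_
  rw [← mul_sum]
  refine mul_le_mul_of_nonneg_left ?_ hm0.le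
  have h5 : ∑ i ∈ range (k + l + 1), am f (x / (d : ℝ) ^ k / (m : ℝ) ^ k * (m : ℝ) ^ (i + (k - l) + c + 1)) =
      ∑ j ∈ (range (k + l + 1)).image (fun i => i + (k - l) + c + 1),
        am f (x / (d : ℝ) ^ k / (m : ℝ) ^ k * (m : ℝ) ^ j) := by
    rw [sum_image]
    intro a _ b _ hab
    simpa using hab
  rw [h5]
  refine sum_le_sum_of_subset_of_nonneg ?_ fun j _ _ => am_nonneg hf (by positivity)
  intro j hj
  obtain ⟨i, hi, rfl⟩ := mem_image.1 hj
  rw [mem_range] at hi ⊢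
  omega

/-- the sum over the places is bounded -/
private lemma sum80 (h : POSB.Std d m r) {C0 : ℝ} (hC0 : 1 ≤ C0)
    (hfl : ∀ (z : ℝ) (f : ℤ → ℤ → ℝ), 1 ≤ z → Fam d m r z f →
      ∀ (t : ℤ) (k : ℕ), 1 ≤ k → ∀ x : ℝ, C0 * z * ((d : ℝ) * m) ^ (8 * k) ≤ x →
      |am (f t) x - (∑ v ∈ W d k, am (f (t - k)) (x * (m : ℝ) ^ sg v / (d : ℝ) ^ k)) / (d : ℝ) ^ k| ≤ C0 / (k : ℝ) ^ 8)
    {z : ℝ} (hz : 1 ≤ z) {f : ℤ → ℤ → ℝ} (hF : Fam d m r z f) (hD : Dis f) {k : ℕ} (hk : 1 ≤ k) {x : ℝ}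
    (hx : C0 * z * ((d : ℝ) * m) ^ (9 * k) ≤ x) (t : ℤ) :
    ∑ s ∈ range (k + 1), am (f (t - k)) (x * (m : ℝ) ^ s / (d : ℝ) ^ k) ≤ 10 * m + 1536 * C0 := by
  have hd0 : (0 : ℝ) < d := by exact_mod_cast (by have := h.hd; omega : 0 < d)
  have hd1 : (1 : ℝ) ≤ d := by exact_mod_cast (by have := h.hd; omega : 1 ≤ d)
  have hm1 : (1 : ℝ) ≤ m := by exact_mod_cast (by have := h.hd; have := h.hdm; omega : 1 ≤ m)
  have hm0 : (0 : ℝ) < m := by linarith
  have hx0 : 0 < x := lt_of_lt_of_le (by positivity) hx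
  have hk0 : (0 : ℝ) < k := by exact_mod_cast hk
  obtain ⟨S, hS⟩ : ∃ S, S = ∑ s ∈ range (k + 1), am (f (t - k)) (x * (m : ℝ) ^ s / (d : ℝ) ^ k) := ⟨_, rfl⟩
  rw [← hS]
  -- one time
  have hone : ∀ l ∈ Icc (k / 2 + 1) k, S ≤ ∑ i ∈ range (k + l + 1), am (f (t - k + l))
      (x * (d : ℝ) ^ l / (d : ℝ) ^ k * (m : ℝ) ^ i / (m : ℝ) ^ l) + 768 * C0 := by
    intro l hl
    rw [mem_Icc] at hl
    have hl1 : 1 ≤ l := by omega
    have hlow : ∀ i ∈ range (k + l + 1), (∑ v ∈ W d l, am (f (t - k))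
        (x / (d : ℝ) ^ k * (m : ℝ) ^ (i + sg v) / (m : ℝ) ^ l)) / (d : ℝ) ^ l - C0 / (l : ℝ) ^ 8 ≤
        am (f (t - k + l)) (x * (d : ℝ) ^ l / (d : ℝ) ^ k * (m : ℝ) ^ i / (m : ℝ) ^ l) := by
      intro i _
      have h1 := hfl z f hz hF (t - k + l) l hl1 (x * (d : ℝ) ^ l / (d : ℝ) ^ k * (m : ℝ) ^ i / (m : ℝ) ^ l) (by
        have e1 : C0 * z * ((d : ℝ) * m) ^ (8 * l) * ((d : ℝ) ^ k * (m : ℝ) ^ l) ≤
            C0 * z * ((d : ℝ) * m) ^ (9 * k) := by
          rw [mul_assoc]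
          refine mul_le_mul_of_nonneg_left ?_ (by positivity)
          have e2 : (d : ℝ) ^ k * (m : ℝ) ^ l ≤ ((d : ℝ) * m) ^ k := by
            rw [mul_pow]
            exact mul_le_mul_of_nonneg_left (pow_le_pow_right₀ hm1 hl.2) (by positivity)
          calc ((d : ℝ) * m) ^ (8 * l) * ((d : ℝ) ^ k * (m : ℝ) ^ l) ≤
              ((d : ℝ) * m) ^ (8 * k) * ((d : ℝ) * m) ^ k := by
                refine mul_le_mul (pow_le_pow_right₀ (by nlinarith) (by omega)) e2 (by positivity)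
                  (by positivity)
            _ = ((d : ℝ) * m) ^ (9 * k) := by
              rw [← pow_add]
              congr 1
              ring
        have e3 : C0 * z * ((d : ℝ) * m) ^ (8 * l) ≤ x / ((d : ℝ) ^ k * (m : ℝ) ^ l) := by
          rw [le_div_iff₀ (by positivity)]
          exact e1.trans hx
        refine e3.trans ?_
        have e4 : x * (d : ℝ) ^ l / (d : ℝ) ^ k * (m : ℝ) ^ i / (m : ℝ) ^ l =
            x / ((d : ℝ) ^ k * (m : ℝ) ^ l) * ((d : ℝ) ^ l * (m : ℝ) ^ i) := by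
          field_simp
        rw [e4]
        refine le_mul_of_one_le_right (by positivity) ?_
        exact one_le_mul_of_one_le_of_one_le (one_le_pow₀ hd1) (one_le_pow₀ hm1))
      have h2 := (abs_le.1 h1).1
      have e5 : ∀ v : List ℕ, x * (d : ℝ) ^ l / (d : ℝ) ^ k * (m : ℝ) ^ i / (m : ℝ) ^ l * (m : ℝ) ^ sg v /
          (d : ℝ) ^ l = x / (d : ℝ) ^ k * (m : ℝ) ^ (i + sg v) / (m : ℝ) ^ l := by
        intro v
        rw [pow_add]
        field_simp
      have e6 : t - (k : ℤ) + l - l = t - k := by ring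
      simp only [e5, e6] at h2
      linarith
    have h3 := sum_le_sum hlow
    rw [sum_sub_distrib, ← sum_div, sum_comm, sum_const, card_range, nsmul_eq_mul] at h3
    have h4 : ∀ v ∈ W d l, S ≤ ∑ i ∈ range (k + l + 1), am (f (t - k))
        (x / (d : ℝ) ^ k * (m : ℝ) ^ (i + sg v) / (m : ℝ) ^ l) := by
      intro v hv
      have hsv : sg v ≤ l := by
        have := sg_le_length v
        rwa [length_of_mem_W hv] at this
      have e7 : S = ∑ i ∈ (range (k + 1)).image (fun s => s + (l - sg v)), am (f (t - k))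
          (x / (d : ℝ) ^ k * (m : ℝ) ^ (i + sg v) / (m : ℝ) ^ l) := by
        rw [sum_image (by
          intro a _ b _ hab
          simpa using hab), hS]
        refine sum_congr rfl fun s _ => ?_
        congr 1
        have e8 : s + (l - sg v) + sg v = s + l := by omega
        rw [e8, pow_add]
        field_simp
      rw [e7]
      refine sum_le_sum_of_subset_of_nonneg ?_ fun j _ _ => am_nonneg (hF.nonneg _) (by positivity)
      intro j hj
      obtain ⟨s, hs, rfl⟩ := mem_image.1 hj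
      rw [mem_range] at hs ⊢
      omega
    have h5 := sum_le_sum h4
    rw [sum_const, card_W, nsmul_eq_mul] at h5
    have h6 : S ≤ (∑ v ∈ W d l, ∑ i ∈ range (k + l + 1), am (f (t - k))
        (x / (d : ℝ) ^ k * (m : ℝ) ^ (i + sg v) / (m : ℝ) ^ l)) / (d : ℝ) ^ l := by
      rw [le_div_iff₀ (by positivity), mul_comm]
      push_cast at h5
      exact h5
    have h7 : ((k + l + 1 : ℕ) : ℝ) * (C0 / (l : ℝ) ^ 8) ≤ 768 * C0 := by
      have hlk : (k : ℝ) ≤ 2 * l := by exact_mod_cast (by omega : k ≤ 2 * l)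
      have hl1' : (1 : ℝ) ≤ l := by exact_mod_cast hl1
      have e9 : ((k + l + 1 : ℕ) : ℝ) ≤ 4 * l := by
        push_cast
        linarith
      have e10 : (l : ℝ) ≤ (l : ℝ) ^ 8 := le_self_pow₀ hl1' (by norm_num)
      calc ((k + l + 1 : ℕ) : ℝ) * (C0 / (l : ℝ) ^ 8) ≤ 4 * l * (C0 / (l : ℝ) ^ 8) :=
            mul_le_mul_of_nonneg_right e9 (by positivity)
        _ = 4 * C0 * (l / (l : ℝ) ^ 8) := by ring
        _ ≤ 4 * C0 * 1 := mul_le_mul_of_nonneg_left (div_le_one_of_le₀ e10 (by positivity)) (by positivity)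
        _ ≤ 768 * C0 := by linarith
    linarith
  -- all times
  have h1 := sum_le_sum hone
  rw [sum_const, nsmul_eq_mul, sum_add_distrib, sum_const, nsmul_eq_mul, Nat.card_Icc] at h1
  have h2 : ∑ l ∈ Icc (k / 2 + 1) k, ∑ i ∈ range (k + l + 1), am (f (t - k + l))
      (x * (d : ℝ) ^ l / (d : ℝ) ^ k * (m : ℝ) ^ i / (m : ℝ) ^ l) ≤ m * ((3 * k + 2 : ℕ) : ℝ) := by
    calc _ ≤ ∑ l ∈ Icc (k / 2 + 1) k, (m : ℝ) * ∑ j ∈ range (3 * k + 2),
          am (f (t - k + l)) (x / (d : ℝ) ^ k / (m : ℝ) ^ k * (m : ℝ) ^ j) :=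
          sum_le_sum fun l hl => place80 h.hd h.hdm (hF.nonneg _) hx0 (mem_Icc.1 hl).2
      _ = m * ∑ j ∈ range (3 * k + 2), ∑ l ∈ Icc (k / 2 + 1) k,
          am (f (t - k + l)) (x / (d : ℝ) ^ k / (m : ℝ) ^ k * (m : ℝ) ^ j) := by
        rw [← mul_sum, sum_comm]
      _ ≤ m * ∑ j ∈ range (3 * k + 2), (1 : ℝ) := by
        refine mul_le_mul_of_nonneg_left (sum_le_sum fun j _ => ?_) hm0.le
        rw [← am_sum (Icc (k / 2 + 1) k) (fun l : ℕ => f (t - k + l))]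
        refine am_le_one (fun n => ?_) (by positivity)
        have e11 : ∑ l ∈ Icc (k / 2 + 1) k, f (t - k + (l : ℤ)) n =
            ∑ u ∈ (Icc (k / 2 + 1) k).image (fun l : ℕ => t - k + (l : ℤ)), f u n := by
          rw [sum_image]
          intro a _ b _ hab
          simpa using hab
        rw [e11]
        exact hD n _
      _ = m * ((3 * k + 2 : ℕ) : ℝ) := by
        rw [sum_const, card_range, nsmul_eq_mul, mul_one]
  have hS0 : 0 ≤ S := by
    rw [hS]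
    exact sum_nonneg fun s _ => am_nonneg (hF.nonneg _) (by positivity)
  have hc1 : (k : ℝ) ≤ 2 * ((k + 1 - (k / 2 + 1) : ℕ) : ℝ) := by
    exact_mod_cast (by omega : k ≤ 2 * (k + 1 - (k / 2 + 1)))
  have hc2 : ((k + 1 - (k / 2 + 1) : ℕ) : ℝ) ≤ k := by
    exact_mod_cast (by omega : k + 1 - (k / 2 + 1) ≤ k)
  have h3 : (k : ℝ) * S ≤ k * (10 * m + 1536 * C0) := by
    have e1 : (k : ℝ) * S ≤ 2 * ((k + 1 - (k / 2 + 1) : ℕ) : ℝ) * S := mul_le_mul_of_nonneg_right hc1 hS0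
    have e2 : ((k + 1 - (k / 2 + 1) : ℕ) : ℝ) * (768 * C0) ≤ k * (768 * C0) :=
      mul_le_mul_of_nonneg_right hc2 (by positivity)
    have e3 : (m : ℝ) * ((3 * k + 2 : ℕ) : ℝ) ≤ 5 * m * k := by
      push_cast
      have : (1 : ℝ) ≤ k := by exact_mod_cast hk
      nlinarith
    linarith
  exact le_of_mul_le_mul_left h3 hk0

theorem sup_bound (h : POSB.Std d m r) {z : ℝ} (hz : 1 ≤ z) : ∃ C : ℝ, 1 ≤ C ∧ ∀ f : ℤ → ℤ → ℝ, Fam d m r z f → Dis f →
    ∀ x : ℝ, 2 ≤ x → ∀ t : ℤ, am (f t) x ≤ C / Real.sqrt (Real.log x) := by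
  obtain ⟨C0, hC0, hfl⟩ := flow_am h
  have hd1 : (1 : ℝ) < d := by exact_mod_cast (by have := h.hd; omega : 1 < d)
  have hm1 : (1 : ℝ) < m := by exact_mod_cast (by have := h.hd; have := h.hdm; omega : 1 < m)
  have hdm1 : (1 : ℝ) < (d : ℝ) * m := by nlinarith
  obtain ⟨Λ, hΛ⟩ : ∃ Λ, Λ = Real.log ((d : ℝ) * m) := ⟨_, rfl⟩
  have hΛ0 : 0 < Λ := by
    rw [hΛ]
    exact Real.log_pos hdm1
  obtain ⟨A, hA⟩ : ∃ A, A = Real.log (C0 * z) := ⟨_, rfl⟩
  have hA0 : 0 ≤ A := by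
    rw [hA]
    exact Real.log_nonneg (by nlinarith)
  have hv := vv_pos h.hd
  obtain ⟨C1, hC1⟩ : ∃ C1 : ℝ, C1 = 10 * m + 1536 * C0 := ⟨_, rfl⟩
  have hC10 : 0 ≤ C1 := by
    rw [hC1]
    positivity
  obtain ⟨κ, hκ⟩ : ∃ κ, κ = 1 / (36 * Λ) := ⟨_, rfl⟩
  have hκ0 : 0 < κ := by
    rw [hκ]
    positivity
  obtain ⟨B, hB⟩ : ∃ B, B = 2 * A + 36 * Λ := ⟨_, rfl⟩
  have hB0 : 0 < B := by
    rw [hB]
    positivity
  refine ⟨1 + C1 / Real.sqrt (κ * vv d) + C0 / Real.sqrt κ + Real.sqrt B, ?_, ?_⟩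
  · have e1 : 0 ≤ C1 / Real.sqrt (κ * vv d) := by positivity
    have e2 : 0 ≤ C0 / Real.sqrt κ := by positivity
    have e3 : 0 ≤ Real.sqrt B := Real.sqrt_nonneg B
    linarith
  intro f hF hD x hx t
  have hx0 : 0 < x := by linarith
  have hl0 : 0 < Real.log x := Real.log_pos (by linarith)
  have hs0 : 0 < Real.sqrt (Real.log x) := Real.sqrt_pos.2 hl0
  have p1 : 0 ≤ C1 / Real.sqrt (κ * vv d) := by positivity
  have p2 : 0 ≤ C0 / Real.sqrt κ := by positivity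
  have p3 : 0 ≤ Real.sqrt B := Real.sqrt_nonneg B
  by_cases hxB : Real.log x < B
  · have h1 := am_le_one (hF.le_one t) hx0.le
    refine h1.trans ?_
    rw [le_div_iff₀ hs0, one_mul]
    have h2 := Real.sqrt_le_sqrt hxB.le
    linarith
  · push Not at hxB
    obtain ⟨k, hk⟩ : ∃ k : ℕ, k = ⌊Real.log x / (18 * Λ)⌋₊ := ⟨_, rfl⟩
    have hk1 : (k : ℝ) ≤ Real.log x / (18 * Λ) := by
      rw [hk]
      exact Nat.floor_le (by positivity)
    have hk2 : Real.log x / (18 * Λ) < k + 1 := by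
      rw [hk]
      exact Nat.lt_floor_add_one _
    have h36 : 36 * Λ ≤ Real.log x := by linarith
    have hq2 : 2 ≤ Real.log x / (18 * Λ) := by
      rw [le_div_iff₀ (by positivity)]
      linarith
    have hk3 : κ * Real.log x ≤ k := by
      have e1 : κ * Real.log x = Real.log x / (18 * Λ) / 2 := by
        rw [hκ]
        field_simp
        norm_num
      rw [e1]
      linarith
    have hkR : (1 : ℝ) < (k : ℝ) + 1 := lt_of_lt_of_le (by norm_num) (hq2.trans hk2.le)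
    have hk4 : 1 ≤ k := by
      by_contra hcon
      have : k = 0 := by omega
      rw [this] at hkR
      norm_num at hkR
    have hkR1 : (1 : ℝ) ≤ k := by exact_mod_cast hk4
    have hxk : C0 * z * ((d : ℝ) * m) ^ (9 * k) ≤ x := by
      have hz0 : 0 < C0 * z := by positivity
      rw [← Real.log_le_log_iff (by positivity) hx0, Real.log_mul hz0.ne' (by positivity), Real.log_pow,
        ← hA, ← hΛ]
      push_cast
      rw [le_div_iff₀ (by positivity)] at hk1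
      linarith
    have hx8 : C0 * z * ((d : ℝ) * m) ^ (8 * k) ≤ x := by
      refine le_trans ?_ hxk
      exact mul_le_mul_of_nonneg_left (pow_le_pow_right₀ hdm1.le (by omega)) (by positivity)
    have h1 := (abs_le.1 (hfl z f hz hF t k hk4 x hx8)).2
    have h2 := push80 h.hd hk4 (g := fun s => am (f (t - k)) (x * (m : ℝ) ^ s / (d : ℝ) ^ k))
      (fun s => am_nonneg (hF.nonneg _) (by positivity))
    have h3 := sum80 h hC0 hfl hz hF hD hk4 hxk t
    rw [← hC1] at h3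
    have h4 : 1 / Real.sqrt (k * vv d) * C1 ≤ C1 / Real.sqrt (κ * vv d) / Real.sqrt (Real.log x) := by
      rw [div_div, ← Real.sqrt_mul (by positivity), one_div_mul_eq_div]
      refine div_le_div_of_nonneg_left hC10 (Real.sqrt_pos.2 (by positivity)) (Real.sqrt_le_sqrt ?_)
      have := mul_le_mul_of_nonneg_right hk3 hv.le
      linarith
    have h5 : C0 / (k : ℝ) ^ 8 ≤ C0 / Real.sqrt κ / Real.sqrt (Real.log x) := by
      rw [div_div, ← Real.sqrt_mul hκ0.le]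
      refine div_le_div_of_nonneg_left (by positivity) (Real.sqrt_pos.2 (by positivity)) ?_
      refine (Real.sqrt_le_sqrt hk3).trans ?_
      rw [Real.sqrt_le_iff]
      refine ⟨by positivity, ?_⟩
      rw [← pow_mul]
      exact le_self_pow₀ hkR1 (by norm_num)
    have h6 : 1 / Real.sqrt (k * vv d) * ∑ s ∈ range (k + 1), am (f (t - k)) (x * (m : ℝ) ^ s / (d : ℝ) ^ k) ≤
        1 / Real.sqrt (k * vv d) * C1 := mul_le_mul_of_nonneg_left h3 (by positivity)
    have h7 : am (f t) x ≤ C1 / Real.sqrt (κ * vv d) / Real.sqrt (Real.log x) +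
        C0 / Real.sqrt κ / Real.sqrt (Real.log x) := by linarith
    refine h7.trans ?_
    rw [← add_div]
    refine div_le_div_of_nonneg_right ?_ hs0.le
    linarith

end Pool.Agent.Helper8.LL
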