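import Pool.Agent.Helper8.LL.B

/-!
# LL-C: the means do not change under the lattice `(log x, t) → (log x + a log d + b log m, t + a)`

`k = ⌊κ log x⌋`, `h s := am f_(t-k) (x m^s / d^k)` (`s : ℤ`; replaced by `0` for `s < -(a + |b|)`), `|h| ≤ B := 2 C / √(log x)` by `sup_bound`. `flow_am` with `k` steps at `(x, t)`:
`am f_t x = d^(-k) ∑_(v ∈ W_k) h (sg v) + O(k^(-8))`; with `k + a` steps at `(x d^a m^b, t + a)`: `= d^(-k-a) ∑_(v ∈ W_(k+a)) h (sg v + b) + O(k^(-8))`. Split the words (`sum_W_add`, `sg (v ++ w) = sg v + sg w`), and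
`ND.shift_int` for each `w ∈ W_a`: `≤ |sg w + b| B / √(k vv) ≤ (a + |b|) C' / log x`.
-/

set_option autoImplicit false

namespace Pool.Agent.Helper8.LL

open Pool.Agent.Helper68.Moeller Pool.Agent.Helper52.Tao Pool.Agent.Helper8.ND Pool.Agent.Helper28
  Pool.Agent.Helper91 Finset Filter Topology

variable {d m : ℕ} {r : ℤ → ℤ}

/-- averages over words of the length `k + a` and `k` -/
private lemma words38 (hd : 2 ≤ d) {k a : ℕ} (hk : 1 ≤ k) (b : ℤ) {hh : ℤ → ℝ} {B : ℝ}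
    (hB : ∀ s, |hh s| ≤ B) :
    |(∑ v ∈ W d (k + a), hh (sg v + b)) / (d : ℝ) ^ (k + a) - (∑ v ∈ W d k, hh (sg v)) / (d : ℝ) ^ k| ≤
      ((a : ℝ) + |(b : ℝ)|) * (B / Real.sqrt (k * vv d)) := by
  have hd2 : (2 : ℝ) ≤ d := by exact_mod_cast hd
  have hd0 : (0 : ℝ) < d := by linarith
  have hv := vv_pos hd
  have hB0 : 0 ≤ B := (abs_nonneg _).trans (hB 0)
  have hk' : (1 : ℝ) ≤ k := by exact_mod_cast hk
  have hs : 0 < Real.sqrt (k * vv d) := Real.sqrt_pos.2 (by positivity)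
  have h1 : ∑ v ∈ W d (k + a), hh (sg v + b) = ∑ w ∈ W d a, ∑ v ∈ W d k, hh (sg v + (sg w + b)) := by
    rw [add_comm k a, sum_W_add]
    refine Finset.sum_congr rfl fun w _ => Finset.sum_congr rfl fun v _ => ?_
    rw [sg_append]
    congr 1
    push_cast
    ring
  have h2 : (∑ v ∈ W d k, hh (sg v)) / (d : ℝ) ^ k =
      (∑ w ∈ W d a, ∑ v ∈ W d k, hh (sg v + 0)) / (d : ℝ) ^ (k + a) := by
    rw [Finset.sum_const, card_W, nsmul_eq_mul, pow_add]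
    push_cast
    simp only [add_zero]
    field_simp
  rw [h1, h2, ← sub_div, ← Finset.sum_sub_distrib, abs_div, abs_of_pos (show (0 : ℝ) < (d : ℝ) ^ (k + a) by positivity),
    div_le_iff₀ (by positivity)]
  calc |∑ w ∈ W d a, (∑ v ∈ W d k, hh (sg v + (sg w + b)) - ∑ v ∈ W d k, hh (sg v + 0))|
      ≤ ∑ w ∈ W d a, |∑ v ∈ W d k, hh (sg v + (sg w + b)) - ∑ v ∈ W d k, hh (sg v + 0)| :=
        Finset.abs_sum_le_sum_abs _ _
    _ ≤ ∑ w ∈ W d a, ((a : ℝ) + |(b : ℝ)|) * (B * (d : ℝ) ^ k / Real.sqrt (k * vv d)) := by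
        refine Finset.sum_le_sum fun w hw => ?_
        refine (shift_int hd hk hB 0 ((sg w : ℤ) + b)).trans ?_
        have h3 : (sg w : ℝ) ≤ a := by
          have h4 := sg_le_length w
          rw [length_of_mem_W hw] at h4
          exact_mod_cast h4
        have h5 : |((((sg w : ℤ) + b : ℤ) : ℝ)) - ((0 : ℤ) : ℝ)| ≤ (a : ℝ) + |(b : ℝ)| := by
          push_cast
          rw [sub_zero]
          calc |(sg w : ℝ) + (b : ℝ)| ≤ |(sg w : ℝ)| + |(b : ℝ)| := abs_add_le _ _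
            _ ≤ (a : ℝ) + |(b : ℝ)| := by rw [Nat.abs_cast]; linarith
        exact mul_le_mul_of_nonneg_right h5 (by positivity)
    _ = ((a : ℝ) + |(b : ℝ)|) * (B / Real.sqrt (k * vv d)) * (d : ℝ) ^ (k + a) := by
        rw [Finset.sum_const, card_W, nsmul_eq_mul, pow_add]
        push_cast
        field_simp

private lemma logx38 {x : ℝ} (hx : 0 < x) (hd : 0 < (d : ℝ)) (hm : 0 < (m : ℝ)) (a : ℕ) (b : ℤ) :
    Real.log (x * (d : ℝ) ^ a * (m : ℝ) ^ b) = Real.log x + a * Real.log d + b * Real.log m := by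
  have h1 : 0 < (d : ℝ) ^ a := pow_pos hd a
  have h2 : 0 < (m : ℝ) ^ b := zpow_pos hm b
  rw [Real.log_mul (mul_pos hx h1).ne' h2.ne', Real.log_mul hx.ne' h1.ne', Real.log_pow, Real.log_zpow]

private lemma logy38 {x : ℝ} (hx : 0 < x) (hd : 0 < (d : ℝ)) (hm : 0 < (m : ℝ)) (k : ℕ) (s : ℤ) :
    Real.log (x * (m : ℝ) ^ s / (d : ℝ) ^ k) = Real.log x + s * Real.log m - k * Real.log d := by
  have h1 : 0 < (d : ℝ) ^ k := pow_pos hd k
  have h2 : 0 < (m : ℝ) ^ s := zpow_pos hm s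
  rw [Real.log_div (mul_pos hx h2).ne' h1.ne', Real.log_mul hx.ne' h2.ne', Real.log_pow, Real.log_zpow]

private lemma logp38 {c : ℝ} (hc : 0 < c) (hd : 0 < (d : ℝ)) (hm : 0 < (m : ℝ)) (n : ℕ) :
    Real.log (c * ((d : ℝ) * m) ^ (8 * n)) = Real.log c + 8 * n * Real.log ((d : ℝ) * m) := by
  have h1 : 0 < ((d : ℝ) * m) ^ (8 * n) := pow_pos (mul_pos hd hm) _
  rw [Real.log_mul hc.ne' h1.ne', Real.log_pow]
  push_cast
  ring

/-- the two places of the flow -/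
private lemma place38 {x : ℝ} (hd : 0 < (d : ℝ)) (hm : 0 < (m : ℝ)) (k a : ℕ) (b : ℤ) (n : ℕ) :
    x * (d : ℝ) ^ a * (m : ℝ) ^ b * (m : ℝ) ^ n / (d : ℝ) ^ (k + a) = x * (m : ℝ) ^ ((n : ℤ) + b) / (d : ℝ) ^ k := by
  have h1 : (d : ℝ) ^ k ≠ 0 := (pow_pos hd k).ne'
  have h2 : (d : ℝ) ^ a ≠ 0 := (pow_pos hd a).ne'
  rw [zpow_add₀ hm.ne', zpow_natCast, pow_add, div_eq_div_iff (mul_ne_zero h1 h2) h1]
  ring

/-- the final estimate of the error -/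
private lemma err38 {κ Λ v C1 C2 C k a b : ℝ} (hκ : 0 < κ) (hΛ : 1 ≤ Λ) (hv : 0 < v) (hC1 : 1 ≤ C1) (hC2 : 1 ≤ C2)
    (hk : κ * Λ / 2 ≤ k) (ha : 0 ≤ a) (hb : 0 ≤ b)
    (hCa : 4 * C1 / κ ≤ C) (hCb : 2 * C2 / Real.sqrt (κ * v) ≤ C) :
    (a + b) * (C2 / Real.sqrt (Λ / 2) / Real.sqrt (k * v)) + 2 * (C1 / k) ≤ C * (a + b + 1) / Λ := by
  have hΛ0 : 0 < Λ := by linarith
  have hs0 : 0 < Real.sqrt (κ * v) := Real.sqrt_pos.2 (mul_pos hκ hv)
  have hk0 : 0 < κ * Λ / 2 := by positivity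
  have t3 : C1 / k ≤ 2 * C1 / κ / Λ := by
    calc C1 / k ≤ C1 / (κ * Λ / 2) := div_le_div_of_nonneg_left (by linarith) hk0 hk
      _ = 2 * C1 / κ / Λ := by field_simp
  have t4 : C2 / Real.sqrt (Λ / 2) / Real.sqrt (k * v) ≤ 2 * C2 / Real.sqrt (κ * v) / Λ := by
    have h1 : Real.sqrt (κ * Λ / 2 * v) ≤ Real.sqrt (k * v) :=
      Real.sqrt_le_sqrt (mul_le_mul_of_nonneg_right hk hv.le)
    have h2 : Real.sqrt (Λ / 2) * Real.sqrt (κ * Λ / 2 * v) = Real.sqrt (κ * v) * (Λ / 2) := by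
      rw [← Real.sqrt_mul (by linarith), show Λ / 2 * (κ * Λ / 2 * v) = (κ * v) * (Λ / 2) ^ 2 by ring,
        Real.sqrt_mul (mul_pos hκ hv).le, Real.sqrt_sq (by linarith)]
    have h3 : 0 < Real.sqrt (Λ / 2) := Real.sqrt_pos.2 (by linarith)
    have h4 : 0 < Real.sqrt (κ * Λ / 2 * v) := Real.sqrt_pos.2 (mul_pos hk0 hv)
    calc C2 / Real.sqrt (Λ / 2) / Real.sqrt (k * v) ≤ C2 / Real.sqrt (Λ / 2) / Real.sqrt (κ * Λ / 2 * v) :=
          div_le_div_of_nonneg_left (div_nonneg (by linarith) h3.le) h4 h1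
      _ = C2 / (Real.sqrt (κ * v) * (Λ / 2)) := by rw [div_div, h2]
      _ = 2 * C2 / Real.sqrt (κ * v) / Λ := by field_simp
  have t5 := mul_le_mul_of_nonneg_left t4 (show 0 ≤ a + b by linarith)
  have t6 : (a + b) * (2 * C2 / Real.sqrt (κ * v) / Λ) + 2 * (2 * C1 / κ / Λ) =
      ((a + b) * (2 * C2 / Real.sqrt (κ * v)) + 4 * C1 / κ) / Λ := by
    field_simp
    ring
  have t7 : ((a + b) * (2 * C2 / Real.sqrt (κ * v)) + 4 * C1 / κ) / Λ ≤ C * (a + b + 1) / Λ := by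
    refine div_le_div_of_nonneg_right ?_ hΛ0.le
    have h4 := mul_le_mul_of_nonneg_left hCb (show 0 ≤ a + b by linarith)
    nlinarith
  linarith

theorem shift (h : POSB.Std d m r) {z : ℝ} (hz : 1 ≤ z) : ∃ C : ℝ, 1 ≤ C ∧ ∀ f : ℤ → ℤ → ℝ, Fam d m r z f → Dis f →
    ∀ x : ℝ, 1 ≤ x → C ≤ Real.log x → ∀ (t : ℤ) (a : ℕ) (b : ℤ), C * ((a : ℝ) + |(b : ℝ)|) ≤ Real.log x →
      |am (f t) x - am (f (t + a)) (x * (d : ℝ) ^ a * (m : ℝ) ^ b)| ≤ C * ((a : ℝ) + |(b : ℝ)| + 1) / Real.log x := by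
  obtain ⟨C1, hC1, hflow⟩ := flow_am h
  obtain ⟨C2, hC2, hsup⟩ := sup_bound h hz
  have hd := h.hd
  have hdm := h.hdm
  have hd2 : (2 : ℝ) ≤ d := by exact_mod_cast hd
  have hm2 : (2 : ℝ) < m := by
    have : (d : ℝ) < m := by exact_mod_cast hdm
    linarith
  have hd0 : (0 : ℝ) < d := by linarith
  have hm0 : (0 : ℝ) < m := by linarith
  have hdm1 : (1 : ℝ) < (d : ℝ) * m := by nlinarith
  have hlogdm : Real.log ((d : ℝ) * m) = Real.log d + Real.log m := Real.log_mul hd0.ne' hm0.ne'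
  have hld : 0 < Real.log d := Real.log_pos (by linarith)
  have hlm : 0 < Real.log m := Real.log_pos (by linarith)
  obtain ⟨D, hD⟩ : ∃ D, D = Real.log ((d : ℝ) * m) := ⟨_, rfl⟩
  have hD0 : 0 < D := by rw [hD, hlogdm]; linarith
  obtain ⟨κ, hκ⟩ : ∃ κ, κ = 1 / (32 * D) := ⟨_, rfl⟩
  have hκ0 : 0 < κ := by rw [hκ]; positivity
  have hv := vv_pos hd
  have hC1z : 1 ≤ C1 * z := by nlinarith
  have hC1z0 : 0 < C1 * z := by linarith
  have hlC : 0 ≤ Real.log (C1 * z) := Real.log_nonneg hC1z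
  have hl2 : 0 ≤ Real.log 2 := Real.log_nonneg one_le_two
  have hs0 : 0 < Real.sqrt (κ * vv d) := Real.sqrt_pos.2 (mul_pos hκ0 hv)
  have p1 : 0 < 2 / κ := by positivity
  have p2 : 0 < 4 * C1 / κ := by positivity
  have p3 : 0 < 2 * C2 / Real.sqrt (κ * vv d) := by positivity
  obtain ⟨C, hC⟩ : ∃ C, C = 1 + 4 * Real.log (C1 * z) + 4 * Real.log 2 + 2 / κ + 32 * D + 4 * C1 / κ +
    2 * C2 / Real.sqrt (κ * vv d) := ⟨_, rfl⟩
  refine ⟨C, by linarith, fun f hf hdis x hx hCx t a b hab => ?_⟩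
  obtain ⟨Λ, hΛ⟩ : ∃ Λ, Λ = Real.log x := ⟨_, rfl⟩
  rw [← hΛ] at hCx hab ⊢
  have hx0 : 0 < x := by linarith
  have hΛ1 : 1 ≤ Λ := by linarith
  have hb0 : 0 ≤ |(b : ℝ)| := abs_nonneg _
  have ha0 : (0 : ℝ) ≤ a := Nat.cast_nonneg _
  have hab' : 32 * D * ((a : ℝ) + |(b : ℝ)|) ≤ Λ :=
    (mul_le_mul_of_nonneg_right (by linarith) (by linarith)).trans hab
  obtain ⟨k, hk⟩ : ∃ k, k = ⌊κ * Λ⌋₊ := ⟨_, rfl⟩
  have hκΛ : 2 ≤ κ * Λ := by
    have h1 : 2 / κ ≤ Λ := by linarith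
    rw [div_le_iff₀ hκ0] at h1
    linarith
  have hkle : (k : ℝ) ≤ κ * Λ := by rw [hk]; exact Nat.floor_le (by linarith)
  have hkge : κ * Λ / 2 ≤ k := by
    have h1 : κ * Λ < k + 1 := by rw [hk]; exact Nat.lt_floor_add_one _
    linarith
  have hk1' : (1 : ℝ) ≤ k := by linarith
  have hk1 : 1 ≤ k := by exact_mod_cast hk1'
  have hkD : 32 * D * k ≤ Λ := by
    calc 32 * D * k ≤ 32 * D * (κ * Λ) := mul_le_mul_of_nonneg_left hkle (by positivity)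
      _ = Λ := by rw [hκ]; field_simp
  have q1 : |(b : ℝ)| * Real.log m ≤ |(b : ℝ)| * D :=
    mul_le_mul_of_nonneg_left (by rw [hD, hlogdm]; linarith) hb0
  have q2 : 0 ≤ (a : ℝ) * Real.log d := mul_nonneg ha0 hld.le
  have q3 : 0 ≤ |(b : ℝ)| * D := mul_nonneg hb0 hD0.le
  have q4 : 0 ≤ (a : ℝ) * D := mul_nonneg ha0 hD0.le
  have q5 : (k : ℝ) * Real.log d ≤ k * D :=
    mul_le_mul_of_nonneg_left (by rw [hD, hlogdm]; linarith) (by linarith)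
  have q6 : 32 * (a * D) + 32 * (|(b : ℝ)| * D) ≤ Λ := by nlinarith
  have q7 : 32 * ((k : ℝ) * D) ≤ Λ := by nlinarith
  have q8 : ∀ s : ℤ, -|b| ≤ s → -(|(b : ℝ)| * D) ≤ s * Real.log m := by
    intro s hs
    have hs' : -|(b : ℝ)| ≤ (s : ℝ) := by exact_mod_cast hs
    have h2 : -|(b : ℝ)| * Real.log m ≤ s * Real.log m := mul_le_mul_of_nonneg_right hs' hlm.le
    linarith
  -- the two flows
  have hf1 := hflow z f hz hf t k hk1 x (by
    rw [← Real.log_le_log_iff (by positivity) hx0, logp38 hC1z0 hd0 hm0, ← hD, ← hΛ]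
    linarith)
  have hx2 : 0 < x * (d : ℝ) ^ a * (m : ℝ) ^ b := by positivity
  have q9 := q8 b (neg_abs_le b)
  have hf2 := hflow z f hz hf (t + a) (k + a) (by omega) (x * (d : ℝ) ^ a * (m : ℝ) ^ b) (by
    rw [← Real.log_le_log_iff (by positivity) hx2, logp38 hC1z0 hd0 hm0, logx38 hx0 hd0 hm0, ← hD, ← hΛ]
    push_cast
    linarith)
  -- the function of the number of odd steps
  obtain ⟨hh, hhh⟩ : ∃ hh : ℤ → ℝ, hh = fun s => if -|b| ≤ s then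
    am (f (t - k)) (x * (m : ℝ) ^ s / (d : ℝ) ^ k) else 0 := ⟨_, rfl⟩
  have hB : ∀ s, |hh s| ≤ C2 / Real.sqrt (Λ / 2) := by
    intro s
    rw [hhh]
    dsimp only
    have h1 : 0 < Real.sqrt (Λ / 2) := Real.sqrt_pos.2 (by linarith)
    split_ifs with hs
    · have hy0 : 0 < x * (m : ℝ) ^ s / (d : ℝ) ^ k := by positivity
      have hly : Λ / 2 ≤ Real.log (x * (m : ℝ) ^ s / (d : ℝ) ^ k) := by
        rw [logy38 hx0 hd0 hm0, ← hΛ]
        have := q8 s hs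
        linarith
      have hy2 : 2 ≤ x * (m : ℝ) ^ s / (d : ℝ) ^ k := by
        rw [← Real.log_le_log_iff two_pos hy0]
        linarith
      rw [abs_of_nonneg (am_nonneg (hf.nonneg _) hy0.le)]
      exact (hsup f hf hdis _ hy2 _).trans (div_le_div_of_nonneg_left (by linarith) h1 (Real.sqrt_le_sqrt hly))
    · rw [abs_zero]
      exact div_nonneg (by linarith) h1.le
  have e1 : ∀ v ∈ W d k, am (f (t - k)) (x * (m : ℝ) ^ sg v / (d : ℝ) ^ k) = hh (sg v) := by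
    intro v _
    rw [hhh]
    dsimp only
    rw [if_pos (by have := abs_nonneg b; omega), zpow_natCast]
  have e2 : ∀ v ∈ W d (k + a), am (f (t + a - ((k + a : ℕ) : ℤ))) (x * (d : ℝ) ^ a * (m : ℝ) ^ b * (m : ℝ) ^ sg v /
      (d : ℝ) ^ (k + a)) = hh (sg v + b) := by
    intro v _
    rw [hhh]
    dsimp only
    rw [if_pos (by have := neg_abs_le b; omega), place38 hd0 hm0]
    have g1 : t + a - ((k + a : ℕ) : ℤ) = t - k := by push_cast; ring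
    rw [g1]
  rw [Finset.sum_congr rfl e1] at hf1
  rw [Finset.sum_congr rfl e2] at hf2
  have hw := words38 hd (k := k) (a := a) hk1 b hB
  -- the errors
  have t1 : C1 / (k : ℝ) ^ 8 ≤ C1 / k := by
    refine div_le_div_of_nonneg_left (by linarith) (by linarith) ?_
    calc (k : ℝ) = (k : ℝ) ^ 1 := (pow_one _).symm
      _ ≤ (k : ℝ) ^ 8 := pow_le_pow_right₀ hk1' (by norm_num)
  have t2 : C1 / ((k + a : ℕ) : ℝ) ^ 8 ≤ C1 / (k : ℝ) ^ 8 := by
    refine div_le_div_of_nonneg_left (by linarith) (by positivity) ?_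
    push_cast
    exact pow_le_pow_left₀ (by linarith) (by linarith) 8
  have t6 := err38 (C := C) hκ0 hΛ1 hv hC1 hC2 hkge ha0 hb0 (by linarith) (by linarith)
  have f1 := abs_le.1 hf1
  have f2 := abs_le.1 hf2
  have f3 := abs_le.1 hw
  rw [abs_le]
  constructor <;> linarith [f1.1, f1.2, f2.1, f2.2, f3.1, f3.2]

end Pool.Agent.Helper8.LL
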