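import Pool.Agent.Helper8.LL.A

/-!
# LL-D: elementary summations

`ident`: exchange the sums; for `n ≤ x / m^R` all `b` occur, for `x / m^R < n ≤ x m^R` the `b ≥ b₀ = ⌈(log n - log x) / log m⌉`; geometric series;
`x^(-1) m^(-b₀) = n^(-1) m^(-{(log x - log n) / log m})`.
`sum_div_le`: the pieces `(X₂ / e^(j+1), X₂ / e^j]`: `∑ g n / n ≤ e am g (X₂ / e^j)`.
`abel`: `N am g N - (N-1) am g (N-1) = g N`, so `g N / N = am g N - am g (N-1) + am g (N-1) / N`; induction.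
-/

set_option autoImplicit false

namespace Pool.Agent.Helper8.LL

open Pool.Agent.Helper68.Moeller Pool.Agent.Helper52.Tao Pool.Agent.Helper8.ND Pool.Agent.Helper28
  Pool.Agent.Helper91 Finset Filter Topology

variable {d m : ℕ} {r : ℤ → ℤ}

private theorem geo57 {q : ℝ} (hq : 1 < q) (a : ℤ) (k : ℕ) :
    ∑ b ∈ Icc a (a + k), q ^ (-b) = (q ^ (1 - a) - q ^ (-(a + k))) / (q - 1) := by
  have hq0 : q ≠ 0 := by positivity
  have hq1 : q - 1 ≠ 0 := by linarith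
  induction k with
  | zero =>
    simp only [Nat.cast_zero, add_zero, Icc_self, sum_singleton]
    rw [eq_div_iff hq1, sub_eq_add_neg 1 a, zpow_add₀ hq0, zpow_one]
    ring
  | succ k ih =>
    have h1 : Icc a (a + ((k + 1 : ℕ) : ℤ)) = insert (a + ((k + 1 : ℕ) : ℤ)) (Icc a (a + k)) := by
      ext b
      simp only [mem_Icc, mem_insert, Nat.cast_succ]
      omega
    rw [h1, sum_insert (by simp), ih]
    rw [eq_div_iff hq1, add_mul, div_mul_cancel₀ _ hq1]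
    have h2 : q ^ (-(a + (k : ℤ))) = q ^ (-(a + ((k + 1 : ℕ) : ℤ))) * q := by
      rw [← zpow_add_one₀ hq0]
      congr 1
      push_cast
      ring
    rw [h2]
    ring

private theorem am_if57 (g : ℤ → ℝ) {X : ℝ} (hX : 0 ≤ X) {N : ℕ} (hN : X < N + 1) :
    am g X = ∑ n ∈ Icc 1 N, g (n : ℤ) * (if (n : ℝ) ≤ X then X⁻¹ else 0) := by
  unfold am
  rw [div_eq_mul_inv, sum_mul]
  simp only [mul_ite, mul_zero]
  rw [← sum_filter]
  refine sum_congr ?_ fun _ _ => rfl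
  ext n
  simp only [mem_Icc, mem_filter]
  rw [Nat.le_floor_iff hX]
  constructor
  · rintro ⟨h1, h2⟩
    refine ⟨⟨h1, ?_⟩, h2⟩
    have : (n : ℝ) < N + 1 := lt_of_le_of_lt h2 hN
    have h3 : n < N + 1 := by exact_mod_cast this
    omega
  · rintro ⟨⟨h1, _⟩, h2⟩
    exact ⟨h1, h2⟩

/-- The coefficient of one integer. -/
private theorem coef57 (hm : 2 ≤ m) {x : ℝ} (hx : 0 < x) (R : ℕ) {n : ℕ} (hn : 1 ≤ n) (hn2 : (n : ℝ) ≤ x * (m : ℝ) ^ R) :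
    ∑ b ∈ Icc (-(R : ℤ)) R, (if (n : ℝ) ≤ x * (m : ℝ) ^ b then (x * (m : ℝ) ^ b)⁻¹ else 0) =
      (m : ℝ) / (m - 1) * ((if x / (m : ℝ) ^ R < n then
          (m : ℝ) ^ (-Int.fract ((Real.log x - Real.log n) / Real.log m)) / n else 0) +
        (if (n : ℝ) ≤ x / (m : ℝ) ^ R then (x / (m : ℝ) ^ R)⁻¹ else 0) - (x * (m : ℝ) ^ R)⁻¹ / m) := by
  have hm2 : (2 : ℝ) ≤ m := by exact_mod_cast hm
  have hm0 : (0 : ℝ) < m := by linarith
  have hm1 : (1 : ℝ) < m := by linarith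
  have hmne : (m : ℝ) ≠ 0 := hm0.ne'
  have hn0 : (0 : ℝ) < n := by exact_mod_cast hn
  have hlm : 0 < Real.log m := Real.log_pos hm1
  -- the sum over `b ≥ a`
  have key : ∀ a : ℤ, -(R : ℤ) ≤ a → a ≤ R → (∀ b ∈ Icc (-(R : ℤ)) R, ((n : ℝ) ≤ x * (m : ℝ) ^ b ↔ a ≤ b)) →
      ∑ b ∈ Icc (-(R : ℤ)) R, (if (n : ℝ) ≤ x * (m : ℝ) ^ b then (x * (m : ℝ) ^ b)⁻¹ else 0) =
        (m : ℝ) / (m - 1) * (x⁻¹ * (m : ℝ) ^ (-a) - (x * (m : ℝ) ^ R)⁻¹ / m) := by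
    intro a ha1 ha2 hab
    have h1 : ∑ b ∈ Icc (-(R : ℤ)) R, (if (n : ℝ) ≤ x * (m : ℝ) ^ b then (x * (m : ℝ) ^ b)⁻¹ else 0) =
        ∑ b ∈ Icc a (a + ((R - a).toNat : ℤ)), x⁻¹ * (m : ℝ) ^ (-b) := by
      have h2 : Icc a (a + ((R - a).toNat : ℤ)) = (Icc (-(R : ℤ)) R).filter (fun b => a ≤ b) := by
        ext b
        simp only [mem_Icc, mem_filter]
        omega
      rw [h2, sum_filter]
      refine sum_congr rfl fun b hb => ?_
      have h3 := hab b hb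
      by_cases h4 : a ≤ b
      · rw [if_pos (h3.mpr h4), if_pos h4, mul_inv, zpow_neg]
      · rw [if_neg (fun h => h4 (h3.mp h)), if_neg h4]
    rw [h1, ← mul_sum, geo57 hm1]
    have h5 : a + ((R - a).toNat : ℤ) = R := by omega
    rw [h5, sub_eq_add_neg 1 a, zpow_add₀ hmne, zpow_one, zpow_neg (m : ℝ) (R : ℤ), zpow_natCast]
    have h6 : (m : ℝ) - 1 ≠ 0 := by linarith
    have h7 : (m : ℝ) ^ R ≠ 0 := by positivity
    field_simp
  by_cases hc : (n : ℝ) ≤ x / (m : ℝ) ^ R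
  · rw [if_neg (not_lt.mpr hc), if_pos hc]
    rw [key (-(R : ℤ)) le_rfl (by omega)]
    · rw [neg_neg, zpow_natCast]
      congr 1
      congr 1
      rw [zero_add, inv_div, div_eq_mul_inv]
      ring
    · intro b hb
      rw [mem_Icc] at hb
      refine ⟨fun _ => hb.1, fun h => hc.trans ?_⟩
      rw [div_eq_mul_inv, ← zpow_natCast, ← zpow_neg]
      exact mul_le_mul_of_nonneg_left (zpow_le_zpow_right₀ hm1.le h) hx.le
  · push Not at hc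
    rw [if_pos hc, if_neg (not_le.mpr hc), add_zero]
    set y : ℝ := (Real.log x - Real.log n) / Real.log m with hy
    have hiff : ∀ b : ℤ, ((n : ℝ) ≤ x * (m : ℝ) ^ b ↔ -⌊y⌋ ≤ b) := by
      intro b
      have h1 : ((n : ℝ) ≤ x * (m : ℝ) ^ b) ↔ Real.log n ≤ Real.log x + b * Real.log m := by
        rw [← Real.log_zpow, ← Real.log_mul hx.ne' (by positivity)]
        exact (Real.log_le_log_iff hn0 (by positivity)).symm
      rw [h1, neg_le, Int.le_floor, hy, le_div_iff₀ hlm]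
      push_cast
      constructor <;> intro h <;> linarith
    have hlo : -(R : ℤ) ≤ -⌊y⌋ := by
      by_contra hcon
      push Not at hcon
      have h1 : -⌊y⌋ ≤ -(R : ℤ) := hcon.le
      have h2 := (hiff (-(R : ℤ))).mpr h1
      rw [zpow_neg, zpow_natCast, ← div_eq_mul_inv] at h2
      linarith
    have hhi : -⌊y⌋ ≤ (R : ℤ) := by
      rw [← hiff, zpow_natCast]
      exact hn2
    rw [key (-⌊y⌋) hlo hhi fun b _ => hiff b, neg_neg]
    congr 2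
    have h8 : (m : ℝ) ^ (-Int.fract y) = (m : ℝ) ^ (⌊y⌋ : ℤ) * (m : ℝ) ^ (-y) := by
      rw [← Real.rpow_intCast, ← Real.rpow_add hm0]
      congr 1
      rw [Int.fract]
      ring
    have h9 : (m : ℝ) ^ (-y) = n / x := by
      rw [Real.rpow_def_of_pos hm0, hy]
      have : Real.log m * -((Real.log x - Real.log n) / Real.log m) = Real.log n - Real.log x := by
        field_simp
        ring
      rw [this, Real.exp_sub, Real.exp_log hn0, Real.exp_log hx]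
    rw [h8, h9]
    field_simp

theorem ident (hm : 2 ≤ m) (g : ℤ → ℝ) {x : ℝ} (hx : 0 < x) (R : ℕ) :
    ∑ b ∈ Icc (-(R : ℤ)) R, am g (x * (m : ℝ) ^ b) =
      (m : ℝ) / (m - 1) * (∑ n ∈ Ioc ⌊x / (m : ℝ) ^ R⌋₊ ⌊x * (m : ℝ) ^ R⌋₊,
          g (n : ℤ) / n * (m : ℝ) ^ (-Int.fract ((Real.log x - Real.log n) / Real.log m)) +
        am g (x / (m : ℝ) ^ R) - am g (x * (m : ℝ) ^ R) / m) := by
  have hm2 : (2 : ℝ) ≤ m := by exact_mod_cast hm
  have hm0 : (0 : ℝ) < m := by linarith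
  have hm1 : (1 : ℝ) ≤ m := by linarith
  set N : ℕ := ⌊x * (m : ℝ) ^ R⌋₊ with hN
  have hNlt : x * (m : ℝ) ^ R < N + 1 := Nat.lt_floor_add_one _
  have hle : ∀ b ∈ Icc (-(R : ℤ)) R, x * (m : ℝ) ^ b < N + 1 := by
    intro b hb
    rw [mem_Icc] at hb
    refine lt_of_le_of_lt (mul_le_mul_of_nonneg_left ?_ hx.le) hNlt
    rw [← zpow_natCast]
    exact zpow_le_zpow_right₀ hm1 hb.2
  have h1 : ∑ b ∈ Icc (-(R : ℤ)) R, am g (x * (m : ℝ) ^ b) =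
      ∑ n ∈ Icc 1 N, g (n : ℤ) *
        ∑ b ∈ Icc (-(R : ℤ)) R, (if (n : ℝ) ≤ x * (m : ℝ) ^ b then (x * (m : ℝ) ^ b)⁻¹ else 0) := by
    rw [sum_congr rfl fun b hb => am_if57 g (by positivity) (hle b hb), sum_comm]
    refine sum_congr rfl fun n _ => ?_
    rw [mul_sum]
  have h2 : am g (x / (m : ℝ) ^ R) =
      ∑ n ∈ Icc 1 N, g (n : ℤ) * (if (n : ℝ) ≤ x / (m : ℝ) ^ R then (x / (m : ℝ) ^ R)⁻¹ else 0) := by
    refine am_if57 g (by positivity) ?_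
    have := hle (-(R : ℤ)) (by simp)
    rwa [zpow_neg, zpow_natCast, ← div_eq_mul_inv] at this
  have h3 : am g (x * (m : ℝ) ^ R) = ∑ n ∈ Icc 1 N, g (n : ℤ) * (x * (m : ℝ) ^ R)⁻¹ := by
    unfold am
    rw [div_eq_mul_inv, sum_mul]
  have h4 : ∑ n ∈ Ioc ⌊x / (m : ℝ) ^ R⌋₊ N,
      g (n : ℤ) / n * (m : ℝ) ^ (-Int.fract ((Real.log x - Real.log n) / Real.log m)) =
      ∑ n ∈ Icc 1 N, g (n : ℤ) * (if x / (m : ℝ) ^ R < n then
          (m : ℝ) ^ (-Int.fract ((Real.log x - Real.log n) / Real.log m)) / n else 0) := by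
    simp only [mul_ite, mul_zero]
    rw [← sum_filter]
    refine sum_congr ?_ fun n _ => ?_
    · ext n
      simp only [mem_Ioc, mem_Icc, mem_filter]
      rw [Nat.floor_lt (by positivity)]
      constructor
      · rintro ⟨h5, h6⟩
        have : (0 : ℝ) < n := lt_of_le_of_lt (by positivity) h5
        have h7 : 0 < n := by exact_mod_cast this
        exact ⟨⟨h7, h6⟩, h5⟩
      · rintro ⟨⟨_, h6⟩, h5⟩
        exact ⟨h5, h6⟩
    · ring
  rw [h1, h2, h3, h4, sum_div, ← sum_add_distrib, ← sum_sub_distrib, mul_sum]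
  refine sum_congr rfl fun n hn => ?_
  rw [mem_Icc] at hn
  rw [coef57 hm hx R hn.1 ((Nat.le_floor_iff (by positivity)).mp hn.2)]
  ring

private theorem am_nonneg57 {g : ℤ → ℝ} (hg : ∀ n, 0 ≤ g n) {X : ℝ} (hX : 0 ≤ X) : 0 ≤ am g X :=
  div_nonneg (sum_nonneg fun _ _ => hg _) hX

private theorem piece57 {g : ℤ → ℝ} (hg : ∀ n, 0 ≤ g n) {X₁ X₂ B : ℝ} (h1 : 0 < X₁) (h2 : X₁ ≤ X₂)
    (h3 : X₂ ≤ 3 * X₁) (hB : am g X₂ ≤ B) : ∑ n ∈ Ioc ⌊X₁⌋₊ ⌊X₂⌋₊, g (n : ℤ) / n ≤ 3 * B := by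
  have hX2 : 0 < X₂ := by linarith
  calc ∑ n ∈ Ioc ⌊X₁⌋₊ ⌊X₂⌋₊, g (n : ℤ) / n
      ≤ ∑ n ∈ Ioc ⌊X₁⌋₊ ⌊X₂⌋₊, g (n : ℤ) / X₁ := by
        refine sum_le_sum fun n hn => ?_
        rw [mem_Ioc, Nat.floor_lt h1.le] at hn
        exact div_le_div_of_nonneg_left (hg _) h1 hn.1.le
    _ ≤ ∑ n ∈ Icc 1 ⌊X₂⌋₊, g (n : ℤ) / X₁ := by
        refine sum_le_sum_of_subset_of_nonneg ?_ fun _ _ _ => div_nonneg (hg _) h1.le
        intro n hn
        rw [mem_Ioc] at hn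
        rw [mem_Icc]
        omega
    _ = X₂ / X₁ * am g X₂ := by
        unfold am
        rw [← sum_div]
        field_simp
    _ ≤ 3 * B := by
        refine mul_le_mul ?_ hB (am_nonneg57 hg hX2.le) (by norm_num)
        rw [div_le_iff₀ h1]
        exact h3

theorem sum_div_le {g : ℤ → ℝ} (hg : ∀ n, 0 ≤ g n) {X₁ X₂ B : ℝ} (h1 : 0 < X₁) (h2 : X₁ ≤ X₂)
    (hB : ∀ X : ℝ, X₁ ≤ X → X ≤ X₂ → am g X ≤ B) :
    ∑ n ∈ Ioc ⌊X₁⌋₊ ⌊X₂⌋₊, g (n : ℤ) / n ≤ 3 * (1 + Real.log (X₂ / X₁)) * B := by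
  have main : ∀ k : ℕ, ∀ X₂ : ℝ, X₁ ≤ X₂ → X₂ ≤ X₁ * Real.exp k → (∀ X : ℝ, X₁ ≤ X → X ≤ X₂ → am g X ≤ B) →
      ∑ n ∈ Ioc ⌊X₁⌋₊ ⌊X₂⌋₊, g (n : ℤ) / n ≤ 3 * (1 + Real.log (X₂ / X₁)) * B := by
    intro k
    induction k with
    | zero =>
      intro X₂ h2 h3 hB
      have h4 : X₂ = X₁ := by
        rw [Nat.cast_zero, Real.exp_zero, mul_one] at h3
        exact le_antisymm h3 h2
      subst h4
      have hB0 : 0 ≤ B := (am_nonneg57 hg h1.le).trans (hB _ le_rfl le_rfl)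
      rw [Ioc_self, sum_empty, div_self h1.ne', Real.log_one]
      linarith
    | succ k ih =>
      intro X₂ h2 h3 hB
      have hX2 : 0 < X₂ := by linarith
      have hB0 : 0 ≤ B := (am_nonneg57 hg hX2.le).trans (hB _ h2 le_rfl)
      have he1 : Real.exp 1 < 3 := Real.exp_one_lt_d9.trans (by norm_num)
      have he0 : 1 < Real.exp 1 := by
        rw [← Real.exp_zero]
        exact Real.exp_lt_exp.mpr (by norm_num)
      have hlog0 : 0 ≤ Real.log (X₂ / X₁) := Real.log_nonneg (by rw [le_div_iff₀ h1]; linarith)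
      by_cases h4 : X₂ / Real.exp 1 < X₁
      · have h5 : X₂ ≤ 3 * X₁ := by
          rw [div_lt_iff₀ (Real.exp_pos 1)] at h4
          nlinarith
        refine (piece57 hg h1 h2 h5 (hB _ h2 le_rfl)).trans ?_
        refine mul_le_mul_of_nonneg_right ?_ hB0
        linarith
      · push Not at h4
        set Y : ℝ := X₂ / Real.exp 1 with hY
        have hYX : Y ≤ X₂ := div_le_self hX2.le he0.le
        have hY0 : 0 < Y := by linarith
        have h5 : Y ≤ X₁ * Real.exp k := by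
          rw [hY, div_le_iff₀ (Real.exp_pos 1), mul_assoc, ← Real.exp_add]
          exact_mod_cast h3
        have h6 := ih Y h4 h5 fun X hX1 hX2 => hB X hX1 (hX2.trans hYX)
        have h7 : ∑ n ∈ Ioc ⌊X₁⌋₊ ⌊X₂⌋₊, g (n : ℤ) / n =
            ∑ n ∈ Ioc ⌊X₁⌋₊ ⌊Y⌋₊, g (n : ℤ) / n + ∑ n ∈ Ioc ⌊Y⌋₊ ⌊X₂⌋₊, g (n : ℤ) / n := by
          have hfl1 : ⌊X₁⌋₊ ≤ ⌊Y⌋₊ := Nat.floor_le_floor h4
          have hfl2 : ⌊Y⌋₊ ≤ ⌊X₂⌋₊ := Nat.floor_le_floor hYX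
          rw [← Ioc_union_Ioc_eq_Ioc hfl1 hfl2, sum_union]
          rw [disjoint_left]
          intro n hn1 hn2
          rw [mem_Ioc] at hn1 hn2
          omega
        have h8 : Real.log (X₂ / X₁) = Real.log (Y / X₁) + 1 := by
          rw [hY, div_right_comm, Real.log_div (by positivity) (Real.exp_pos 1).ne', Real.log_exp]
          ring
        have h9 := piece57 hg hY0 hYX (by
          rw [hY]
          have : X₂ = X₂ / Real.exp 1 * Real.exp 1 := by field_simp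
          nlinarith) (hB _ h2 le_rfl)
        rw [h7, h8]
        linarith
  refine main ⌈Real.log (X₂ / X₁)⌉₊ X₂ h2 ?_ hB
  have h3 : Real.log (X₂ / X₁) ≤ ⌈Real.log (X₂ / X₁)⌉₊ := Nat.le_ceil _
  have h4 : X₂ = X₁ * Real.exp (Real.log (X₂ / X₁)) := by
    rw [Real.exp_log (by have : 0 < X₂ := by linarith
                         positivity)]
    field_simp
  calc X₂ = X₁ * Real.exp (Real.log (X₂ / X₁)) := h4
    _ ≤ _ := mul_le_mul_of_nonneg_left (Real.exp_le_exp.mpr h3) h1.le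

private theorem am_nat57 (g : ℤ → ℝ) (N : ℕ) : (N : ℝ) * am g N = ∑ n ∈ Icc 1 N, g (n : ℤ) := by
  unfold am
  rw [Nat.floor_natCast]
  rcases Nat.eq_zero_or_pos N with h | h
  · subst h
    simp
  · field_simp

private theorem step57 (g : ℤ → ℝ) (N : ℕ) :
    g ((N + 1 : ℕ) : ℤ) / ((N + 1 : ℕ) : ℝ) = am g ((N + 1 : ℕ) : ℝ) - am g (N : ℝ) + am g (N : ℝ) / ((N + 1 : ℕ) : ℝ) := by
  have h1 := am_nat57 g N
  have h2 := am_nat57 g (N + 1)
  rw [sum_Icc_succ_top (by omega), ← h1] at h2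
  have h3 : ((N + 1 : ℕ) : ℝ) ≠ 0 := by positivity
  have h4 : g ((N + 1 : ℕ) : ℤ) = ((N + 1 : ℕ) : ℝ) * am g ((N + 1 : ℕ) : ℝ) - N * am g N := by linarith
  rw [h4]
  field_simp
  push_cast
  ring

private theorem abel_nat57 (g : ℤ → ℝ) {c ε : ℝ} {N₀ : ℕ} (hε : 0 ≤ ε) :
    ∀ k : ℕ, (∀ j : ℕ, N₀ ≤ j → j ≤ N₀ + k → |am g (j : ℝ) - c| ≤ ε) →
      |∑ n ∈ Ioc N₀ (N₀ + k), g (n : ℤ) / n - (am g ((N₀ + k : ℕ) : ℝ) - am g (N₀ : ℝ)) -
        c * ∑ n ∈ Ioc N₀ (N₀ + k), ((n : ℝ))⁻¹| ≤ ε * ∑ n ∈ Ioc N₀ (N₀ + k), ((n : ℝ))⁻¹ := by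
  intro k
  induction k with
  | zero =>
    intro _
    simp
  | succ k ih =>
    intro h
    have h1 := ih fun j hj1 hj2 => h j hj1 (by omega)
    have h2 : Ioc N₀ (N₀ + (k + 1)) = insert (N₀ + k + 1) (Ioc N₀ (N₀ + k)) := by
      ext j
      simp only [mem_Ioc, mem_insert]
      omega
    have h3 : (N₀ + k + 1) ∉ Ioc N₀ (N₀ + k) := by simp
    rw [h2, sum_insert h3, sum_insert h3, ← add_assoc, step57]
    have h4 := h (N₀ + k) (by omega) (by omega)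
    have h5 : (0 : ℝ) ≤ (((N₀ + k + 1 : ℕ) : ℝ))⁻¹ := by positivity
    have h6 : |(am g ((N₀ + k : ℕ) : ℝ) - c) * (((N₀ + k + 1 : ℕ) : ℝ))⁻¹| ≤ ε * (((N₀ + k + 1 : ℕ) : ℝ))⁻¹ := by
      rw [abs_mul, abs_of_nonneg h5]
      exact mul_le_mul_of_nonneg_right h4 h5
    rw [abs_le] at h1 h6 ⊢
    rw [div_eq_mul_inv (am g ((N₀ + k : ℕ) : ℝ))]
    constructor <;> nlinarith [h1.1, h1.2, h6.1, h6.2]

private theorem harm57 (N₀ : ℕ) (hN : 1 ≤ N₀) : ∀ k : ℕ,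
    Real.log ((N₀ + k + 1) / (N₀ + 1)) ≤ ∑ n ∈ Ioc N₀ (N₀ + k), ((n : ℝ))⁻¹ ∧
      ∑ n ∈ Ioc N₀ (N₀ + k), ((n : ℝ))⁻¹ ≤ Real.log ((N₀ + k) / N₀) := by
  have hN0 : (0 : ℝ) < N₀ := by exact_mod_cast hN
  intro k
  induction k with
  | zero =>
    simp only [Nat.cast_zero, add_zero, Ioc_self, sum_empty]
    rw [div_self (by positivity), div_self (by positivity), Real.log_one]
    exact ⟨le_rfl, le_rfl⟩
  | succ k ih =>
    have h2 : Ioc N₀ (N₀ + (k + 1)) = insert (N₀ + k + 1) (Ioc N₀ (N₀ + k)) := by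
      ext j
      simp only [mem_Ioc, mem_insert]
      omega
    have h3 : (N₀ + k + 1) ∉ Ioc N₀ (N₀ + k) := by simp
    rw [h2, sum_insert h3]
    have hk : (0 : ℝ) < N₀ + k := by positivity
    have hk1 : (0 : ℝ) < N₀ + k + 1 := by positivity
    have h4 : Real.log ((N₀ + k + 1 + 1) / (N₀ + k + 1)) ≤ ((N₀ : ℝ) + k + 1)⁻¹ := by
      have h5 : ((N₀ : ℝ) + k + 1 + 1) / (N₀ + k + 1) = 1 + ((N₀ : ℝ) + k + 1)⁻¹ := by field_simp
      rw [h5]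
      have := Real.log_le_sub_one_of_pos (x := 1 + ((N₀ : ℝ) + k + 1)⁻¹) (by positivity)
      linarith
    have h6 : ((N₀ : ℝ) + k + 1)⁻¹ ≤ Real.log ((N₀ + k + 1) / (N₀ + k)) := by
      have h7 : Real.log ((N₀ + k) / (N₀ + k + 1)) ≤ -((N₀ : ℝ) + k + 1)⁻¹ := by
        have h8 := Real.log_le_sub_one_of_pos (x := ((N₀ : ℝ) + k) / (N₀ + k + 1)) (by positivity)
        have h9 : ((N₀ : ℝ) + k) / (N₀ + k + 1) - 1 = -((N₀ : ℝ) + k + 1)⁻¹ := by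
          field_simp
          ring
        linarith
      have h10 : Real.log ((N₀ + k + 1) / (N₀ + k)) = -Real.log (((N₀ : ℝ) + k) / (N₀ + k + 1)) := by
        rw [← Real.log_inv, inv_div]
      linarith
    have e1 : Real.log (((N₀ : ℝ) + ((k + 1 : ℕ) : ℝ) + 1) / (N₀ + 1)) =
        Real.log ((N₀ + k + 1) / (N₀ + 1)) + Real.log ((N₀ + k + 1 + 1) / (N₀ + k + 1)) := by
      rw [← Real.log_mul (by positivity) (by positivity)]
      congr 1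
      push_cast
      field_simp
      ring
    have e2 : Real.log (((N₀ : ℝ) + ((k + 1 : ℕ) : ℝ)) / N₀) =
        Real.log ((N₀ + k) / N₀) + Real.log ((N₀ + k + 1) / (N₀ + k)) := by
      rw [← Real.log_mul (by positivity) (by positivity)]
      congr 1
      push_cast
      field_simp
      ring
    have e3 : (((N₀ + k + 1 : ℕ) : ℝ))⁻¹ = ((N₀ : ℝ) + k + 1)⁻¹ := by push_cast; rfl
    rw [e1, e2, e3]
    constructor
    · linarith [ih.1]
    · linarith [ih.2]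

theorem abel {g : ℤ → ℝ} {X₁ X₂ c ε : ℝ} (h1 : 2 ≤ X₁) (h2 : X₁ ≤ X₂) (hc0 : 0 ≤ c) (hc1 : c ≤ 1) (hε : 0 ≤ ε)
    (h : ∀ X : ℝ, X₁ / 2 ≤ X → X ≤ X₂ → |am g X - c| ≤ ε) :
    |∑ n ∈ Ioc ⌊X₁⌋₊ ⌊X₂⌋₊, g (n : ℤ) / n - c * Real.log (X₂ / X₁)| ≤ 4 * ε * (1 + Real.log (X₂ / X₁)) + 4 / X₁ := by
  have hX1 : 0 < X₁ := by linarith
  have hX2 : 0 < X₂ := by linarith
  obtain ⟨k, hk⟩ : ∃ k : ℕ, ⌊X₂⌋₊ = ⌊X₁⌋₊ + k := ⟨⌊X₂⌋₊ - ⌊X₁⌋₊, by
    have := Nat.floor_le_floor h2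
    omega⟩
  set N₀ : ℕ := ⌊X₁⌋₊ with hN0
  have a1 : (N₀ : ℝ) ≤ X₁ := Nat.floor_le hX1.le
  have a2 : X₁ < N₀ + 1 := Nat.lt_floor_add_one _
  have a3 : ((N₀ : ℝ) + k) ≤ X₂ := by
    have := Nat.floor_le hX2.le
    rw [hk] at this
    exact_mod_cast this
  have a4 : X₂ < (N₀ : ℝ) + k + 1 := by
    have := Nat.lt_floor_add_one X₂
    rw [hk] at this
    exact_mod_cast this
  have a5 : X₁ / 2 ≤ N₀ := by linarith
  have a6 : (0 : ℝ) < N₀ := by linarith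
  have a7 : 1 ≤ N₀ := by exact_mod_cast a6
  have hin : ∀ j : ℕ, N₀ ≤ j → j ≤ N₀ + k → |am g (j : ℝ) - c| ≤ ε := by
    intro j hj1 hj2
    have hj1' : (N₀ : ℝ) ≤ j := by exact_mod_cast hj1
    have hj2' : (j : ℝ) ≤ N₀ + k := by exact_mod_cast hj2
    exact h j (by linarith) (by linarith)
  have hb := abel_nat57 g hε k hin
  obtain ⟨hh1, hh2⟩ := harm57 N₀ a7 k
  rw [hk]
  set H : ℝ := ∑ n ∈ Ioc N₀ (N₀ + k), ((n : ℝ))⁻¹ with hH
  have b1 := hin N₀ le_rfl (by omega)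
  have b2 := hin (N₀ + k) (by omega) le_rfl
  have hlog0 : 0 ≤ Real.log (X₂ / X₁) := Real.log_nonneg (by rw [le_div_iff₀ hX1]; linarith)
  -- the harmonic sum
  have c1 : H ≤ Real.log (X₂ / X₁) + 2 / X₁ := by
    have d1 : Real.log ((N₀ + k) / N₀) ≤ Real.log (X₂ / X₁ * (X₁ / N₀)) := by
      refine Real.log_le_log (by positivity) ?_
      rw [div_mul_div_cancel₀ hX1.ne']
      gcongr
    rw [Real.log_mul (by positivity) (by positivity)] at d1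
    have d2 : Real.log (X₁ / N₀) ≤ X₁ / N₀ - 1 := Real.log_le_sub_one_of_pos (by positivity)
    have d3 : X₁ / N₀ - 1 ≤ 2 / X₁ := by
      rw [div_sub_one a6.ne', div_le_div_iff₀ a6 hX1]
      nlinarith
    linarith
  have c2 : Real.log (X₂ / X₁) - 2 / X₁ ≤ H := by
    have d1 : Real.log (X₂ / X₁ * (X₁ / (N₀ + 1))) ≤ Real.log ((N₀ + k + 1) / (N₀ + 1)) := by
      refine Real.log_le_log (by positivity) ?_
      rw [div_mul_div_cancel₀ hX1.ne']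
      gcongr
    rw [Real.log_mul (by positivity) (by positivity)] at d1
    have d2 : -(1 / X₁) ≤ Real.log (X₁ / (N₀ + 1)) := by
      have e1 : Real.log ((N₀ + 1) / X₁) ≤ (N₀ + 1) / X₁ - 1 := Real.log_le_sub_one_of_pos (by positivity)
      have e2 : Real.log (X₁ / (N₀ + 1)) = -Real.log ((N₀ + 1) / X₁) := by
        rw [← Real.log_inv, inv_div]
      have e3 : ((N₀ : ℝ) + 1) / X₁ - 1 ≤ 1 / X₁ := by
        rw [div_sub_one hX1.ne']
        gcongr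
        linarith
      linarith
    have d3 : (1 : ℝ) / X₁ ≤ 2 / X₁ := by gcongr; norm_num
    linarith
  have hinv : 2 / X₁ ≤ 1 := by rw [div_le_one hX1]; exact h1
  have hinv0 : 0 < 2 / X₁ := by positivity
  have h4eq : 4 / X₁ = 2 * (2 / X₁) := by ring
  have hH0 : 0 ≤ H := sum_nonneg fun _ _ => by positivity
  have c3 : |c * H - c * Real.log (X₂ / X₁)| ≤ 2 / X₁ := by
    rw [← mul_sub, abs_mul, abs_of_nonneg hc0]
    have : |H - Real.log (X₂ / X₁)| ≤ 2 / X₁ := by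
      rw [abs_le]
      constructor <;> linarith
    calc c * |H - Real.log (X₂ / X₁)| ≤ 1 * (2 / X₁) :=
          mul_le_mul hc1 this (abs_nonneg _) (by norm_num)
      _ = _ := one_mul _
  have c4 : ε * H ≤ ε * (Real.log (X₂ / X₁) + 1) := mul_le_mul_of_nonneg_left (by linarith) hε
  have c5 : 0 ≤ ε * Real.log (X₂ / X₁) := mul_nonneg hε hlog0
  rw [h4eq]
  rw [abs_le] at hb b1 b2 c3 ⊢
  constructor
  · nlinarith [hb.1, b1.1, b1.2, b2.1, b2.2, c3.1]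
  · nlinarith [hb.2, b1.1, b1.2, b2.1, b2.2, c3.2]

end Pool.Agent.Helper8.LL
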