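import Pool.Agent.Helper28.POSB.Inv
import Pool.Agent.Helper8.SI.F
import Pool.Agent.Helper8.ST.Lim

/-!
# A local limit theorem for the heights: definitions

`F` a set of integers which is bounded above, `Ht F t n`: the orbit of `n` is in `F` at the time `t` and not before. Aim (`E`): uniformly in `t`
`#{n ≤ x : Ht F t n} = x / (σ √(log x)) (φ(u) W(z) + o(1))`, `u = (t - log x / γ) / (σ √(log x))`, `z = (log x - t log d) / log m`, with a continuous
function `W` of period `1`, `W(z) = m log m / (m - 1)` times the mean value of `m ^ (-{z - pos})` over the integers with a height `t`,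
`pos = (log n - t log d) / log m`.
-/

set_option autoImplicit false

namespace Pool.Agent.Helper8.LL

open Pool.Agent.Helper68.Moeller Pool.Agent.Helper52.Tao Pool.Agent.Helper8.ND Pool.Agent.Helper28
  Pool.Agent.Helper91 Finset Filter Topology

/-- The mean of `f` over the positive integers `≤ x`. -/
noncomputable def am (f : ℤ → ℝ) (x : ℝ) : ℝ := (∑ n ∈ Icc 1 ⌊x⌋₊, f (n : ℤ)) / x

/-- The limit of the means. -/
noncomputable def mean (f : ℤ → ℝ) : ℝ := limUnder atTop (am f)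

/-- The mean of `g` over the integers of `[a, a + H)`. -/
noncomputable def fm (g : ℤ → ℝ) (a H : ℝ) : ℝ := (∑ n ∈ Ico ⌈a⌉ ⌈a + H⌉, g n) / H

/-- A family of functions with `f_(t+1) (n) = f_t (T n)` for `n > z`, up to `z / n`. -/
structure Fam (d m : ℕ) (r : ℤ → ℤ) (z : ℝ) (f : ℤ → ℤ → ℝ) : Prop where
  nonneg : ∀ t n, 0 ≤ f t n
  le_one : ∀ t n, f t n ≤ 1
  step : ∀ t n : ℤ, z < n → |f (t + 1) n - f t (T d m r n)| ≤ z / n

/-- At most one of the times. -/
def Dis (f : ℤ → ℤ → ℝ) : Prop := ∀ (n : ℤ) (s : Finset ℤ), ∑ t ∈ s, f t n ≤ 1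

/-- `n` has the height `t`. -/
def Ht (d m : ℕ) (r : ℤ → ℤ) (F : Set ℤ) (t n : ℤ) : Prop :=
  ∃ k : ℕ, (k : ℤ) = t ∧ (T d m r)^[k] n ∈ F ∧ ∀ i < k, (T d m r)^[i] n ∉ F

/-- The position of an integer `n` of the height `t` (on the circle `ℝ / ℤ`). -/
noncomputable def pos (d m : ℕ) (t n : ℤ) : ℝ := (Real.log n - t * Real.log d) / Real.log m

/-- `ψ (pos n)`, for the integers of the height `t`. -/
noncomputable def ex (d m : ℕ) (r : ℤ → ℤ) (F : Set ℤ) (ψ : ℝ → ℝ) (t n : ℤ) : ℝ := by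
  classical exact if Ht d m r F t n then ψ (pos d m t n) else 0

/-- `ψ (pos n)`, for the integers of a height `≤ s`. -/
noncomputable def up (d m : ℕ) (r : ℤ → ℤ) (F : Set ℤ) (ψ : ℝ → ℝ) (s n : ℤ) : ℝ :=
  ∑ t ∈ Icc 0 s, ex d m r F ψ t n

/-- `ψ (pos n)`, for all integers which have a height. -/
noncomputable def al (d m : ℕ) (r : ℤ → ℤ) (F : Set ℤ) (ψ : ℝ → ℝ) (n : ℤ) : ℝ := by
  classical exact if h : ∃ t : ℤ, Ht d m r F t n then ψ (pos d m h.choose n) else 0

/-- Weights on the circle. -/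
structure Wt (ψ : ℝ → ℝ) : Prop where
  nonneg : ∀ y, 0 ≤ ψ y
  le_one : ∀ y, ψ y ≤ 1
  per : ∀ y, ψ (y + 1) = ψ y

/-- Weights with the Lipschitz constant `L`. -/
structure Tst (L : ℝ) (ψ : ℝ → ℝ) : Prop extends Wt ψ where
  lip : ∀ y y', |ψ y - ψ y'| ≤ L * |y - y'|

/-- The weight `m ^ (-{z - y})`. -/
noncomputable def ww (m : ℕ) (z y : ℝ) : ℝ := (m : ℝ) ^ (-Int.fract (z - y))

/-- The normalized time. -/
noncomputable def uu (d m : ℕ) (s X : ℝ) : ℝ := (s - Real.log X / PL.gam d m) / (ST.sd d m * Real.sqrt (Real.log X))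

end Pool.Agent.Helper8.LL
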