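import Pool.Agent.Helper8.LL.Def

/-!
# LL-N: Gaussian windows

`Φ` the distribution function, `φ = gaussianPDFReal 0 1` its derivative, `Φ(v) - Φ(u) = (v - u) φ(w)`, `|φ'| ≤ 1`, `|φ(u)| ≤ 1`, `|u φ'(u)| ≤ 2`. With `y = log X`, `|y - lam| ≤ C₀ ε √lam`, `P = ⌊ε² √lam⌋`: `uu (t + P - 1) X - uu (t - 1) X = P / (sd √y)`, which is
`p (1 + O(ε))`, `p = P / (sd √lam)`; `|φ(uu t X) - φ(uu t x)| ≤ C ε` (`∂uu/∂y = -1 / (γ sd √y) - uu / (2 y)`, `|y - lam| ≤ C₀ ε √lam`; or directly: `uu t X = uu t x √(lam / y) + (lam - y) / (γ sd √y)`, and `|φ(a u) - φ(u)| ≤ 4 |a - 1|` for `|a - 1| ≤ 1/2`).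
-/

set_option autoImplicit false

namespace Pool.Agent.Helper8.LL

open Pool.Agent.Helper68.Moeller Pool.Agent.Helper52.Tao Pool.Agent.Helper8.ND Pool.Agent.Helper28
  Pool.Agent.Helper91 Finset Filter Topology

variable {d m : ℕ} {r : ℤ → ℤ}

/-- The constant `1 / √(2 π)`. -/
private noncomputable def k24 : ℝ := (Real.sqrt (2 * Real.pi))⁻¹

private lemma k24_nonneg : 0 ≤ k24 := by
  unfold k24
  positivity

private lemma k24_le : k24 ≤ 1 := by
  unfold k24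
  apply inv_le_one_of_one_le₀
  rw [Real.one_le_sqrt]
  linarith [Real.pi_gt_three]

private lemma phi24 (u : ℝ) : ProbabilityTheory.gaussianPDFReal 0 1 u = k24 * Real.exp (-(u ^ 2 / 2)) := by
  unfold ProbabilityTheory.gaussianPDFReal k24
  simp only [NNReal.coe_one, mul_one, sub_zero]
  congr 2
  ring

private lemma exp_ge24 (u : ℝ) : 1 + u ^ 2 / 2 ≤ Real.exp (u ^ 2 / 2) := by
  linarith [Real.add_one_le_exp (u ^ 2 / 2)]

private lemma phi_nonneg24 (u : ℝ) : 0 ≤ k24 * Real.exp (-(u ^ 2 / 2)) :=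
  mul_nonneg k24_nonneg (Real.exp_pos _).le

private lemma phi_le24 (u : ℝ) : k24 * Real.exp (-(u ^ 2 / 2)) ≤ 1 := by
  have h1 : Real.exp (-(u ^ 2 / 2)) ≤ 1 := by
    rw [Real.exp_le_one_iff]
    nlinarith [sq_nonneg u]
  calc k24 * Real.exp (-(u ^ 2 / 2)) ≤ 1 * 1 := mul_le_mul k24_le h1 (Real.exp_pos _).le zero_le_one
    _ = 1 := one_mul 1

private lemma mul_phi_le24 {c : ℝ} (u B : ℝ) (hB : 0 ≤ B) (h : |c| ≤ B * (1 + u ^ 2 / 2)) :
    |c * (k24 * Real.exp (-(u ^ 2 / 2)))| ≤ B := by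
  rw [abs_mul, abs_of_nonneg (phi_nonneg24 u)]
  have h1 : k24 * Real.exp (-(u ^ 2 / 2)) ≤ Real.exp (-(u ^ 2 / 2)) := by
    have := mul_le_mul_of_nonneg_right k24_le (Real.exp_pos (-(u ^ 2 / 2))).le
    rwa [one_mul] at this
  have h2 : |c| ≤ B * Real.exp (u ^ 2 / 2) := h.trans (mul_le_mul_of_nonneg_left (exp_ge24 u) hB)
  calc |c| * (k24 * Real.exp (-(u ^ 2 / 2))) ≤ (B * Real.exp (u ^ 2 / 2)) * Real.exp (-(u ^ 2 / 2)) :=
        mul_le_mul h2 h1 (phi_nonneg24 u) (by positivity)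
    _ = B := by rw [mul_assoc, ← Real.exp_add, add_neg_cancel, Real.exp_zero, mul_one]

private lemma deriv24 (u : ℝ) : HasDerivAt (fun v : ℝ => k24 * Real.exp (-(v ^ 2 / 2)))
    (-u * (k24 * Real.exp (-(u ^ 2 / 2)))) u := by
  have h1 : HasDerivAt (fun v : ℝ => -(v ^ 2 / 2)) (-u) u := by
    have h0 : HasDerivAt (fun v : ℝ => -(v ^ 2 / 2)) (-(((2 : ℕ) : ℝ) * u ^ (2 - 1) / 2)) u :=
      ((hasDerivAt_pow 2 u).div_const 2).neg
    refine h0.congr_deriv ?_
    norm_num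
  have h2 : HasDerivAt (fun v : ℝ => k24 * Real.exp (-(v ^ 2 / 2))) (k24 * (Real.exp (-(u ^ 2 / 2)) * (-u))) u :=
    (h1.exp).const_mul k24
  exact h2.congr_deriv (by ring)

private lemma lip24 (u v : ℝ) :
    |k24 * Real.exp (-(v ^ 2 / 2)) - k24 * Real.exp (-(u ^ 2 / 2))| ≤ |v - u| := by
  have h := Convex.norm_image_sub_le_of_norm_hasDerivWithin_le (s := Set.univ) (C := 1)
    (f := fun v : ℝ => k24 * Real.exp (-(v ^ 2 / 2))) (f' := fun u => -u * (k24 * Real.exp (-(u ^ 2 / 2))))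
    (x := u) (y := v) (fun x _ => (deriv24 x).hasDerivWithinAt) (fun x _ => ?_) convex_univ trivial trivial
  · simpa only [Real.norm_eq_abs, one_mul] using h
  · rw [Real.norm_eq_abs]
    refine mul_phi_le24 x 1 zero_le_one ?_
    rw [abs_neg, one_mul, abs_le]
    constructor <;> nlinarith [sq_nonneg (x - 1), sq_nonneg (x + 1)]

private lemma scale24 (a u : ℝ) (ha : |a - 1| ≤ 1 / 2) :
    |k24 * Real.exp (-((a * u) ^ 2 / 2)) - k24 * Real.exp (-(u ^ 2 / 2))| ≤ 4 * |a - 1| := by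
  have hb := abs_le.1 ha
  have hd : ∀ b : ℝ, HasDerivAt (fun b : ℝ => k24 * Real.exp (-((b * u) ^ 2 / 2)))
      (-(b * u) * (k24 * Real.exp (-((b * u) ^ 2 / 2))) * u) b := by
    intro b
    have h1 : HasDerivAt (fun b : ℝ => b * u) u b := by
      have := (hasDerivAt_id b).mul_const u
      simpa using this
    have h2 := HasDerivAt.comp b (deriv24 (b * u)) h1
    exact h2
  have h := Convex.norm_image_sub_le_of_norm_hasDerivWithin_le (s := Set.Icc (1 / 2 : ℝ) (3 / 2)) (C := 4)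
    (f := fun b : ℝ => k24 * Real.exp (-((b * u) ^ 2 / 2)))
    (f' := fun b => -(b * u) * (k24 * Real.exp (-((b * u) ^ 2 / 2))) * u)
    (x := 1) (y := a) (fun x _ => (hd x).hasDerivWithinAt) (fun x hx => ?_) (convex_Icc _ _)
    ⟨by norm_num, by norm_num⟩ ⟨by linarith [hb.1], by linarith [hb.2]⟩
  · simpa only [Real.norm_eq_abs, one_mul] using h
  · rw [Real.norm_eq_abs]
    have hx0 : (1 : ℝ) / 2 ≤ x := hx.1
    have h1 : |(-(x * u) * (x * u)) * (k24 * Real.exp (-((x * u) ^ 2 / 2)))| ≤ 2 := by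
      refine mul_phi_le24 (x * u) 2 zero_le_two ?_
      rw [abs_le]
      constructor <;> nlinarith [sq_nonneg (x * u)]
    have h2 : |(-(x * u) * (x * u)) * (k24 * Real.exp (-((x * u) ^ 2 / 2)))| =
        x * |-(x * u) * (k24 * Real.exp (-((x * u) ^ 2 / 2))) * u| := by
      rw [← abs_of_pos (show (0 : ℝ) < x by linarith), ← abs_mul, abs_of_pos (show (0 : ℝ) < x by linarith)]
      congr 1
      ring
    rw [h2] at h1
    have h3 := abs_nonneg (-(x * u) * (k24 * Real.exp (-((x * u) ^ 2 / 2))) * u)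
    nlinarith

private lemma cdf24 {a b : ℝ} (hab : a ≤ b) :
    ProbabilityTheory.cdf (ProbabilityTheory.gaussianReal 0 1) b -
      ProbabilityTheory.cdf (ProbabilityTheory.gaussianReal 0 1) a = ∫ w in a..b, k24 * Real.exp (-(w ^ 2 / 2)) := by
  rw [ProbabilityTheory.cdf_eq_real, ProbabilityTheory.cdf_eq_real]
  have h1 : (Set.Iic b : Set ℝ) \ Set.Iic a = Set.Ioc a b := by
    ext w
    simp only [Set.mem_sdiff, Set.mem_Iic, Set.mem_Ioc, not_le]
    tauto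
  rw [← MeasureTheory.measureReal_sdiff (Set.Iic_subset_Iic.2 hab) measurableSet_Iic, h1, MeasureTheory.measureReal_def,
    ProbabilityTheory.gaussianReal_apply_eq_integral 0 one_ne_zero, ENNReal.toReal_ofReal, intervalIntegral.integral_of_le hab]
  · exact MeasureTheory.setIntegral_congr_fun measurableSet_Ioc fun w _ => phi24 w
  · exact MeasureTheory.integral_nonneg fun w => ProbabilityTheory.gaussianPDFReal_nonneg 0 1 w

private lemma win24 {a b c K : ℝ} (hab : a ≤ b)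
    (h : ∀ w, a ≤ w → w ≤ b → |k24 * Real.exp (-(w ^ 2 / 2)) - c| ≤ K) :
    |ProbabilityTheory.cdf (ProbabilityTheory.gaussianReal 0 1) b -
      ProbabilityTheory.cdf (ProbabilityTheory.gaussianReal 0 1) a - (b - a) * c| ≤ (b - a) * K := by
  have hc : Continuous fun w : ℝ => k24 * Real.exp (-(w ^ 2 / 2)) := by fun_prop
  have h1 : (b - a) * c = ∫ _ in a..b, c := by
    rw [intervalIntegral.integral_const, smul_eq_mul]
  rw [cdf24 hab, h1, ← intervalIntegral.integral_sub (hc.intervalIntegrable _ _) (continuous_const.intervalIntegrable _ _)]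
  have h2 := intervalIntegral.norm_integral_le_of_norm_le_const (a := a) (b := b) (C := K)
    (f := fun w => k24 * Real.exp (-(w ^ 2 / 2)) - c) (fun w hw => by
      rw [Set.uIoc_of_le hab] at hw
      exact h w hw.1.le hw.2)
  rw [Real.norm_eq_abs, abs_of_nonneg (sub_nonneg.2 hab), mul_comm] at h2
  exact h2

private lemma sd_pos24 (hd : 2 ≤ d) (hm : 3 ≤ m) (hγ : 0 < PL.gam d m) : 0 < ST.sd d m := by
  unfold ST.sd
  have h1 : 0 < Real.log m := Real.log_pos (by exact_mod_cast (by omega : 1 < m))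
  have h2 : (0 : ℝ) < 1 / (d : ℝ) := by
    have : (0 : ℝ) < d := by exact_mod_cast (by omega : 0 < d)
    positivity
  have h3 : (0 : ℝ) < 1 - 1 / (d : ℝ) := by
    have h4 : (2 : ℝ) ≤ d := by exact_mod_cast hd
    have : 1 / (d : ℝ) ≤ 1 / 2 := one_div_le_one_div_of_le zero_lt_two h4
    linarith
  have h5 := Real.sqrt_pos.2 (mul_pos h3 h2)
  have h6 := Real.sqrt_pos.2 hγ
  positivity

/-- The analysis, in normalised form. -/
private lemma core24 {s g C₀ ε lam y T P : ℝ} (hs : 0 < s) (hg : 0 < g) (hC : 1 ≤ C₀) (he : 0 < ε) (he1 : ε ≤ 1)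
    (hl : 4 * C₀ ≤ Real.sqrt lam) (hl2 : 1 ≤ ε * Real.sqrt lam) (hP0 : 0 ≤ P) (hP : P ≤ ε ^ 2 * Real.sqrt lam)
    (hy : |y - lam| ≤ C₀ * ε * Real.sqrt lam) :
    |ProbabilityTheory.cdf (ProbabilityTheory.gaussianReal 0 1) ((T + P - 1 - y / g) / (s * Real.sqrt y)) -
      ProbabilityTheory.cdf (ProbabilityTheory.gaussianReal 0 1) ((T - 1 - y / g) / (s * Real.sqrt y)) -
      P / (s * Real.sqrt lam) * ProbabilityTheory.gaussianPDFReal 0 1 ((T - lam / g) / (s * Real.sqrt lam))| ≤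
      (2 * (2 * (2 + C₀ / g) / s + 2) + 1) * ε * (P / (s * Real.sqrt lam)) := by
  obtain ⟨S, hS⟩ : ∃ S, S = Real.sqrt lam := ⟨_, rfl⟩
  rw [← hS] at hl hl2 hP hy ⊢
  have hS0 : 0 < S := by linarith
  have hlam0 : 0 < lam := by
    by_contra h
    rw [Real.sqrt_eq_zero_of_nonpos (not_lt.1 h)] at hS
    linarith
  have hlam : lam = S ^ 2 := by rw [hS, Real.sq_sqrt hlam0.le]
  have hy' := abs_le.1 hy
  have hCe : C₀ * ε ≤ C₀ := mul_le_of_le_one_right (by linarith) he1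
  have h4 : C₀ * ε * S ≤ S ^ 2 / 4 := by nlinarith
  have hy1 : 3 / 4 * S ^ 2 ≤ y := by rw [hlam] at hy'; linarith [hy'.1]
  have hy0 : 0 < y := by nlinarith [pow_pos hS0 2]
  obtain ⟨Y, hY⟩ : ∃ Y, Y = Real.sqrt y := ⟨_, rfl⟩
  rw [← hY]
  have hYy : y = Y ^ 2 := by rw [hY, Real.sq_sqrt hy0.le]
  have hY0 : 0 < Y := by rw [hY]; exact Real.sqrt_pos.2 hy0
  have hYS : S / 2 ≤ Y := by
    rw [hYy] at hy1
    nlinarith
  -- a = S / Y
  obtain ⟨a, ha⟩ : ∃ a, a = S / Y := ⟨_, rfl⟩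
  have haY : a * Y = S := by rw [ha]; field_simp
  have ha0 : 0 < a := by rw [ha]; positivity
  have ha1 : |a - 1| ≤ ε / 2 := by
    -- |S - Y| (S + Y) = |lam - y| ≤ C₀ ε S, so |S - Y| ≤ C₀ ε, |a - 1| ≤ C₀ ε / Y ≤ 2 C₀ ε / S ≤ ε / 2
    have h1 : |S - Y| * (S + Y) ≤ C₀ * ε * S := by
      rw [← abs_of_pos (show (0 : ℝ) < S + Y by linarith), ← abs_mul]
      have : (S - Y) * (S + Y) = lam - y := by rw [hlam, hYy]; ring
      rw [this, abs_sub_comm]
      exact hy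
    have h2 : |S - Y| ≤ C₀ * ε := by
      have h3 : |S - Y| * S ≤ C₀ * ε * S :=
        (mul_le_mul_of_nonneg_left (by linarith) (abs_nonneg _)).trans h1
      exact le_of_mul_le_mul_right h3 hS0
    have h3 : a - 1 = (S - Y) / Y := by rw [ha]; field_simp
    rw [h3, abs_div, abs_of_pos hY0, div_le_iff₀ hY0]
    nlinarith
  have ha2 : |a - 1| ≤ 1 / 2 := by linarith
  have ha3 : a ≤ 3 / 2 := by linarith [(abs_le.1 ha2).2]
  obtain ⟨u, hu⟩ : ∃ u, u = (T - lam / g) / (s * S) := ⟨_, rfl⟩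
  rw [← hu]
  obtain ⟨p, hp⟩ : ∃ p, p = P / (s * S) := ⟨_, rfl⟩
  rw [← hp]
  have hp0 : 0 ≤ p := by rw [hp]; positivity
  have hlen : (T + P - 1 - y / g) / (s * Y) - (T - 1 - y / g) / (s * Y) = a * p := by
    rw [hp, ha]
    field_simp
    ring
  have hab : (T - 1 - y / g) / (s * Y) ≤ (T + P - 1 - y / g) / (s * Y) := by
    have : 0 ≤ a * p := mul_nonneg ha0.le hp0
    linarith
  -- the main estimate on the window
  have hK : ∀ w, (T - 1 - y / g) / (s * Y) ≤ w → w ≤ (T + P - 1 - y / g) / (s * Y) →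
      |k24 * Real.exp (-(w ^ 2 / 2)) - k24 * Real.exp (-(u ^ 2 / 2))| ≤ (2 * (2 + C₀ / g) / s + 2) * ε := by
    intro w hw1 hw2
    have hau : a * u = (T - lam / g) / (s * Y) := by
      rw [ha, hu]
      field_simp
    have hsY : 0 < s * Y := mul_pos hs hY0
    have h1 : |w - a * u| ≤ (2 * (2 + C₀ / g) / s) * ε := by
      rw [div_le_iff₀ hsY] at hw1
      rw [le_div_iff₀ hsY] at hw2
      have h5 : |w * (s * Y) - (T - lam / g)| ≤ (2 + C₀ / g) * (ε * S) := by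
        have h6 : |y / g - lam / g| ≤ C₀ / g * (ε * S) := by
          rw [← sub_div, abs_div, abs_of_pos hg, div_le_iff₀ hg]
          calc |y - lam| ≤ C₀ * ε * S := hy
            _ = C₀ / g * (ε * S) * g := by field_simp
        have h7 := abs_le.1 h6
        have h8 : P ≤ ε * S := by
          refine hP.trans ?_
          have : ε ^ 2 ≤ ε := by nlinarith
          exact mul_le_mul_of_nonneg_right this hS0.le
        rw [abs_le]
        constructor <;> nlinarith [h7.1, h7.2]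
      have h9 : w - a * u = (w * (s * Y) - (T - lam / g)) / (s * Y) := by
        rw [hau]
        field_simp
      rw [h9, abs_div, abs_of_pos hsY, div_le_iff₀ hsY]
      refine h5.trans ?_
      have h10 : 2 * (2 + C₀ / g) / s * ε * (s * Y) = (2 + C₀ / g) * (ε * (2 * Y)) := by field_simp
      rw [h10]
      have h11 : 0 ≤ 2 + C₀ / g := by positivity
      refine mul_le_mul_of_nonneg_left (mul_le_mul_of_nonneg_left (by linarith) he.le) h11
    have h2 := (lip24 (a * u) w).trans h1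
    have h3 := scale24 a u ha2
    have h4 : |k24 * Real.exp (-(w ^ 2 / 2)) - k24 * Real.exp (-(u ^ 2 / 2))| ≤
        |k24 * Real.exp (-(w ^ 2 / 2)) - k24 * Real.exp (-((a * u) ^ 2 / 2))| +
        |k24 * Real.exp (-((a * u) ^ 2 / 2)) - k24 * Real.exp (-(u ^ 2 / 2))| := abs_sub_le _ _ _
    have h5 : (2 * (2 + C₀ / g) / s + 2) * ε = 2 * (2 + C₀ / g) / s * ε + 2 * ε := by ring
    rw [h5]
    linarith
  have hw := win24 hab hK
  rw [hlen] at hw
  rw [phi24]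
  have hf0 := phi_nonneg24 u
  have hf1 := phi_le24 u
  obtain ⟨f, hf⟩ : ∃ f, f = k24 * Real.exp (-(u ^ 2 / 2)) := ⟨_, rfl⟩
  rw [← hf] at hf0 hf1 hw ⊢
  obtain ⟨D, hD⟩ : ∃ D, D = ProbabilityTheory.cdf (ProbabilityTheory.gaussianReal 0 1) ((T + P - 1 - y / g) / (s * Y)) -
      ProbabilityTheory.cdf (ProbabilityTheory.gaussianReal 0 1) ((T - 1 - y / g) / (s * Y)) := ⟨_, rfl⟩
  rw [← hD] at hw ⊢
  obtain ⟨K, hKd⟩ : ∃ K, K = 2 * (2 + C₀ / g) / s + 2 := ⟨_, rfl⟩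
  rw [← hKd] at hw ⊢
  have hK0 : 0 ≤ K := by rw [hKd]; positivity
  have h1 : |D - p * f| ≤ |D - a * p * f| + |a * p * f - p * f| := abs_sub_le _ _ _
  have h2 : |a * p * f - p * f| ≤ ε / 2 * p := by
    have : a * p * f - p * f = (a - 1) * (p * f) := by ring
    rw [this, abs_mul, abs_of_nonneg (mul_nonneg hp0 hf0)]
    have h3 : p * f ≤ p := mul_le_of_le_one_right hp0 hf1
    exact mul_le_mul ha1 h3 (mul_nonneg hp0 hf0) (by positivity)
  have h3 : a * p * (K * ε) ≤ 3 / 2 * p * (K * ε) :=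
    mul_le_mul_of_nonneg_right (mul_le_mul_of_nonneg_right ha3 hp0) (by positivity)
  have h4 : 0 ≤ p * (K * ε) := by positivity
  have h5 : 0 ≤ p * ε := by positivity
  calc |D - p * f| ≤ 3 / 2 * p * (K * ε) + ε / 2 * p := by linarith
    _ ≤ (2 * K + 1) * ε * p := by nlinarith

theorem gauss_win (hd : 2 ≤ d) (hm : 3 ≤ m) (hγ : 0 < PL.gam d m) {C₀ : ℝ} (hC₀ : 1 ≤ C₀) : ∃ C : ℝ, 1 ≤ C ∧ ∀ ε : ℝ, 0 < ε → ε ≤ 1 →
    ∃ X₀ : ℝ, 1 < X₀ ∧ ∀ x : ℝ, X₀ ≤ x → ∀ P : ℕ, (P : ℝ) ≤ ε ^ 2 * Real.sqrt (Real.log x) →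
      ε ^ 2 * Real.sqrt (Real.log x) ≤ 2 * P → ∀ X : ℝ, 0 < X → |Real.log X - Real.log x| ≤ C₀ * ε * Real.sqrt (Real.log x) →
      ∀ t : ℤ, |ProbabilityTheory.cdf (ProbabilityTheory.gaussianReal 0 1) (uu d m (t + P - 1) X) -
        ProbabilityTheory.cdf (ProbabilityTheory.gaussianReal 0 1) (uu d m (t - 1) X) -
        P / (ST.sd d m * Real.sqrt (Real.log x)) * ProbabilityTheory.gaussianPDFReal 0 1 (uu d m t x)| ≤
          C * ε * (P / (ST.sd d m * Real.sqrt (Real.log x))) := by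
  have hs := sd_pos24 hd hm hγ
  refine ⟨2 * (2 * (2 + C₀ / PL.gam d m) / ST.sd d m + 2) + 1, ?_, fun ε he he1 => ?_⟩
  · have : 0 ≤ 2 * (2 + C₀ / PL.gam d m) / ST.sd d m := by positivity
    linarith
  · refine ⟨Real.exp ((4 * C₀ + 1 / ε) ^ 2), ?_, fun x hx P hP _ X _ hX t => ?_⟩
    · rw [Real.one_lt_exp_iff]
      positivity
    · have hx0 : 0 < x := (Real.exp_pos _).trans_le hx
      have hlx : (4 * C₀ + 1 / ε) ^ 2 ≤ Real.log x := by
        rw [Real.le_log_iff_exp_le hx0]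
        exact hx
      have hsq : 4 * C₀ + 1 / ε ≤ Real.sqrt (Real.log x) := Real.le_sqrt_of_sq_le hlx
      have hep : 0 < 1 / ε := by positivity
      have h1 : 4 * C₀ ≤ Real.sqrt (Real.log x) := by linarith
      have h2 : 1 ≤ ε * Real.sqrt (Real.log x) := by
        have h3 : 1 / ε ≤ Real.sqrt (Real.log x) := by linarith
        rw [div_le_iff₀ he] at h3
        linarith
      exact core24 (T := (t : ℝ)) hs hγ hC₀ he he1 h1 h2 (Nat.cast_nonneg P) hP hX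

end Pool.Agent.Helper8.LL
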