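import Pool.Agent.Helper8.LL.Z
import Pool.Agent.Helper8.LL.C
import Pool.Agent.Helper8.LL.D
import Pool.Agent.Helper8.LL.N

/-!
# LL-E: the local limit theorem
-/

set_option autoImplicit false

namespace Pool.Agent.Helper8.LL

open Pool.Agent.Helper68.Moeller Pool.Agent.Helper52.Tao Pool.Agent.Helper8.ND Pool.Agent.Helper28
  Pool.Agent.Helper91 Finset Filter Topology ProbabilityTheory

variable {d m : ℕ} {r : ℤ → ℤ}

theorem ex_nonneg {F : Set ℤ} {ψ : ℝ → ℝ} (hψ : Wt ψ) (t n : ℤ) : 0 ≤ ex d m r F ψ t n := by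
  by_cases h : Ht d m r F t n
  · rw [ex_eq h]; exact hψ.nonneg _
  · rw [ex_eq_zero h]

theorem ex_le {F : Set ℤ} {ψ : ℝ → ℝ} (hψ : Wt ψ) (t n : ℤ) : ex d m r F ψ t n ≤ ex d m r F (fun _ => 1) t n := by
  by_cases h : Ht d m r F t n
  · rw [ex_eq h, ex_eq h]; exact hψ.le_one _
  · rw [ex_eq_zero h, ex_eq_zero h]

theorem up_succ {F : Set ℤ} {ψ : ℝ → ℝ} (s n : ℤ) :
    up d m r F ψ (s + 1) n = up d m r F ψ s n + ex d m r F ψ (s + 1) n := by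
  unfold up
  rcases le_or_gt 0 (s + 1) with h | h
  · have e : Icc (0 : ℤ) (s + 1) = insert (s + 1) (Icc 0 s) := by
      ext a
      simp only [mem_Icc, mem_insert]
      omega
    rw [e, sum_insert (by simp), add_comm]
  · rw [Icc_eq_empty (by omega), Icc_eq_empty (by omega), ex_eq_zero]
    · simp
    · intro h2
      have := ht_nonneg h2
      omega

theorem up_diff {F : Set ℤ} {ψ : ℝ → ℝ} (t n : ℤ) (P : ℕ) :
    ∑ a ∈ range P, ex d m r F ψ (t + a) n = up d m r F ψ (t + P - 1) n - up d m r F ψ (t - 1) n := by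
  induction P with
  | zero => simp
  | succ P ih =>
    rw [sum_range_succ, ih]
    have e : t + ((P + 1 : ℕ) : ℤ) - 1 = (t + P - 1) + 1 := by push_cast; ring
    have e2 : t + (P : ℤ) = (t + P - 1) + 1 := by ring
    rw [e, up_succ]
    nth_rewrite 2 [e2]
    ring

theorem twist {F : Set ℤ} (hd : 2 ≤ d) {x : ℝ} (hx : 0 < x) (t : ℤ) (a : ℕ) (n : ℕ) :
    ex d m r F (fun _ => 1) (t + a) n * (m : ℝ) ^ (-Int.fract ((Real.log (x * (d : ℝ) ^ a) - Real.log n) / Real.log m)) =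
      ex d m r F (ww m ((Real.log x - t * Real.log d) / Real.log m)) (t + a) n := by
  by_cases h : Ht d m r F (t + a) n
  · rw [ex_eq h, ex_eq h, one_mul]
    unfold ww pos
    have hd0 : (0 : ℝ) < d := by exact_mod_cast (by omega : 0 < d)
    have e : (Real.log (x * (d : ℝ) ^ a) - Real.log n) / Real.log m =
        (Real.log x - t * Real.log d) / Real.log m - (Real.log ((n : ℤ) : ℝ) - ((t + a : ℤ) : ℝ) * Real.log d) / Real.log m := by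
      rw [Real.log_mul hx.ne' (by positivity), Real.log_pow, ← sub_div]
      congr 1
      push_cast
      ring
    rw [e]
  · rw [ex_eq_zero h, ex_eq_zero h, zero_mul]

theorem range_change {G G' : ℕ → ℝ} (h0 : ∀ n, 0 ≤ G n) (h1 : ∀ n, G n ≤ G' n) {A₁ A₁' A₂ A₂' : ℕ} (h2 : A₁ ≤ A₁') (h3 : A₁' ≤ A₂)
    (h4 : A₂ ≤ A₂') : |∑ n ∈ Ioc A₁' A₂', G n - ∑ n ∈ Ioc A₁ A₂, G n| ≤ ∑ n ∈ Ioc A₁ A₁', G' n + ∑ n ∈ Ioc A₂ A₂', G' n := by
  have e1 : ∑ n ∈ Ioc A₁ A₂, G n = ∑ n ∈ Ioc A₁ A₁', G n + ∑ n ∈ Ioc A₁' A₂, G n := by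
    rw [← sum_union]
    · congr 1
      ext n
      simp only [mem_union, mem_Ioc]
      omega
    · rw [disjoint_left]
      intro n
      simp only [mem_Ioc]
      omega
  have e2 : ∑ n ∈ Ioc A₁' A₂', G n = ∑ n ∈ Ioc A₁' A₂, G n + ∑ n ∈ Ioc A₂ A₂', G n := by
    rw [← sum_union]
    · congr 1
      ext n
      simp only [mem_union, mem_Ioc]
      omega
    · rw [disjoint_left]
      intro n
      simp only [mem_Ioc]
      omega
  have h5 : 0 ≤ ∑ n ∈ Ioc A₁ A₁', G n := sum_nonneg fun n _ => h0 n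
  have h6 : 0 ≤ ∑ n ∈ Ioc A₂ A₂', G n := sum_nonneg fun n _ => h0 n
  have h7 : ∑ n ∈ Ioc A₁ A₁', G n ≤ ∑ n ∈ Ioc A₁ A₁', G' n := sum_le_sum fun n _ => h1 n
  have h8 : ∑ n ∈ Ioc A₂ A₂', G n ≤ ∑ n ∈ Ioc A₂ A₂', G' n := sum_le_sum fun n _ => h1 n
  rw [e1, e2, abs_le]
  constructor <;> linarith

theorem wt_one : Wt (fun _ : ℝ => (1 : ℝ)) := ⟨fun _ => zero_le_one, fun _ => le_rfl, fun _ => rfl⟩

theorem tst_one : Tst 1 (fun _ : ℝ => (1 : ℝ)) :=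
  { wt_one with lip := fun y y' => by rw [sub_self, abs_zero, one_mul]; exact abs_nonneg _ }

/-- Average over a box of lattice points. -/
theorem box {A K : ℝ} {P R : ℕ} {g : ℕ → ℤ → ℝ} (h : ∀ a < P, ∀ b ∈ Icc (-(R : ℤ)) R, |A - g a b| ≤ K) :
    |(P : ℝ) * (2 * R + 1) * A - ∑ a ∈ range P, ∑ b ∈ Icc (-(R : ℤ)) R, g a b| ≤ P * (2 * R + 1) * K := by
  have hc : ((Icc (-(R : ℤ)) R).card : ℝ) = 2 * R + 1 := by
    rw [Int.card_Icc]
    have : ((R : ℤ) + 1 - -(R : ℤ)).toNat = 2 * R + 1 := by omega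
    rw [this]
    push_cast
    ring
  have e : (P : ℝ) * (2 * R + 1) * A - ∑ a ∈ range P, ∑ b ∈ Icc (-(R : ℤ)) R, g a b =
      ∑ a ∈ range P, ∑ b ∈ Icc (-(R : ℤ)) R, (A - g a b) := by
    simp only [sum_sub_distrib, sum_const, card_range, nsmul_eq_mul, hc]
    ring
  rw [e]
  calc |∑ a ∈ range P, ∑ b ∈ Icc (-(R : ℤ)) R, (A - g a b)| ≤ ∑ a ∈ range P, |∑ b ∈ Icc (-(R : ℤ)) R, (A - g a b)| :=
        abs_sum_le_sum_abs _ _
    _ ≤ ∑ a ∈ range P, ∑ b ∈ Icc (-(R : ℤ)) R, |A - g a b| := sum_le_sum fun a _ => abs_sum_le_sum_abs _ _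
    _ ≤ ∑ a ∈ range P, ∑ b ∈ Icc (-(R : ℤ)) R, K :=
        sum_le_sum fun a ha => sum_le_sum fun b hb => h a (mem_range.1 ha) b hb
    _ = P * (2 * R + 1) * K := by
        simp only [sum_const, card_range, nsmul_eq_mul, hc]
        ring

/-- One value of `a`. -/
theorem one_a (hd : 2 ≤ d) (hdm : d < m) {F : Set ℤ} {x : ℝ} (hx : 0 < x) (t : ℤ) {a P R : ℕ} (haP : a ≤ P) (hPR : P ≤ R) {B : ℝ}
    (hB : ∀ X : ℝ, x / (m : ℝ) ^ R ≤ X → X ≤ x * (d : ℝ) ^ P * (m : ℝ) ^ R → am (ex d m r F (fun _ => 1) (t + a)) X ≤ B) :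
    |∑ b ∈ Icc (-(R : ℤ)) R, am (ex d m r F (fun _ => 1) (t + a)) (x * (d : ℝ) ^ a * (m : ℝ) ^ b) -
      (m : ℝ) / (m - 1) * ∑ n ∈ Ioc ⌊x / (m : ℝ) ^ R⌋₊ ⌊x * (m : ℝ) ^ R⌋₊,
        ex d m r F (ww m ((Real.log x - t * Real.log d) / Real.log m)) (t + a) n / n| ≤ 12 * (1 + P * Real.log d) * B := by
  have hd0 : (0 : ℝ) < d := by exact_mod_cast (by omega : 0 < d)
  have hd1 : (1 : ℝ) ≤ d := by exact_mod_cast (by omega : 1 ≤ d)
  have hm3 : (3 : ℝ) ≤ m := by exact_mod_cast (by omega : 3 ≤ m)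
  have hm0 : (0 : ℝ) < m := by linarith
  have hm1 : (1 : ℝ) ≤ m := by linarith
  have hld : 0 ≤ Real.log d := Real.log_nonneg hd1
  obtain ⟨z, hz⟩ : ∃ z, z = (Real.log x - t * Real.log d) / Real.log m := ⟨_, rfl⟩
  obtain ⟨f, hf⟩ : ∃ f, f = ex d m r F (fun _ => 1) (t + a) := ⟨_, rfl⟩
  obtain ⟨x', hx'⟩ : ∃ x' : ℝ, x' = x * (d : ℝ) ^ a := ⟨_, rfl⟩
  have hda : (1 : ℝ) ≤ (d : ℝ) ^ a := one_le_pow₀ hd1
  have hdaP : (d : ℝ) ^ a ≤ (d : ℝ) ^ P := pow_le_pow_right₀ hd1 haP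
  have hxx' : x ≤ x' := by rw [hx']; exact le_mul_of_one_le_right hx.le hda
  have hx'0 : 0 < x' := by linarith
  have hx'P : x' ≤ x * (d : ℝ) ^ P := by rw [hx']; exact mul_le_mul_of_nonneg_left hdaP hx.le
  have hmR : (1 : ℝ) ≤ (m : ℝ) ^ R := one_le_pow₀ hm1
  have hmR0 : (0 : ℝ) < (m : ℝ) ^ R := by linarith
  have hdm' : (d : ℝ) ^ a ≤ (m : ℝ) ^ R :=
    (pow_le_pow_left₀ hd0.le (by exact_mod_cast hdm.le) a).trans (pow_le_pow_right₀ hm1 (haP.trans hPR))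
  have hf0 : ∀ n, 0 ≤ f n := fun n => by rw [hf]; exact ex_nonneg wt_one _ _
  have hww : Wt (ww m z) := wt_ww (by omega) z
  rw [← hf, ← hx', ← hz]
  have hid := ident (by omega : 2 ≤ m) f hx'0 R
  rw [hid]
  -- the boundary terms
  have h1 : x / (m : ℝ) ^ R ≤ x' / (m : ℝ) ^ R := div_le_div_of_nonneg_right hxx' hmR0.le
  have h2 : x' / (m : ℝ) ^ R ≤ x * (m : ℝ) ^ R := by
    rw [div_le_iff₀ hmR0, hx', mul_assoc]
    apply mul_le_mul_of_nonneg_left _ hx.le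
    nlinarith
  have h3 : x * (m : ℝ) ^ R ≤ x' * (m : ℝ) ^ R := mul_le_mul_of_nonneg_right hxx' hmR0.le
  have h4 : x' * (m : ℝ) ^ R ≤ x * (d : ℝ) ^ P * (m : ℝ) ^ R := mul_le_mul_of_nonneg_right hx'P hmR0.le
  have hB1 : am f (x' / (m : ℝ) ^ R) ≤ B := by rw [hf]; exact hB _ h1 ((h2.trans h3).trans h4)
  have hB2 : am f (x' * (m : ℝ) ^ R) ≤ B := by rw [hf]; exact hB _ (h1.trans (h2.trans h3)) h4
  have hB3 : 0 ≤ am f (x' / (m : ℝ) ^ R) := am_nonneg hf0 (by positivity)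
  have hB4 : 0 ≤ am f (x' * (m : ℝ) ^ R) := am_nonneg hf0 (by positivity)
  have hB0 : 0 ≤ B := hB3.trans hB1
  have hB5 : am f (x' * (m : ℝ) ^ R) / m ≤ B := (div_le_self hB4 hm1).trans hB2
  have hB6 : 0 ≤ am f (x' * (m : ℝ) ^ R) / m := by positivity
  -- the sums
  have e1 : ∑ n ∈ Ioc ⌊x' / (m : ℝ) ^ R⌋₊ ⌊x' * (m : ℝ) ^ R⌋₊,
      f (n : ℤ) / n * (m : ℝ) ^ (-Int.fract ((Real.log x' - Real.log n) / Real.log m)) =
      ∑ n ∈ Ioc ⌊x' / (m : ℝ) ^ R⌋₊ ⌊x' * (m : ℝ) ^ R⌋₊, ex d m r F (ww m z) (t + a) n / n := by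
    refine sum_congr rfl fun n _ => ?_
    rw [div_mul_eq_mul_div]
    congr 1
    rw [hf, hx', hz]
    exact twist hd hx t a n
  have hch := range_change (G := fun n : ℕ => ex d m r F (ww m z) (t + a) n / n) (G' := fun n : ℕ => f (n : ℤ) / n)
    (fun n => div_nonneg (ex_nonneg hww _ _) (Nat.cast_nonneg _))
    (fun n => div_le_div_of_nonneg_right (by rw [hf]; exact ex_le hww _ _) (Nat.cast_nonneg _))
    (Nat.floor_le_floor h1) (Nat.floor_le_floor h2) (Nat.floor_le_floor h3)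
  have hs1 := sum_div_le hf0 (by positivity : 0 < x / (m : ℝ) ^ R) h1 (B := B) (fun X hX1 hX2 => by
    rw [hf]; exact hB X hX1 (hX2.trans ((h2.trans h3).trans h4)))
  have hs2 := sum_div_le hf0 (by positivity : 0 < x * (m : ℝ) ^ R) h3 (B := B) (fun X hX1 hX2 => by
    rw [hf]; exact hB X ((h1.trans h2).trans hX1) (hX2.trans h4))
  have e2 : Real.log (x' / (m : ℝ) ^ R / (x / (m : ℝ) ^ R)) = a * Real.log d := by
    have : x' / (m : ℝ) ^ R / (x / (m : ℝ) ^ R) = (d : ℝ) ^ a := by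
      rw [hx']
      field_simp
    rw [this, Real.log_pow]
  have e3 : Real.log (x' * (m : ℝ) ^ R / (x * (m : ℝ) ^ R)) = a * Real.log d := by
    have : x' * (m : ℝ) ^ R / (x * (m : ℝ) ^ R) = (d : ℝ) ^ a := by
      rw [hx']
      field_simp
    rw [this, Real.log_pow]
  rw [e2] at hs1
  rw [e3] at hs2
  have haP' : (a : ℝ) * Real.log d ≤ P * Real.log d := mul_le_mul_of_nonneg_right (by exact_mod_cast haP) hld
  have hPd : 0 ≤ (P : ℝ) * Real.log d := by positivity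
  have hs3 : 3 * (1 + (a : ℝ) * Real.log d) * B ≤ 3 * (1 + P * Real.log d) * B :=
    mul_le_mul_of_nonneg_right (by linarith) hB0
  rw [e1]
  obtain ⟨S, hS⟩ : ∃ S, S = ∑ n ∈ Ioc ⌊x' / (m : ℝ) ^ R⌋₊ ⌊x' * (m : ℝ) ^ R⌋₊, ex d m r F (ww m z) (t + a) n / n := ⟨_, rfl⟩
  obtain ⟨S', hS'⟩ : ∃ S', S' = ∑ n ∈ Ioc ⌊x / (m : ℝ) ^ R⌋₊ ⌊x * (m : ℝ) ^ R⌋₊, ex d m r F (ww m z) (t + a) n / n := ⟨_, rfl⟩
  simp only [← hS, ← hS'] at hch ⊢
  have hc0 : 0 ≤ (m : ℝ) / (m - 1) := div_nonneg hm0.le (by linarith)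
  have hc1 : (m : ℝ) / (m - 1) ≤ 3 / 2 := by
    rw [div_le_div_iff₀ (by linarith) (by norm_num)]
    linarith
  have e4 : (m : ℝ) / (m - 1) * (S + am f (x' / (m : ℝ) ^ R) - am f (x' * (m : ℝ) ^ R) / m) - (m : ℝ) / (m - 1) * S' =
      (m : ℝ) / (m - 1) * ((S - S') + am f (x' / (m : ℝ) ^ R) - am f (x' * (m : ℝ) ^ R) / m) := by ring
  rw [e4, abs_mul, abs_of_nonneg hc0]
  have h5 : |(S - S') + am f (x' / (m : ℝ) ^ R) - am f (x' * (m : ℝ) ^ R) / m| ≤ 8 * (1 + P * Real.log d) * B := by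
    have h6 := abs_le.1 (hch.trans (add_le_add (hs1.trans hs3) (hs2.trans hs3)))
    have h7 : B ≤ (1 + P * Real.log d) * B := le_mul_of_one_le_left hB0 (by linarith)
    rw [abs_le]
    constructor <;> linarith
  calc (m : ℝ) / (m - 1) * |(S - S') + am f (x' / (m : ℝ) ^ R) - am f (x' * (m : ℝ) ^ R) / m|
      ≤ 3 / 2 * (8 * (1 + P * Real.log d) * B) := mul_le_mul hc1 h5 (abs_nonneg _) (by norm_num)
    _ = 12 * (1 + P * Real.log d) * B := by ring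

theorem sd_pos (hd : 2 ≤ d) (hdm : d < m) (hγ : 0 < PL.gam d m) : 0 < ST.sd d m := by
  unfold ST.sd
  have hd1 : (1 : ℝ) < d := by exact_mod_cast (by omega : 1 < d)
  have hm1 : (1 : ℝ) < m := by exact_mod_cast (by omega : 1 < m)
  have h1 : 1 / (d : ℝ) < 1 := by rw [div_lt_one (by linarith)]; exact hd1
  have h2 : 0 < (1 - 1 / (d : ℝ)) * (1 / (d : ℝ)) := mul_pos (by linarith) (by positivity)
  have h3 := Real.sqrt_pos.2 h2
  have h4 : 0 < Real.log m := Real.log_pos hm1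
  have h5 := Real.sqrt_pos.2 hγ
  positivity

theorem pdf_le_one (u : ℝ) : gaussianPDFReal 0 1 u ≤ 1 := by
  unfold gaussianPDFReal
  have h1 : (1 : ℝ) ≤ Real.sqrt (2 * Real.pi * ((1 : NNReal) : ℝ)) := by
    rw [NNReal.coe_one, mul_one]
    apply Real.le_sqrt_of_sq_le
    have := Real.pi_gt_three
    linarith
  have h2 : (Real.sqrt (2 * Real.pi * ((1 : NNReal) : ℝ)))⁻¹ ≤ 1 := inv_le_one_of_one_le₀ h1
  have h3 : Real.exp (-(u - 0) ^ 2 / (2 * ((1 : NNReal) : ℝ))) ≤ 1 := by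
    rw [Real.exp_le_one_iff, NNReal.coe_one]
    have := sq_nonneg (u - 0)
    linarith
  calc _ ≤ 1 * 1 := mul_le_mul h2 h3 (Real.exp_pos _).le zero_le_one
    _ = 1 := one_mul 1

/-- The final combination. -/
theorem combine {A q sdv lm mm W φ P R K1 K2 K3 M S ε : ℝ} (hq : 0 < q) (hsd : 0 < sdv) (hlm : 0 < lm) (hmm : 3 ≤ mm)
    (hW0 : 0 ≤ W) (hW1 : W ≤ 1) (hφ0 : 0 ≤ φ) (hφ1 : φ ≤ 1) (hP : 0 < P) (hR : 0 ≤ R)
    (h1 : |P * (2 * R + 1) * A - S| ≤ P * (2 * R + 1) * K1)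
    (h2 : |S - mm / (mm - 1) * M| ≤ P * K2)
    (h3 : |M - W * (P / (sdv * q)) * φ * (2 * R * lm)| ≤ K3)
    (k1 : q * K1 ≤ ε) (k2 : q * K2 ≤ ε * (2 * R + 1)) (k3 : 3 / 2 * (q * K3) ≤ ε * (P * (2 * R + 1)))
    (k4 : 3 / 2 * lm / sdv ≤ ε * (2 * R + 1)) :
    |q * A - mm * lm / (mm - 1) * W * φ / sdv| ≤ 4 * ε := by
  have hmm1 : 0 < mm - 1 := by linarith
  have hc0 : 0 ≤ mm / (mm - 1) := by positivity
  have hc1 : mm / (mm - 1) ≤ 3 / 2 := by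
    rw [div_le_div_iff₀ hmm1 (by norm_num)]
    linarith
  have hR1 : 0 < 2 * R + 1 := by linarith
  have hN : 0 < P * (2 * R + 1) := by positivity
  have hK3 : 0 ≤ K3 := (abs_nonneg _).trans h3
  have h4 : |mm / (mm - 1) * M - mm / (mm - 1) * (W * (P / (sdv * q)) * φ * (2 * R * lm))| ≤ 3 / 2 * K3 := by
    rw [← mul_sub, abs_mul, abs_of_nonneg hc0]
    exact mul_le_mul hc1 h3 (abs_nonneg _) (by norm_num)
  have h5 : |P * (2 * R + 1) * A - mm / (mm - 1) * (W * (P / (sdv * q)) * φ * (2 * R * lm))| ≤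
      P * (2 * R + 1) * K1 + P * K2 + 3 / 2 * K3 := by
    have e : P * (2 * R + 1) * A - mm / (mm - 1) * (W * (P / (sdv * q)) * φ * (2 * R * lm)) =
        (P * (2 * R + 1) * A - S) + (S - mm / (mm - 1) * M) +
          (mm / (mm - 1) * M - mm / (mm - 1) * (W * (P / (sdv * q)) * φ * (2 * R * lm))) := by ring
    rw [e]
    exact (abs_add_three _ _ _).trans (add_le_add (add_le_add h1 h2) h4)
  have h6 : |q * A - mm * lm / (mm - 1) * W * φ / sdv * (2 * R / (2 * R + 1))| ≤ 3 * ε := by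
    have e : q * A - mm * lm / (mm - 1) * W * φ / sdv * (2 * R / (2 * R + 1)) =
        q / (P * (2 * R + 1)) * (P * (2 * R + 1) * A - mm / (mm - 1) * (W * (P / (sdv * q)) * φ * (2 * R * lm))) := by
      field_simp
    rw [e, abs_mul, abs_of_pos (by positivity : 0 < q / (P * (2 * R + 1)))]
    calc q / (P * (2 * R + 1)) * |P * (2 * R + 1) * A - mm / (mm - 1) * (W * (P / (sdv * q)) * φ * (2 * R * lm))|
        ≤ q / (P * (2 * R + 1)) * (P * (2 * R + 1) * K1 + P * K2 + 3 / 2 * K3) :=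
          mul_le_mul_of_nonneg_left h5 (by positivity)
      _ = q * K1 + q * K2 / (2 * R + 1) + 3 / 2 * (q * K3) / (P * (2 * R + 1)) := by
          field_simp
      _ ≤ ε + ε + ε := by
          refine add_le_add (add_le_add k1 ?_) ?_
          · rw [div_le_iff₀ hR1]; exact k2
          · rw [div_le_iff₀ hN]; exact k3
      _ = 3 * ε := by ring
  have h7 : |mm * lm / (mm - 1) * W * φ / sdv * (2 * R / (2 * R + 1)) - mm * lm / (mm - 1) * W * φ / sdv| ≤ ε := by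
    have e : mm * lm / (mm - 1) * W * φ / sdv * (2 * R / (2 * R + 1)) - mm * lm / (mm - 1) * W * φ / sdv =
        -(mm / (mm - 1) * (W * φ) * (lm / sdv) / (2 * R + 1)) := by
      field_simp
      ring
    rw [e, abs_neg, abs_of_nonneg (by positivity), div_le_iff₀ hR1]
    refine le_trans ?_ k4
    have h8 : W * φ ≤ 1 := by
      calc W * φ ≤ 1 * 1 := mul_le_mul hW1 hφ1 hφ0 zero_le_one
        _ = 1 := one_mul 1
    have h9 : mm / (mm - 1) * (W * φ) ≤ 3 / 2 * 1 := mul_le_mul hc1 h8 (by positivity) (by norm_num)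
    calc mm / (mm - 1) * (W * φ) * (lm / sdv) ≤ 3 / 2 * 1 * (lm / sdv) := mul_le_mul_of_nonneg_right h9 (by positivity)
      _ = 3 / 2 * lm / sdv := by ring
  have e : q * A - mm * lm / (mm - 1) * W * φ / sdv =
      (q * A - mm * lm / (mm - 1) * W * φ / sdv * (2 * R / (2 * R + 1))) +
        (mm * lm / (mm - 1) * W * φ / sdv * (2 * R / (2 * R + 1)) - mm * lm / (mm - 1) * W * φ / sdv) := by ring
  rw [e]
  refine (abs_add_le _ _).trans ?_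
  linarith

theorem k1_le {CS P R q ε K : ℝ} (hCS : 0 ≤ CS) (hq : 0 < q) (hε : 0 < ε) (hP : P ≤ ε * q) (hR : R ≤ ε * q) (h1 : 1 ≤ ε * q)
    (hK : 3 * CS ≤ K) : q * (CS * (P + R + 1) / q ^ 2) ≤ K * ε := by
  have e : q * (CS * (P + R + 1) / q ^ 2) = CS * (P + R + 1) / q := by
    field_simp
  rw [e, div_le_iff₀ hq]
  have c1 : P + R + 1 ≤ 3 * (ε * q) := by linarith
  calc CS * (P + R + 1) ≤ CS * (3 * (ε * q)) := mul_le_mul_of_nonneg_left c1 hCS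
    _ = 3 * CS * (ε * q) := by ring
    _ ≤ K * (ε * q) := mul_le_mul_of_nonneg_right hK (by positivity)
    _ = K * ε * q := by ring

theorem k2_le {CB P R q ε K ld : ℝ} (hCB : 0 ≤ CB) (hq : 0 < q) (hε : 0 < ε) (hld : 0 ≤ ld) (hR0 : 0 ≤ R) (hP : P ≤ ε ^ 2 * q)
    (h2 : ε * q ≤ 2 * R + 1) (h1 : 1 ≤ ε ^ 2 * q) (hK : 24 * CB * (1 + ld) ≤ K) :
    q * (12 * (1 + P * ld) * (2 * CB / q)) ≤ K * ε * (2 * R + 1) := by
  have e : q * (12 * (1 + P * ld) * (2 * CB / q)) = 24 * CB * (1 + P * ld) := by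
    field_simp
    ring
  rw [e]
  have c0 : ε ^ 2 * q ≤ ε * (2 * R + 1) := by
    calc ε ^ 2 * q = ε * (ε * q) := by ring
      _ ≤ ε * (2 * R + 1) := mul_le_mul_of_nonneg_left h2 hε.le
  have c1 : 1 + P * ld ≤ (1 + ld) * (ε * (2 * R + 1)) := by
    have c3 : P * ld ≤ ε * (2 * R + 1) * ld := mul_le_mul_of_nonneg_right (hP.trans c0) hld
    linarith
  calc 24 * CB * (1 + P * ld) ≤ 24 * CB * ((1 + ld) * (ε * (2 * R + 1))) :=
        mul_le_mul_of_nonneg_left c1 (by linarith)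
    _ = 24 * CB * (1 + ld) * (ε * (2 * R + 1)) := by ring
    _ ≤ K * (ε * (2 * R + 1)) := mul_le_mul_of_nonneg_right hK (by positivity)
    _ = K * ε * (2 * R + 1) := by ring

theorem k3_le {CN P R q ε K lm sdv p X : ℝ} (hCN : 0 ≤ CN) (hq : 0 < q) (hε : 0 < ε) (hlm : 0 < lm) (hsd : 0 < sdv) (hR0 : 0 ≤ R) (hP : 1 ≤ P)
    (hp : p = P / (sdv * q)) (hX : q ^ 2 / 2 ≤ X) (hq12 : 12 ≤ ε * q)
    (hK : 6 * (1 + CN) * (1 + lm) / sdv + 1 ≤ K) :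
    3 / 2 * (q * (4 * ((1 + CN) * ε * p) * (1 + 2 * R * lm) + 4 / X)) ≤ K * ε * (P * (2 * R + 1)) := by
  have hX0 : 0 < X := lt_of_lt_of_le (by positivity) hX
  have c1 : q * p = P / sdv := by rw [hp]; field_simp
  have c2 : 1 + 2 * R * lm ≤ (1 + lm) * (2 * R + 1) := by
    have e : (1 + lm) * (2 * R + 1) = 1 + 2 * R * lm + (lm + 2 * R) := by ring
    rw [e]
    linarith
  have c3 : 6 * q / X ≤ ε := by
    rw [div_le_iff₀ hX0]
    calc 6 * q = 12 * (q / 2) := by ring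
      _ ≤ ε * q * (q / 2) := mul_le_mul_of_nonneg_right hq12 (by positivity)
      _ = ε * (q ^ 2 / 2) := by ring
      _ ≤ ε * X := mul_le_mul_of_nonneg_left hX hε.le
  have c4 : (1 : ℝ) ≤ P * (2 * R + 1) := one_le_mul_of_one_le_of_one_le hP (by linarith)
  calc 3 / 2 * (q * (4 * ((1 + CN) * ε * p) * (1 + 2 * R * lm) + 4 / X))
      = 6 * (1 + CN) * ε * (q * p) * (1 + 2 * R * lm) + 6 * q / X := by ring
    _ ≤ 6 * (1 + CN) * ε * (P / sdv) * ((1 + lm) * (2 * R + 1)) + ε * (P * (2 * R + 1)) := by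
        refine add_le_add ?_ ?_
        · rw [c1]
          exact mul_le_mul_of_nonneg_left c2 (by positivity)
        · exact c3.trans (le_mul_of_one_le_right hε.le c4)
    _ = (6 * (1 + CN) * (1 + lm) / sdv + 1) * (ε * (P * (2 * R + 1))) := by ring
    _ ≤ K * (ε * (P * (2 * R + 1))) := mul_le_mul_of_nonneg_right hK (by positivity)
    _ = K * ε * (P * (2 * R + 1)) := by ring

theorem k4_le {R q ε K lm sdv : ℝ} (hε : 0 < ε) (h2 : ε * q ≤ 2 * R + 1) (h1 : 1 ≤ ε ^ 2 * q) (hK0 : 0 ≤ K)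
    (hK : 3 / 2 * lm / sdv ≤ K) : 3 / 2 * lm / sdv ≤ K * ε * (2 * R + 1) := by
  have c0 : 1 ≤ ε * (2 * R + 1) := by
    calc (1 : ℝ) ≤ ε ^ 2 * q := h1
      _ = ε * (ε * q) := by ring
      _ ≤ ε * (2 * R + 1) := mul_le_mul_of_nonneg_left h2 hε.le
  calc 3 / 2 * lm / sdv ≤ K * 1 := by rw [mul_one]; exact hK
    _ ≤ K * (ε * (2 * R + 1)) := mul_le_mul_of_nonneg_left c0 hK0
    _ = K * ε * (2 * R + 1) := by ring

theorem log_place {x X q ε : ℝ} {R : ℕ} (hm : 2 ≤ m) (hx : 0 < x) (hX : 0 < X) (hR : (R : ℝ) ≤ ε * q) (h1 : 1 ≤ ε * q)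
    (hX1 : x / (m : ℝ) ^ R / 2 ≤ X) (hX2 : X ≤ x * (m : ℝ) ^ R) : |Real.log X - Real.log x| ≤ (Real.log m + 1) * ε * q := by
  have hm0 : (0 : ℝ) < m := by exact_mod_cast (by omega : 0 < m)
  have hmR : (0 : ℝ) < (m : ℝ) ^ R := by positivity
  have hlm : 0 ≤ Real.log m := Real.log_natCast_nonneg m
  have c1 : Real.log (x / (m : ℝ) ^ R / 2) ≤ Real.log X := Real.log_le_log (by positivity) hX1
  have c2 : Real.log X ≤ Real.log (x * (m : ℝ) ^ R) := Real.log_le_log hX hX2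
  rw [Real.log_div (by positivity) (by norm_num), Real.log_div hx.ne' hmR.ne', Real.log_pow] at c1
  rw [Real.log_mul hx.ne' hmR.ne', Real.log_pow] at c2
  have c3 := Real.log_two_lt_d9
  have c4 : (R : ℝ) * Real.log m ≤ ε * q * Real.log m := mul_le_mul_of_nonneg_right hR hlm
  have e : (Real.log m + 1) * ε * q = ε * q * Real.log m + ε * q := by ring
  rw [e, abs_le]
  constructor <;> linarith

/-- Step 4: the logarithmic sum. -/
theorem step4 (hm : 2 ≤ m) {u₁ u₂ : ℤ → ℝ} {x lm Wz p φ E : ℝ} {R : ℕ} (hx : 0 < x) (hlm : lm = Real.log m)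
    (hX1 : 2 ≤ x / (m : ℝ) ^ R) (hWz0 : 0 ≤ Wz) (hWz1 : Wz ≤ 1) (hp0 : 0 ≤ p) (hp1 : p ≤ 1) (hφ0 : 0 ≤ φ) (hφ1 : φ ≤ 1)
    (hE : 0 ≤ E)
    (hX : ∀ X : ℝ, x / (m : ℝ) ^ R / 2 ≤ X → X ≤ x * (m : ℝ) ^ R → |am u₁ X - am u₂ X - Wz * p * φ| ≤ E) :
    |∑ n ∈ Ioc ⌊x / (m : ℝ) ^ R⌋₊ ⌊x * (m : ℝ) ^ R⌋₊, (u₁ n - u₂ n) / n - Wz * p * φ * (2 * R * lm)| ≤
      4 * E * (1 + 2 * R * lm) + 4 / (x / (m : ℝ) ^ R) := by
  have hm0 : (0 : ℝ) < m := by exact_mod_cast (by omega : 0 < m)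
  have hm1 : (1 : ℝ) ≤ m := by exact_mod_cast (by omega : 1 ≤ m)
  have hmR : (0 : ℝ) < (m : ℝ) ^ R := by positivity
  have h1 : x / (m : ℝ) ^ R ≤ x * (m : ℝ) ^ R := by
    rw [div_le_iff₀ hmR, mul_assoc]
    exact le_mul_of_one_le_right hx.le (one_le_mul_of_one_le_of_one_le (one_le_pow₀ hm1) (one_le_pow₀ hm1))
  have h0 : 0 ≤ Wz * p * φ := by positivity
  have h01 : Wz * p * φ ≤ 1 := by
    calc Wz * p * φ ≤ 1 * 1 * 1 := by
          apply mul_le_mul _ hφ1 hφ0 (by norm_num)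
          exact mul_le_mul hWz1 hp1 hp0 zero_le_one
      _ = 1 := by norm_num
  have h2 := abel (g := fun n => u₁ n - u₂ n) (X₁ := x / (m : ℝ) ^ R) (X₂ := x * (m : ℝ) ^ R) (c := Wz * p * φ) (ε := E)
    hX1 h1 h0 h01 hE (fun X ha hb => by rw [am_sub]; exact hX X ha hb)
  have e : Real.log (x * (m : ℝ) ^ R / (x / (m : ℝ) ^ R)) = 2 * R * lm := by
    have : x * (m : ℝ) ^ R / (x / (m : ℝ) ^ R) = (m : ℝ) ^ (2 * R) := by
      rw [two_mul, pow_add]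
      field_simp
    rw [this, Real.log_pow, hlm]
    push_cast
    ring
  rw [e] at h2
  exact h2

/-- One place. -/
theorem place {Wz c₁ c₂ a₁ a₂ p φ CN ε δ : ℝ} (hWz0 : 0 ≤ Wz) (hWz1 : Wz ≤ 1) (h1 : |a₁ - Wz * c₁| ≤ δ) (h2 : |a₂ - Wz * c₂| ≤ δ)
    (h3 : |c₁ - c₂ - p * φ| ≤ CN * ε * p) (h4 : 2 * δ ≤ ε * p) : |a₁ - a₂ - Wz * p * φ| ≤ (1 + CN) * ε * p := by
  have c6 : |Wz * (c₁ - c₂ - p * φ)| ≤ CN * ε * p := by
    rw [abs_mul, abs_of_nonneg hWz0]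
    calc Wz * |c₁ - c₂ - p * φ| ≤ 1 * (CN * ε * p) := mul_le_mul hWz1 h3 (abs_nonneg _) zero_le_one
      _ = CN * ε * p := one_mul _
  have e : a₁ - a₂ - Wz * p * φ = (a₁ - Wz * c₁) - (a₂ - Wz * c₂) + Wz * (c₁ - c₂ - p * φ) := by ring
  have e2 : (1 + CN) * ε * p = ε * p + CN * ε * p := by ring
  rw [e, e2]
  rw [abs_le] at h1 h2 c6 ⊢
  constructor <;> linarith [h1.1, h1.2, h2.1, h2.2, c6.1, c6.2]

/-- Steps 2 and 3. -/
theorem step2 (hd : 2 ≤ d) (hdm : d < m) {F : Set ℤ} {x B z : ℝ} (hx : 0 < x) (t : ℤ) {P R : ℕ} (hPR : P ≤ R)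
    (hz : z = (Real.log x - t * Real.log d) / Real.log m)
    (hB : ∀ (t' : ℤ) (X : ℝ), x / (m : ℝ) ^ R ≤ X → am (ex d m r F (fun _ => 1) t') X ≤ B) :
    |∑ a ∈ range P, ∑ b ∈ Icc (-(R : ℤ)) R, am (ex d m r F (fun _ => 1) (t + a)) (x * (d : ℝ) ^ a * (m : ℝ) ^ b) -
      (m : ℝ) / (m - 1) * ∑ n ∈ Ioc ⌊x / (m : ℝ) ^ R⌋₊ ⌊x * (m : ℝ) ^ R⌋₊,
        (up d m r F (ww m z) (t + P - 1) n - up d m r F (ww m z) (t - 1) n) / n| ≤ P * (12 * (1 + P * Real.log d) * B) := by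
  have e : ∑ a ∈ range P, ∑ b ∈ Icc (-(R : ℤ)) R, am (ex d m r F (fun _ => 1) (t + a)) (x * (d : ℝ) ^ a * (m : ℝ) ^ b) -
      (m : ℝ) / (m - 1) * ∑ n ∈ Ioc ⌊x / (m : ℝ) ^ R⌋₊ ⌊x * (m : ℝ) ^ R⌋₊,
        (up d m r F (ww m z) (t + P - 1) n - up d m r F (ww m z) (t - 1) n) / n =
      ∑ a ∈ range P, (∑ b ∈ Icc (-(R : ℤ)) R,
      am (ex d m r F (fun _ => 1) (t + a)) (x * (d : ℝ) ^ a * (m : ℝ) ^ b) -
      (m : ℝ) / (m - 1) * ∑ n ∈ Ioc ⌊x / (m : ℝ) ^ R⌋₊ ⌊x * (m : ℝ) ^ R⌋₊, ex d m r F (ww m z) (t + a) n / n) := by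
    rw [sum_sub_distrib, ← mul_sum, sum_comm (s := range P) (t := Ioc ⌊x / (m : ℝ) ^ R⌋₊ ⌊x * (m : ℝ) ^ R⌋₊)]
    congr 2
    refine sum_congr rfl fun n _ => ?_
    rw [← up_diff, ← sum_div]
  rw [e]
  refine (abs_sum_le_sum_abs _ _).trans ?_
  calc _ ≤ ∑ a ∈ range P, 12 * (1 + P * Real.log d) * B := by
        refine sum_le_sum fun a ha => ?_
        rw [hz]
        exact one_a hd hdm hx t (mem_range.1 ha).le hPR fun X hX _ => hB _ X hX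
    _ = P * (12 * (1 + P * Real.log d) * B) := by
        rw [sum_const, card_range, nsmul_eq_mul]

end Pool.Agent.Helper8.LL
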