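import Pool.Agent.Helper8.LL.E

/-!
# LL-E2: the local limit theorem
-/

set_option autoImplicit false

namespace Pool.Agent.Helper8.LL

open Pool.Agent.Helper68.Moeller Pool.Agent.Helper52.Tao Pool.Agent.Helper8.ND Pool.Agent.Helper28
  Pool.Agent.Helper91 Finset Filter Topology ProbabilityTheory

variable {d m : ℕ} {r : ℤ → ℤ}

theorem core (h : POSB.Std d m r) {F : Set ℤ} {b : ℝ} (hb : 0 ≤ b) (hF : ∀ n ∈ F, (n : ℝ) ≤ b) :
    ∃ C ε₀ : ℝ, 1 ≤ C ∧ 0 < ε₀ ∧ ε₀ ≤ 1 ∧ ∀ ε : ℝ, 0 < ε → ε ≤ ε₀ → ∃ X₀ : ℝ, 1 < X₀ ∧ ∀ x : ℝ, X₀ ≤ x → ∀ t : ℤ,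
      |Real.sqrt (Real.log x) * am (ex d m r F (fun _ => 1) t) x -
        m * Real.log m / (m - 1) * W0 d m r F ((Real.log x - t * Real.log d) / Real.log m) *
          gaussianPDFReal 0 1 (uu d m t x) / ST.sd d m| ≤ 4 * (C * ε) := by
  have hd := h.hd
  have hdm := h.hdm
  have hγ : 0 < PL.gam d m := h.gam
  have hsd : 0 < ST.sd d m := sd_pos hd hdm hγ
  have hd0 : (0 : ℝ) < d := by exact_mod_cast (by omega : 0 < d)
  have hd1 : (1 : ℝ) ≤ d := by exact_mod_cast (by omega : 1 ≤ d)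
  have hm3 : (3 : ℝ) ≤ m := by exact_mod_cast (by omega : 3 ≤ m)
  have hm0 : (0 : ℝ) < m := by linarith
  have hm1 : (1 : ℝ) ≤ m := by linarith
  have hld : 0 ≤ Real.log d := Real.log_nonneg hd1
  have hlm : 0 < Real.log m := Real.log_pos (by linarith)
  obtain ⟨C₁, hC₁, hfam⟩ := fam h hF
  have hfam1 := (hfam 1 _ le_rfl tst_one).1
  rw [mul_one] at hfam1
  have hdis : Dis (ex d m r F (fun _ => (1 : ℝ))) := dis_ex wt_one
  obtain ⟨CB, hCB, hsup⟩ := sup_bound h hC₁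
  obtain ⟨CS, hCS, hshift⟩ := shift h hC₁
  obtain ⟨CN, hCN, hgauss⟩ := gauss_win hd (by omega : 3 ≤ m) hγ (C₀ := Real.log m + 1) (by linarith)
  obtain ⟨hWt, -, -, hW0, hW1⟩ := W0_spec h hb hF
  obtain ⟨sdv, hsdv⟩ : ∃ sdv, sdv = ST.sd d m := ⟨_, rfl⟩
  rw [← hsdv] at hsd
  obtain ⟨lm, hlmd⟩ : ∃ lm, lm = Real.log m := ⟨_, rfl⟩
  rw [← hlmd] at hlm
  obtain ⟨K, hK⟩ : ∃ K : ℝ, K = 3 * CS + 24 * CB * (1 + Real.log d) + 6 * (1 + CN) * (1 + lm) / sdv + 1 + 3 / 2 * lm / sdv := ⟨_, rfl⟩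
  have hK1 : 0 ≤ 24 * CB * (1 + Real.log d) := by positivity
  have hK2 : 0 ≤ 6 * (1 + CN) * (1 + lm) / sdv := by positivity
  have hK3 : 0 ≤ 3 / 2 * lm / sdv := by positivity
  have hK0 : 1 ≤ K := by rw [hK]; linarith
  have hKa : 3 * CS ≤ K := by rw [hK]; linarith
  have hKb : 24 * CB * (1 + Real.log d) ≤ K := by rw [hK]; linarith
  have hKc : 6 * (1 + CN) * (1 + lm) / sdv + 1 ≤ K := by rw [hK]; linarith
  have hKd : 3 / 2 * lm / sdv ≤ K := by rw [hK]; linarith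
  clear hK hK1 hK2 hK3
  refine ⟨K, min 1 sdv, hK0, lt_min one_pos hsd, min_le_left _ _, fun ε hε hε₀ => ?_⟩
  have hε1 : ε ≤ 1 := hε₀.trans (min_le_left _ _)
  have hεs : ε ≤ sdv := hε₀.trans (min_le_right _ _)
  obtain ⟨XJ, hXJ, hjoint⟩ := joint_ww h hb hF (ε := ε ^ 3 / (4 * sdv)) (by positivity)
  obtain ⟨XN, hXN, hgau⟩ := hgauss ε hε hε1
  obtain ⟨Q, hQ⟩ : ∃ Q : ℝ, Q = 2 / ε ^ 2 + 12 / ε + 2 * lm + 2 * CS + 4 + 2 * XJ := ⟨_, rfl⟩
  have hq1 : 0 < 2 / ε ^ 2 := by positivity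
  have hq2 : 0 < 12 / ε := by positivity
  refine ⟨max XN (Real.exp (Q ^ 2)), hXN.trans_le (le_max_left _ _), fun x hx t => ?_⟩
  have hxN : XN ≤ x := (le_max_left _ _).trans hx
  have hxQ : Real.exp (Q ^ 2) ≤ x := (le_max_right _ _).trans hx
  have hx0 : 0 < x := (Real.exp_pos _).trans_le hxQ
  have hlx : Q ^ 2 ≤ Real.log x := (Real.le_log_iff_exp_le hx0).2 hxQ
  have hx1 : 1 ≤ x := by
    have := Real.add_one_le_exp (Q ^ 2)
    have := sq_nonneg Q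
    linarith
  obtain ⟨q, hq⟩ : ∃ q, q = Real.sqrt (Real.log x) := ⟨_, rfl⟩
  have hQ0 : 0 ≤ Q := by rw [hQ]; linarith
  have hqQ : Q ≤ q := by rw [hq]; exact Real.le_sqrt_of_sq_le hlx
  have hqq : q ^ 2 = Real.log x := by rw [hq]; exact Real.sq_sqrt ((sq_nonneg _).trans hlx)
  have a1 : 2 / ε ^ 2 ≤ q := by linarith only [hqQ, hQ, hq1, hq2, hlm, hCS, hXJ]
  have a2 : 12 / ε ≤ q := by linarith only [hqQ, hQ, hq1, hq2, hlm, hCS, hXJ]
  have a3 : 2 * lm ≤ q := by linarith only [hqQ, hQ, hq1, hq2, hlm, hCS, hXJ]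
  have a4 : 2 * CS ≤ q := by linarith only [hqQ, hQ, hq1, hq2, hlm, hCS, hXJ]
  have a5 : 4 ≤ q := by linarith only [hqQ, hQ, hq1, hq2, hlm, hCS, hXJ]
  have a6 : 2 * XJ ≤ q := by linarith only [hqQ, hQ, hq1, hq2, hlm, hCS, hXJ]
  clear hQ hq1 hq2 hqQ hlx hxQ hx hQ0
  have hq0 : 0 < q := by linarith only [a5]
  have b1 : 2 ≤ ε ^ 2 * q := by rwa [div_le_iff₀' (by positivity)] at a1
  have b2 : 12 ≤ ε * q := by rwa [div_le_iff₀' hε] at a2
  have hεε : ε ^ 2 ≤ ε := by rw [sq]; exact mul_le_of_le_one_left hε.le hε1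
  have b3 : ε ^ 2 * q ≤ ε * q := mul_le_mul_of_nonneg_right hεε hq0.le
  have b4 : ε * q ≤ q := mul_le_of_le_one_left hq0.le hε1
  -- the numbers `P` and `R`
  obtain ⟨P, hP⟩ : ∃ P : ℕ, P = ⌊ε ^ 2 * q⌋₊ := ⟨_, rfl⟩
  obtain ⟨R, hR⟩ : ∃ R : ℕ, R = ⌊ε * q⌋₊ := ⟨_, rfl⟩
  have hPle : (P : ℝ) ≤ ε ^ 2 * q := by rw [hP]; exact Nat.floor_le (by positivity)
  have hPge : ε ^ 2 * q < P + 1 := by rw [hP]; exact Nat.lt_floor_add_one _
  have hRle : (R : ℝ) ≤ ε * q := by rw [hR]; exact Nat.floor_le (by positivity)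
  have hRge : ε * q < R + 1 := by rw [hR]; exact Nat.lt_floor_add_one _
  have hPR : P ≤ R := by rw [hP, hR]; exact Nat.floor_le_floor b3
  clear hP hR
  have hP1 : (1 : ℝ) ≤ P := by linarith only [b1, hPge]
  have hP0 : (0 : ℝ) < P := by linarith only [hP1]
  have hR0 : (0 : ℝ) ≤ R := Nat.cast_nonneg R
  have hP2 : ε ^ 2 * q ≤ 2 * P := by linarith only [hP1, hPge]
  have hR2 : ε * q ≤ 2 * R + 1 := by linarith only [hRge, hR0]
  have hRq : (R : ℝ) ≤ q := hRle.trans b4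
  have hPq : (P : ℝ) ≤ q := (hPle.trans b3).trans b4
  have hRlm : (R : ℝ) * lm ≤ q ^ 2 / 2 := by
    calc (R : ℝ) * lm ≤ q * (q / 2) := mul_le_mul hRq (by linarith only [a3]) hlm.le hq0.le
      _ = q ^ 2 / 2 := by ring
  have hmR : (0 : ℝ) < (m : ℝ) ^ R := by positivity
  -- the first place
  have hX1 : Real.exp (q ^ 2 / 2) ≤ x / (m : ℝ) ^ R := by
    rw [le_div_iff₀ hmR]
    calc Real.exp (q ^ 2 / 2) * (m : ℝ) ^ R = Real.exp (q ^ 2 / 2 + R * lm) := by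
          rw [Real.exp_add, hlmd, ← Real.log_pow, Real.exp_log hmR]
      _ ≤ Real.exp (Real.log x) := Real.exp_le_exp.2 (by rw [← hqq]; linarith only [hRlm])
      _ = x := Real.exp_log hx0
  have hX1' : q ^ 2 / 2 ≤ x / (m : ℝ) ^ R := by
    refine le_trans ?_ hX1
    have := Real.add_one_le_exp (q ^ 2 / 2)
    linarith only [this]
  have hX1q : 2 * q ≤ q ^ 2 / 2 := by
    have : 4 * q ≤ q * q := mul_le_mul_of_nonneg_right a5 hq0.le
    rw [sq]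
    linarith only [this]
  have hX1p : 0 < x / (m : ℝ) ^ R := by positivity
  have hlX : ∀ X : ℝ, x / (m : ℝ) ^ R ≤ X → q ^ 2 / 2 ≤ Real.log X := by
    intro X hX
    exact (Real.le_log_iff_exp_le (hX1p.trans_le hX)).2 (hX1.trans hX)
  -- the upper bound of the means
  have hBd : ∀ (t' : ℤ) (X : ℝ), x / (m : ℝ) ^ R ≤ X → am (ex d m r F (fun _ => 1) t') X ≤ 2 * CB / q := by
    intro t' X hX
    have h1 := hsup _ hfam1 hdis X (by linarith only [hX, hX1', hX1q, a5]) t'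
    refine h1.trans ?_
    have h2 : q / 2 ≤ Real.sqrt (Real.log X) := by
      apply Real.le_sqrt_of_sq_le
      have h3 := hlX X hX
      have h4 : 0 ≤ q ^ 2 := sq_nonneg q
      have h5 : (q / 2) ^ 2 = q ^ 2 / 4 := by ring
      rw [h5]
      linarith only [h3, h4]
    calc CB / Real.sqrt (Real.log X) ≤ CB / (q / 2) := div_le_div_of_nonneg_left (by linarith only [hCB]) (by linarith only [hq0]) h2
      _ = 2 * CB / q := by field_simp
  -- step 1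
  obtain ⟨z, hz⟩ : ∃ z, z = (Real.log x - t * Real.log d) / Real.log m := ⟨_, rfl⟩
  have s1 : |(P : ℝ) * (2 * R + 1) * am (ex d m r F (fun _ => 1) t) x - ∑ a ∈ range P, ∑ b ∈ Icc (-(R : ℤ)) R,
      am (ex d m r F (fun _ => 1) (t + a)) (x * (d : ℝ) ^ a * (m : ℝ) ^ b)| ≤ P * (2 * R + 1) * (CS * (P + R + 1) / q ^ 2) := by
    refine box fun a ha b' hb' => ?_
    rw [mem_Icc] at hb'
    have hb1 : |(b' : ℝ)| ≤ R := by
      rw [abs_le]
      constructor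
      · exact_mod_cast hb'.1
      · exact_mod_cast hb'.2
    have ha1 : (a : ℝ) ≤ P := by exact_mod_cast ha.le
    have h1 : CS * ((a : ℝ) + |(b' : ℝ)|) ≤ Real.log x := by
      rw [← hqq]
      calc CS * ((a : ℝ) + |(b' : ℝ)|) ≤ CS * (q + q) := by
            apply mul_le_mul_of_nonneg_left _ (by linarith only [hCS])
            linarith only [ha1, hb1, hPq, hRq]
        _ = 2 * CS * q := by ring
        _ ≤ q * q := mul_le_mul_of_nonneg_right a4 hq0.le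
        _ = q ^ 2 := by ring
    have h0 : CS ≤ Real.log x := by
      rw [← hqq]
      calc CS ≤ q * 1 := by linarith only [a4, hCS]
        _ ≤ q * q := mul_le_mul_of_nonneg_left (by linarith only [a5]) hq0.le
        _ = q ^ 2 := by ring
    have h2 := hshift _ hfam1 hdis x hx1 h0 t a b' h1
    refine h2.trans ?_
    rw [← hqq]
    apply div_le_div_of_nonneg_right _ (by positivity)
    apply mul_le_mul_of_nonneg_left _ (by linarith only [hCS])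
    linarith only [ha1, hb1]
  -- steps 2 and 3
  have s2 := step2 hd hdm (F := F) hx0 t hPR hz hBd
  -- step 4
  obtain ⟨p, hp⟩ : ∃ p, p = (P : ℝ) / (sdv * q) := ⟨_, rfl⟩
  obtain ⟨φ, hφ⟩ : ∃ φ, φ = gaussianPDFReal 0 1 (uu d m t x) := ⟨_, rfl⟩
  obtain ⟨Wz, hWz⟩ : ∃ Wz, Wz = W0 d m r F z := ⟨_, rfl⟩
  have hp0 : 0 < p := by rw [hp]; positivity
  have hp1 : p ≤ 1 := by
    rw [hp, div_le_one (by positivity)]
    refine hPle.trans (mul_le_mul_of_nonneg_right ?_ hq0.le)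
    exact hεε.trans hεs
  have hp2 : ε ^ 2 / (2 * sdv) ≤ p := by
    rw [hp, div_le_div_iff₀ (by positivity) (by positivity)]
    calc ε ^ 2 * (sdv * q) = sdv * (ε ^ 2 * q) := by ring
      _ ≤ sdv * (2 * P) := mul_le_mul_of_nonneg_left hP2 hsd.le
      _ = P * (2 * sdv) := by ring
  have hφ0 : 0 ≤ φ := by rw [hφ]; exact gaussianPDFReal_nonneg _ _ _
  have hφ1 : φ ≤ 1 := by rw [hφ]; exact pdf_le_one _
  have hWz0 : 0 ≤ Wz := by rw [hWz]; exact hW0 z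
  have hWz1 : Wz ≤ 1 := by rw [hWz]; exact hW1 z
  have c5 : 2 * (ε ^ 3 / (4 * sdv)) ≤ ε * p := by
    calc 2 * (ε ^ 3 / (4 * sdv)) = ε * (ε ^ 2 / (2 * sdv)) := by field_simp; ring
      _ ≤ ε * p := mul_le_mul_of_nonneg_left hp2 hε.le
  have s4 := step4 (by omega : 2 ≤ m) (u₁ := up d m r F (ww m z) (t + P - 1)) (u₂ := up d m r F (ww m z) (t - 1))
    (R := R) (E := (1 + CN) * ε * p) hx0 hlmd (by linarith only [hX1', hX1q, a5]) hWz0 hWz1 hp0.le hp1 hφ0 hφ1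
    (by positivity) (by
      intro X hX1l hX2l
      have hXp : 0 < X := lt_of_lt_of_le (by positivity) hX1l
      have hXJ' : XJ ≤ X := by linarith only [hX1l, hX1', hX1q, a6, hq0]
      have h3 := hjoint z X hXJ' (t + P - 1)
      have h4 := hjoint z X hXJ' (t - 1)
      have hlogX : |Real.log X - Real.log x| ≤ (Real.log m + 1) * ε * Real.sqrt (Real.log x) := by
        rw [← hq]
        exact log_place (by omega) hx0 hXp hRle (by linarith only [b2]) hX1l hX2l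
      have h5 := hgau x hxN P (by rw [← hq]; exact hPle) (by rw [← hq]; exact hP2) X hXp hlogX t
      rw [← hsdv, ← hq, ← hp, ← hφ] at h5
      rw [← hWz] at h3 h4
      push_cast at h3 h4
      exact place hWz0 hWz1 h3 h4 h5 c5)
  -- the combination
  rw [← hz, ← hq, ← hφ, ← hWz, ← hsdv, ← hlmd]
  rw [hp] at s4
  exact combine hq0 hsd hlm hm3 hWz0 hWz1 hφ0 hφ1 hP0 hR0 s1 s2 s4
    (k1_le (by linarith only [hCS]) hq0 hε (hPle.trans b3) hRle (by linarith only [b2]) hKa)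
    (k2_le (by linarith only [hCB]) hq0 hε hld hR0 hPle hR2 (by linarith only [b1]) hKb)
    (k3_le (by linarith only [hCN]) hq0 hε hlm hsd hR0 hP1 rfl hX1' b2 hKc)
    (k4_le hε hR2 (by linarith only [b1]) (by linarith only [hK0]) hKd)

/-- **The local limit theorem.** -/
theorem llt (h : POSB.Std d m r) {F : Set ℤ} {b : ℝ} (hb : 0 ≤ b) (hF : ∀ n ∈ F, (n : ℝ) ≤ b) {ε : ℝ} (hε : 0 < ε) :
    ∃ X₀ : ℝ, 1 < X₀ ∧ ∀ x : ℝ, X₀ ≤ x → ∀ t : ℤ,
      |Real.sqrt (Real.log x) * am (ex d m r F (fun _ => 1) t) x -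
        m * Real.log m / (m - 1) * W0 d m r F ((Real.log x - t * Real.log d) / Real.log m) *
          gaussianPDFReal 0 1 (uu d m t x) / ST.sd d m| ≤ ε := by
  obtain ⟨C, ε₀, hC, hε₀, -, hcore⟩ := core h hb hF
  obtain ⟨X₀, hX₀, h1⟩ := hcore (min ε₀ (ε / (4 * C))) (lt_min hε₀ (by positivity)) (min_le_left _ _)
  refine ⟨X₀, hX₀, fun x hx t => (h1 x hx t).trans ?_⟩
  calc 4 * (C * min ε₀ (ε / (4 * C))) ≤ 4 * (C * (ε / (4 * C))) := by
        apply mul_le_mul_of_nonneg_left _ (by norm_num)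
        exact mul_le_mul_of_nonneg_left (min_le_right _ _) (by linarith)
    _ = ε := by field_simp

end Pool.Agent.Helper8.LL
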