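import Pool.Agent.Helper8.LL.Def

/-!
# LL-J1: `Wf` and the normal law, uniformly in `s`

From `Helper33.ST.clt_unif` by Polya's theorem (the left side is monotone in `y`, the right side continuous with limits `0`, `1`): for `s ≥ S₀(ε)` and ALL real `y`
`|cW d s (sg w ≤ (1 - 1/d) s + y √(v s)) / d^s - Φ(y)| ≤ ε` (`poly`). `Wf d m a x s` is the left side at `y_s = (a + γ s - log x) / (log m √(v s))` (see the proof of `ST.Wf_lim`); with `γ sd / (log m √v) = 1 / √γ`
`y_s = uu √(log x / (γ s)) + O(1 / √s)`. For `|uu| ≤ U` `y_s → uu`; for `|uu| ≥ U` both `Φ` are near `0` or near `1`. `s < S₀`: `Wf d m a x s = 0` for `x` large (`ST.Wf_zero`) and `Φ(uu)` is near `0`.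
-/

set_option autoImplicit false

namespace Pool.Agent.Helper8.LL

open Pool.Agent.Helper68.Moeller Pool.Agent.Helper52.Tao Pool.Agent.Helper8.ND Pool.Agent.Helper28
  Pool.Agent.Helper91 Finset Filter Topology

variable {d m : ℕ} {r : ℤ → ℤ}

private theorem cdf_cont32 (u : ℝ) :
    ContinuousAt (ProbabilityTheory.cdf (ProbabilityTheory.gaussianReal 0 1)) u := by
  have := ProbabilityTheory.nullSingletonClass_gaussianReal (μ := 0) (v := 1) one_ne_zero
  have hm := ProbabilityTheory.monotone_cdf (ProbabilityTheory.gaussianReal 0 1)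
  rw [hm.continuousAt_iff_leftLim_eq_rightLim, StieltjesFunction.rightLim_eq]
  have h1 : (ProbabilityTheory.cdf (ProbabilityTheory.gaussianReal 0 1)).measure {u} = 0 := by
    rw [ProbabilityTheory.measure_cdf]
    exact MeasureTheory.measure_singleton u
  rw [StieltjesFunction.measure_singleton, ENNReal.ofReal_eq_zero, sub_nonpos] at h1
  exact le_antisymm (hm.leftLim_le le_rfl) h1

private theorem tails32 {ε : ℝ} (hε : 0 < ε) : ∃ U : ℝ, 0 < U ∧
    ProbabilityTheory.cdf (ProbabilityTheory.gaussianReal 0 1) (-U) ≤ ε ∧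
    1 - ε ≤ ProbabilityTheory.cdf (ProbabilityTheory.gaussianReal 0 1) U := by
  have h1 := (ProbabilityTheory.tendsto_cdf_atBot (ProbabilityTheory.gaussianReal 0 1)).eventually (gt_mem_nhds hε)
  have h2 := (ProbabilityTheory.tendsto_cdf_atTop (ProbabilityTheory.gaussianReal 0 1)).eventually
    (lt_mem_nhds (show (1 : ℝ) - ε < 1 by linarith))
  obtain ⟨b, hb⟩ := eventually_atBot.1 h1
  obtain ⟨c, hc⟩ := eventually_atTop.1 h2
  refine ⟨max (max (-b) c) 1, by positivity, ?_, ?_⟩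
  · refine (hb _ ?_).le
    have := le_max_left (max (-b) c) 1
    have := le_max_left (-b) c
    linarith
  · refine (hc _ ?_).le
    exact (le_max_right (-b) c).trans (le_max_left _ _)

private theorem unif32 (B : ℝ) {ε : ℝ} (hε : 0 < ε) : ∃ δ : ℝ, 0 < δ ∧ ∀ u y : ℝ, |u| ≤ B → |y - u| ≤ δ →
    |ProbabilityTheory.cdf (ProbabilityTheory.gaussianReal 0 1) y -
      ProbabilityTheory.cdf (ProbabilityTheory.gaussianReal 0 1) u| ≤ ε := by
  have h1 := (isCompact_Icc (a := -B) (b := B)).uniformContinuousAt_of_continuousAt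
    (ProbabilityTheory.cdf (ProbabilityTheory.gaussianReal 0 1)) (fun a _ => cdf_cont32 a) (Metric.dist_mem_uniformity hε)
  obtain ⟨δ, hδ, h2⟩ := Metric.mem_uniformity_dist.1 h1
  refine ⟨δ / 2, half_pos hδ, fun u y hu hy => ?_⟩
  have h3 : dist u y < δ := by
    rw [dist_comm, Real.dist_eq]
    linarith
  have h4 := h2 h3 (by
    rw [Set.mem_Icc]
    exact abs_le.1 hu)
  have h5 : dist (ProbabilityTheory.cdf (ProbabilityTheory.gaussianReal 0 1) u)
    (ProbabilityTheory.cdf (ProbabilityTheory.gaussianReal 0 1) y) < ε := h4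
  rw [dist_comm, Real.dist_eq] at h5
  exact h5.le

private noncomputable def gg32 (d s : ℕ) (y : ℝ) : ℝ :=
  cW d s (fun w => (sg w : ℝ) ≤ (1 - 1 / (d : ℝ)) * s + y * Real.sqrt ((1 - 1 / (d : ℝ)) * (1 / (d : ℝ)) * s)) / (d : ℝ) ^ s

private theorem gg_mono32 (hd : 2 ≤ d) (s : ℕ) {y y' : ℝ} (h : y ≤ y') : gg32 d s y ≤ gg32 d s y' := by
  have hd0 : (0 : ℝ) < d := by exact_mod_cast (by omega : 0 < d)
  unfold gg32
  refine div_le_div_of_nonneg_right (cW_mono fun w _ hw => ?_) (by positivity)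
  have := mul_le_mul_of_nonneg_right h (Real.sqrt_nonneg ((1 - 1 / (d : ℝ)) * (1 / (d : ℝ)) * s))
  linarith

private theorem gg_nonneg32 (s : ℕ) (y : ℝ) : 0 ≤ gg32 d s y := div_nonneg (cW_nonneg _ _ _) (by positivity)

private theorem gg_le_one32 (hd : 2 ≤ d) (s : ℕ) (y : ℝ) : gg32 d s y ≤ 1 := by
  have hd0 : (0 : ℝ) < d := by exact_mod_cast (by omega : 0 < d)
  unfold gg32
  rw [div_le_one (by positivity)]
  exact cW_le_pow _ _ _

private theorem poly_aux32 (hd : 2 ≤ d) {ε : ℝ} (hε : 0 < ε) : ∃ S₀ : ℕ, ∀ s : ℕ, S₀ ≤ s → ∀ y : ℝ,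
    |gg32 d s y - ProbabilityTheory.cdf (ProbabilityTheory.gaussianReal 0 1) y| ≤ ε := by
  obtain ⟨U, hU, hU1, hU2⟩ := tails32 (half_pos hε)
  have hm := ProbabilityTheory.monotone_cdf (ProbabilityTheory.gaussianReal 0 1)
  have h0 := ProbabilityTheory.cdf_nonneg (ProbabilityTheory.gaussianReal 0 1)
  have h1 := ProbabilityTheory.cdf_le_one (ProbabilityTheory.gaussianReal 0 1)
  have key : ∃ S₀ : ℕ, ∀ s : ℕ, S₀ ≤ s → ∀ y ∈ Set.Icc (-U) U,
      |gg32 d s y - ProbabilityTheory.cdf (ProbabilityTheory.gaussianReal 0 1) y| ≤ ε / 2 := by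
    refine (isCompact_Icc (a := -U) (b := U)).induction_on
      (p := fun K : Set ℝ => ∃ S₀ : ℕ, ∀ s : ℕ, S₀ ≤ s → ∀ y ∈ K,
        |gg32 d s y - ProbabilityTheory.cdf (ProbabilityTheory.gaussianReal 0 1) y| ≤ ε / 2) ?_ ?_ ?_ ?_
    · exact ⟨0, fun s _ y hy => absurd hy (Set.notMem_empty y)⟩
    · rintro K K' hK ⟨S, hS⟩
      exact ⟨S, fun s hs y hy => hS s hs y (hK hy)⟩
    · rintro K K' ⟨S, hS⟩ ⟨S', hS'⟩
      refine ⟨max S S', fun s hs y hy => ?_⟩
      rcases hy with hy | hy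
      · exact hS s ((le_max_left _ _).trans hs) y hy
      · exact hS' s ((le_max_right _ _).trans hs) y hy
    · intro u _
      obtain ⟨δ, hδ, S, hS⟩ := Pool.Agent.Helper33.ST.clt_unif hd u (ε := ε / 4) (by positivity)
      obtain ⟨δ', hδ', hc⟩ := Metric.continuousAt_iff.1 (cdf_cont32 u) (ε / 4) (by positivity)
      refine ⟨Metric.ball u (min δ δ'), mem_nhdsWithin_of_mem_nhds (Metric.ball_mem_nhds u (lt_min hδ hδ')), S,
        fun s hs y hy => ?_⟩
      have hy1 : dist y u < δ := lt_of_lt_of_le (Metric.mem_ball.1 hy) (min_le_left _ _)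
      have hy2 : dist y u < δ' := lt_of_lt_of_le (Metric.mem_ball.1 hy) (min_le_right _ _)
      have h3 := hS s hs y (by rw [← Real.dist_eq]; exact hy1.le)
      have h4 := hc hy2
      rw [Real.dist_eq] at h4
      have h5 : |gg32 d s y - ProbabilityTheory.cdf (ProbabilityTheory.gaussianReal 0 1) u| ≤ ε / 4 := h3
      rw [abs_le] at h5 ⊢
      rw [abs_lt] at h4
      constructor <;> linarith [h4.1, h4.2, h5.1, h5.2]
  obtain ⟨S, hS⟩ := key
  refine ⟨S, fun s hs y => ?_⟩
  rcases lt_or_ge y (-U) with hy | hy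
  · have h3 := hS s hs (-U) ⟨le_rfl, by linarith⟩
    have h4 := gg_mono32 hd s hy.le
    have h5 := hm hy.le
    have h6 := gg_nonneg32 (d := d) s y
    have h7 := h0 y
    rw [abs_le] at h3 ⊢
    constructor <;> linarith [h3.1, h3.2]
  · rcases lt_or_ge U y with hy' | hy'
    · have h3 := hS s hs U ⟨by linarith, le_rfl⟩
      have h4 := gg_mono32 hd s hy'.le
      have h5 := hm hy'.le
      have h6 := gg_le_one32 hd s y
      have h7 := h1 y
      rw [abs_le] at h3 ⊢
      constructor <;> linarith [h3.1, h3.2]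
    · exact (hS s hs y ⟨hy, hy'⟩).trans (by linarith)

theorem poly (hd : 2 ≤ d) {ε : ℝ} (hε : 0 < ε) : ∃ S₀ : ℕ, ∀ s : ℕ, S₀ ≤ s → ∀ y : ℝ,
    |cW d s (fun w => (sg w : ℝ) ≤ (1 - 1 / (d : ℝ)) * s + y * Real.sqrt ((1 - 1 / (d : ℝ)) * (1 / (d : ℝ)) * s)) / (d : ℝ) ^ s -
      ProbabilityTheory.cdf (ProbabilityTheory.gaussianReal 0 1) y| ≤ ε :=
  poly_aux32 hd hε

/-- comparison of the two arguments: `y = (u + p) / √t`, `t = 1 + u / q` -/
private theorem cmp32 {ε : ℝ} (hε : 0 < ε) : ∃ η Q : ℝ, 0 < η ∧ 0 < Q ∧ ∀ u p q t : ℝ, |p| ≤ η → Q ≤ q → 0 < t →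
    t = 1 + u / q → |ProbabilityTheory.cdf (ProbabilityTheory.gaussianReal 0 1) ((u + p) / Real.sqrt t) -
      ProbabilityTheory.cdf (ProbabilityTheory.gaussianReal 0 1) u| ≤ ε := by
  obtain ⟨U, hU, hU1, hU2⟩ := tails32 hε
  have hm := ProbabilityTheory.monotone_cdf (ProbabilityTheory.gaussianReal 0 1)
  have h0 := ProbabilityTheory.cdf_nonneg (ProbabilityTheory.gaussianReal 0 1)
  have h1 := ProbabilityTheory.cdf_le_one (ProbabilityTheory.gaussianReal 0 1)
  obtain ⟨δ, hδ, hc⟩ := unif32 (2 * U) hε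
  refine ⟨min (U / 2) (δ / 4), max (4 * U) (16 * U ^ 2 / δ), by positivity, by positivity, ?_⟩
  intro u p q t hp hq ht htq
  have hpU : |p| ≤ U / 2 := hp.trans (min_le_left _ _)
  have hpδ : |p| ≤ δ / 4 := hp.trans (min_le_right _ _)
  have hqU : 4 * U ≤ q := (le_max_left _ _).trans hq
  have hqδ : 16 * U ^ 2 / δ ≤ q := (le_max_right _ _).trans hq
  have hq0 : 0 < q := by linarith
  have hst : 0 < Real.sqrt t := Real.sqrt_pos.2 ht
  have hss : Real.sqrt t * Real.sqrt t = t := Real.mul_self_sqrt ht.le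
  have hp' := abs_le.1 hpU
  rcases lt_or_ge (2 * U) u with hu | hu
  · -- both near one
    have h2 : U ≤ (u + p) / Real.sqrt t := by
      rw [le_div_iff₀ hst]
      have h3 : Real.sqrt t ≤ (1 + t) / 2 := by nlinarith [sq_nonneg (Real.sqrt t - 1)]
      have h4 : U * (u / q) ≤ u / 4 := by
        rw [mul_div_assoc', div_le_div_iff₀ hq0 (by norm_num)]
        nlinarith
      have h5 : U * Real.sqrt t ≤ U * ((1 + t) / 2) := mul_le_mul_of_nonneg_left h3 hU.le
      have h6 : U * ((1 + t) / 2) = U + U * (u / q) / 2 := by rw [htq]; ring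
      linarith [hp'.1]
    have h3 := hm h2
    have h4 := hm (show U ≤ u by linarith)
    have h5 := h1 ((u + p) / Real.sqrt t)
    have h6 := h1 u
    rw [abs_le]
    constructor <;> linarith
  · rcases lt_or_ge u (-(2 * U)) with hu' | hu'
    · -- both near zero
      have h7 : t ≤ 1 := by
        have : u / q ≤ 0 := div_nonpos_of_nonpos_of_nonneg (by linarith) hq0.le
        linarith
      have h8 : Real.sqrt t ≤ 1 := Real.sqrt_le_one.2 h7
      have h2 : (u + p) / Real.sqrt t ≤ -U := by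
        rw [div_le_iff₀ hst]
        have := hp'.2
        nlinarith
      have h3 := hm h2
      have h4 := hm (show u ≤ -U by linarith)
      have h5 := h0 ((u + p) / Real.sqrt t)
      have h6 := h0 u
      rw [abs_le]
      constructor <;> linarith
    · -- the middle
      have hua : |u| ≤ 2 * U := abs_le.2 ⟨by linarith, hu⟩
      refine hc u _ hua ?_
      have h2 : |u / q| ≤ 2 * U / q := by
        rw [abs_div, abs_of_pos hq0]
        exact div_le_div_of_nonneg_right hua hq0.le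
      have h3 : 2 * U / q ≤ 1 / 2 := by
        rw [div_le_div_iff₀ hq0 (by norm_num)]
        linarith
      have h4 : |u / q| ≤ 1 / 2 := h2.trans h3
      have h5 : 1 / 2 ≤ t := by
        have := (abs_le.1 h4).1
        linarith
      have h6 : 1 / 2 ≤ Real.sqrt t := by
        rw [Real.le_sqrt (by norm_num) ht.le]
        norm_num
        linarith
      have h7 : |1 - Real.sqrt t| ≤ |u / q| := by
        have h8 : 1 - t = (1 - Real.sqrt t) * (1 + Real.sqrt t) := by
          linear_combination hss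
        have h9 : |1 - t| = |1 - Real.sqrt t| * (1 + Real.sqrt t) := by
          rw [h8, abs_mul, abs_of_pos (by linarith : 0 < 1 + Real.sqrt t)]
        have h10 : |1 - t| = |u / q| := by
          rw [htq, show (1 : ℝ) - (1 + u / q) = -(u / q) by ring, abs_neg]
        rw [← h10, h9]
        have := abs_nonneg (1 - Real.sqrt t)
        nlinarith
      have h11 : (u + p) / Real.sqrt t - u = (u * (1 - Real.sqrt t) + p) / Real.sqrt t := by
        field_simp
        ring
      rw [h11, abs_div, abs_of_pos hst, div_le_iff₀ hst]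
      have h12 : |u * (1 - Real.sqrt t) + p| ≤ 2 * U * (2 * U / q) + δ / 4 := by
        refine (abs_add_le _ _).trans (add_le_add ?_ hpδ)
        rw [abs_mul]
        exact mul_le_mul hua (h7.trans h2) (abs_nonneg _) (by linarith)
      have h13 : 2 * U * (2 * U / q) ≤ δ / 4 := by
        rw [mul_div_assoc', div_le_div_iff₀ hq0 (by norm_num)]
        rw [div_le_iff₀ hδ] at hqδ
        nlinarith
      have h14 : δ * (1 / 2) ≤ δ * Real.sqrt t := mul_le_mul_of_nonneg_left h6 hδ.le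
      linarith

theorem Wf_unif (hd : 2 ≤ d) (hdm : d < m) (hγ : 0 < PL.gam d m) (a : ℝ) {ε : ℝ} (hε : 0 < ε) :
    ∃ X₀ : ℝ, 1 < X₀ ∧ ∀ x : ℝ, X₀ ≤ x → ∀ s : ℕ,
      |ST.Wf d m a x s - ProbabilityTheory.cdf (ProbabilityTheory.gaussianReal 0 1) (uu d m s x)| ≤ ε := by
  have hd1 : (1 : ℝ) < d := by exact_mod_cast (by omega : 1 < d)
  have hd0 : (0 : ℝ) < d := by linarith
  have hm1 : (1 : ℝ) < m := by exact_mod_cast (by omega : 1 < m)
  have hlm : 0 < Real.log m := Real.log_pos hm1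
  have hv : 0 < (1 - 1 / (d : ℝ)) * (1 / (d : ℝ)) := by
    have : 1 / (d : ℝ) < 1 := by rw [div_lt_one hd0]; exact hd1
    have h2 : 0 < 1 / (d : ℝ) := by positivity
    exact mul_pos (by linarith) h2
  obtain ⟨v, hvv⟩ : ∃ v, v = (1 - 1 / (d : ℝ)) * (1 / (d : ℝ)) := ⟨_, rfl⟩
  obtain ⟨γ, hγγ⟩ : ∃ γ, γ = PL.gam d m := ⟨_, rfl⟩
  rw [← hvv] at hv
  rw [← hγγ] at hγ
  have hsv : 0 < Real.sqrt v := Real.sqrt_pos.2 hv
  have hsγ : 0 < Real.sqrt γ := Real.sqrt_pos.2 hγ
  obtain ⟨S₀, hS₀⟩ := poly hd (half_pos hε)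
  obtain ⟨η, Q, hη, hQ, hcmp⟩ := cmp32 (half_pos hε)
  obtain ⟨U, hU, hU1, -⟩ := tails32 hε
  obtain ⟨κ, hκ⟩ : ∃ κ : ℝ, κ = Real.sqrt γ / (Real.log m * Real.sqrt v) := ⟨_, rfl⟩
  have hκ0 : 0 < κ := by rw [hκ]; positivity
  have hq1 : Tendsto (fun L : ℝ => κ * Real.sqrt L) atTop atTop := Real.tendsto_sqrt_atTop.const_mul_atTop hκ0
  have hev : ∀ᶠ L : ℝ in atTop, 1 ≤ L ∧ Q ≤ κ * Real.sqrt L ∧ 2 * U ≤ κ * Real.sqrt L ∧
      |κ * a / Real.sqrt L| ≤ η ∧ 2 * (γ * (S₀ + 1)) ≤ L ∧ a + (S₀ + 1) * Real.log d < L := by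
    have h1 : Tendsto (fun L : ℝ => κ * a / Real.sqrt L) atTop (𝓝 0) :=
      tendsto_const_nhds.div_atTop Real.tendsto_sqrt_atTop
    have h2 : ∀ᶠ L : ℝ in atTop, |κ * a / Real.sqrt L| ≤ η := by
      have := (Metric.tendsto_nhds.1 h1) η hη
      filter_upwards [this] with L hL
      rw [Real.dist_eq, sub_zero] at hL
      exact hL.le
    filter_upwards [eventually_ge_atTop 1, hq1.eventually_ge_atTop Q, hq1.eventually_ge_atTop (2 * U), h2,
      eventually_ge_atTop (2 * (γ * (S₀ + 1))), eventually_gt_atTop (a + (S₀ + 1) * Real.log d)] with L a1 a2 a3 a4 a5 a6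
    exact ⟨a1, a2, a3, a4, a5, a6⟩
  obtain ⟨X₁, hX₁⟩ := eventually_atTop.1 (Real.tendsto_log_atTop.eventually hev)
  refine ⟨max X₁ 2, lt_of_lt_of_le one_lt_two (le_max_right _ _), fun x hx s => ?_⟩
  obtain ⟨g1, g2, g3, g4, g5, g6⟩ := hX₁ x ((le_max_left _ _).trans hx)
  obtain ⟨L, hL⟩ : ∃ L, L = Real.log x := ⟨_, rfl⟩
  rw [← hL] at g1 g2 g3 g4 g5 g6
  have hL0 : 0 < L := by linarith
  have hsL : 0 < Real.sqrt L := Real.sqrt_pos.2 hL0
  have hLL : Real.sqrt L * Real.sqrt L = L := Real.mul_self_sqrt hL0.le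
  -- the normalized time
  have hu : uu d m s x = κ * Real.sqrt L * (γ * s / L - 1) := by
    unfold uu ST.sd
    rw [← hL, ← hγγ, ← hvv, hκ]
    have h1 : Real.sqrt γ * Real.sqrt γ = γ := Real.mul_self_sqrt hγ.le
    have h2 : κ * Real.sqrt L * (γ * s / L - 1) = κ * (γ * s - L) / Real.sqrt L := by
      rw [eq_div_iff hsL.ne']
      calc κ * Real.sqrt L * (γ * s / L - 1) * Real.sqrt L = κ * (Real.sqrt L * Real.sqrt L) * (γ * s / L - 1) := by ring
        _ = κ * (γ * s - L) := by rw [hLL]; field_simp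
    rw [← hκ, h2, hκ]
    field_simp
  rcases lt_or_ge s (S₀ + 1) with hs | hs
  · -- small times
    have hs' : (s : ℝ) ≤ S₀ + 1 := by exact_mod_cast hs.le
    have hld : 0 ≤ Real.log d := Real.log_nonneg hd1.le
    have h1 : ST.Wf d m a x s = 0 := by
      refine ST.Wf_zero hd hdm ?_
      rw [← hL]
      have := mul_le_mul_of_nonneg_right hs' hld
      linarith
    have h2 : uu d m s x ≤ -U := by
      rw [hu]
      have h3 : γ * s / L ≤ 1 / 2 := by
        rw [div_le_div_iff₀ hL0 (by norm_num)]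
        have := mul_le_mul_of_nonneg_left hs' hγ.le
        linarith
      have h4 : κ * Real.sqrt L * (γ * s / L - 1) ≤ κ * Real.sqrt L * (-(1 / 2)) :=
        mul_le_mul_of_nonneg_left (by linarith) (by positivity)
      linarith
    have h3 := ProbabilityTheory.monotone_cdf (ProbabilityTheory.gaussianReal 0 1) h2
    have h4 := ProbabilityTheory.cdf_nonneg (ProbabilityTheory.gaussianReal 0 1) (uu d m s x)
    rw [h1, zero_sub, abs_neg, abs_of_nonneg h4]
    exact h3.trans hU1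
  · have hs0 : 0 < (s : ℝ) := by exact_mod_cast (by omega : 0 < s)
    have hq : 0 < Real.sqrt (v * s) := Real.sqrt_pos.2 (by positivity)
    obtain ⟨y, hy⟩ : ∃ y, y = (a + γ * s - L) / (Real.log m * Real.sqrt (v * s)) := ⟨_, rfl⟩
    have e : ST.Wf d m a x s = cW d s (fun w => (sg w : ℝ) ≤ (1 - 1 / (d : ℝ)) * s +
        y * Real.sqrt ((1 - 1 / (d : ℝ)) * (1 / (d : ℝ)) * s)) / (d : ℝ) ^ s := by
      unfold ST.Wf
      congr 1
      refine cW_congr fun w _ => ?_
      rw [← hvv, hy]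
      have e2 : (a + γ * s - L) / (Real.log m * Real.sqrt (v * s)) * Real.sqrt (v * s) =
          (a + γ * s - L) / Real.log m := by
        field_simp
      rw [e2, hγγ, hL]
      have e3 : (1 - 1 / (d : ℝ)) * s + (a + PL.gam d m * s - Real.log x) / Real.log m =
          (a + s * Real.log d - Real.log x) / Real.log m := by
        unfold PL.gam
        field_simp
        ring
      rw [e3, le_div_iff₀ hlm]
    have h1 := hS₀ s (by omega) y
    rw [← e] at h1
    obtain ⟨t, ht⟩ : ∃ t, t = γ * s / L := ⟨_, rfl⟩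
    have ht0 : 0 < t := by rw [ht]; positivity
    have hyt : y = (uu d m s x + κ * a / Real.sqrt L) / Real.sqrt t := by
      rw [hy, hu, ← ht]
      have h2 : Real.sqrt (v * s) = Real.sqrt v * Real.sqrt s := Real.sqrt_mul hv.le _
      have h3 : Real.sqrt t = Real.sqrt γ * Real.sqrt s / Real.sqrt L := by
        rw [ht, Real.sqrt_div (by positivity), Real.sqrt_mul hγ.le]
      have hss : 0 < Real.sqrt (s : ℝ) := Real.sqrt_pos.2 hs0
      have h4 : κ * Real.sqrt L * (t - 1) + κ * a / Real.sqrt L = κ * (a + γ * s - L) / Real.sqrt L := by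
        rw [eq_div_iff hsL.ne', add_mul, div_mul_cancel₀ _ hsL.ne']
        calc κ * Real.sqrt L * (t - 1) * Real.sqrt L + κ * a =
            κ * (Real.sqrt L * Real.sqrt L) * (t - 1) + κ * a := by ring
          _ = κ * (a + γ * s - L) := by rw [hLL, ht]; field_simp; ring
      rw [h4, h2, h3, hκ]
      field_simp
    have h2 := hcmp (uu d m s x) (κ * a / Real.sqrt L) (κ * Real.sqrt L) t g4 g2 ht0 (by
      rw [hu, mul_div_cancel_left₀ _ (by positivity : κ * Real.sqrt L ≠ 0), ht]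
      ring)
    rw [← hyt] at h2
    rw [abs_le] at h1 h2 ⊢
    constructor <;> linarith [h1.1, h1.2, h2.1, h2.2]

end Pool.Agent.Helper8.LL
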