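import Pool.Agent.Helper8.LL.A

/-!
# LL-S: the means of functions which are nearly invariant

`g u := if 0 ≤ u then am f (exp u) else 0` satisfies `ND.Good d (log m) (log d) c C u₁ g`, `u₁ = K + K log z` (`lip`: `am_lip`; `flow`: `flow_am` with the constant family, `k ≤ c u`, `c` small; compare
`ND.good_gl`). Then `ND.conv`.
-/

set_option autoImplicit false

namespace Pool.Agent.Helper8.LL

open Pool.Agent.Helper68.Moeller Pool.Agent.Helper52.Tao Pool.Agent.Helper8.ND Pool.Agent.Helper28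
  Pool.Agent.Helper91 Finset Filter Topology

variable {d m : ℕ} {r : ℤ → ℤ}

/-- the mean in logarithmic scale -/
private noncomputable def gm93 (f : ℤ → ℝ) (u : ℝ) : ℝ := if 0 ≤ u then am f (Real.exp u) else 0

private theorem gm93_of_nonneg (f : ℤ → ℝ) {u : ℝ} (hu : 0 ≤ u) : gm93 f u = am f (Real.exp u) := if_pos hu

private theorem good93 (h : POSB.Std d m r) : ∃ c C : ℝ, 0 < c ∧ 1 ≤ C ∧ ∀ (z : ℝ) (f : ℤ → ℝ), 1 ≤ z →
    Fam d m r z (fun _ => f) → Good d (Real.log m) (Real.log d) c C (2 * Real.log C + 2 * Real.log z) (gm93 f) := by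
  obtain ⟨C, hC1, hflow⟩ := flow_am h
  have hC0 : 0 < C := by linarith
  have hd := h.hd
  have hdm := h.hdm
  have hd2 : (2 : ℝ) ≤ d := by exact_mod_cast hd
  have hm3 : (3 : ℝ) ≤ m := by exact_mod_cast (by omega : 3 ≤ m)
  have hd0 : (0 : ℝ) < d := by linarith
  have hm0 : (0 : ℝ) < m := by linarith
  have hdm1 : (1 : ℝ) < (d : ℝ) * m := by nlinarith
  have hL : 0 < Real.log ((d : ℝ) * m) := Real.log_pos hdm1
  set L := Real.log ((d : ℝ) * m) with hLdef
  refine ⟨1 / (16 * L), C, by positivity, hC1, ?_⟩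
  intro z f hz hf
  have hz0 : 0 < z := by linarith
  have hlz := Real.log_nonneg hz
  have hlC := Real.log_nonneg hC1
  have f0 : ∀ n, 0 ≤ f n := fun n => hf.nonneg 0 n
  have f1 : ∀ n, f n ≤ 1 := fun n => hf.le_one 0 n
  refine ⟨?_, ?_, ?_, ?_⟩
  · intro u
    unfold gm93
    split_ifs
    · exact am_nonneg f0 (Real.exp_pos u).le
    · exact le_rfl
  · intro u
    unfold gm93
    split_ifs with hu
    · exact (am_le_one f1 (Real.exp_pos u).le).trans (by norm_num)
    · norm_num
  · intro u h hu hh hh2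
    rw [gm93_of_nonneg f hu, gm93_of_nonneg f (by linarith), Real.exp_add]
    have hexp1 : 1 ≤ Real.exp h := Real.one_le_exp hh
    have hexp2 : Real.exp h ≤ 1 + 2 * h := by
      have h3 := Real.abs_exp_sub_one_sub_id_le (x := h) (by rw [abs_of_nonneg hh]; linarith)
      have h4 := (abs_le.1 h3).2
      nlinarith
    have hp := Real.exp_pos u
    have h5 := am_lip f0 f1 hp (le_mul_of_one_le_right hp.le hexp1)
    refine h5.trans ?_
    have h6 : 1 / Real.exp u = Real.exp (-u) := by rw [Real.exp_neg, one_div]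
    have h7 : 2 * (Real.exp u * Real.exp h - Real.exp u) / Real.exp u = 2 * (Real.exp h - 1) := by
      field_simp
    rw [h6, h7]
    have h8 := Real.exp_pos (-u)
    linarith
  · intro u hu t ht htc
    have ht0 : (0 : ℝ) ≤ t := by positivity
    have hu0 : 0 ≤ u := by linarith
    have h8t : 8 * (t : ℝ) * L ≤ u / 2 := by
      have h2 : (t : ℝ) * (16 * L) ≤ u := by
        calc (t : ℝ) * (16 * L) ≤ 1 / (16 * L) * u * (16 * L) :=
              mul_le_mul_of_nonneg_right htc (by positivity)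
          _ = u := by field_simp
      linarith
    have hbig : C * z * ((d : ℝ) * m) ^ (8 * t) ≤ Real.exp u := by
      have e1 : C = Real.exp (Real.log C) := (Real.exp_log hC0).symm
      have e2 : z = Real.exp (Real.log z) := (Real.exp_log hz0).symm
      have e3 : ((d : ℝ) * m) ^ (8 * t) = Real.exp (8 * t * L) := by
        rw [hLdef, ← Real.exp_log (by linarith : 0 < (d : ℝ) * m), ← Real.exp_nat_mul,
          Real.log_exp]
        push_cast
        rfl
      rw [e3]
      nth_rewrite 1 [e1, e2]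
      rw [← Real.exp_add, ← Real.exp_add, Real.exp_le_exp]
      linarith
    have hmain := hflow z (fun _ => f) hz hf 0 t ht (Real.exp u) hbig
    have hplace : ∀ v ∈ W d t, gm93 f (u + sg v * Real.log m - t * Real.log d) =
        am f (Real.exp u * (m : ℝ) ^ sg v / (d : ℝ) ^ t) := by
      intro v _
      have h2 : Real.exp (u + sg v * Real.log m - t * Real.log d) =
          Real.exp u * (m : ℝ) ^ sg v / (d : ℝ) ^ t := by
        rw [Real.exp_sub, Real.exp_add, Real.exp_nat_mul, Real.exp_nat_mul, Real.exp_log hm0,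
          Real.exp_log hd0]
      rw [gm93_of_nonneg f, h2]
      have h3 : Real.log d ≤ L := by
        rw [hLdef]
        apply Real.log_le_log hd0
        exact le_mul_of_one_le_right hd0.le (by linarith)
      have h4 : (t : ℝ) * Real.log d ≤ t * L := mul_le_mul_of_nonneg_left h3 ht0
      have h5 : 0 ≤ (sg v : ℝ) * Real.log m :=
        mul_nonneg (by positivity) (Real.log_nonneg (by linarith))
      have h6 : 0 ≤ (t : ℝ) * L := by positivity
      linarith
    rw [gm93_of_nonneg f hu0, Finset.sum_congr rfl hplace]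
    exact hmain

theorem stab (h : POSB.Std d m r) : ∃ q : ℕ, 1 ≤ q ∧ ∀ η : ℝ, 0 < η → ∃ X₀ : ℝ, 1 ≤ X₀ ∧ ∀ (z : ℝ) (f : ℤ → ℝ), 1 ≤ z →
    Fam d m r z (fun _ => f) → Tendsto (am f) atTop (𝓝 (mean f)) ∧ 0 ≤ mean f ∧ mean f ≤ 1 ∧
      ∀ X : ℝ, X₀ ≤ X → z ^ q ≤ X → |am f X - mean f| ≤ η := by
  obtain ⟨c, C, hc, hC1, hgood⟩ := good93 h
  have hC0 : 0 < C := by linarith
  have hγ : (1 - 1 / (d : ℝ)) * Real.log m < Real.log d := by
    have h1 := h.gam
    unfold PL.gam at h1
    linarith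
  obtain ⟨K, S₂, hK, hS₂, hconv⟩ := conv h.hd h.hdm h.hco hγ hc hC0
  have hlC := Real.log_nonneg hC1
  refine ⟨8, by norm_num, fun η hη => ?_⟩
  -- the threshold
  set s₀ := max S₂ (Real.exp (K / η)) with hs₀
  have hs₀1 : 0 < s₀ := lt_of_lt_of_le (Real.exp_pos _) (le_max_right _ _)
  refine ⟨Real.exp (s₀ ^ 4 + 8 * Real.log C), Real.one_le_exp (by positivity), fun z f hz hf => ?_⟩
  obtain ⟨δ, -, -, hδ⟩ := hconv _ _ (hgood z f hz hf)
  have hz0 : 0 < z := by linarith
  have hlz := Real.log_nonneg hz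
  have f0 : ∀ n, 0 ≤ f n := fun n => hf.nonneg 0 n
  have f1 : ∀ n, f n ≤ 1 := fun n => hf.le_one 0 n
  -- the estimate with `s` the fourth root of the logarithm
  have key : ∀ (ε : ℝ), 0 < ε → ∀ X : ℝ, Real.exp ((max S₂ (Real.exp (K / ε))) ^ 4) ≤ X →
      4 * Real.log C + 4 * Real.log z ≤ Real.log X → |am f X - δ| ≤ ε := by
    intro ε hε X hX hX2
    have hX0 : 0 < X := lt_of_lt_of_le (Real.exp_pos _) hX
    set s₁ := max S₂ (Real.exp (K / ε)) with hs₁
    have hs₁0 : 0 < s₁ := lt_of_lt_of_le (Real.exp_pos _) (le_max_right _ _)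
    set ℓ := Real.log X with hℓ
    have hℓ1 : s₁ ^ 4 ≤ ℓ := by
      rw [hℓ, Real.le_log_iff_exp_le hX0]
      exact hX
    have hℓ0 : 0 < ℓ := lt_of_lt_of_le (by positivity) hℓ1
    set s := Real.sqrt (Real.sqrt ℓ) with hs
    have hs4 : s ^ 4 = ℓ := by
      have e1 : s ^ 2 = Real.sqrt ℓ := Real.sq_sqrt (Real.sqrt_nonneg _)
      calc s ^ 4 = (s ^ 2) ^ 2 := by ring
        _ = ℓ := by rw [e1]; exact Real.sq_sqrt hℓ0.le
    have hs0 : 0 ≤ s := Real.sqrt_nonneg _
    have hss : s₁ ≤ s := by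
      by_contra hcon
      push Not at hcon
      have h1 : s ^ 4 < s₁ ^ 4 := pow_lt_pow_left₀ hcon hs0 (by norm_num)
      rw [hs4] at h1
      linarith
    have hls : K / ε ≤ Real.log s := by
      have h1 : Real.log (Real.exp (K / ε)) ≤ Real.log s :=
        Real.log_le_log (Real.exp_pos _) ((le_max_right _ _).trans hss)
      rwa [Real.log_exp] at h1
    have hls0 : 0 < Real.log s := lt_of_lt_of_le (by positivity) hls
    have h3 := hδ s ((le_max_left _ _).trans hss) (by rw [hs4]; linarith) ℓ (by rw [hs4])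
    rw [gm93_of_nonneg f hℓ0.le, hℓ, Real.exp_log hX0] at h3
    refine h3.trans ?_
    rw [div_le_iff₀ hls0]
    calc K = ε * (K / ε) := by field_simp
      _ ≤ ε * Real.log s := mul_le_mul_of_nonneg_left hls hε.le
  have ht : Tendsto (am f) atTop (𝓝 δ) := by
    rw [Metric.tendsto_atTop]
    intro ε hε
    refine ⟨max (Real.exp ((max S₂ (Real.exp (K / (ε / 2)))) ^ 4)) (Real.exp (4 * Real.log C + 4 * Real.log z)),
      fun X hX => ?_⟩
    have h1 := key (ε / 2) (by linarith) X ((le_max_left _ _).trans hX) (by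
      rw [Real.le_log_iff_exp_le (lt_of_lt_of_le (Real.exp_pos _) ((le_max_left _ _).trans hX))]
      exact (le_max_right _ _).trans hX)
    rw [Real.dist_eq]
    linarith
  have hm : mean f = δ := ht.limUnder_eq
  rw [hm]
  refine ⟨ht, ?_, ?_, fun X hX hzX => ?_⟩
  · refine ge_of_tendsto ht ?_
    filter_upwards [eventually_ge_atTop (0 : ℝ)] with x hx
    exact am_nonneg f0 hx
  · refine le_of_tendsto ht ?_
    filter_upwards [eventually_ge_atTop (0 : ℝ)] with x hx
    exact am_le_one f1 hx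
  · have hX0 : 0 < X := lt_of_lt_of_le (Real.exp_pos _) hX
    refine key η hη X (le_trans (Real.exp_le_exp.2 (by linarith)) hX) ?_
    have h1 : 8 * Real.log z ≤ Real.log X := by
      have h2 := Real.log_le_log (by positivity) hzX
      rw [Real.log_pow] at h2
      push_cast at h2
      exact h2
    have h2 : s₀ ^ 4 + 8 * Real.log C ≤ Real.log X := by
      rw [Real.le_log_iff_exp_le hX0]
      exact hX
    have h3 : 0 ≤ s₀ ^ 4 := by positivity
    linarith

end Pool.Agent.Helper8.LL
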