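import Pool.Agent.Helper8.LL.G
import Pool.Agent.Helper8.LL.S
import Pool.Agent.Helper8.LL.J1

/-!
# LL-J: the joint law of the height and the position

As `ST.bounds`, with `V x s = am (up ψ s) x - M Wf a x s` and `V x s = M Wf (-a) x s - am (up ψ s) x`, `M = mean (al ψ)`, and `ST.cmp`. The flow: `flow_am` for `up ψ` (`fam`), `ST.Wf_flow`. Small `s`
(`s < c log x`): `up ψ s n = 0` for `√x ≤ n` (`ST.iter_gt`), so `am (up ψ s) x ≤ x^(-1/2) ≤ ε / 8`. Base `x ≤ z²`: `am (up ψ s) x ≤ am (al ψ) x ≤ M + ε / 8` (`stab`, uniform in `ψ`), and `= am (al ψ) x` for `s ≥ S(z)`,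
`S(z)` does not depend on `ψ`. Then `Wf_unif`. For `s < 0` `up ψ s = 0`, and `Φ(uu)` is small.
-/

set_option autoImplicit false

namespace Pool.Agent.Helper8.LL

open Pool.Agent.Helper68.Moeller Pool.Agent.Helper52.Tao Pool.Agent.Helper8.ND Pool.Agent.Helper28
  Pool.Agent.Helper91 Finset Filter Topology

variable {d m : ℕ} {r : ℤ → ℤ}

private theorem bounds8 (h : POSB.Std d m r) {F : Set ℤ} {b : ℝ} (hb : 0 ≤ b) (hF : ∀ n ∈ F, (n : ℝ) ≤ b) {L ε : ℝ} (hL : 1 ≤ L) (hε : 0 < ε) :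
    ∃ z a : ℝ, 1 < z ∧ 0 ≤ a ∧ ∀ ψ : ℝ → ℝ, Tst L ψ → ∀ x : ℝ, z ≤ x → ∀ s : ℕ,
      mean (al d m r F ψ) * ST.Wf d m (-a) x s - ε ≤ am (up d m r F ψ s) x ∧
      am (up d m r F ψ s) x ≤ mean (al d m r F ψ) * ST.Wf d m a x s + ε := by
  have hd := h.hd
  have hdm := h.hdm
  have hγ : (1 - 1 / (d : ℝ)) * Real.log m < Real.log d := by
    have := h.gam
    unfold PL.gam at this
    linarith
  have hd0 : (0 : ℝ) < d := by exact_mod_cast (by omega : 0 < d)
  have hd1 : (1 : ℝ) < d := by exact_mod_cast (by omega : 1 < d)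
  have hm1 : (1 : ℝ) < m := by exact_mod_cast (by omega : 1 < m)
  have hld : 0 < Real.log d := Real.log_pos hd1
  have hlm : 0 < Real.log m := Real.log_pos hm1
  have hldm : Real.log d ≤ Real.log m := Real.log_le_log hd0 (by exact_mod_cast hdm.le)
  obtain ⟨C₁, hC₁, hfam⟩ := fam h hF
  obtain ⟨C₂, hC₂, hflow⟩ := flow_am h
  obtain ⟨q, hq, hstab⟩ := stab h
  obtain ⟨X₁, hX₁, hstab⟩ := hstab (ε / 4) (by positivity)
  obtain ⟨c, hc, hcm, hcmp⟩ := ST.cmp hd hdm hγ
  have hCL1 : 1 ≤ C₁ * L := by nlinarith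
  have hCCL1 : 1 ≤ C₂ * (C₁ * L) := by nlinarith
  obtain ⟨z₀, hz₀, hcmp⟩ := hcmp (C₂ * (C₁ * L)) hCCL1
  obtain ⟨B, hB⟩ := FL_exists_B d r
  have hB0 : (0 : ℝ) ≤ B := Nat.cast_nonneg B
  have hev2 : ∀ᶠ x : ℝ in atTop, 1 / Real.log x ≤ ε / 2 ∧ 1 / Real.sqrt x ≤ ε / 4 := by
    filter_upwards [Real.tendsto_log_atTop.eventually_ge_atTop (2 / ε), Real.tendsto_sqrt_atTop.eventually_ge_atTop (4 / ε)] with x hx hx'
    have h1 : 0 < 2 / ε := by positivity
    have h2 : 0 < 4 / ε := by positivity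
    constructor
    · rw [div_le_iff₀ (by linarith)]
      rw [div_le_iff₀ hε] at hx
      linarith
    · rw [div_le_iff₀ (by linarith)]
      rw [div_le_iff₀ hε] at hx'
      linarith
  obtain ⟨z₂, hz₂⟩ := eventually_atTop.1 hev2
  obtain ⟨z, hz⟩ : ∃ z, z = max (max z₀ (max X₁ ((C₁ * L) ^ q))) (max z₂ ((B + b + 1) ^ 4)) := ⟨_, rfl⟩
  have hzz₀ : z₀ ≤ z := by rw [hz]; exact (le_max_left _ _).trans (le_max_left _ _)
  have hzX₁ : X₁ ≤ z := by rw [hz]; exact ((le_max_left _ _).trans (le_max_right _ _)).trans (le_max_left _ _)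
  have hzq : (C₁ * L) ^ q ≤ z := by rw [hz]; exact ((le_max_right _ _).trans (le_max_right _ _)).trans (le_max_left _ _)
  have hzz₂ : z₂ ≤ z := by rw [hz]; exact (le_max_left _ _).trans (le_max_right _ _)
  have hzB : (B + b + 1) ^ 4 ≤ z := by rw [hz]; exact (le_max_right _ _).trans (le_max_right _ _)
  have hz1 : 1 < z := by linarith
  have hz0 : 0 < z := by linarith
  have hlogz := (hz₂ z hzz₂).1
  -- small `s`
  have hsmall : ∀ ψ : ℝ → ℝ, Tst L ψ → ∀ x : ℝ, z ≤ x → ∀ s : ℕ, (s : ℝ) < c * Real.log x → am (up d m r F ψ s) x ≤ ε / 4 := by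
    intro ψ hψ x hx s hs
    have hx1 : 1 < x := by linarith
    have hx0 : 0 < x := by linarith
    have hlx : 0 < Real.log x := Real.log_pos hx1
    have h1 : (m : ℝ) ^ s ≤ x ^ (1 / 4 : ℝ) := by
      rw [← Real.rpow_natCast, Real.rpow_def_of_pos (by linarith), Real.rpow_def_of_pos hx0]
      apply Real.exp_le_exp.2
      have h2 : Real.log m * (s : ℝ) ≤ Real.log m * (c * Real.log x) := mul_le_mul_of_nonneg_left hs.le hlm.le
      have h3 : (c * Real.log m) * Real.log x ≤ 1 / 4 * Real.log x := mul_le_mul_of_nonneg_right hcm hlx.le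
      nlinarith
    have h2 : (d : ℝ) ^ s ≤ (m : ℝ) ^ s := pow_le_pow_left₀ hd0.le (by exact_mod_cast hdm.le) s
    have h3 : x ^ (1 / 4 : ℝ) * x ^ (1 / 4 : ℝ) = Real.sqrt x := by
      rw [← Real.rpow_add hx0, Real.sqrt_eq_rpow]
      norm_num
    have hq0 : 0 < x ^ (1 / 4 : ℝ) := Real.rpow_pos_of_pos hx0 _
    have h4 : B + b + 1 ≤ x ^ (1 / 4 : ℝ) := by
      have h5 : ((B + b + 1) ^ 4 : ℝ) ^ (1 / 4 : ℝ) ≤ x ^ (1 / 4 : ℝ) := Real.rpow_le_rpow (by positivity) (hzB.trans hx) (by norm_num)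
      have h6 : ((B + b + 1) ^ 4 : ℝ) ^ (1 / 4 : ℝ) = B + b + 1 := by
        rw [← Real.rpow_natCast, ← Real.rpow_mul (by positivity)]
        norm_num
      rwa [h6] at h5
    have h7 : (B : ℝ) * m ^ s + b * d ^ s < Real.sqrt x := by
      have a1 : (B : ℝ) * m ^ s ≤ B * x ^ (1 / 4 : ℝ) := mul_le_mul_of_nonneg_left h1 hB0
      have a2 : b * (d : ℝ) ^ s ≤ b * x ^ (1 / 4 : ℝ) := mul_le_mul_of_nonneg_left (h2.trans h1) hb
      have a3 : (B + b + 1) * x ^ (1 / 4 : ℝ) ≤ x ^ (1 / 4 : ℝ) * x ^ (1 / 4 : ℝ) := mul_le_mul_of_nonneg_right h4 hq0.le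
      nlinarith
    have hsx : 0 < Real.sqrt x := Real.sqrt_pos.2 hx0
    have hss : Real.sqrt x * Real.sqrt x = x := Real.mul_self_sqrt hx0.le
    have h8 : ∀ n ∈ Icc 1 ⌊x⌋₊, up d m r F ψ s (n : ℤ) ≤ if n ∈ Icc 1 ⌊Real.sqrt x⌋₊ then (1 : ℝ) else 0 := by
      intro n hn
      rw [mem_Icc] at hn
      split_ifs with hn2
      · exact (up_le_al hψ.toWt s n).trans (((hfam L ψ hL hψ).2.2).le_one 0 n)
      · have h9 : Real.sqrt x < n := by
          by_contra hcon
          push Not at hcon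
          exact hn2 (mem_Icc.2 ⟨hn.1, Nat.le_floor hcon⟩)
        by_cases hex : ∃ t, Ht d m r F t n
        · obtain ⟨t, ht⟩ := hex
          rw [up_eq ht]
          split_ifs with hts
          · exfalso
            obtain ⟨k, hk, k1, -⟩ := ht
            have := ST.iter_gt hd hdm h.hr hB hb (n := (n : ℤ)) (t := s) (by push_cast; linarith) k (by omega)
            linarith [hF _ k1]
          · exact le_rfl
        · rw [up_eq_zero (not_exists.1 hex)]
    have h9 : am (up d m r F ψ s) x ≤ 1 / Real.sqrt x := by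
      unfold am
      rw [div_le_div_iff₀ hx0 hsx]
      have h10 : ∑ n ∈ Icc 1 ⌊x⌋₊, up d m r F ψ s (n : ℤ) ≤ Real.sqrt x := by
        refine (Finset.sum_le_sum h8).trans ?_
        rw [← Finset.sum_filter, Finset.sum_const, nsmul_eq_mul, mul_one]
        have h11 : (Finset.filter (fun n => n ∈ Icc 1 ⌊Real.sqrt x⌋₊) (Icc 1 ⌊x⌋₊)).card ≤ (Icc 1 ⌊Real.sqrt x⌋₊).card :=
          Finset.card_le_card fun n hn => (Finset.mem_filter.1 hn).2
        have h12 : (Icc 1 ⌊Real.sqrt x⌋₊).card = ⌊Real.sqrt x⌋₊ := by simp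
        rw [h12] at h11
        calc ((Finset.filter (fun n => n ∈ Icc 1 ⌊Real.sqrt x⌋₊) (Icc 1 ⌊x⌋₊)).card : ℝ) ≤ (⌊Real.sqrt x⌋₊ : ℝ) := by exact_mod_cast h11
          _ ≤ Real.sqrt x := Nat.floor_le hsx.le
      nlinarith
    exact h9.trans (hz₂ x (hzz₂.trans hx)).2
  -- the upper bound
  obtain ⟨a₁, ha₁, hW⟩ := ST.Wf_base hd hdm hγ (z ^ 2) (ε := ε / 4) (by positivity)
  -- the number of steps below `z ^ 2`
  obtain ⟨S, hS⟩ : ∃ S : ℕ, ∀ n : ℤ, 0 < n → (n : ℝ) ≤ z ^ 2 → ∀ t : ℤ, Ht d m r F t n → t ≤ S := by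
    classical
    have hfin : {n : ℤ | (0 : ℝ) ≤ n ∧ (n : ℝ) < z ^ 2 + 1}.Finite := finite_Ico _ _
    choose! f hf using (fun (n : ℤ) (hn : ∃ t : ℕ, Ht d m r F t n) => hn : ∀ n : ℤ, (∃ t : ℕ, Ht d m r F t n) → ∃ t : ℕ, Ht d m r F t n)
    refine ⟨∑ n ∈ hfin.toFinset, f n, fun n hn0 hn t ht => ?_⟩
    have ht0 := ht_nonneg ht
    obtain ⟨k, rfl⟩ := Int.eq_ofNat_of_zero_le ht0
    have h1 := hf n ⟨k, ht⟩
    have h2 := ht_unique ht h1
    rw [h2]
    have h3 := Finset.single_le_sum (s := hfin.toFinset) (f := f) (fun _ _ => Nat.zero_le _) (a := n) (by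
      rw [Set.Finite.mem_toFinset]
      exact ⟨by exact_mod_cast hn0.le, by linarith⟩)
    exact_mod_cast h3
  obtain ⟨a, ha⟩ : ∃ a : ℝ, a = max a₁ (S * Real.log d) := ⟨_, rfl⟩
  have haa₁ : a₁ ≤ a := by rw [ha]; exact le_max_left _ _
  have haS : S * Real.log d ≤ a := by rw [ha]; exact le_max_right _ _
  have ha0 : 0 ≤ a := ha₁.trans haa₁
  refine ⟨z, a, hz1, ha0, fun ψ hψ x hx s => ?_⟩
  obtain ⟨hfu, hfa⟩ := (hfam L ψ hL hψ).2
  obtain ⟨-, hM0, hM1, hM⟩ := hstab (C₁ * L) (al d m r F ψ) hCL1 hfa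
  obtain ⟨M, hMM⟩ : ∃ M, M = mean (al d m r F ψ) := ⟨_, rfl⟩
  rw [← hMM] at hM0 hM1 hM ⊢
  have hal : ∀ x : ℝ, z ≤ x → |am (al d m r F ψ) x - M| ≤ ε / 4 := fun x hx => hM x (hzX₁.trans hx) (hzq.trans hx)
  have hup0 : ∀ (s : ℕ) (x : ℝ), 0 ≤ x → 0 ≤ am (up d m r F ψ s) x := fun s x hx => am_nonneg (fun n => hfu.nonneg _ _) hx
  have hup1 : ∀ (s : ℕ) (x : ℝ), 0 ≤ x → am (up d m r F ψ s) x ≤ 1 := fun s x hx => am_le_one (fun n => hfu.le_one _ _) hx
  have hfl : ∀ t s : ℕ, 1 ≤ t → t + t ≤ s → ∀ x : ℝ, C₂ * (C₁ * L) * ((d : ℝ) * m) ^ (8 * t) ≤ x →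
      |am (up d m r F ψ s) x - (∑ v ∈ W d t, am (up d m r F ψ ((s - t : ℕ) : ℤ)) (x * (m : ℝ) ^ sg v / (d : ℝ) ^ t)) / (d : ℝ) ^ t| ≤
        C₂ * (C₁ * L) / (t : ℝ) ^ 2 := by
    intro t s ht hts x hx
    have h1 := hflow (C₁ * L) (up d m r F ψ) hCL1 hfu s t ht x hx
    have e : (s : ℤ) - (t : ℤ) = ((s - t : ℕ) : ℤ) := by
      rw [Nat.cast_sub (by omega : t ≤ s)]
    rw [e] at h1
    refine h1.trans ?_
    have ht1 : (1 : ℝ) ≤ t := by exact_mod_cast ht
    have h2 : (t : ℝ) ^ 2 ≤ (t : ℝ) ^ 8 := pow_le_pow_right₀ ht1 (by norm_num)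
    calc C₂ / (t : ℝ) ^ 8 ≤ C₂ / (t : ℝ) ^ 2 := div_le_div_of_nonneg_left (by linarith) (by positivity) h2
      _ ≤ C₂ * (C₁ * L) / (t : ℝ) ^ 2 := div_le_div_of_nonneg_right (by nlinarith) (by positivity)
  constructor
  · -- lower bound
    have hmain := hcmp z hzz₀ (ε / 4) (by positivity)
      (fun x s => M * ST.Wf d m (-a) x s - am (up d m r F ψ s) x) ?_ ?_ ?_ ?_ x hx s
    · linarith
    · intro x s hx
      have h1 := hup0 s x (by linarith)
      have h2 : M * ST.Wf d m (-a) x s ≤ 1 * 1 :=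
        mul_le_mul hM1 (ST.Wf_le_one hd _ _ _) (ST.Wf_nonneg _ _ _) zero_le_one
      linarith
    · intro t s ht hts x hx
      have hx0 : 0 < x := lt_of_lt_of_le (by positivity) hx
      have h1 := hfl t s ht hts x hx
      rw [ST.Wf_flow hd hdm (-a) hx0 (by omega : t ≤ s)]
      rw [Finset.sum_sub_distrib, sub_div, ← Finset.mul_sum, mul_div_assoc]
      rw [abs_le] at h1
      linarith
    · intro x hx s hs
      have hx1 : 1 < x := by linarith
      have hlx : 0 < Real.log x := Real.log_pos hx1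
      have h1 : ST.Wf d m (-a) x s = 0 := by
        refine ST.Wf_zero hd hdm ?_
        have h2 : (s : ℝ) * Real.log d ≤ c * Real.log x * Real.log d := mul_le_mul_of_nonneg_right hs.le hld.le
        have h3 : c * Real.log d ≤ 1 / 4 := (mul_le_mul_of_nonneg_left hldm hc.le).trans hcm
        have h4 : c * Real.log d * Real.log x ≤ 1 / 4 * Real.log x := mul_le_mul_of_nonneg_right h3 hlx.le
        nlinarith
      have h2 := hup0 s x (by linarith)
      rw [h1]
      linarith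
    · intro x hx hx2 s
      have hx1 : 1 < x := by linarith
      have hx0 : 0 < x := by linarith
      rcases le_or_gt S s with hs | hs
      · have h1 : am (al d m r F ψ) x ≤ am (up d m r F ψ s) x := by
          unfold am
          refine div_le_div_of_nonneg_right (Finset.sum_le_sum fun n hn => ?_) hx0.le
          rw [mem_Icc] at hn
          by_cases hex : ∃ t, Ht d m r F t n
          · obtain ⟨t, ht⟩ := hex
            have h3 : (n : ℝ) ≤ x := (Nat.cast_le.2 hn.2).trans (Nat.floor_le hx0.le)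
            have h4 := hS n (by exact_mod_cast hn.1) (by push_cast; linarith) t ht
            rw [up_eq ht, al_eq ht, if_pos (h4.trans (by exact_mod_cast hs))]
          · rw [up_eq_zero (not_exists.1 hex), al_eq_zero (not_exists.1 hex)]
        have h2 := abs_le.1 (hal x hx)
        have h3 : M * ST.Wf d m (-a) x s ≤ M * 1 := mul_le_mul_of_nonneg_left (ST.Wf_le_one hd _ _ _) hM0
        linarith
      · have h1 : ST.Wf d m (-a) x s = 0 := by
          refine ST.Wf_zero hd hdm ?_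
          have h2 : (s : ℝ) * Real.log d ≤ S * Real.log d :=
            mul_le_mul_of_nonneg_right (by exact_mod_cast hs.le) hld.le
          have h3 : 0 < Real.log x := Real.log_pos hx1
          linarith
        have h4 := hup0 s x hx0.le
        rw [h1]
        linarith
  · -- upper bound
    have hmain := hcmp z hzz₀ (ε / 2) (by positivity)
      (fun x s => am (up d m r F ψ s) x - M * ST.Wf d m a x s) ?_ ?_ ?_ ?_ x hx s
    · linarith
    · intro x s hx
      have h1 := hup1 s x (by linarith)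
      have h2 : 0 ≤ M * ST.Wf d m a x s := mul_nonneg hM0 (ST.Wf_nonneg _ _ _)
      linarith
    · intro t s ht hts x hx
      have hx0 : 0 < x := lt_of_lt_of_le (by positivity) hx
      have h1 := hfl t s ht hts x hx
      rw [ST.Wf_flow hd hdm a hx0 (by omega : t ≤ s)]
      rw [Finset.sum_sub_distrib, sub_div, ← Finset.mul_sum, mul_div_assoc]
      rw [abs_le] at h1
      linarith
    · intro x hx s hs
      have h2 : 0 ≤ M * ST.Wf d m a x s := mul_nonneg hM0 (ST.Wf_nonneg _ _ _)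
      have h3 := hsmall ψ hψ x hx s hs
      linarith
    · intro x hx hx2 s
      have hx0 : 0 < x := by linarith
      have h1 : am (up d m r F ψ s) x ≤ am (al d m r F ψ) x := am_mono (fun n _ => up_le_al hψ.toWt s n) hx0.le
      have h2 := abs_le.1 (hal x hx)
      have h3 : 1 - ε / 4 ≤ ST.Wf d m a x s := by
        refine (hW x hx0 hx2 s).trans ?_
        unfold ST.Wf
        refine div_le_div_of_nonneg_right (cW_mono fun w _ hw => ?_) (by positivity)
        linarith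
      have h4 : M * (1 - ε / 4) ≤ M * ST.Wf d m a x s := mul_le_mul_of_nonneg_left h3 hM0
      have h5 : M * (ε / 4) ≤ 1 * (ε / 4) := mul_le_mul_of_nonneg_right hM1 (by positivity)
      linarith

theorem joint (h : POSB.Std d m r) {F : Set ℤ} {b : ℝ} (hb : 0 ≤ b) (hF : ∀ n ∈ F, (n : ℝ) ≤ b) {L ε : ℝ} (hL : 1 ≤ L) (hε : 0 < ε) :
    ∃ X₀ : ℝ, 1 < X₀ ∧ ∀ ψ : ℝ → ℝ, Tst L ψ → ∀ X : ℝ, X₀ ≤ X → ∀ s : ℤ,
      |am (up d m r F ψ s) X - mean (al d m r F ψ) *
        ProbabilityTheory.cdf (ProbabilityTheory.gaussianReal 0 1) (uu d m s X)| ≤ ε := by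
  have hd := h.hd
  have hdm := h.hdm
  obtain ⟨z, a, hz, ha, hb1⟩ := bounds8 h hb hF hL (ε := ε / 2) (by positivity)
  obtain ⟨X₁, hX₁, h1⟩ := Wf_unif hd hdm h.gam a (ε := ε / 2) (by positivity)
  obtain ⟨X₂, hX₂, h2⟩ := Wf_unif hd hdm h.gam (-a) (ε := ε / 2) (by positivity)
  obtain ⟨C₁, hC₁, hfam⟩ := fam h hF
  obtain ⟨q, hq, hstab⟩ := stab h
  obtain ⟨X₃, -, hstab⟩ := hstab 1 one_pos
  refine ⟨max z (max X₁ X₂), lt_of_lt_of_le hz (le_max_left _ _), fun ψ hψ X hX s => ?_⟩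
  have hXz : z ≤ X := (le_max_left _ _).trans hX
  have hXX₁ : X₁ ≤ X := ((le_max_left _ _).trans (le_max_right _ _)).trans hX
  have hXX₂ : X₂ ≤ X := ((le_max_right _ _).trans (le_max_right _ _)).trans hX
  have hX1 : 1 < X := by linarith
  have hlX : 0 < Real.log X := Real.log_pos hX1
  have hfa := (hfam L ψ hL hψ).2.2
  have hCL1 : 1 ≤ C₁ * L := by nlinarith
  obtain ⟨-, hM0, hM1, -⟩ := hstab (C₁ * L) (al d m r F ψ) hCL1 hfa
  obtain ⟨M, hMM⟩ : ∃ M, M = mean (al d m r F ψ) := ⟨_, rfl⟩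
  rw [← hMM] at hM0 hM1 ⊢
  have hcase : ∀ s : ℕ, |am (up d m r F ψ s) X - M *
        ProbabilityTheory.cdf (ProbabilityTheory.gaussianReal 0 1) (uu d m (s : ℕ) X)| ≤ ε := by
    intro s
    have h3 := hb1 ψ hψ X hXz s
    rw [← hMM] at h3
    have h4 := abs_le.1 (h1 X hXX₁ s)
    have h5 := abs_le.1 (h2 X hXX₂ s)
    have h6 : M * ST.Wf d m a X s ≤ M * ProbabilityTheory.cdf (ProbabilityTheory.gaussianReal 0 1) (uu d m s X) + M * (ε / 2) := by
      rw [← mul_add]
      exact mul_le_mul_of_nonneg_left (by linarith) hM0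
    have h7 : M * ProbabilityTheory.cdf (ProbabilityTheory.gaussianReal 0 1) (uu d m s X) - M * (ε / 2) ≤ M * ST.Wf d m (-a) X s := by
      rw [← mul_sub]
      exact mul_le_mul_of_nonneg_left (by linarith) hM0
    have h8 : M * (ε / 2) ≤ 1 * (ε / 2) := mul_le_mul_of_nonneg_right hM1 (by positivity)
    rw [abs_le]
    constructor <;> linarith
  rcases le_or_gt 0 s with hs | hs
  · obtain ⟨k, rfl⟩ := Int.eq_ofNat_of_zero_le hs
    have := hcase k
    push_cast
    exact this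
  · -- negative times
    have e1 : up d m r F ψ s = fun _ => 0 := by
      funext n
      unfold up
      rw [Finset.Icc_eq_empty (by omega), Finset.sum_empty]
    have e2 : am (up d m r F ψ s) X = 0 := by
      rw [e1]
      unfold am
      simp
    have h3 := abs_le.1 (h2 X hXX₂ 0)
    have h4 : ST.Wf d m (-a) X 0 = 0 := by
      refine ST.Wf_zero hd hdm ?_
      push_cast
      linarith
    have h5 : uu d m s X ≤ uu d m (0 : ℕ) X := by
      unfold uu
      have hsd : 0 ≤ ST.sd d m * Real.sqrt (Real.log X) := by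
        have : 0 ≤ ST.sd d m := by
          unfold ST.sd
          have h6 : 0 < PL.gam d m := h.gam
          have hm1 : (1 : ℝ) < m := by exact_mod_cast (by omega : 1 < m)
          have hlm : 0 < Real.log m := Real.log_pos hm1
          positivity
        positivity
      refine div_le_div_of_nonneg_right ?_ hsd
      have : (s : ℝ) ≤ 0 := by exact_mod_cast hs.le
      push_cast
      linarith
    have h6 := ProbabilityTheory.monotone_cdf (ProbabilityTheory.gaussianReal 0 1) h5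
    have h7 := ProbabilityTheory.cdf_nonneg (ProbabilityTheory.gaussianReal 0 1) (uu d m s X)
    rw [e2, zero_sub, abs_neg, abs_of_nonneg (mul_nonneg hM0 h7)]
    have h8 : M * ProbabilityTheory.cdf (ProbabilityTheory.gaussianReal 0 1) (uu d m s X) ≤
        1 * ProbabilityTheory.cdf (ProbabilityTheory.gaussianReal 0 1) (uu d m s X) := mul_le_mul_of_nonneg_right hM1 h7
    rw [h4] at h3
    have h9 : ProbabilityTheory.cdf (ProbabilityTheory.gaussianReal 0 1) (uu d m (0 : ℕ) X) ≤ ε / 2 := by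
      have := h3.1
      linarith
    have h10 := h6.trans h9
    linarith

end Pool.Agent.Helper8.LL
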