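import Pool.Agent.Helper8.LL.J

/-!
# LL-T: the positions have no atoms

`arc c δ y = 1` if `{y - c} < δ`. Given `ε`: at a large scale `X` all but `ε X / 4` of the `n ≤ X` with a height have a height `≤ C log X` (`ST.clt` for `u = U` large, or `ST.bounds` and `ST.Wf_lim`). For every `t ≤ C log X` the `n ≤ X`
of the height `t` with `{(log n - t log d) / log m - c'} < 3 δ` lie in the intervals `[y m^j, y m^(j + 3δ))`, `j ∈ ℤ`, at most `∑_j (1 + y m^j (m^(3δ) - 1)) ≤ C (log X + δ X)` integers; together `≤ C' log X (log X + δ X) ≤ ε X / 4` for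
`δ = X^(-1/q) C₀`, `q` from `stab`. Let `ψ` be the tent of the Lipschitz constant `1 / δ` with `arc c δ ≤ ψ ≤ arc (c - δ) (3 δ)`: by `stab` (`z = C / δ`, `z^q ≤ X`) `mean (al ψ) ≤ am (al ψ) X + ε / 4 ≤ 3 ε / 4`, and `am (al ψ) X' ≤ ε` for ALL
`X' ≥ X` (`stab` again). Uniform in `c`.
-/

set_option autoImplicit false

namespace Pool.Agent.Helper8.LL

open Pool.Agent.Helper68.Moeller Pool.Agent.Helper52.Tao Pool.Agent.Helper8.ND Pool.Agent.Helper28
  Pool.Agent.Helper91 Finset Filter Topology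

variable {d m : ℕ} {r : ℤ → ℤ}

/-- The arc `[c, c + δ)` of the circle. -/
noncomputable def arc (c δ y : ℝ) : ℝ := if Int.fract (y - c) < δ then 1 else 0

/-! ### the tent -/

/-- the distance to the nearest integer -/
private noncomputable def di67 (x : ℝ) : ℝ := |x - round x|

private theorem di67_le (x : ℝ) (k : ℤ) : di67 x ≤ |x - k| := round_le x k

private theorem di67_lip (x y : ℝ) : |di67 x - di67 y| ≤ |x - y| := by
  have key : ∀ a b : ℝ, di67 a ≤ di67 b + |a - b| := by
    intro a b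
    refine (di67_le a (round b)).trans ?_
    unfold di67
    have : a - (round b : ℝ) = (b - round b) + (a - b) := by ring
    rw [this]
    exact abs_add_le _ _
  rw [abs_le]
  have h1 := key x y
  have h2 := key y x
  rw [abs_sub_comm y x] at h2
  constructor <;> linarith

private theorem di67_add_one (x : ℝ) : di67 (x + 1) = di67 x := by
  unfold di67
  rw [round_add_one]
  push_cast
  congr 1
  ring

/-- the tent -/
private noncomputable def ten67 (c δ y : ℝ) : ℝ := max 0 (min 1 (3 / 2 - di67 (y - c - δ / 2) / δ))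

private theorem ten67_tst {c δ : ℝ} (hδ : 0 < δ) : Tst (1 / δ) (ten67 c δ) := by
  refine ⟨⟨fun y => le_max_left _ _, fun y => ?_, fun y => ?_⟩, fun y y' => ?_⟩
  · exact max_le zero_le_one (min_le_left _ _)
  · unfold ten67
    have : y + 1 - c - δ / 2 = (y - c - δ / 2) + 1 := by ring
    rw [this, di67_add_one]
  · unfold ten67
    have key : ∀ u v : ℝ, max 0 (min 1 u) ≤ max 0 (min 1 v) + |u - v| := by
      intro u v
      refine max_le (add_nonneg (le_max_left _ _) (abs_nonneg _)) ?_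
      rcases le_total 1 v with h | h
      · rw [min_eq_left h]
        have h1 := min_le_left 1 u
        have h2 := le_max_right (0 : ℝ) 1
        have h3 := abs_nonneg (u - v)
        linarith
      · rw [min_eq_right h]
        have h1 := min_le_right 1 u
        have h2 := le_max_right (0 : ℝ) v
        have h3 := le_abs_self (u - v)
        linarith
    have h1 : ∀ u v : ℝ, |max 0 (min 1 u) - max 0 (min 1 v)| ≤ |u - v| := by
      intro u v
      have h2 := key u v
      have h3 := key v u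
      rw [abs_sub_comm v u] at h3
      rw [abs_le]
      constructor <;> linarith
    refine (h1 _ _).trans ?_
    have h2 : 3 / 2 - di67 (y - c - δ / 2) / δ - (3 / 2 - di67 (y' - c - δ / 2) / δ) =
        (1 / δ) * (di67 (y' - c - δ / 2) - di67 (y - c - δ / 2)) := by ring
    rw [h2, abs_mul, abs_of_pos (by positivity : 0 < 1 / δ)]
    refine mul_le_mul_of_nonneg_left ?_ (by positivity)
    refine (di67_lip _ _).trans (le_of_eq ?_)
    rw [abs_sub_comm]
    congr 1
    ring

private theorem arc_le_ten67 {c δ : ℝ} (hδ : 0 < δ) (y : ℝ) : arc c δ y ≤ ten67 c δ y := by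
  unfold arc
  split_ifs with h
  · unfold ten67
    refine le_max_of_le_right (le_min le_rfl ?_)
    have h1 : di67 (y - c - δ / 2) ≤ δ / 2 := by
      refine (di67_le _ ⌊y - c⌋).trans ?_
      have h2 := Int.fract_nonneg (y - c)
      have h3 : y - c - δ / 2 - ⌊y - c⌋ = Int.fract (y - c) - δ / 2 := by
        rw [Int.fract]
        ring
      rw [h3, abs_le]
      constructor <;> linarith
    have h2 : di67 (y - c - δ / 2) / δ ≤ 1 / 2 := by
      rw [div_le_iff₀ hδ]
      linarith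
    linarith
  · exact le_max_left _ _

private theorem ten67_le_arc {c δ : ℝ} (hδ : 0 < δ) (hδ1 : 3 * δ < 1) (y : ℝ) : ten67 c δ y ≤ arc (c - δ) (3 * δ) y := by
  unfold arc
  split_ifs with h
  · exact max_le zero_le_one (min_le_left _ _)
  · unfold ten67
    refine max_le le_rfl (min_le_of_right_le ?_)
    by_contra hcon
    rw [not_le] at hcon
    refine h ?_
    have h1 : di67 (y - c - δ / 2) / δ < 3 / 2 := by linarith
    rw [div_lt_iff₀ hδ] at h1
    unfold di67 at h1
    rw [abs_lt] at h1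
    have h2 : Int.fract (y - (c - δ)) = y - (c - δ) - round (y - c - δ / 2) := by
      rw [Int.fract_eq_iff]
      refine ⟨by linarith, by linarith, round (y - c - δ / 2), by ring⟩
    rw [h2]
    linarith

/-! ### counting -/

private theorem card_Ico67 {M : ℕ} {A B : ℝ} (hA : 0 ≤ A) (hAB : A ≤ B) :
    (((Icc 1 M).filter fun n : ℕ => A ≤ n ∧ (n : ℝ) < B).card : ℝ) ≤ B - A + 1 := by
  have h1 : (Icc 1 M).filter (fun n : ℕ => A ≤ n ∧ (n : ℝ) < B) ⊆ Ico ⌈A⌉₊ ⌈B⌉₊ := by
    intro n hn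
    rw [mem_filter] at hn
    rw [mem_Ico, Nat.ceil_le, Nat.lt_ceil]
    exact hn.2
  have h2 := card_le_card h1
  rw [Nat.card_Ico] at h2
  have h3 : ((⌈B⌉₊ - ⌈A⌉₊ : ℕ) : ℝ) = (⌈B⌉₊ : ℝ) - ⌈A⌉₊ := by
    rw [Nat.cast_sub (Nat.ceil_mono hAB)]
  have h4 := Nat.ceil_lt_add_one (hA.trans hAB)
  have h5 := Nat.le_ceil A
  have h6 : (((Icc 1 M).filter fun n : ℕ => A ≤ n ∧ (n : ℝ) < B).card : ℝ) ≤ ((⌈B⌉₊ - ⌈A⌉₊ : ℕ) : ℝ) := by
    exact_mod_cast h2
  rw [h3] at h6
  linarith

/-- the integers with the logarithm in an arc -/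
private theorem count67 {l : ℝ} (hl : Real.log 2 ≤ l) {X : ℝ} (hX : 1 ≤ X) (c : ℝ) {w : ℝ} (hw0 : 0 ≤ w) (hw1 : w ≤ 1) :
    ∑ n ∈ Icc 1 ⌊X⌋₊, (if Int.fract (Real.log (n : ℝ) / l - c) < w then 1 else 0 : ℝ) ≤
      Real.log X / l + 2 + 2 * X * (w * l * Real.exp l) := by
  have hl2 : 0 < Real.log 2 := Real.log_pos (by norm_num)
  have hl0 : 0 < l := hl2.trans_le hl
  have hLX : 0 ≤ Real.log X := Real.log_nonneg hX
  set jm : ℤ := ⌊Real.log X / l - c⌋ with hjm
  set N : ℕ := ⌊Real.log X / l⌋₊ + 2 with hN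
  have hjm1 : ((jm : ℝ) + c) * l ≤ Real.log X := by
    have h1 : (jm : ℝ) ≤ Real.log X / l - c := Int.floor_le _
    have h2 : (jm : ℝ) + c ≤ Real.log X / l := by linarith
    rwa [le_div_iff₀ hl0] at h2
  have hkey : ∀ n ∈ Icc 1 ⌊X⌋₊, (if Int.fract (Real.log (n : ℝ) / l - c) < w then 1 else 0 : ℝ) ≤
      ∑ i ∈ range N, (if Real.exp ((jm - i + c) * l) ≤ n ∧ (n : ℝ) < Real.exp ((jm - i + c + w) * l) then 1 else 0 : ℝ) := by
    intro n hn
    rw [mem_Icc] at hn
    have hn0 : (0 : ℝ) < n := by exact_mod_cast (by omega : 0 < n)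
    have hn1 : (1 : ℝ) ≤ n := by exact_mod_cast hn.1
    have hnX : (n : ℝ) ≤ X := (Nat.le_floor_iff (by linarith)).1 hn.2
    split_ifs with h
    · set j : ℤ := ⌊Real.log (n : ℝ) / l - c⌋ with hj
      have hj1 : j ≤ jm := Int.floor_le_floor (by
        have := Real.log_le_log hn0 hnX
        have : Real.log n / l ≤ Real.log X / l := div_le_div_of_nonneg_right this hl0.le
        linarith)
      have hj2 : (j : ℝ) ≤ Real.log n / l - c := Int.floor_le _
      have hj3 : Real.log n / l - c < j + w := by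
        rw [Int.fract] at h
        linarith
      obtain ⟨i, hi⟩ := Int.eq_ofNat_of_zero_le (sub_nonneg.2 hj1)
      have hij : (j : ℝ) = jm - i := by
        have h1 : (jm : ℝ) - j = i := by exact_mod_cast hi
        linarith
      have hiN : i ∈ range N := by
        rw [mem_range, hN]
        have h1 : (i : ℝ) < Real.log X / l + 1 := by
          have h2 : (jm : ℝ) ≤ Real.log X / l - c := Int.floor_le _
          have h3 : 0 ≤ Real.log (n : ℝ) / l := div_nonneg (Real.log_nonneg hn1) hl0.le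
          have h4 : (i : ℝ) = jm - j := by linarith
          linarith
        have h2 := Nat.lt_floor_add_one (Real.log X / l)
        have h3 : (i : ℝ) < ((⌊Real.log X / l⌋₊ + 2 : ℕ) : ℝ) := by
          push_cast
          linarith
        exact_mod_cast h3
      have hi1 : Real.exp ((jm - i + c) * l) ≤ n := by
        rw [← Real.le_log_iff_exp_le hn0, ← hij]
        have h1 : (j : ℝ) + c ≤ Real.log n / l := by linarith
        rwa [le_div_iff₀ hl0] at h1
      have hi2 : (n : ℝ) < Real.exp ((jm - i + c + w) * l) := by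
        rw [← Real.log_lt_iff_lt_exp hn0, ← hij]
        have h1 : Real.log n / l < j + c + w := by linarith
        rwa [div_lt_iff₀ hl0] at h1
      refine le_trans ?_ (single_le_sum (f := fun i : ℕ => (if Real.exp ((jm - i + c) * l) ≤ n ∧
        (n : ℝ) < Real.exp ((jm - i + c + w) * l) then 1 else 0 : ℝ)) (fun i _ => by positivity) hiN)
      rw [if_pos ⟨hi1, hi2⟩]
    · exact sum_nonneg fun i _ => by positivity
  refine (sum_le_sum hkey).trans ?_
  rw [sum_comm]
  have hwl : Real.exp (w * l) - 1 ≤ w * l * Real.exp l := by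
    have h1 : 1 - w * l ≤ Real.exp (-(w * l)) := by
      have := Real.add_one_le_exp (-(w * l))
      linarith
    have h2 : Real.exp (w * l) * Real.exp (-(w * l)) = 1 := by
      rw [← Real.exp_add]
      simp
    have h3 : Real.exp (w * l) - 1 ≤ w * l * Real.exp (w * l) := by
      nlinarith [Real.exp_pos (w * l)]
    have h4 : Real.exp (w * l) ≤ Real.exp l := Real.exp_le_exp.2 (by nlinarith)
    have h5 : 0 ≤ w * l := by positivity
    nlinarith
  have hterm : ∀ i ∈ range N, ∑ n ∈ Icc 1 ⌊X⌋₊, (if Real.exp ((jm - i + c) * l) ≤ n ∧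
      (n : ℝ) < Real.exp ((jm - i + c + w) * l) then 1 else 0 : ℝ) ≤ (1 / 2) ^ i * (X * (w * l * Real.exp l)) + 1 := by
    intro i _
    rw [sum_boole]
    refine (card_Ico67 (Real.exp_pos _).le (Real.exp_le_exp.2 (by nlinarith))).trans ?_
    have h1 : Real.exp ((jm - i + c + w) * l) = Real.exp ((jm - i + c) * l) * Real.exp (w * l) := by
      rw [← Real.exp_add]
      congr 1
      ring
    have h2 : Real.exp ((jm - i + c) * l) ≤ (1 / 2) ^ i * X := by
      have h3 : Real.exp ((jm - i + c) * l) = Real.exp ((jm + c) * l) * Real.exp (-l) ^ i := by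
        rw [← Real.exp_nat_mul, ← Real.exp_add]
        congr 1
        ring
      have h4 : Real.exp ((jm + c) * l) ≤ X := by
        rw [← Real.le_log_iff_exp_le (by linarith)]
        exact hjm1
      have h5 : Real.exp (-l) ≤ 1 / 2 := by
        rw [Real.exp_neg, ← one_div]
        refine one_div_le_one_div_of_le (by norm_num) ?_
        rw [← Real.exp_log (by norm_num : (0 : ℝ) < 2)]
        exact Real.exp_le_exp.2 hl
      have h6 : Real.exp (-l) ^ i ≤ (1 / 2) ^ i := pow_le_pow_left₀ (Real.exp_pos _).le h5 i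
      rw [h3, mul_comm]
      exact mul_le_mul h6 h4 (Real.exp_pos _).le (by positivity)
    have h3 : 0 ≤ Real.exp (w * l) - 1 := by
      have := Real.add_one_le_exp (w * l)
      have : 0 ≤ w * l := by positivity
      linarith
    rw [h1]
    have h4 : Real.exp ((jm - i + c) * l) * Real.exp (w * l) - Real.exp ((jm - i + c) * l) + 1 =
        Real.exp ((jm - i + c) * l) * (Real.exp (w * l) - 1) + 1 := by ring
    rw [h4]
    have h5 : Real.exp ((jm - i + c) * l) * (Real.exp (w * l) - 1) ≤ (1 / 2) ^ i * X * (w * l * Real.exp l) :=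
      mul_le_mul h2 hwl h3 (by positivity)
    linarith
  refine (sum_le_sum hterm).trans ?_
  rw [sum_add_distrib, ← sum_mul, sum_const, card_range, nsmul_eq_mul, mul_one]
  have h1 := sum_geometric_two_le N
  have h2 : (N : ℝ) ≤ Real.log X / l + 2 := by
    rw [hN]
    push_cast
    have := Nat.floor_le (div_nonneg hLX hl0.le)
    linarith
  have h3 : 0 ≤ X * (w * l * Real.exp l) := by positivity
  nlinarith

/-- the integers of the height `t` with the position in an arc -/
private theorem am_ex67 (h : POSB.Std d m r) {F : Set ℤ} (c : ℝ) {w : ℝ} (hw0 : 0 ≤ w) (hw1 : w ≤ 1) {X : ℝ} (hX : 1 ≤ X)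
    (t : ℤ) : am (ex d m r F (arc c w) t) X ≤
      (Real.log X / Real.log m + 2) / X + 2 * (w * Real.log m * Real.exp (Real.log m)) := by
  have hX0 : 0 < X := by linarith
  have hm2 : (2 : ℝ) ≤ m := by exact_mod_cast (by have := h.hd; have := h.hdm; omega : 2 ≤ m)
  have hl : Real.log 2 ≤ Real.log m := Real.log_le_log (by norm_num) hm2
  have h1 := count67 hl hX (t * Real.log d / Real.log m + c) hw0 hw1
  unfold am
  rw [div_le_iff₀ hX0]
  have e1 : ((Real.log X / Real.log m + 2) / X + 2 * (w * Real.log m * Real.exp (Real.log m))) * X =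
      Real.log X / Real.log m + 2 + 2 * X * (w * Real.log m * Real.exp (Real.log m)) := by
    field_simp
  rw [e1]
  refine le_trans (sum_le_sum fun n _ => ?_) h1
  by_cases hn : Ht d m r F t n
  · rw [ex_eq hn, arc, pos]
    have e2 : (Real.log ((n : ℤ) : ℝ) - t * Real.log d) / Real.log m - c =
        Real.log (n : ℝ) / Real.log m - (t * Real.log d / Real.log m + c) := by
      rw [Int.cast_natCast]
      ring
    rw [e2]
  · rw [ex_eq_zero hn]
    positivity

/-- decomposition by the height -/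
private theorem al_le67 {F : Set ℤ} (c w : ℝ) {s : ℤ} (n : ℤ) :
    al d m r F (arc c w) n ≤ (al d m r F (fun _ => 1) n - up d m r F (fun _ => 1) s n) +
      ∑ t ∈ Icc 0 s, ex d m r F (arc c w) t n := by
  have harc : ∀ y, 0 ≤ arc c w y ∧ arc c w y ≤ 1 := by
    intro y
    unfold arc
    split_ifs <;> norm_num
  have hex : ∀ t, 0 ≤ ex d m r F (arc c w) t n := by
    intro t
    by_cases ht : Ht d m r F t n
    · rw [ex_eq ht]
      exact (harc _).1
    · rw [ex_eq_zero ht]
  by_cases hn : ∃ t, Ht d m r F t n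
  · obtain ⟨t, ht⟩ := hn
    rw [al_eq ht, al_eq ht, up_eq ht]
    split_ifs with hs
    · rw [sub_self, zero_add]
      have h1 := single_le_sum (f := fun t => ex d m r F (arc c w) t n) (s := Icc 0 s) (fun t _ => hex t)
        (mem_Icc.2 ⟨ht_nonneg ht, hs⟩)
      rw [ex_eq ht] at h1
      exact h1
    · rw [sub_zero]
      have h1 := (harc (pos d m t n)).2
      have h2 : 0 ≤ ∑ t ∈ Icc 0 s, ex d m r F (arc c w) t n := sum_nonneg fun t _ => hex t
      linarith
  · have hn' : ∀ t, ¬ Ht d m r F t n := fun t ht => hn ⟨t, ht⟩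
    rw [al_eq_zero hn', al_eq_zero hn', up_eq_zero hn', sub_self, zero_add]
    exact sum_nonneg fun t _ => hex t

private theorem al_mono67 {F : Set ℤ} {ψ ψ' : ℝ → ℝ} (h : ∀ y, ψ y ≤ ψ' y) (n : ℤ) :
    al d m r F ψ n ≤ al d m r F ψ' n := by
  by_cases hn : ∃ t, Ht d m r F t n
  · obtain ⟨t, ht⟩ := hn
    rw [al_eq ht, al_eq ht]
    exact h _
  · have hn' : ∀ t, ¬ Ht d m r F t n := fun t ht => hn ⟨t, ht⟩
    rw [al_eq_zero hn', al_eq_zero hn']

private theorem sd_pos67 (h : POSB.Std d m r) : 0 < ST.sd d m := by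
  have hd1 : (1 : ℝ) < d := by exact_mod_cast (by have := h.hd; omega : 1 < d)
  have hm1 : (1 : ℝ) < m := by exact_mod_cast (by have := h.hd; have := h.hdm; omega : 1 < m)
  have hl : 0 < Real.log m := Real.log_pos hm1
  have h1 : 0 < (1 - 1 / (d : ℝ)) * (1 / (d : ℝ)) := by
    have h2 : 1 / (d : ℝ) < 1 := by rw [div_lt_one (by linarith)]; exact hd1
    have h3 : 0 < 1 / (d : ℝ) := by positivity
    exact mul_pos (by linarith) h3
  unfold ST.sd
  exact div_pos (mul_pos hl (Real.sqrt_pos.2 h1)) (mul_pos h.gam (Real.sqrt_pos.2 h.gam))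

theorem atomless (h : POSB.Std d m r) {F : Set ℤ} {b : ℝ} (hb : 0 ≤ b) (hF : ∀ n ∈ F, (n : ℝ) ≤ b) {ε : ℝ} (hε : 0 < ε) :
    ∃ δ X₀ : ℝ, 0 < δ ∧ δ < 1 / 4 ∧ 1 < X₀ ∧ ∀ c X : ℝ, X₀ ≤ X → am (al d m r F (arc c δ)) X ≤ ε := by
  have hm1 : (1 : ℝ) < m := by exact_mod_cast (by have := h.hd; have := h.hdm; omega : 1 < m)
  have hl : 0 < Real.log m := Real.log_pos hm1
  have hγ := h.gam
  have hσ := sd_pos67 h
  obtain ⟨C, hC, hfam⟩ := fam h hF
  obtain ⟨q, hq, hstab⟩ := stab h
  obtain ⟨X₁, hX₁, hst⟩ := hstab (ε / 8) (by positivity)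
  obtain ⟨X₂, hX₂, hjt⟩ := joint h hb hF (L := 1) (ε := ε / 8) le_rfl (by positivity)
  obtain ⟨U, hU⟩ : ∃ U : ℝ, ∀ u, U ≤ u → 1 - ε / 8 ≤
      ProbabilityTheory.cdf (ProbabilityTheory.gaussianReal 0 1) u := by
    have h1 := (ProbabilityTheory.tendsto_cdf_atTop (ProbabilityTheory.gaussianReal 0 1)).eventually
      (Ici_mem_nhds (show (1 : ℝ) - ε / 8 < 1 by linarith))
    exact eventually_atTop.1 h1
  set E := Real.exp (Real.log m) with hE
  have hE0 : 0 < E := Real.exp_pos _
  set K₀ := 1 / PL.gam d m + 1 with hK₀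
  have hK0 : 0 < K₀ := by positivity
  set A := C * (48 * Real.log m * E * (K₀ + 2) / ε) with hA
  -- a large scale
  have hpow : ∀ (c : ℝ) (j : ℕ), 0 < c → ∀ᶠ X : ℝ in atTop, c * Real.log X ^ j ≤ X := by
    intro c j hc
    have h1 := (Real.isLittleO_pow_log_id_atTop (n := j)).bound (show 0 < 1 / c by positivity)
    filter_upwards [h1, eventually_ge_atTop 1] with X h2 h3
    rw [Real.norm_eq_abs, Real.norm_eq_abs, id, abs_of_nonneg (by linarith : 0 ≤ X)] at h2
    have h4 := (le_abs_self _).trans h2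
    have h5 : c * Real.log X ^ j ≤ c * (1 / c * X) := mul_le_mul_of_nonneg_left h4 hc.le
    have h6 : c * (1 / c * X) = X := by field_simp
    rwa [h6] at h5
  have hlog := Real.tendsto_log_atTop
  obtain ⟨X, e0, e1, e2, e3, e4, e5, e6, e7, e8⟩ : ∃ X : ℝ, 1 < X ∧ X₁ ≤ X ∧ X₂ ≤ X ∧ 1 ≤ Real.log X ∧
      U * ST.sd d m ≤ Real.sqrt (Real.log X) ∧ (C * 1) ^ q ≤ X ∧ A ^ q * Real.log X ^ q ≤ X ∧
      (K₀ + 2) * (1 / Real.log m + 2) * (8 / ε) * Real.log X ^ 2 ≤ X ∧ ε / (12 * Real.log m * E) < Real.log X := by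
    have hev : ∀ᶠ X : ℝ in atTop, 1 < X ∧ X₁ ≤ X ∧ X₂ ≤ X ∧ 1 ≤ Real.log X ∧
        U * ST.sd d m ≤ Real.sqrt (Real.log X) ∧ (C * 1) ^ q ≤ X ∧ A ^ q * Real.log X ^ q ≤ X ∧
        (K₀ + 2) * (1 / Real.log m + 2) * (8 / ε) * Real.log X ^ 2 ≤ X ∧ ε / (12 * Real.log m * E) < Real.log X := by
      filter_upwards [eventually_gt_atTop (1 : ℝ), eventually_ge_atTop X₁, eventually_ge_atTop X₂,
        hlog.eventually_ge_atTop 1, (Real.tendsto_sqrt_atTop.comp hlog).eventually_ge_atTop (U * ST.sd d m),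
        eventually_ge_atTop ((C * 1) ^ q), hpow (A ^ q) q (by positivity),
        hpow ((K₀ + 2) * (1 / Real.log m + 2) * (8 / ε)) 2 (by positivity),
        hlog.eventually_gt_atTop (ε / (12 * Real.log m * E))] with X e0 e1 e2 e3 e4 e5 e6 e7 e8
      exact ⟨e0, e1, e2, e3, e4, e5, e6, e7, e8⟩
    exact hev.exists
  have hX0 : 0 < X := by linarith
  set ℓ := Real.log X with hℓ
  set s : ℤ := ⌈K₀ * ℓ⌉ with hs
  have hs1 : K₀ * ℓ ≤ s := Int.le_ceil _
  have hs2 : (s : ℝ) < K₀ * ℓ + 1 := Int.ceil_lt_add_one _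
  have hs0 : (0 : ℝ) ≤ s := (by positivity : 0 ≤ K₀ * ℓ).trans hs1
  have hs3 : (s : ℝ) + 1 ≤ (K₀ + 2) * ℓ := by nlinarith
  have hs4 : ℓ ≤ s + 1 := by
    have h1 : (1 : ℝ) ≤ K₀ := by
      rw [hK₀]
      have : 0 < 1 / PL.gam d m := by positivity
      linarith
    nlinarith
  have hs5 : (0 : ℝ) < s + 1 := by linarith
  set δ := ε / (48 * Real.log m * E * (s + 1)) with hδ
  have hδ0 : 0 < δ := by positivity
  have hδ1 : δ < 1 / 4 := by
    rw [hδ, div_lt_iff₀ (by positivity)]
    rw [div_lt_iff₀ (by positivity)] at e8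
    nlinarith [mul_le_mul_of_nonneg_right hs4 (by positivity : 0 ≤ Real.log m * E)]
  have hδ2 : (s + 1) * (2 * (3 * δ * Real.log m * E)) = ε / 8 := by
    rw [hδ]
    field_simp
    norm_num
  -- the bound at the scale `X`
  have hone : Tst 1 (fun _ => 1) := ⟨⟨fun _ => zero_le_one, fun _ => le_rfl, fun _ => rfl⟩, fun y y' => by
    rw [sub_self, abs_zero]; positivity⟩
  have hone1 := (hst (C * 1) _ (by linarith) (hfam 1 _ le_rfl hone).2.2)
  have hone2 := hone1.2.2.2 X e1 e5
  have hone3 := hjt _ hone X e2 s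
  have hU1 : 1 - ε / 8 ≤ ProbabilityTheory.cdf (ProbabilityTheory.gaussianReal 0 1) (uu d m s X) := by
    refine hU _ ?_
    unfold uu
    rw [le_div_iff₀ (mul_pos hσ (Real.sqrt_pos.2 (by linarith)))]
    have h1 : U * ST.sd d m ≤ Real.sqrt ℓ := e4
    have h2 : Real.sqrt ℓ * Real.sqrt ℓ = ℓ := Real.mul_self_sqrt (by linarith)
    have h3 : (s : ℝ) - ℓ / PL.gam d m ≥ ℓ := by
      have : K₀ * ℓ = ℓ / PL.gam d m + ℓ := by rw [hK₀]; ring
      linarith
    have h4 : U * (ST.sd d m * Real.sqrt ℓ) ≤ ℓ := by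
      calc U * (ST.sd d m * Real.sqrt ℓ) = (U * ST.sd d m) * Real.sqrt ℓ := by ring
        _ ≤ Real.sqrt ℓ * Real.sqrt ℓ := mul_le_mul_of_nonneg_right h1 (Real.sqrt_nonneg _)
        _ = ℓ := h2
    linarith
  have hbig : ∀ c, am (al d m r F (arc c (3 * δ))) X ≤ 5 * ε / 8 := by
    intro c
    have h1 := am_mono (f := al d m r F (arc c (3 * δ))) (g := fun n => (al d m r F (fun _ => 1) n -
      up d m r F (fun _ => 1) s n) + ∑ t ∈ Icc 0 s, ex d m r F (arc c (3 * δ)) t n) (fun n _ => al_le67 c _ n) hX0.le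
    rw [am_add, am_sub, am_sum] at h1
    refine h1.trans ?_
    have h2 : ∑ t ∈ Icc 0 s, am (fun n => ex d m r F (arc c (3 * δ)) t n) X ≤
        (s + 1) * ((ℓ / Real.log m + 2) / X + 2 * (3 * δ * Real.log m * E)) := by
      refine (sum_le_card_nsmul _ _ _ fun t _ => am_ex67 h c (by positivity) (by linarith) e0.le t).trans ?_
      rw [Int.card_Icc, nsmul_eq_mul]
      have h3 : (((s + 1 - 0).toNat : ℕ) : ℝ) = s + 1 := by
        have h4 : ((s + 1 - 0).toNat : ℤ) = s + 1 := by
          rw [sub_zero]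
          refine Int.toNat_of_nonneg ?_
          exact_mod_cast hs5.le
        exact_mod_cast h4
      rw [h3]
    have h3 : (s + 1) * ((ℓ / Real.log m + 2) / X) ≤ ε / 8 := by
      rw [← mul_div_assoc, div_le_iff₀ hX0]
      have h4 : ℓ / Real.log m + 2 ≤ (1 / Real.log m + 2) * ℓ := by
        have h5 : ℓ / Real.log m = (1 / Real.log m) * ℓ := by ring
        rw [h5]
        nlinarith
      have h5 : 0 ≤ ℓ / Real.log m + 2 := by positivity
      have h6 : (s + 1) * (ℓ / Real.log m + 2) ≤ ((K₀ + 2) * ℓ) * ((1 / Real.log m + 2) * ℓ) :=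
        mul_le_mul hs3 h4 h5 (by positivity)
      refine h6.trans ?_
      have h7 : ((K₀ + 2) * ℓ) * ((1 / Real.log m + 2) * ℓ) =
          (ε / 8) * ((K₀ + 2) * (1 / Real.log m + 2) * (8 / ε) * ℓ ^ 2) := by
        field_simp
      rw [h7]
      exact mul_le_mul_of_nonneg_left e7 (by positivity)
    have h4 : am (al d m r F fun _ => 1) X - am (up d m r F (fun _ => 1) s) X ≤ 3 * ε / 8 := by
      have h5 := (abs_le.1 hone2).2
      have h6 := (abs_le.1 hone3).1
      have h7 := hone1.2.2.1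
      have h8 := hone1.2.1
      have h9 : mean (al d m r F fun _ => 1) * (1 - ε / 8) ≤ mean (al d m r F fun _ => 1) *
        ProbabilityTheory.cdf (ProbabilityTheory.gaussianReal 0 1) (uu d m s X) := mul_le_mul_of_nonneg_left hU1 h8
      have h10 : mean (al d m r F fun _ => 1) * (ε / 8) ≤ 1 * (ε / 8) := mul_le_mul_of_nonneg_right h7 (by positivity)
      linarith
    have h5 : (s + 1) * ((ℓ / Real.log m + 2) / X + 2 * (3 * δ * Real.log m * E)) =
        (s + 1) * ((ℓ / Real.log m + 2) / X) + (s + 1) * (2 * (3 * δ * Real.log m * E)) := by ring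
    rw [h5, hδ2] at h2
    linarith
  refine ⟨δ, X, hδ0, hδ1, e0, fun c X' hX' => ?_⟩
  have hten := hfam (1 / δ) (ten67 c δ) (by rw [le_div_iff₀ hδ0]; linarith) (ten67_tst hδ0)
  have hz : 1 ≤ C * (1 / δ) := by
    have h1 : 1 ≤ 1 / δ := by rw [le_div_iff₀ hδ0]; linarith
    nlinarith
  have hzq : (C * (1 / δ)) ^ q ≤ X := by
    have h1 : 1 / δ ≤ 48 * Real.log m * E * (K₀ + 2) / ε * ℓ := by
      rw [hδ, one_div_div, div_le_iff₀ hε]
      have h2 : 48 * Real.log m * E * (K₀ + 2) / ε * ℓ * ε = 48 * Real.log m * E * ((K₀ + 2) * ℓ) := by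
        field_simp
      rw [h2]
      exact mul_le_mul_of_nonneg_left hs3 (by positivity)
    have h2 : C * (1 / δ) ≤ A * ℓ := by
      rw [hA, mul_assoc]
      exact mul_le_mul_of_nonneg_left h1 (by linarith)
    refine (pow_le_pow_left₀ (by positivity) h2 q).trans ?_
    rw [mul_pow]
    exact e6
  have hten1 := hst (C * (1 / δ)) _ hz hten.2.2
  have h1 := hten1.2.2.2 X e1 hzq
  have h2 := hten1.2.2.2 X' (e1.trans hX') (hzq.trans hX')
  have h3 : am (al d m r F (ten67 c δ)) X ≤ 5 * ε / 8 :=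
    (am_mono (fun n _ => al_mono67 (ten67_le_arc hδ0 (by linarith)) n) hX0.le).trans (hbig (c - δ))
  have h4 : am (al d m r F (arc c δ)) X' ≤ am (al d m r F (ten67 c δ)) X' :=
    am_mono (fun n _ => al_mono67 (arc_le_ten67 hδ0) n) (hX0.le.trans hX')
  have h5 := (abs_le.1 h1).1
  have h6 := (abs_le.1 h2).2
  linarith

end Pool.Agent.Helper8.LL
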