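import Pool.Agent.Helper8.LL.J
import Pool.Agent.Helper8.LL.T

/-!
# LL-Z: the weight `m ^ (-{z - y})`

`ww m z` is `Wt`, jumps at `y = z` only. For `0 < δ < 1/4` there is a `ψ = ψ_(z, δ)`, `Tst (3 / δ)`, with `|ww m z y - ψ y| ≤ arc (z - δ) (2 δ) y` (linear interpolation near the jump; `ψ_(z,δ) (y) = ψ_(0,δ) (y - z)`), and `|ww m z y - ww m z' y| ≤ arc (z - δ) (2δ) y + log m |z - z'|`
for `|z - z'| ≤ δ`. So `atomless` gives: `am (al (ww m z)) X` is Cauchy, uniformly in `z`; `W0 z := mean (al (ww m z))` is continuous, of period `1`; and `joint` carries over.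
-/

set_option autoImplicit false

namespace Pool.Agent.Helper8.LL

open Pool.Agent.Helper68.Moeller Pool.Agent.Helper52.Tao Pool.Agent.Helper8.ND Pool.Agent.Helper28
  Pool.Agent.Helper91 Finset Filter Topology

variable {d m : ℕ} {r : ℤ → ℤ}

theorem wt_ww (hm : 2 ≤ m) (z : ℝ) : Wt (ww m z) := by
  have hm1 : (1 : ℝ) ≤ m := by exact_mod_cast (by omega : 1 ≤ m)
  refine ⟨fun y => ?_, fun y => ?_, fun y => ?_⟩
  · exact Real.rpow_nonneg (by linarith) _
  · exact Real.rpow_le_one_of_one_le_of_nonpos hm1 (neg_nonpos.2 (Int.fract_nonneg _))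
  · unfold ww
    rw [show z - (y + 1) = (z - y) - 1 by ring, Int.fract_sub_one]

/-- `m ^ (u - 1)` or the tent `1 - u / δ`. -/
private noncomputable def hh88 (m : ℕ) (δ u : ℝ) : ℝ := max ((m : ℝ) ^ (u - 1)) (1 - u / δ)

private noncomputable def ps88 (m : ℕ) (δ z y : ℝ) : ℝ := hh88 m δ (Int.fract (y - z))

private theorem rp_lip88 (hm : 2 ≤ m) {a b : ℝ} (ha : a ≤ 0) (hb : b ≤ 0) :
    |(m : ℝ) ^ a - (m : ℝ) ^ b| ≤ Real.log m * |a - b| := by
  have hm0 : (0 : ℝ) < m := by exact_mod_cast (by omega : 0 < m)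
  have hl : 0 ≤ Real.log m := Real.log_natCast_nonneg m
  have key : ∀ a b : ℝ, b ≤ a → a ≤ 0 → |(m : ℝ) ^ a - (m : ℝ) ^ b| ≤ Real.log m * |a - b| := by
    intro a b hba ha
    have h1 : (m : ℝ) ^ b ≤ (m : ℝ) ^ a :=
      Real.rpow_le_rpow_of_exponent_le (by exact_mod_cast (by omega : 1 ≤ m)) hba
    rw [abs_of_nonneg (by linarith), abs_of_nonneg (by linarith)]
    have h2 : (m : ℝ) ^ b = (m : ℝ) ^ a * Real.exp (-(Real.log m * (a - b))) := by
      rw [Real.rpow_def_of_pos hm0, Real.rpow_def_of_pos hm0, ← Real.exp_add]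
      congr 1
      ring
    have h3 : (m : ℝ) ^ a ≤ 1 := Real.rpow_le_one_of_one_le_of_nonpos (by exact_mod_cast (by omega : 1 ≤ m)) ha
    have h4 : 0 < (m : ℝ) ^ a := Real.rpow_pos_of_pos hm0 a
    have h5 := Real.add_one_le_exp (-(Real.log m * (a - b)))
    have h6 : 0 ≤ Real.log m * (a - b) := mul_nonneg hl (by linarith)
    rw [h2]
    have h7 : (m : ℝ) ^ a * (1 - Real.exp (-(Real.log m * (a - b)))) ≤ 1 * (Real.log m * (a - b)) := by
      refine mul_le_mul h3 (by linarith) ?_ zero_le_one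
      rw [sub_nonneg, Real.exp_le_one_iff]
      linarith
    linarith
  rcases le_total b a with h | h
  · exact key a b h ha
  · rw [abs_sub_comm, abs_sub_comm a b]
    exact key b a h hb

private theorem hh_lip88 (hm : 2 ≤ m) {δ : ℝ} (hδ : 0 < δ) {a b : ℝ} (ha : a ≤ 1) (hb : b ≤ 1) :
    |hh88 m δ a - hh88 m δ b| ≤ (Real.log m + 1 / δ) * |a - b| := by
  have hl : 0 ≤ Real.log m := Real.log_natCast_nonneg m
  have h1 := rp_lip88 hm (a := a - 1) (b := b - 1) (by linarith) (by linarith)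
  rw [sub_sub_sub_cancel_right] at h1
  have h2 : |(1 - a / δ) - (1 - b / δ)| = 1 / δ * |a - b| := by
    rw [show (1 - a / δ) - (1 - b / δ) = 1 / δ * (b - a) by ring, abs_mul, abs_of_pos (by positivity), abs_sub_comm]
  unfold hh88
  refine (abs_max_sub_max_le_max _ _ _ _).trans ?_
  have h3 : 0 ≤ |a - b| := abs_nonneg _
  have h4 : 0 < 1 / δ := by positivity
  refine max_le (h1.trans ?_) (h2.le.trans ?_)
  · exact mul_le_mul_of_nonneg_right (by linarith) h3
  · exact mul_le_mul_of_nonneg_right (by linarith) h3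

private theorem hh_bd88 (hm : 2 ≤ m) {δ : ℝ} (hδ : 0 < δ) {a : ℝ} (h0 : 0 ≤ a) (ha : a ≤ 1) :
    0 ≤ hh88 m δ a ∧ hh88 m δ a ≤ 1 := by
  have hm1 : (1 : ℝ) ≤ m := by exact_mod_cast (by omega : 1 ≤ m)
  unfold hh88
  refine ⟨le_max_of_le_left (Real.rpow_nonneg (by linarith) _), max_le ?_ ?_⟩
  · exact Real.rpow_le_one_of_one_le_of_nonpos hm1 (by linarith)
  · have : 0 ≤ a / δ := by positivity
    linarith

private theorem hh_01_88 {δ : ℝ} (hδ : 0 < δ) (hδ1 : δ ≤ 1) (hm : 2 ≤ m) : hh88 m δ 0 = hh88 m δ 1 := by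
  have hm1 : (1 : ℝ) ≤ m := by exact_mod_cast (by omega : 1 ≤ m)
  unfold hh88
  rw [sub_self, Real.rpow_zero, zero_div, sub_zero, max_eq_right, max_eq_left]
  · have : 1 ≤ 1 / δ := by rw [le_div_iff₀ hδ]; linarith
    linarith
  · exact Real.rpow_le_one_of_one_le_of_nonpos hm1 (by linarith)

private theorem tst88 (hm : 2 ≤ m) {δ : ℝ} (hδ : 0 < δ) (hδ1 : δ ≤ 1) (z : ℝ) :
    Tst (Real.log m + 1 / δ) (ps88 m δ z) := by
  have hl : 0 ≤ Real.log m := Real.log_natCast_nonneg m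
  have hL : 1 ≤ Real.log m + 1 / δ := by
    have : 1 ≤ 1 / δ := by rw [le_div_iff₀ hδ]; linarith
    linarith
  have hb : ∀ y, 0 ≤ ps88 m δ z y ∧ ps88 m δ z y ≤ 1 := fun y =>
    hh_bd88 hm hδ (Int.fract_nonneg _) (Int.fract_lt_one _).le
  have key : ∀ y y' : ℝ, y ≤ y' → |ps88 m δ z y - ps88 m δ z y'| ≤ (Real.log m + 1 / δ) * |y - y'| := by
    intro y y' hy
    rcases le_or_gt 1 (y' - y) with h1 | h1
    · have h2 : |ps88 m δ z y - ps88 m δ z y'| ≤ 1 := by
        have := hb y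
        have := hb y'
        rw [abs_le]
        constructor <;> linarith
      have h3 : 1 ≤ |y - y'| := by
        rw [abs_sub_comm, abs_of_nonneg (by linarith)]
        exact h1
      nlinarith
    · have h4 := Int.floor_le (y - z)
      have h5 := Int.lt_floor_add_one (y - z)
      have h6 := Int.floor_le (y' - z)
      have h7 := Int.lt_floor_add_one (y' - z)
      have h8 : ⌊y - z⌋ ≤ ⌊y' - z⌋ := Int.floor_le_floor (by linarith)
      have h9 : ⌊y' - z⌋ ≤ ⌊y - z⌋ + 1 := by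
        have : (⌊y' - z⌋ : ℝ) < (⌊y - z⌋ : ℝ) + 2 := by linarith
        have : ⌊y' - z⌋ < ⌊y - z⌋ + 2 := by exact_mod_cast this
        omega
      have e1 : Int.fract (y - z) = y - z - ⌊y - z⌋ := rfl
      have e2 : Int.fract (y' - z) = y' - z - ⌊y' - z⌋ := rfl
      rcases h8.eq_or_lt with h10 | h10
      · unfold ps88
        refine (hh_lip88 hm hδ (Int.fract_lt_one _).le (Int.fract_lt_one _).le).trans (le_of_eq ?_)
        rw [e1, e2, h10]
        congr 2
        ring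
      · have h11 : (⌊y' - z⌋ : ℝ) = ⌊y - z⌋ + 1 := by
          have : ⌊y' - z⌋ = ⌊y - z⌋ + 1 := by omega
          exact_mod_cast this
        unfold ps88
        have a1 := hh_lip88 hm hδ (a := Int.fract (y - z)) (b := 1) (Int.fract_lt_one _).le le_rfl
        have a2 := hh_lip88 hm hδ (a := 0) (b := Int.fract (y' - z)) zero_le_one (Int.fract_lt_one _).le
        rw [abs_of_nonpos (show Int.fract (y - z) - 1 ≤ 0 by linarith [(Int.fract_lt_one (y - z)).le])] at a1
        rw [abs_of_nonpos (show 0 - Int.fract (y' - z) ≤ 0 by linarith [Int.fract_nonneg (y' - z)])] at a2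
        have h12 : hh88 m δ (Int.fract (y - z)) - hh88 m δ (Int.fract (y' - z)) =
            (hh88 m δ (Int.fract (y - z)) - hh88 m δ 1) + (hh88 m δ 0 - hh88 m δ (Int.fract (y' - z))) := by
          rw [hh_01_88 hδ hδ1 hm]
          ring
        rw [h12]
        refine (abs_add_le _ _).trans ((add_le_add a1 a2).trans (le_of_eq ?_))
        rw [← mul_add, abs_of_nonpos (show y - y' ≤ 0 by linarith)]
        congr 1
        rw [e1, e2, h11]
        ring
  refine ⟨⟨fun y => (hb y).1, fun y => (hb y).2, fun y => ?_⟩, fun y y' => ?_⟩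
  · unfold ps88
    rw [show y + 1 - z = (y - z) + 1 by ring, Int.fract_add_one]
  · rcases le_total y y' with h | h
    · exact key y y' h
    · rw [abs_sub_comm, abs_sub_comm y y']
      exact key y' y h

private theorem arc_bd88 (c δ y : ℝ) : 0 ≤ arc c δ y ∧ arc c δ y ≤ 1 := by
  unfold arc
  split_ifs <;> norm_num

private theorem ww_ps88 (hm : 2 ≤ m) {δ : ℝ} (hδ : 0 < δ) (z y : ℝ) :
    |ww m z y - ps88 m δ z y| ≤ arc z δ y := by
  have h1 := (wt_ww hm z).nonneg y
  have h2 := (wt_ww hm z).le_one y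
  have h3 : 0 ≤ ps88 m δ z y ∧ ps88 m δ z y ≤ 1 := hh_bd88 hm hδ (Int.fract_nonneg _) (Int.fract_lt_one _).le
  unfold arc
  split_ifs with h
  · rw [abs_le]
    constructor <;> linarith [h3.1, h3.2]
  · push Not at h
    have h4 : Int.fract (y - z) ≠ 0 := by linarith
    have h5 : Int.fract (z - y) = 1 - Int.fract (y - z) := by
      rw [← Int.fract_neg h4, neg_sub]
    have h6 : ww m z y = ps88 m δ z y := by
      unfold ww ps88 hh88
      rw [h5, max_eq_left]
      · congr 1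
        ring
      · have : 1 ≤ Int.fract (y - z) / δ := by rw [le_div_iff₀ hδ]; linarith
        have : 0 ≤ (m : ℝ) ^ (Int.fract (y - z) - 1) := Real.rpow_nonneg (Nat.cast_nonneg m) _
        linarith
    rw [h6, sub_self, abs_zero]

private theorem ww_ww88 (hm : 2 ≤ m) {δ z z' : ℝ} (h1 : z ≤ z') (h2 : z' < z + δ) (y : ℝ) :
    |ww m z y - ww m z' y| ≤ arc z δ y + Real.log m * (z' - z) := by
  have hl : 0 ≤ Real.log m * (z' - z) := mul_nonneg (Real.log_natCast_nonneg m) (by linarith)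
  have a1 := (wt_ww hm z).nonneg y
  have a2 := (wt_ww hm z).le_one y
  have a3 := (wt_ww hm z').nonneg y
  have a4 := (wt_ww hm z').le_one y
  by_cases h : ⌊z - y⌋ = ⌊z' - y⌋
  · have h3 : |ww m z y - ww m z' y| ≤ Real.log m * (z' - z) := by
      unfold ww
      refine (rp_lip88 hm (neg_nonpos.2 (Int.fract_nonneg _)) (neg_nonpos.2 (Int.fract_nonneg _))).trans (le_of_eq ?_)
      congr 1
      have e1 : Int.fract (z - y) = z - y - ⌊z - y⌋ := rfl
      have e2 : Int.fract (z' - y) = z' - y - ⌊z' - y⌋ := rfl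
      rw [e1, e2, h, show -(z - y - (⌊z' - y⌋ : ℝ)) - -(z' - y - ⌊z' - y⌋) = z' - z by ring, abs_of_nonneg (by linarith)]
    linarith [(arc_bd88 z δ y).1]
  · have h3 : arc z δ y = 1 := by
      unfold arc
      rw [if_pos]
      have h4 : ⌊z - y⌋ < ⌊z' - y⌋ := lt_of_le_of_ne (Int.floor_le_floor (by linarith)) h
      have h5 : (⌊z - y⌋ : ℝ) + 1 ≤ ⌊z' - y⌋ := by exact_mod_cast h4
      have h6 := Int.lt_floor_add_one (z - y)
      have h7 := Int.floor_le (z' - y)
      have h8 : Int.fract (y - z) ≤ y - z + ⌊z' - y⌋ := by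
        have h9 : Int.fract (y - z + ⌊z' - y⌋) = Int.fract (y - z) := Int.fract_add_intCast _ _
        rw [← h9]
        have h10 : 0 ≤ y - z + (⌊z' - y⌋ : ℝ) := by linarith
        have h11 : (0 : ℝ) ≤ ⌊y - z + (⌊z' - y⌋ : ℝ)⌋ := by exact_mod_cast Int.floor_nonneg.2 h10
        have h12 : Int.fract (y - z + (⌊z' - y⌋ : ℝ)) = y - z + ⌊z' - y⌋ - ⌊y - z + (⌊z' - y⌋ : ℝ)⌋ := rfl
        linarith
      linarith
    rw [h3, abs_le]
    constructor <;> linarith

/-- Comparison of two weights. -/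
private theorem al_cmp88 {F : Set ℤ} {ψ ψ' ρ : ℝ → ℝ} {c : ℝ} (hc : 0 ≤ c) (h : ∀ y, |ψ y - ψ' y| ≤ ρ y + c) (n : ℤ) :
    |al d m r F ψ n - al d m r F ψ' n| ≤ al d m r F ρ n + c := by
  by_cases hex : ∃ t, Ht d m r F t n
  · obtain ⟨t, ht⟩ := hex
    rw [al_eq ht, al_eq ht, al_eq ht]
    exact h _
  · rw [al_eq_zero (not_exists.1 hex), al_eq_zero (not_exists.1 hex), al_eq_zero (not_exists.1 hex), sub_self, abs_zero,
      zero_add]
    exact hc

private theorem up_cmp88 {F : Set ℤ} {ψ ψ' ρ : ℝ → ℝ} (h0 : ∀ y, 0 ≤ ρ y) (h : ∀ y, |ψ y - ψ' y| ≤ ρ y) (s n : ℤ) :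
    |up d m r F ψ s n - up d m r F ψ' s n| ≤ al d m r F ρ n := by
  by_cases hex : ∃ t, Ht d m r F t n
  · obtain ⟨t, ht⟩ := hex
    rw [up_eq ht, up_eq ht, al_eq ht]
    split_ifs
    · exact h _
    · rw [sub_self, abs_zero]
      exact h0 _
  · rw [up_eq_zero (not_exists.1 hex), up_eq_zero (not_exists.1 hex), al_eq_zero (not_exists.1 hex), sub_self, abs_zero]

private theorem am_cmp88 {f g ρ : ℤ → ℝ} {c x : ℝ} (hc : 0 ≤ c) (hx : 0 ≤ x) (h : ∀ n, |f n - g n| ≤ ρ n + c) :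
    |am f x - am g x| ≤ am ρ x + c := by
  have h1 : am f x ≤ am g x + (am ρ x + c) := by
    have h2 : am f x ≤ am (fun n => g n + (ρ n + c * 1)) x := by
      refine am_mono (fun n _ => ?_) hx
      have := (abs_le.1 (h n)).2
      linarith
    rw [am_add, am_add] at h2
    have h3 : am (fun _ => c * 1) x ≤ c := by
      unfold am
      rw [← Finset.mul_sum, mul_div_assoc]
      have := am_le_one (f := fun _ => 1) (fun _ => le_rfl) hx
      unfold am at this
      nlinarith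
    linarith
  have h1' : am g x ≤ am f x + (am ρ x + c) := by
    have h2 : am g x ≤ am (fun n => f n + (ρ n + c * 1)) x := by
      refine am_mono (fun n _ => ?_) hx
      have := (abs_le.1 (h n)).1
      linarith
    rw [am_add, am_add] at h2
    have h3 : am (fun _ => c * 1) x ≤ c := by
      unfold am
      rw [← Finset.mul_sum, mul_div_assoc]
      have := am_le_one (f := fun _ => 1) (fun _ => le_rfl) hx
      unfold am at this
      nlinarith
    linarith
  rw [abs_le]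
  constructor <;> linarith

/-- The mean of `m ^ (-{z - pos})`. -/
noncomputable def W0 (d m : ℕ) (r : ℤ → ℤ) (F : Set ℤ) (z : ℝ) : ℝ := mean (al d m r F (ww m z))

private theorem al_bd88 {F : Set ℤ} {ψ : ℝ → ℝ} (hψ : Wt ψ) (n : ℤ) : 0 ≤ al d m r F ψ n ∧ al d m r F ψ n ≤ 1 := by
  by_cases hex : ∃ t, Ht d m r F t n
  · obtain ⟨t, h⟩ := hex
    rw [al_eq h]
    exact ⟨hψ.nonneg _, hψ.le_one _⟩
  · rw [al_eq_zero (not_exists.1 hex)]
    exact ⟨le_rfl, zero_le_one⟩

private theorem tend_ps88 (h : POSB.Std d m r) {F : Set ℤ} {b : ℝ} (hF : ∀ n ∈ F, (n : ℝ) ≤ b) {δ : ℝ} (hδ : 0 < δ)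
    (hδ1 : δ ≤ 1) (z : ℝ) :
    Tendsto (am (al d m r F (ps88 m δ z))) atTop (𝓝 (mean (al d m r F (ps88 m δ z)))) := by
  have hm : 2 ≤ m := by have := h.hd; have := h.hdm; omega
  have hL : 1 ≤ Real.log m + 1 / δ := by
    have h1 : 1 ≤ 1 / δ := by rw [le_div_iff₀ hδ]; linarith
    have h2 : 0 ≤ Real.log m := Real.log_natCast_nonneg m
    linarith
  obtain ⟨C, hC, hfam⟩ := fam h hF
  obtain ⟨q, hq, hst⟩ := stab h
  obtain ⟨X₀, hX₀, hst'⟩ := hst 1 one_pos
  have hCL : 1 ≤ C * (Real.log m + 1 / δ) := by nlinarith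
  exact (hst' _ _ hCL (hfam _ _ hL (tst88 hm hδ hδ1 z)).2.2).1

private theorem tend_ww88 (h : POSB.Std d m r) {F : Set ℤ} {b : ℝ} (hb : 0 ≤ b) (hF : ∀ n ∈ F, (n : ℝ) ≤ b) (z : ℝ) :
    Tendsto (am (al d m r F (ww m z))) atTop (𝓝 (W0 d m r F z)) := by
  have hm : 2 ≤ m := by have := h.hd; have := h.hdm; omega
  have hc : CauchySeq (am (al d m r F (ww m z))) := by
    rw [Metric.cauchySeq_iff']
    intro ε hε
    obtain ⟨δ, X₀, hδ, hδ1, hX₀, hat⟩ := atomless h hb hF (show 0 < ε / 8 by linarith)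
    have ht := tend_ps88 h hF hδ (by linarith) z
    rw [Metric.tendsto_atTop] at ht
    obtain ⟨X₁, hX₁⟩ := ht (ε / 8) (by linarith)
    have key : ∀ X, max X₀ X₁ ≤ X → |am (al d m r F (ww m z)) X - mean (al d m r F (ps88 m δ z))| < ε / 4 := by
      intro X hX
      have h1 := hX₁ X (le_trans (le_max_right _ _) hX)
      rw [Real.dist_eq] at h1
      have h2 := hat z X (le_trans (le_max_left _ _) hX)
      have h3 := am_cmp88 (f := al d m r F (ww m z)) (g := al d m r F (ps88 m δ z)) (ρ := al d m r F (arc z δ)) (x := X)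
        le_rfl (by linarith [le_max_left X₀ X₁])
        (fun n => al_cmp88 le_rfl (fun y => (ww_ps88 hm hδ z y).trans (le_add_of_nonneg_right le_rfl)) n)
      have h4 := abs_sub_le (am (al d m r F (ww m z)) X) (am (al d m r F (ps88 m δ z)) X) (mean (al d m r F (ps88 m δ z)))
      linarith
    refine ⟨max X₀ X₁, fun X hX => ?_⟩
    have h1 := key X hX
    have h2 := key _ le_rfl
    rw [Real.dist_eq]
    have h4 := abs_sub_le (am (al d m r F (ww m z)) X) (mean (al d m r F (ps88 m δ z))) (am (al d m r F (ww m z)) (max X₀ X₁))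
    rw [abs_sub_comm (mean _)] at h4
    linarith
  exact tendsto_nhds_limUnder (cauchySeq_tendsto_of_complete hc)

theorem W0_spec (h : POSB.Std d m r) {F : Set ℤ} {b : ℝ} (hb : 0 ≤ b) (hF : ∀ n ∈ F, (n : ℝ) ≤ b) :
    (∀ z, Tendsto (am (al d m r F (ww m z))) atTop (𝓝 (W0 d m r F z))) ∧ Continuous (W0 d m r F) ∧
      (∀ z, W0 d m r F (z + 1) = W0 d m r F z) ∧ (∀ z, 0 ≤ W0 d m r F z) ∧ (∀ z, W0 d m r F z ≤ 1) := by
  have hm : 2 ≤ m := by have := h.hd; have := h.hdm; omega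
  refine ⟨tend_ww88 h hb hF, ?_, fun z => ?_, fun z => ?_, fun z => ?_⟩
  · rw [Metric.continuous_iff]
    intro z₀ ε hε
    obtain ⟨δ, X₀, hδ, hδ1, hX₀, hat⟩ := atomless h hb hF (show 0 < ε / 4 by linarith)
    have hlm : 0 < Real.log m + 1 := by linarith [Real.log_natCast_nonneg m]
    have key : ∀ z z' : ℝ, z ≤ z' → z' < z + δ → |W0 d m r F z - W0 d m r F z'| ≤ ε / 4 + Real.log m * (z' - z) := by
      intro z z' h1 h2
      have ht := ((tend_ww88 h hb hF z).sub (tend_ww88 h hb hF z')).abs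
      refine le_of_tendsto ht ?_
      filter_upwards [eventually_ge_atTop X₀] with X hX
      have hc : 0 ≤ Real.log m * (z' - z) := mul_nonneg (Real.log_natCast_nonneg m) (by linarith)
      have h3 := am_cmp88 (f := al d m r F (ww m z)) (g := al d m r F (ww m z')) (ρ := al d m r F (arc z δ)) (x := X)
        hc (by linarith) (fun n => al_cmp88 hc (fun y => ww_ww88 hm h1 h2 y) n)
      have h4 := hat z X hX
      linarith
    refine ⟨min δ (ε / (4 * (Real.log m + 1))), lt_min hδ (by positivity), fun z hz => ?_⟩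
    rw [Real.dist_eq] at hz ⊢
    have h1 : |z - z₀| < δ := lt_of_lt_of_le hz (min_le_left _ _)
    have h2 : |z - z₀| < ε / (4 * (Real.log m + 1)) := lt_of_lt_of_le hz (min_le_right _ _)
    have h3 : Real.log m * |z - z₀| ≤ ε / 4 := by
      have h4 : |z - z₀| * (4 * (Real.log m + 1)) < ε := by
        rwa [lt_div_iff₀ (by positivity)] at h2
      have h5 := abs_nonneg (z - z₀)
      nlinarith
    rcases le_total z z₀ with h4 | h4
    · have h5 := key z z₀ h4 (by rw [abs_sub_comm] at h1; linarith [le_abs_self (z₀ - z)])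
      rw [abs_sub_comm, abs_of_nonneg (by linarith)] at h3
      linarith
    · have h5 := key z₀ z h4 (by linarith [le_abs_self (z - z₀)])
      rw [abs_of_nonneg (by linarith)] at h3
      rw [abs_sub_comm]
      linarith
  · unfold W0
    congr 2
    funext y
    unfold ww
    rw [show z + 1 - y = (z - y) + 1 by ring, Int.fract_add_one]
  · refine ge_of_tendsto (tend_ww88 h hb hF z) ?_
    filter_upwards [eventually_ge_atTop 0] with X hX
    exact am_nonneg (fun n => (al_bd88 (wt_ww hm z) n).1) hX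
  · refine le_of_tendsto (tend_ww88 h hb hF z) ?_
    filter_upwards [eventually_ge_atTop 0] with X hX
    exact am_le_one (fun n => (al_bd88 (wt_ww hm z) n).2) hX

theorem joint_ww (h : POSB.Std d m r) {F : Set ℤ} {b : ℝ} (hb : 0 ≤ b) (hF : ∀ n ∈ F, (n : ℝ) ≤ b) {ε : ℝ} (hε : 0 < ε) :
    ∃ X₀ : ℝ, 1 < X₀ ∧ ∀ z X : ℝ, X₀ ≤ X → ∀ s : ℤ,
      |am (up d m r F (ww m z) s) X - W0 d m r F z *
        ProbabilityTheory.cdf (ProbabilityTheory.gaussianReal 0 1) (uu d m s X)| ≤ ε := by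
  have hm : 2 ≤ m := by have := h.hd; have := h.hdm; omega
  obtain ⟨δ, X₁, hδ, hδ1, hX₁, hat⟩ := atomless h hb hF (show 0 < ε / 4 by linarith)
  have hL : 1 ≤ Real.log m + 1 / δ := by
    have h1 : 1 ≤ 1 / δ := by rw [le_div_iff₀ hδ]; linarith
    have h2 : 0 ≤ Real.log m := Real.log_natCast_nonneg m
    linarith
  obtain ⟨X₂, hX₂, hj⟩ := joint h hb hF hL (show 0 < ε / 4 by linarith)
  refine ⟨max X₁ X₂, lt_max_of_lt_left hX₁, fun z X hX s => ?_⟩
  have hXa : X₁ ≤ X := le_trans (le_max_left _ _) hX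
  have hXb : X₂ ≤ X := le_trans (le_max_right _ _) hX
  have h1 := hj _ (tst88 hm hδ (by linarith) z) X hXb s
  have h2 := hat z X hXa
  -- the sums
  have h3 := am_cmp88 (f := up d m r F (ww m z) s) (g := up d m r F (ps88 m δ z) s) (ρ := al d m r F (arc z δ)) (x := X)
    le_rfl (by linarith)
    (fun n => (up_cmp88 (fun y => (arc_bd88 z δ y).1) (fun y => ww_ps88 hm hδ z y) s n).trans (le_add_of_nonneg_right le_rfl))
  -- the means
  have h4 : |W0 d m r F z - mean (al d m r F (ps88 m δ z))| ≤ ε / 4 := by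
    have ht := ((tend_ww88 h hb hF z).sub (tend_ps88 h hF hδ (by linarith) z)).abs
    refine le_of_tendsto ht ?_
    filter_upwards [eventually_ge_atTop X₁] with Y hY
    have h5 := am_cmp88 (f := al d m r F (ww m z)) (g := al d m r F (ps88 m δ z)) (ρ := al d m r F (arc z δ)) (x := Y)
      le_rfl (by linarith)
      (fun n => al_cmp88 le_rfl (fun y => (ww_ps88 hm hδ z y).trans (le_add_of_nonneg_right le_rfl)) n)
    have h6 := hat z Y hY
    linarith
  have h5 : 0 ≤ ProbabilityTheory.cdf (ProbabilityTheory.gaussianReal 0 1) (uu d m s X) := ProbabilityTheory.cdf_nonneg _ _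
  have h6 : ProbabilityTheory.cdf (ProbabilityTheory.gaussianReal 0 1) (uu d m s X) ≤ 1 := ProbabilityTheory.cdf_le_one _ _
  set Φ := ProbabilityTheory.cdf (ProbabilityTheory.gaussianReal 0 1) (uu d m s X) with hΦ
  have h7 : |mean (al d m r F (ps88 m δ z)) * Φ - W0 d m r F z * Φ| ≤ ε / 4 := by
    rw [← sub_mul, abs_mul, abs_of_nonneg h5, abs_sub_comm]
    have := abs_nonneg (W0 d m r F z - mean (al d m r F (ps88 m δ z)))
    nlinarith
  have h8 := abs_sub_le (am (up d m r F (ww m z) s) X) (am (up d m r F (ps88 m δ z) s) X) (W0 d m r F z * Φ)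
  have h9 := abs_sub_le (am (up d m r F (ps88 m δ z) s) X) (mean (al d m r F (ps88 m δ z)) * Φ) (W0 d m r F z * Φ)
  linarith

end Pool.Agent.Helper8.LL
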